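import Mathlib

/-!
# Approximately subhomogeneous C*-algebras and the standard Borel space `Γ`
-/

set_option autoImplicit false

open Topology Filter Set
open scoped InnerProductSpace

namespace Pool.Agent.Ped8316

/-! ### subhomogeneous and ASH algebras -/

/-- An irreducible representation: a nonzero representation on a Hilbert space without closed
invariant subspaces other than `0` and the whole space. -/
def IsIrreducible {B : Type} [NonUnitalCStarAlgebra B] {K : Type} [NormedAddCommGroup K]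
    [InnerProductSpace ℂ K] [CompleteSpace K] (ρ : B →⋆ₙₐ[ℂ] (K →L[ℂ] K)) : Prop :=
  (∃ b, ρ b ≠ 0) ∧
    ∀ M : Submodule ℂ K, IsClosed (M : Set K) → (∀ b, ∀ x ∈ M, ρ b x ∈ M) → M = ⊥ ∨ M = ⊤

/-- Subhomogeneous: the dimensions of the irreducible representations are bounded by some `N`. -/
def IsSubhomogeneous (B : Type) [NonUnitalCStarAlgebra B] : Prop :=
  ∃ N : ℕ, ∀ (K : Type) [NormedAddCommGroup K] [InnerProductSpace ℂ K] [CompleteSpace K]
    (ρ : B →⋆ₙₐ[ℂ] (K →L[ℂ] K)), IsIrreducible ρ →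
      FiniteDimensional ℂ K ∧ Module.finrank ℂ K ≤ N

/-- The composed connecting map `B n → B (n + k)`. -/
def connect {B : ℕ → Type} [∀ n, NonUnitalCStarAlgebra (B n)]
    (φ : ∀ n, B n →⋆ₙₐ[ℂ] B (n + 1)) (n : ℕ) : (k : ℕ) → B n → B (n + k)
  | 0 => fun b => b
  | k + 1 => fun b => φ (n + k) (connect φ n k b)

/-- `A` is (isomorphic to) the C*-algebraic inductive limit of a sequence
`B 0 → B 1 → B 2 → ⋯` of subhomogeneous C*-algebras: there are compatible *-homomorphisms
`ψ n : B n → A` with dense union of ranges and `‖ψ n b‖ = lim ‖φ_{n,n+k} b‖`. -/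
def IsASH (A : Type) [NonUnitalCStarAlgebra A] : Prop :=
  ∃ (B : ℕ → Type) (_ : ∀ n, NonUnitalCStarAlgebra (B n))
    (φ : ∀ n, B n →⋆ₙₐ[ℂ] B (n + 1)) (ψ : ∀ n, B n →⋆ₙₐ[ℂ] A),
    (∀ n, IsSubhomogeneous (B n)) ∧
    (∀ n, ∀ b, ψ (n + 1) (φ n b) = ψ n b) ∧
    (∀ n, ∀ b, Tendsto (fun k => ‖connect φ n k b‖) atTop (𝓝 ‖ψ n b‖)) ∧
    Dense (⋃ n, Set.range (ψ n))

/-! ### the space `Γ` -/

/-- `B₁(H)`: the closed unit ball of `B(H)` with the weak operator topology. -/
abbrev UnitBall (H : Type) [NormedAddCommGroup H] [InnerProductSpace ℂ H] : Type :=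
  {S : H →WOT[ℂ] H // ‖S.toCLM‖ ≤ 1}

/-- `Γ = B₁(H)^ℕ` with the product topology. -/
abbrev Gam (H : Type) [NormedAddCommGroup H] [InnerProductSpace ℂ H] : Type := ℕ → UnitBall H

variable {H : Type} [NormedAddCommGroup H] [InnerProductSpace ℂ H] [CompleteSpace H]

/-- `C*(γ)`, the C*-subalgebra of `B(H)` generated by the members of the sequence `γ`. -/
noncomputable def CStar (γ : Gam H) : NonUnitalStarSubalgebra ℂ (H →L[ℂ] H) :=
  (NonUnitalStarAlgebra.adjoin ℂ (Set.range fun n => (γ n).1.toCLM)).topologicalClosure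

instance (γ : Gam H) : IsClosed ((CStar γ : NonUnitalStarSubalgebra ℂ (H →L[ℂ] H)) :
    Set (H →L[ℂ] H)) :=
  NonUnitalStarSubalgebra.isClosed_topologicalClosure _

noncomputable instance (γ : Gam H) : NonUnitalCStarAlgebra (CStar γ) :=
  NonUnitalStarSubalgebra.nonUnitalCStarAlgebra (CStar γ)

variable (H) in
/-- The set of all `γ ∈ Γ` such that `C*(γ)` is ASH. -/
def ashSet : Set (Gam H) := {γ | IsASH (CStar γ)}

end Pool.Agent.Ped8316
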