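import Mathlib

/-!
# The integer index of almost commuting unitaries on a finite dimensional reducing subspace
-/

set_option autoImplicit false
set_option linter.unusedSectionVars false

open Topology Filter Set
open scoped InnerProductSpace ComplexConjugate

namespace Pool.Agent.Ped8316

/-- bounded operators -/
abbrev Bd (H : Type*) [NormedAddCommGroup H] [InnerProductSpace ℂ H] := H →L[ℂ] H

variable {H : Type*} [NormedAddCommGroup H] [InnerProductSpace ℂ H] [CompleteSpace H]

/-- compression to a subspace -/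
noncomputable def cmp (L : Submodule ℂ H) [L.HasOrthogonalProjection] (X : Bd H) : L →ₗ[ℂ] L :=
  (L.orthogonalProjectionOnto ∘L X ∘L L.subtypeL : L →L[ℂ] L)

lemma cmp_apply (L : Submodule ℂ H) [L.HasOrthogonalProjection] (X : Bd H) (x : L) :
    cmp L X x = L.orthogonalProjectionOnto (X x) := rfl

lemma coe_cmp_apply (L : Submodule ℂ H) [L.HasOrthogonalProjection] (X : Bd H) (x : L) :
    (cmp L X x : H) = L.starProjection (X x) := rfl

/-- `L` reduces `X`. -/
def Red (L : Submodule ℂ H) [L.HasOrthogonalProjection] (X : Bd H) : Prop :=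
  Commute L.starProjection X

lemma Red.mem {L : Submodule ℂ H} [L.HasOrthogonalProjection] {X : Bd H} (h : Red L X) {x : H}
    (hx : x ∈ L) : X x ∈ L := by
  have h1 : L.starProjection (X x) = X (L.starProjection x) := congrArg (fun Y : Bd H => Y x) h
  rw [Submodule.starProjection_eq_self_iff.2 hx] at h1
  exact Submodule.starProjection_eq_self_iff.1 h1

lemma Red.mul {L : Submodule ℂ H} [L.HasOrthogonalProjection] {X Y : Bd H} (hX : Red L X)
    (hY : Red L Y) : Red L (X * Y) := Commute.mul_right hX hY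

lemma Red.star {L : Submodule ℂ H} [L.HasOrthogonalProjection] {X : Bd H} (hX : Red L X) :
    Red L (star X) := by
  have h := Commute.star_star hX
  rwa [(isSelfAdjoint_starProjection L).star_eq] at h

lemma Red.one (L : Submodule ℂ H) [L.HasOrthogonalProjection] : Red L (1 : Bd H) :=
  Commute.one_right _

lemma red_of_invariant {L : Submodule ℂ H} [L.HasOrthogonalProjection] {X : Bd H}
    (h1 : ∀ x ∈ L, X x ∈ L) (h2 : ∀ x ∈ L, (star X) x ∈ L) : Red L X := by
  refine ContinuousLinearMap.ext (fun x => ?_)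
  show L.starProjection (X x) = X (L.starProjection x)
  have hx : x = L.starProjection x + (x - L.starProjection x) := by abel
  have h3 : X (x - L.starProjection x) ∈ Lᗮ := by
    rw [Submodule.mem_orthogonal]
    intro y hy
    rw [← ContinuousLinearMap.adjoint_inner_left]
    have h4 : (star X) y ∈ L := h2 y hy
    have h5 := L.sub_starProjection_mem_orthogonal x
    rw [Submodule.mem_orthogonal] at h5
    exact h5 _ h4
  conv_lhs => rw [hx]
  rw [map_add, map_add, Submodule.starProjection_eq_self_iff.2 (h1 _ (L.starProjection_apply_mem x))]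
  have h6 : L.starProjection (X (x - L.starProjection x)) = 0 := by
    rw [Submodule.starProjection_apply_eq_zero_iff]
    exact h3
  rw [h6, add_zero]

lemma cmp_mul {L : Submodule ℂ H} [L.HasOrthogonalProjection] (X : Bd H) {Y : Bd H}
    (hY : ∀ x ∈ L, Y x ∈ L) : cmp L (X * Y) = cmp L X ∘ₗ cmp L Y := by
  refine LinearMap.ext (fun x => Subtype.ext ?_)
  rw [LinearMap.comp_apply, coe_cmp_apply, coe_cmp_apply, coe_cmp_apply]
  rw [Submodule.starProjection_eq_self_iff.2 (hY _ x.2)]
  rfl

lemma cmp_one (L : Submodule ℂ H) [L.HasOrthogonalProjection] : cmp L (1 : Bd H) = LinearMap.id := by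
  refine LinearMap.ext (fun x => Subtype.ext ?_)
  rw [coe_cmp_apply]
  exact Submodule.starProjection_eq_self_iff.2 x.2

/-- trace of the compression -/
noncomputable def trL (L : Submodule ℂ H) [L.HasOrthogonalProjection] (X : Bd H) : ℂ :=
  LinearMap.trace ℂ L (cmp L X)

section trace

variable (L : Submodule ℂ H) [FiniteDimensional ℂ L]

lemma cmp_add (X Y : Bd H) : cmp L (X + Y) = cmp L X + cmp L Y := by
  refine LinearMap.ext (fun x => ?_)
  simp only [cmp_apply, LinearMap.add_apply, add_apply, map_add]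

lemma cmp_smul (a : ℂ) (X : Bd H) : cmp L (a • X) = a • cmp L X := by
  refine LinearMap.ext (fun x => ?_)
  simp only [cmp_apply, LinearMap.smul_apply, smul_apply, map_smul]

lemma trL_add (X Y : Bd H) : trL L (X + Y) = trL L X + trL L Y := by
  unfold trL; rw [cmp_add, map_add]

lemma trL_smul (a : ℂ) (X : Bd H) : trL L (a • X) = a * trL L X := by
  unfold trL; rw [cmp_smul, map_smul, smul_eq_mul]

lemma trL_neg (X : Bd H) : trL L (-X) = -trL L X := by
  have := trL_smul L (-1) X
  simpa using this

lemma trL_eq_sum (X : Bd H) {ι : Type*} [Fintype ι] (b : OrthonormalBasis ι ℂ L) :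
    trL L X = ∑ k, ⟪(b k : H), X (b k)⟫_ℂ := by
  unfold trL
  rw [LinearMap.trace_eq_sum_inner _ b]
  refine Finset.sum_congr rfl (fun k _ => ?_)
  rw [Submodule.coe_inner, coe_cmp_apply, ← Submodule.inner_starProjection_left_eq_right,
    Submodule.starProjection_eq_self_iff.2 (b k).2]

lemma continuous_trL : Continuous (trL L : Bd H → ℂ) := by
  have h : (trL L : Bd H → ℂ) = fun X : Bd H =>
      ∑ k, ⟪((stdOrthonormalBasis ℂ L) k : H), X ((stdOrthonormalBasis ℂ L) k)⟫_ℂ := by
    funext X
    exact trL_eq_sum L X _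
  rw [h]
  refine continuous_finsetSum _ (fun k _ => ?_)
  exact continuous_const.inner (ContinuousLinearMap.apply ℂ H
    (((stdOrthonormalBasis ℂ L) k : L) : H)).continuous

lemma trL_comm {X Y : Bd H} (hX : ∀ x ∈ L, X x ∈ L) (hY : ∀ x ∈ L, Y x ∈ L) :
    trL L (X * Y) = trL L (Y * X) := by
  unfold trL
  rw [cmp_mul _ hY, cmp_mul _ hX]
  exact LinearMap.trace_comp_comm' _ _

lemma trL_conj {W X : Bd H} (hW : ∀ x ∈ L, W x ∈ L) (hX : ∀ x ∈ L, X x ∈ L)
    (hW' : ∀ x ∈ L, (star W) x ∈ L) (hWW : star W * W = 1) : trL L (W * X * star W) = trL L X := by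
  have h1 : ∀ x ∈ L, (X * star W) x ∈ L := fun x hx => hX ((star W) x) (hW' x hx)
  rw [mul_assoc, trL_comm L hW h1, mul_assoc, hWW, mul_one]

lemma trL_le {L₁ L : Submodule ℂ H} [FiniteDimensional ℂ L₁] [FiniteDimensional ℂ L] (h : L₁ ≤ L)
    (X : Bd H) : trL L₁ X = trL L (X * L₁.starProjection) := by
  let f : L₁ →ₗ[ℂ] L := (L.orthogonalProjectionOnto ∘L X ∘L L₁.subtypeL : L₁ →L[ℂ] L)
  let g : L →ₗ[ℂ] L₁ := (L₁.orthogonalProjectionOnto ∘L L.subtypeL : L →L[ℂ] L₁)
  have h1 : g ∘ₗ f = cmp L₁ X := by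
    refine LinearMap.ext (fun x => Subtype.ext ?_)
    show L₁.starProjection (L.starProjection (X x)) = L₁.starProjection (X x)
    have := congrArg (fun Y : Bd H => Y (X x)) (Submodule.starProjection_comp_starProjection_of_le h)
    exact this
  have h2 : f ∘ₗ g = cmp L (X * L₁.starProjection) := by
    refine LinearMap.ext (fun x => Subtype.ext ?_)
    rfl
  unfold trL
  rw [← h1, ← h2]
  exact LinearMap.trace_comp_comm' _ _

lemma trL_orth {L₁ L₂ L : Submodule ℂ H} [FiniteDimensional ℂ L₁] [FiniteDimensional ℂ L₂]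
    [FiniteDimensional ℂ L] (h1 : L₁ ≤ L) (h2 : L₂ ≤ L)
    (h : L.starProjection = L₁.starProjection + L₂.starProjection) (X : Bd H) :
    trL L X = trL L₁ X + trL L₂ X := by
  rw [trL_le h1, trL_le h2, ← trL_add, ← mul_add, ← h]
  unfold trL
  congr 1
  refine LinearMap.ext (fun x => Subtype.ext ?_)
  rw [coe_cmp_apply, coe_cmp_apply]
  show _ = L.starProjection (X (L.starProjection x))
  rw [Submodule.starProjection_eq_self_iff.2 x.2]

end trace

/-! ### determinants -/

/-- determinant of the compression -/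
noncomputable def detL (L : Submodule ℂ H) [L.HasOrthogonalProjection] (X : Bd H) : ℂ :=
  LinearMap.det (cmp L X)

section det

variable (L : Submodule ℂ H) [FiniteDimensional ℂ L]

lemma detL_mul (X : Bd H) {Y : Bd H} (hY : ∀ x ∈ L, Y x ∈ L) :
    detL L (X * Y) = detL L X * detL L Y := by
  unfold detL
  rw [cmp_mul _ hY, LinearMap.det_comp]

lemma detL_one : detL L (1 : Bd H) = 1 := by
  unfold detL
  rw [cmp_one, LinearMap.det_id]

lemma exp_apply_eigen {X : Bd H} {x : H} {μ : ℂ} (h : X x = μ • x) :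
    (NormedSpace.exp X) x = Complex.exp μ • x := by
  have hpow : ∀ n : ℕ, (X ^ n) x = μ ^ n • x := by
    intro n
    induction n with
    | zero => simp
    | succ n ih =>
      rw [pow_succ]
      show (X ^ n) (X x) = _
      rw [h, map_smul, ih, smul_smul, pow_succ, mul_comm]
  have h1 : HasSum (fun n : ℕ => ((n.factorial : ℂ)⁻¹ • X ^ n : Bd H)) (NormedSpace.exp X) :=
    NormedSpace.exp_series_hasSum_exp' (𝕂 := ℂ) X
  have h2 : HasSum (fun n : ℕ => ((n.factorial : ℂ)⁻¹ • X ^ n : Bd H) x) ((NormedSpace.exp X) x) :=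
    h1.mapL (ContinuousLinearMap.apply ℂ H x)
  have h3 : HasSum (fun n : ℕ => ((n.factorial : ℂ)⁻¹ • μ ^ n)) (NormedSpace.exp μ) :=
    NormedSpace.exp_series_hasSum_exp' (𝕂 := ℂ) μ
  have h4 := h3.smul_const x
  refine HasSum.unique h2 ?_
  rw [Complex.exp_eq_exp_ℂ]
  refine h4.congr_fun (fun n => ?_)
  show (n.factorial : ℂ)⁻¹ • (X ^ n) x = _
  rw [hpow, smul_smul, smul_eq_mul]

lemma isSymmetric_cmp {D : Bd H} (hD : IsSelfAdjoint D) : (cmp L D).IsSymmetric := by
  intro x y
  rw [Submodule.coe_inner, Submodule.coe_inner, coe_cmp_apply, coe_cmp_apply,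
    Submodule.inner_starProjection_left_eq_right, Submodule.starProjection_eq_self_iff.2 y.2,
    ← Submodule.inner_starProjection_left_eq_right, Submodule.starProjection_eq_self_iff.2 x.2]
  exact hD.isSymmetric (x : H) (y : H)

lemma trL_real {D : Bd H} (hD : IsSelfAdjoint D) : trL L D = ((trL L D).re : ℂ) := by
  unfold trL
  rw [(isSymmetric_cmp L hD).trace_eq_sum_eigenvalues rfl]
  push_cast
  simp

lemma detL_exp (D : selfAdjoint (Bd H)) (hD : Red L (D : Bd H)) :
    detL L (selfAdjoint.expUnitary D : Bd H) = Complex.exp (Complex.I * trL L (D : Bd H)) := by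
  classical
  have hT := isSymmetric_cmp L D.2
  set e := hT.eigenvectorBasis rfl with he
  have h1 : ∀ i, (D : Bd H) (e i : H) = ((hT.eigenvalues rfl i : ℝ) : ℂ) • (e i : H) := by
    intro i
    have h2 := hT.apply_eigenvectorBasis rfl i
    have h3 := congrArg (fun x : L => (x : H)) h2
    simp only [coe_cmp_apply] at h3
    rw [Submodule.starProjection_eq_self_iff.2 (hD.mem (Submodule.coe_mem _))] at h3
    exact h3
  have h2 : ∀ i, (selfAdjoint.expUnitary D : Bd H) (e i : H) =
      Complex.exp (Complex.I * ((hT.eigenvalues rfl i : ℝ) : ℂ)) • (e i : H) := by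
    intro i
    rw [selfAdjoint.expUnitary_coe]
    refine exp_apply_eigen ?_
    rw [smul_apply, h1 i, smul_smul]
  have h3 : ∀ i, cmp L (selfAdjoint.expUnitary D : Bd H) (e i) =
      Complex.exp (Complex.I * ((hT.eigenvalues rfl i : ℝ) : ℂ)) • (e i) := by
    intro i
    refine Subtype.ext ?_
    rw [coe_cmp_apply, h2 i, map_smul, Submodule.starProjection_eq_self_iff.2 (e i).2]
    rfl
  have h4 : LinearMap.toMatrix e.toBasis e.toBasis (cmp L (selfAdjoint.expUnitary D : Bd H)) =
      Matrix.diagonal (fun i => Complex.exp (Complex.I * ((hT.eigenvalues rfl i : ℝ) : ℂ))) := by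
    ext i j
    rw [LinearMap.toMatrix_apply, OrthonormalBasis.coe_toBasis, h3 j, map_smul,
      Finsupp.smul_apply]
    by_cases hij : i = j
    · subst hij
      rw [Matrix.diagonal_apply_eq]
      have : (e.toBasis.repr (e i)) i = 1 := by
        have := e.toBasis.repr_self i
        rw [OrthonormalBasis.coe_toBasis] at this
        rw [this]; simp
      rw [this, smul_eq_mul, mul_one]
    · rw [Matrix.diagonal_apply_ne _ hij]
      have : (e.toBasis.repr (e j)) i = 0 := by
        have := e.toBasis.repr_self j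
        rw [OrthonormalBasis.coe_toBasis] at this
        rw [this, Finsupp.single_apply, if_neg (fun h => hij h.symm)]
      rw [this, smul_zero]
  unfold detL
  rw [← LinearMap.det_toMatrix e.toBasis, h4, Matrix.det_diagonal, ← Complex.exp_sum,
    ← Finset.mul_sum]
  congr 2
  unfold trL
  rw [hT.trace_eq_sum_eigenvalues rfl]
  push_cast
  rfl

end det

end Pool.Agent.Ped8316
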