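import Mathlib
import Pool.Agent.Lib.Ped8316.Index

/-!
# Diagonal operators, permutation unitaries, matrix units and limits of finite rank operators
-/

set_option autoImplicit false
set_option linter.unusedSectionVars false

open Topology Filter Set
open scoped InnerProductSpace ComplexConjugate ENNReal

namespace Pool.Agent.Ped8316

variable {H : Type*} [NormedAddCommGroup H] [InnerProductSpace ℂ H] [CompleteSpace H]

/-! ### limits of finite rank operators -/

/-- finite rank operators -/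
def FinRk (k : Bd H) : Prop := FiniteDimensional ℂ (LinearMap.range (k : H →ₗ[ℂ] H))

/-- norm limits of finite rank operators -/
def IsKp (c : Bd H) : Prop := ∀ ε : ℝ, 0 < ε → ∃ k : Bd H, FinRk k ∧ ‖c - k‖ ≤ ε

lemma FinRk.of_le {k : Bd H} (L : Submodule ℂ H) [FiniteDimensional ℂ L] (h : ∀ x, k x ∈ L) :
    FinRk k := by
  have h1 : LinearMap.range (k : H →ₗ[ℂ] H) ≤ L := by
    rintro _ ⟨x, rfl⟩
    exact h x
  exact Submodule.finiteDimensional_of_le h1

lemma FinRk.mem {k : Bd H} (x : H) : k x ∈ LinearMap.range (k : H →ₗ[ℂ] H) := ⟨x, rfl⟩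

lemma FinRk.zero : FinRk (0 : Bd H) := by
  refine FinRk.of_le (⊥ : Submodule ℂ H) (fun x => ?_)
  simp

lemma FinRk.add {k l : Bd H} (hk : FinRk k) (hl : FinRk l) : FinRk (k + l) := by
  have := hk
  have := hl
  unfold FinRk at this hk hl
  have h3 : FiniteDimensional ℂ (LinearMap.range (k : H →ₗ[ℂ] H) ⊔ LinearMap.range (l : H →ₗ[ℂ] H) :
      Submodule ℂ H) := Submodule.finiteDimensional_sup _ _
  refine FinRk.of_le (LinearMap.range (k : H →ₗ[ℂ] H) ⊔ LinearMap.range (l : H →ₗ[ℂ] H)) (fun x => ?_)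
  exact Submodule.add_mem_sup (FinRk.mem x) (FinRk.mem x)

lemma FinRk.mul_left {k : Bd H} (hk : FinRk k) (a : Bd H) : FinRk (a * k) := by
  have := hk
  unfold FinRk at this
  have h3 : FiniteDimensional ℂ ((LinearMap.range (k : H →ₗ[ℂ] H)).map (a : H →ₗ[ℂ] H)) :=
    inferInstance
  exact FinRk.of_le ((LinearMap.range (k : H →ₗ[ℂ] H)).map (a : H →ₗ[ℂ] H)) (fun x =>
    ⟨k x, FinRk.mem x, rfl⟩)

lemma FinRk.mul_right {k : Bd H} (hk : FinRk k) (a : Bd H) : FinRk (k * a) := by
  have := hk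
  unfold FinRk at this
  exact FinRk.of_le (LinearMap.range (k : H →ₗ[ℂ] H)) (fun x => FinRk.mem (a x))

lemma FinRk.smul {k : Bd H} (hk : FinRk k) (a : ℂ) : FinRk (a • k) := by
  have h := hk.mul_left (a • (1 : Bd H))
  rwa [smul_mul_assoc, one_mul] at h

lemma FinRk.star {k : Bd H} (hk : FinRk k) : FinRk (star k) := by
  have := hk
  unfold FinRk at this
  set R := LinearMap.range (k : H →ₗ[ℂ] H) with hR
  have h1 : R.starProjection * k = k := by
    refine ContinuousLinearMap.ext (fun x => ?_)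
    exact Submodule.starProjection_eq_self_iff.2 (FinRk.mem x)
  have h2 : Star.star k = Star.star k * R.starProjection := by
    conv_lhs => rw [← h1]
    rw [star_mul, (isSelfAdjoint_starProjection R).star_eq]
  have h3 : FinRk (R.starProjection) := FinRk.of_le R (fun x => R.starProjection_apply_mem x)
  rw [h2]
  exact h3.mul_left _

lemma FinRk.isKp {k : Bd H} (hk : FinRk k) : IsKp k := fun ε hε =>
  ⟨k, hk, by rw [sub_self, norm_zero]; exact hε.le⟩

lemma IsKp.zero : IsKp (0 : Bd H) := FinRk.zero.isKp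

lemma IsKp.add {c d : Bd H} (hc : IsKp c) (hd : IsKp d) : IsKp (c + d) := by
  intro ε hε
  obtain ⟨k, hk, hk2⟩ := hc (ε / 2) (by linarith)
  obtain ⟨l, hl, hl2⟩ := hd (ε / 2) (by linarith)
  refine ⟨k + l, hk.add hl, ?_⟩
  have h1 : c + d - (k + l) = (c - k) + (d - l) := by abel
  rw [h1]
  exact (norm_add_le _ _).trans (by linarith)

lemma IsKp.mul_left {c : Bd H} (hc : IsKp c) (a : Bd H) : IsKp (a * c) := by
  intro ε hε
  obtain ⟨k, hk, hk2⟩ := hc (ε / (‖a‖ + 1)) (by positivity)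
  refine ⟨a * k, hk.mul_left a, ?_⟩
  rw [← mul_sub]
  refine (norm_mul_le _ _).trans ?_
  have h1 : ‖a‖ * ‖c - k‖ ≤ (‖a‖ + 1) * (ε / (‖a‖ + 1)) := by
    gcongr
    linarith
  rwa [mul_div_cancel₀ _ (by positivity)] at h1

lemma IsKp.mul_right {c : Bd H} (hc : IsKp c) (a : Bd H) : IsKp (c * a) := by
  intro ε hε
  obtain ⟨k, hk, hk2⟩ := hc (ε / (‖a‖ + 1)) (by positivity)
  refine ⟨k * a, hk.mul_right a, ?_⟩
  rw [← sub_mul]
  refine (norm_mul_le _ _).trans ?_
  have h1 : ‖c - k‖ * ‖a‖ ≤ (ε / (‖a‖ + 1)) * (‖a‖ + 1) := by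
    gcongr
    linarith
  rwa [div_mul_cancel₀ _ (by positivity)] at h1

lemma IsKp.smul {c : Bd H} (hc : IsKp c) (a : ℂ) : IsKp (a • c) := by
  have h := hc.mul_left (a • (1 : Bd H))
  rwa [smul_mul_assoc, one_mul] at h

lemma IsKp.neg {c : Bd H} (hc : IsKp c) : IsKp (-c) := by
  have h := hc.smul (-1)
  rwa [neg_smul, one_smul] at h

lemma IsKp.sub {c d : Bd H} (hc : IsKp c) (hd : IsKp d) : IsKp (c - d) := by
  rw [sub_eq_add_neg]; exact hc.add hd.neg

lemma IsKp.star {c : Bd H} (hc : IsKp c) : IsKp (star c) := by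
  intro ε hε
  obtain ⟨k, hk, hk2⟩ := hc ε hε
  refine ⟨Star.star k, hk.star, ?_⟩
  rw [← star_sub, norm_star]
  exact hk2

lemma IsKp.of_closure {c : Bd H} (h : ∀ ε : ℝ, 0 < ε → ∃ k : Bd H, IsKp k ∧ ‖c - k‖ ≤ ε) :
    IsKp c := by
  intro ε hε
  obtain ⟨k, hk, hk2⟩ := h (ε / 2) (by linarith)
  obtain ⟨l, hl, hl2⟩ := hk (ε / 2) (by linarith)
  refine ⟨l, hl, ?_⟩
  have h1 : c - l = (c - k) + (k - l) := by abel
  rw [h1]
  exact (norm_add_le _ _).trans (by linarith)

/-! ### operators attached to a Hilbert basis -/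

variable {I : Type*} (e : HilbertBasis I ℂ H)

lemma ext_basis {S T : Bd H} (h : ∀ x, S (e x) = T (e x)) : S = T := by
  have h1 : Set.EqOn (S : H → H) T (Submodule.span ℂ (Set.range e)) := by
    have h2 : Set.EqOn (S : H →ₗ[ℂ] H) (T : H →ₗ[ℂ] H) (Submodule.span ℂ (Set.range e)) := by
      refine LinearMap.eqOn_span ?_
      rintro _ ⟨x, rfl⟩
      exact h x
    exact h2
  refine ContinuousLinearMap.ext (fun v => ?_)
  have h3 := Set.EqOn.closure h1 S.continuous T.continuous
  have h4 : v ∈ closure ((Submodule.span ℂ (Set.range e) : Submodule ℂ H) : Set H) := by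
    have := e.dense_span
    have h5 : v ∈ (Submodule.span ℂ (Set.range e)).topologicalClosure := by rw [this]; trivial
    exact h5
  exact h3 h4

/-- multiplication by a bounded function on `ℓ²` -/
noncomputable def mulLp (ψ : I → ℂ) (C : ℝ) (hC : ∀ x, ‖ψ x‖ ≤ C) :
    lp (fun _ : I => ℂ) 2 →L[ℂ] lp (fun _ : I => ℂ) 2 :=
  LinearMap.mkContinuous
    { toFun := fun f => ⟨fun x => ψ x * f x, Memℓp.mono (g := fun x => C * ‖f x‖)
        ((lp.memℓp f).norm.const_mul C) (fun x => by
          rw [norm_mul]; exact mul_le_mul_of_nonneg_right (hC x) (norm_nonneg _))⟩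
      map_add' := fun f g => by
        refine lp.ext (funext fun x => ?_)
        show ψ x * ((f + g : lp (fun _ : I => ℂ) 2) x) = ψ x * f x + ψ x * g x
        rw [lp.coeFn_add, Pi.add_apply, mul_add]
      map_smul' := fun c f => by
        refine lp.ext (funext fun x => ?_)
        show ψ x * ((c • f : lp (fun _ : I => ℂ) 2) x) = c * (ψ x * f x)
        rw [lp.coeFn_smul, Pi.smul_apply, smul_eq_mul]
        ring } |C| (fun f => by
      have h1 : ‖((C : ℂ) • f : lp (fun _ : I => ℂ) 2)‖ = |C| * ‖f‖ := by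
        rw [norm_smul, Complex.norm_real, Real.norm_eq_abs]
      rw [← h1]
      refine lp.norm_mono (by norm_num) (fun x => ?_)
      rw [lp.coeFn_smul, Pi.smul_apply, norm_smul, Complex.norm_real, Real.norm_eq_abs]
      show ‖ψ x * f x‖ ≤ _
      rw [norm_mul]
      exact mul_le_mul_of_nonneg_right ((hC x).trans (le_abs_self C)) (norm_nonneg _))

lemma mulLp_apply (ψ : I → ℂ) (C : ℝ) (hC : ∀ x, ‖ψ x‖ ≤ C) (f : lp (fun _ : I => ℂ) 2) (x : I) :
    mulLp ψ C hC f x = ψ x * f x := rfl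

open scoped Classical in
/-- the diagonal operator with entries `ψ` (with respect to the basis `e`) -/
noncomputable def diag (ψ : I → ℂ) : Bd H :=
  if h : ∃ C, ∀ x, ‖ψ x‖ ≤ C then
    (e.repr.symm.toContinuousLinearEquiv : lp (fun _ : I => ℂ) 2 →L[ℂ] H) ∘L
      mulLp ψ h.choose h.choose_spec ∘L
      (e.repr.toContinuousLinearEquiv : H →L[ℂ] lp (fun _ : I => ℂ) 2)
  else 0

/-- boundedness of a function -/
def Bdd (ψ : I → ℂ) : Prop := ∃ C, ∀ x, ‖ψ x‖ ≤ C

lemma repr_diag {ψ : I → ℂ} (h : Bdd ψ) (v : H) (x : I) :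
    e.repr (diag e ψ v) x = ψ x * e.repr v x := by
  have h' : ∃ C, ∀ x, ‖ψ x‖ ≤ C := h
  have h2 : diag e ψ v = e.repr.symm (mulLp ψ h'.choose h'.choose_spec (e.repr v)) := by
    have h3 : diag e ψ = (e.repr.symm.toContinuousLinearEquiv : lp (fun _ : I => ℂ) 2 →L[ℂ] H) ∘L
      mulLp ψ h'.choose h'.choose_spec ∘L
      (e.repr.toContinuousLinearEquiv : H →L[ℂ] lp (fun _ : I => ℂ) 2) := dif_pos h'
    rw [h3]
    rfl
  rw [h2, LinearIsometryEquiv.apply_symm_apply, mulLp_apply]

lemma ext_repr {v w : H} (h : ∀ x, e.repr v x = e.repr w x) : v = w :=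
  e.repr.injective (lp.ext (funext h))

lemma diag_basis {ψ : I → ℂ} (h : Bdd ψ) (x : I) : diag e ψ (e x) = ψ x • e x := by
  classical
  refine ext_repr e (fun y => ?_)
  rw [repr_diag e h, map_smul, lp.coeFn_smul, Pi.smul_apply, e.repr_self, lp.single_apply,
    smul_eq_mul]
  by_cases hxy : y = x
  · subst hxy; rfl
  · rw [Pi.single_apply, if_neg hxy, mul_zero, mul_zero]

lemma norm_diag_le {ψ : I → ℂ} {C : ℝ} (hC : 0 ≤ C) (h : ∀ x, ‖ψ x‖ ≤ C) : ‖diag e ψ‖ ≤ C := by
  refine ContinuousLinearMap.opNorm_le_bound _ hC (fun v => ?_)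
  rw [← e.repr.norm_map (diag e ψ v), ← e.repr.norm_map v]
  have h1 : ‖((C : ℂ) • e.repr v : lp (fun _ : I => ℂ) 2)‖ = C * ‖e.repr v‖ := by
    rw [norm_smul, Complex.norm_real, Real.norm_eq_abs, abs_of_nonneg hC]
  rw [← h1]
  refine lp.norm_mono (by norm_num) (fun x => ?_)
  rw [lp.coeFn_smul, Pi.smul_apply, norm_smul, Complex.norm_real, Real.norm_eq_abs,
    abs_of_nonneg hC, repr_diag e ⟨C, h⟩, norm_mul]
  exact mul_le_mul_of_nonneg_right (h x) (norm_nonneg _)

lemma Bdd.mul {ψ φ : I → ℂ} (h : Bdd ψ) (h' : Bdd φ) : Bdd (fun x => ψ x * φ x) := by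
  obtain ⟨C, hC⟩ := h
  obtain ⟨D, hD⟩ := h'
  refine ⟨C * D, fun x => ?_⟩
  rw [norm_mul]
  have := hC x
  have := hD x
  gcongr
  exact (norm_nonneg _).trans (hC x)

lemma Bdd.add {ψ φ : I → ℂ} (h : Bdd ψ) (h' : Bdd φ) : Bdd (fun x => ψ x + φ x) := by
  obtain ⟨C, hC⟩ := h
  obtain ⟨D, hD⟩ := h'
  exact ⟨C + D, fun x => (norm_add_le _ _).trans (add_le_add (hC x) (hD x))⟩

lemma Bdd.sub {ψ φ : I → ℂ} (h : Bdd ψ) (h' : Bdd φ) : Bdd (fun x => ψ x - φ x) := by
  obtain ⟨C, hC⟩ := h
  obtain ⟨D, hD⟩ := h'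
  exact ⟨C + D, fun x => (norm_sub_le _ _).trans (add_le_add (hC x) (hD x))⟩

lemma Bdd.conj {ψ : I → ℂ} (h : Bdd ψ) : Bdd (fun x => conj (ψ x)) := by
  obtain ⟨C, hC⟩ := h
  exact ⟨C, fun x => by rw [RCLike.norm_conj]; exact hC x⟩

lemma Bdd.comp {ψ : I → ℂ} (h : Bdd ψ) (f : I → I) : Bdd (fun x => ψ (f x)) := by
  obtain ⟨C, hC⟩ := h
  exact ⟨C, fun x => hC _⟩

lemma Bdd.const (c : ℂ) : Bdd (fun _ : I => c) := ⟨‖c‖, fun _ => le_rfl⟩

lemma Bdd.of_norm_one {ψ : I → ℂ} (h : ∀ x, ‖ψ x‖ = 1) : Bdd ψ := ⟨1, fun x => (h x).le⟩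

lemma diag_mul {ψ φ : I → ℂ} (h : Bdd ψ) (h' : Bdd φ) :
    diag e ψ * diag e φ = diag e (fun x => ψ x * φ x) := by
  refine ContinuousLinearMap.ext (fun v => ext_repr e (fun x => ?_))
  show e.repr (diag e ψ (diag e φ v)) x = _
  rw [repr_diag e h, repr_diag e h', repr_diag e (h.mul h'), mul_assoc]

lemma diag_add {ψ φ : I → ℂ} (h : Bdd ψ) (h' : Bdd φ) :
    diag e ψ + diag e φ = diag e (fun x => ψ x + φ x) := by
  refine ContinuousLinearMap.ext (fun v => ext_repr e (fun x => ?_))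
  rw [add_apply, map_add, lp.coeFn_add, Pi.add_apply, repr_diag e h,
    repr_diag e h', repr_diag e (h.add h'), add_mul]

lemma diag_sub {ψ φ : I → ℂ} (h : Bdd ψ) (h' : Bdd φ) :
    diag e ψ - diag e φ = diag e (fun x => ψ x - φ x) := by
  refine ContinuousLinearMap.ext (fun v => ext_repr e (fun x => ?_))
  rw [sub_apply, map_sub, lp.coeFn_sub, Pi.sub_apply, repr_diag e h,
    repr_diag e h', repr_diag e (h.sub h'), sub_mul]

lemma diag_one : diag e (fun _ => (1 : ℂ)) = 1 := by
  refine ContinuousLinearMap.ext (fun v => ext_repr e (fun x => ?_))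
  rw [repr_diag e (Bdd.const 1), one_mul]
  rfl

lemma diag_zero : diag e (fun _ => (0 : ℂ)) = 0 := by
  refine ContinuousLinearMap.ext (fun v => ext_repr e (fun x => ?_))
  rw [repr_diag e (Bdd.const 0), zero_mul, zero_apply, map_zero, lp.coeFn_zero,
    Pi.zero_apply]

lemma diag_star {ψ : I → ℂ} (h : Bdd ψ) : star (diag e ψ) = diag e (fun x => conj (ψ x)) := by
  rw [ContinuousLinearMap.star_eq_adjoint]
  symm
  rw [ContinuousLinearMap.eq_adjoint_iff]
  intro v w
  rw [← e.repr.inner_map_map, ← e.repr.inner_map_map v, lp.inner_eq_tsum, lp.inner_eq_tsum]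
  refine tsum_congr (fun x => ?_)
  rw [repr_diag e h, repr_diag e h.conj]
  simp only [RCLike.inner_apply, map_mul, RingHomCompTriple.comp_apply, RingHom.id_apply]
  ring

lemma diag_commute {ψ φ : I → ℂ} (h : Bdd ψ) (h' : Bdd φ) : Commute (diag e ψ) (diag e φ) := by
  show _ * _ = _ * _
  rw [diag_mul e h h', diag_mul e h' h]
  congr 1
  funext x
  ring

lemma diag_unitary {ψ : I → ℂ} (h : ∀ x, ‖ψ x‖ = 1) : diag e ψ ∈ unitary (Bd H) := by
  have hb := Bdd.of_norm_one h
  have h1 : ∀ x, conj (ψ x) * ψ x = 1 := fun x => by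
    rw [Complex.conj_mul', h x]; norm_num
  refine ⟨?_, ?_⟩
  · rw [diag_star e hb, diag_mul e hb.conj hb]
    simp only [h1]
    exact diag_one e
  · rw [diag_star e hb, diag_mul e hb hb.conj]
    simp only [mul_comm (ψ _), h1]
    exact diag_one e

/-- the unitary of a circle valued function -/
noncomputable def udiag (ψ : I → Circle) : unitary (Bd H) :=
  ⟨diag e (fun x => (ψ x : ℂ)), diag_unitary e (fun x => Circle.norm_coe _)⟩

lemma udiag_mul (ψ φ : I → Circle) : udiag e (ψ * φ) = udiag e ψ * udiag e φ := by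
  refine Subtype.ext ?_
  show diag e _ = diag e _ * diag e _
  rw [diag_mul e (Bdd.of_norm_one (fun x => Circle.norm_coe _))
    (Bdd.of_norm_one (fun x => Circle.norm_coe _))]
  simp

lemma udiag_one : udiag e (1 : I → Circle) = 1 := by
  refine Subtype.ext ?_
  show diag e _ = 1
  simp only [Pi.one_apply, Circle.coe_one]
  exact diag_one e

/-! ### finite sets -/

lemma finRk_diag {ψ : I → ℂ} (h : (Function.support ψ).Finite) : FinRk (diag e ψ) := by
  classical
  have hb : Bdd ψ := by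
    obtain ⟨C, hC⟩ := (h.image (fun x => ‖ψ x‖)).bddAbove
    refine ⟨max C 0, fun x => ?_⟩
    by_cases hx : ψ x = 0
    · rw [hx, norm_zero]; exact le_max_right _ _
    · exact (hC ⟨x, hx, rfl⟩).trans (le_max_left _ _)
  have hfin : FiniteDimensional ℂ (Submodule.span ℂ (e '' (Function.support ψ))) :=
    FiniteDimensional.span_of_finite ℂ (h.image e)
  refine FinRk.of_le (Submodule.span ℂ (e '' (Function.support ψ))) (fun v => ?_)
  have h1 := e.hasSum_repr (diag e ψ v)
  have h2 : diag e ψ v = ∑ x ∈ h.toFinset, e.repr (diag e ψ v) x • e x := by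
    refine h1.unique (hasSum_sum_of_ne_finset_zero (fun x hx => ?_))
    rw [Set.Finite.mem_toFinset, Function.mem_support, not_not] at hx
    rw [repr_diag e hb, hx, zero_mul, zero_smul]
  rw [h2]
  refine Submodule.sum_mem _ (fun x hx => Submodule.smul_mem _ _ (Submodule.subset_span ?_))
  exact ⟨x, h.mem_toFinset.1 hx, rfl⟩

lemma isKp_diag {ψ : I → ℂ} (h : ∀ ε : ℝ, 0 < ε → {x | ε < ‖ψ x‖}.Finite) : IsKp (diag e ψ) := by
  classical
  have hb : Bdd ψ := by
    have h1 := h 1 one_pos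
    obtain ⟨C, hC⟩ := (h1.image (fun x => ‖ψ x‖)).bddAbove
    refine ⟨max C 1, fun x => ?_⟩
    by_cases hx : 1 < ‖ψ x‖
    · exact (hC ⟨x, hx, rfl⟩).trans (le_max_left _ _)
    · exact (not_lt.1 hx).trans (le_max_right _ _)
  intro ε hε
  have h1 := h ε hε
  set φ : I → ℂ := fun x => if ε < ‖ψ x‖ then ψ x else 0 with hφ
  have hsupp : (Function.support φ).Finite := by
    refine h1.subset (fun x hx => ?_)
    rw [Function.mem_support, hφ] at hx
    by_contra hc
    exact hx (if_neg hc)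
  have hbφ : Bdd φ := by
    obtain ⟨C, hC⟩ := hb
    refine ⟨C, fun x => ?_⟩
    rw [hφ]
    dsimp only
    split_ifs
    · exact hC x
    · rw [norm_zero]; exact (norm_nonneg _).trans (hC x)
  refine ⟨diag e φ, finRk_diag e hsupp, ?_⟩
  rw [diag_sub e hb hbφ]
  refine norm_diag_le e hε.le (fun x => ?_)
  rw [hφ]
  dsimp only
  split_ifs with hx
  · rw [sub_self, norm_zero]; exact hε.le
  · rw [sub_zero]; exact not_lt.1 hx

/-! ### permutation unitaries -/

/-- the permuted basis -/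
noncomputable def permBasis (σ : Equiv.Perm I) : HilbertBasis I ℂ H :=
  HilbertBasis.mk (v := fun x => e (σ x)) (e.orthonormal.comp σ σ.injective) (by
    have h1 : Set.range (fun x => e (σ x)) = Set.range e := by
      ext v
      constructor
      · rintro ⟨x, rfl⟩; exact ⟨σ x, rfl⟩
      · rintro ⟨x, rfl⟩; exact ⟨σ.symm x, by simp⟩
    rw [h1, e.dense_span])

/-- the permutation operator `e x ↦ e (σ x)` -/
noncomputable def perm (σ : Equiv.Perm I) : Bd H :=
  ((e.repr.trans (permBasis e σ).repr.symm).toContinuousLinearEquiv : H →L[ℂ] H)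

@[simp] lemma perm_basis (σ : Equiv.Perm I) (x : I) : perm e σ (e x) = e (σ x) := by
  classical
  show (permBasis e σ).repr.symm (e.repr (e x)) = e (σ x)
  rw [e.repr_self, HilbertBasis.repr_symm_single]
  unfold permBasis
  rw [HilbertBasis.coe_mk]

lemma perm_mul (σ τ : Equiv.Perm I) : perm e σ * perm e τ = perm e (σ * τ) := by
  refine ext_basis e (fun x => ?_)
  show perm e σ (perm e τ (e x)) = _
  rw [perm_basis, perm_basis, perm_basis]
  rfl

lemma perm_one : perm e (1 : Equiv.Perm I) = 1 := by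
  refine ext_basis e (fun x => ?_)
  rw [perm_basis]
  rfl

lemma perm_star (σ : Equiv.Perm I) : star (perm e σ) = perm e σ⁻¹ := by
  rw [ContinuousLinearMap.star_eq_adjoint]
  have h1 : ∀ v w, ⟪perm e σ v, perm e σ w⟫_ℂ = ⟪v, w⟫_ℂ := fun v w =>
    (e.repr.trans (permBasis e σ).repr.symm).inner_map_map v w
  have h2 : perm e σ * perm e σ⁻¹ = 1 := by rw [perm_mul, mul_inv_cancel, perm_one]
  symm
  rw [ContinuousLinearMap.eq_adjoint_iff]
  intro v w
  rw [← h1 (perm e σ⁻¹ v) w]
  congr 1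
  exact congrArg (fun S : Bd H => S v) h2

lemma perm_unitary (σ : Equiv.Perm I) : perm e σ ∈ unitary (Bd H) := by
  refine ⟨?_, ?_⟩
  · rw [perm_star, perm_mul, inv_mul_cancel, perm_one]
  · rw [perm_star, perm_mul, mul_inv_cancel, perm_one]

/-- the unitary of a permutation -/
noncomputable def uperm (σ : Equiv.Perm I) : unitary (Bd H) := ⟨perm e σ, perm_unitary e σ⟩

/-- `V_σ M_ψ = M_{ψ ∘ σ⁻¹} V_σ` -/
lemma perm_diag (σ : Equiv.Perm I) {ψ : I → ℂ} (h : Bdd ψ) :
    perm e σ * diag e ψ = diag e (fun x => ψ (σ⁻¹ x)) * perm e σ := by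
  refine ext_basis e (fun x => ?_)
  show perm e σ (diag e ψ (e x)) = diag e _ (perm e σ (e x))
  rw [diag_basis e h, map_smul, perm_basis, diag_basis e (h.comp _)]
  simp

/-- `M_ψ V_σ = V_σ M_{ψ ∘ σ}` -/
lemma diag_perm (σ : Equiv.Perm I) {ψ : I → ℂ} (h : Bdd ψ) :
    diag e ψ * perm e σ = perm e σ * diag e (fun x => ψ (σ x)) := by
  refine ext_basis e (fun x => ?_)
  show diag e ψ (perm e σ (e x)) = perm e σ (diag e _ (e x))
  rw [diag_basis e (h.comp _), map_smul, perm_basis, diag_basis e h]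

/-! ### matrix units -/

/-- the matrix unit `v ↦ ⟪e y, v⟫ e x` -/
noncomputable def mu (x y : I) : Bd H := InnerProductSpace.rankOne ℂ (e x) (e y)

lemma mu_apply (x y : I) (v : H) : mu e x y v = ⟪e y, v⟫_ℂ • e x := rfl

lemma mu_basis_self (x y : I) : mu e x y (e y) = e x := by
  rw [mu_apply, inner_self_eq_norm_sq_to_K, e.orthonormal.1 y]
  simp

lemma mu_basis_ne {x y z : I} (h : z ≠ y) : mu e x y (e z) = 0 := by
  rw [mu_apply, e.orthonormal.2 h.symm, zero_smul]

lemma norm_mu (x y : I) : ‖mu e x y‖ ≤ 1 := by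
  refine ContinuousLinearMap.opNorm_le_bound _ zero_le_one (fun v => ?_)
  rw [mu_apply, norm_smul, e.orthonormal.1 x, mul_one, one_mul]
  have := norm_inner_le_norm (𝕜 := ℂ) (e y) v
  rwa [e.orthonormal.1 y, one_mul] at this

lemma finRk_mu (x y : I) : FinRk (mu e x y) := by
  refine FinRk.of_le (Submodule.span ℂ {e x}) (fun v => ?_)
  rw [mu_apply]
  exact Submodule.smul_mem _ _ (Submodule.mem_span_singleton_self _)

/-- every norm limit of finite rank operators lies in the closed span of the matrix units -/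
theorem IsKp.mem_of_mu {c : Bd H} (hc : IsKp c) (M : Submodule ℂ (Bd H))
    (hM : IsClosed (M : Set (Bd H))) (h : ∀ x y, mu e x y ∈ M) : c ∈ M := by
  have h1 : ∀ (y : I) (u : H), (InnerProductSpace.rankOne ℂ u (e y) : Bd H) ∈ M := by
    intro y u
    have hcont : Continuous (fun u : H => (InnerProductSpace.rankOne ℂ u (e y) : Bd H)) := by
      fun_prop
    let N : Submodule ℂ H :=
      { carrier := {u | (InnerProductSpace.rankOne ℂ u (e y) : Bd H) ∈ M}
        add_mem' := fun {a b} ha hb => by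
          show InnerProductSpace.rankOne ℂ (a + b) (e y) ∈ M
          rw [map_add, add_apply]
          exact M.add_mem ha hb
        zero_mem' := by
          show InnerProductSpace.rankOne ℂ (0 : H) (e y) ∈ M
          rw [map_zero, zero_apply]
          exact M.zero_mem
        smul_mem' := fun c a ha => by
          show InnerProductSpace.rankOne ℂ (c • a) (e y) ∈ M
          rw [map_smul, smul_apply]
          exact M.smul_mem c ha }
    have hN : IsClosed (N : Set H) := hM.preimage hcont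
    have h2 : (Submodule.span ℂ (Set.range e)).topologicalClosure ≤ N := by
      refine Submodule.topologicalClosure_minimal _ (Submodule.span_le.2 ?_) hN
      rintro _ ⟨x, rfl⟩
      exact h x y
    rw [e.dense_span] at h2
    exact h2 trivial
  have h3 : ∀ (u v : H), (InnerProductSpace.rankOne ℂ u v : Bd H) ∈ M := by
    intro u v
    have hcont : Continuous (fun v : H => (InnerProductSpace.rankOne ℂ u v : Bd H)) := by
      fun_prop
    let N : Submodule ℂ H :=
      { carrier := {v | (InnerProductSpace.rankOne ℂ u v : Bd H) ∈ M}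
        add_mem' := fun {a b} ha hb => by
          show InnerProductSpace.rankOne ℂ u (a + b) ∈ M
          rw [map_add]
          exact M.add_mem ha hb
        zero_mem' := by
          show InnerProductSpace.rankOne ℂ u (0 : H) ∈ M
          rw [map_zero]
          exact M.zero_mem
        smul_mem' := fun c a ha => by
          show InnerProductSpace.rankOne ℂ u (c • a) ∈ M
          rw [map_smulₛₗ]
          exact M.smul_mem _ ha }
    have hN : IsClosed (N : Set H) := hM.preimage hcont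
    have h2 : (Submodule.span ℂ (Set.range e)).topologicalClosure ≤ N := by
      refine Submodule.topologicalClosure_minimal _ (Submodule.span_le.2 ?_) hN
      rintro _ ⟨x, rfl⟩
      exact h1 x u
    rw [e.dense_span] at h2
    exact h2 trivial
  have h4 : ∀ k : Bd H, FinRk k → k ∈ M := by
    intro k hk
    have := hk
    unfold FinRk at this
    set R := LinearMap.range (k : H →ₗ[ℂ] H) with hR
    let b := stdOrthonormalBasis ℂ R
    have h5 : k = ∑ i, (InnerProductSpace.rankOne ℂ (b i : H) ((Star.star k) (b i : H)) : Bd H) := by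
      refine ContinuousLinearMap.ext (fun v => ?_)
      rw [sum_apply]
      have h6 := b.sum_repr' ⟨k v, FinRk.mem v⟩
      have h7 := congrArg (fun z : R => (z : H)) h6
      simp only [Submodule.coe_sum, Submodule.coe_smul, Submodule.coe_inner] at h7
      rw [← h7]
      refine Finset.sum_congr rfl (fun i _ => ?_)
      show _ = ⟪(Star.star k) (b i : H), v⟫_ℂ • (b i : H)
      rw [ContinuousLinearMap.star_eq_adjoint, ContinuousLinearMap.adjoint_inner_left]
    rw [h5]
    exact M.sum_mem (fun i _ => h3 _ _)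
  have h5 : c ∈ closure (M : Set (Bd H)) := by
    rw [Metric.mem_closure_iff]
    intro ε hε
    obtain ⟨k, hk, hk2⟩ := hc (ε / 2) (by linarith)
    exact ⟨k, h4 k hk, by rw [dist_eq_norm]; linarith⟩
  rwa [hM.closure_eq] at h5

end Pool.Agent.Ped8316
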