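import Mathlib
import Pool.Agent.Lib.Ped8316.Defs
import Pool.Agent.Lib.Ped8316.Ops

/-!
# A criterion for being approximately subhomogeneous
-/

set_option autoImplicit false
set_option linter.unusedSectionVars false

open Topology Filter Set
open scoped InnerProductSpace

namespace Pool.Agent.Ped8316

lemma scalar_of_commutant {K : Type} [NormedAddCommGroup K] [InnerProductSpace ℂ K]
    [CompleteSpace K] [Nontrivial (K →L[ℂ] K)] (T : K →L[ℂ] K) (hT : IsSelfAdjoint T)
    (h : ∀ M : Submodule ℂ K, IsClosed (M : Set K) →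
      (∀ U : K →L[ℂ] K, Commute T U → ∀ x ∈ M, U x ∈ M) → M = ⊥ ∨ M = ⊤) :
    ∃ t : ℝ, T = (t : ℂ) • (1 : K →L[ℂ] K) := by
  obtain ⟨t, ht⟩ := ContinuousFunctionalCalculus.spectrum_nonempty (R := ℝ) (p := IsSelfAdjoint) T hT
  have key : ∀ s ∈ spectrum ℝ T, s = t := by
    intro s hs
    by_contra hst
    set δ : ℝ := |s - t| / 2 with hδ
    have hδ0 : 0 < δ := by
      have : 0 < |s - t| := abs_pos.2 (sub_ne_zero.2 hst)
      positivity
    have hne : ∀ r ∈ spectrum ℝ T, cfc (fun x : ℝ => max 0 (δ - |x - r|)) T ≠ 0 := by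
      intro r hr h0
      have h1 := cfc_map_spectrum (R := ℝ) (fun x : ℝ => max 0 (δ - |x - r|)) T
        hT (by fun_prop)
      rw [h0, spectrum.zero_eq] at h1
      have h2 : (fun x : ℝ => max 0 (δ - |x - r|)) r ∈ ({0} : Set ℝ) := by
        rw [h1]; exact ⟨r, hr, rfl⟩
      simp only [sub_self, abs_zero, sub_zero, Set.mem_singleton_iff] at h2
      have := le_max_right (0 : ℝ) δ
      linarith
    have hmul : cfc (fun x : ℝ => max 0 (δ - |x - s|)) T * cfc (fun x : ℝ => max 0 (δ - |x - t|)) T = 0 := by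
      rw [← cfc_mul (fun x : ℝ => max 0 (δ - |x - s|)) (fun x : ℝ => max 0 (δ - |x - t|)) T
        (by fun_prop) (by fun_prop)]
      have h1 : (fun x : ℝ => max 0 (δ - |x - s|) * max 0 (δ - |x - t|)) = fun _ => 0 := by
        funext x
        rcases le_total (δ - |x - s|) 0 with h2 | h2
        · rw [max_eq_left h2, zero_mul]
        · have h3 : δ - |x - t| ≤ 0 := by
            have h4 : |s - t| ≤ |x - s| + |x - t| := by
              have := abs_sub_le s x t
              rwa [abs_sub_comm s x] at this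
            linarith
          rw [max_eq_left h3, mul_zero]
      rw [h1]
      exact cfc_const_zero ℝ T
    have hker := h (LinearMap.ker ((cfc (fun x : ℝ => max 0 (δ - |x - s|)) T : K →L[ℂ] K) : K →ₗ[ℂ] K))
      (ContinuousLinearMap.isClosed_ker _) (by
        intro U hU x hx
        have h1 := hU.cfc_real (fun x : ℝ => max 0 (δ - |x - s|))
        have h2 := congrArg (fun V : K →L[ℂ] K => V x) h1.eq
        have h3 : (cfc (fun x : ℝ => max 0 (δ - |x - s|)) T : K →L[ℂ] K) x = 0 := hx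
        show (cfc (fun x : ℝ => max 0 (δ - |x - s|)) T : K →L[ℂ] K) (U x) = 0
        have h4 : (cfc (fun x : ℝ => max 0 (δ - |x - s|)) T : K →L[ℂ] K) (U x) = U ((cfc (fun x : ℝ => max 0 (δ - |x - s|)) T : K →L[ℂ] K) x) := h2
        rw [h4, h3, map_zero])
    rcases hker with h1 | h1
    · apply hne t ht
      refine ContinuousLinearMap.ext (fun x => ?_)
      have h2 : (cfc (fun x : ℝ => max 0 (δ - |x - t|)) T : K →L[ℂ] K) x ∈
          LinearMap.ker ((cfc (fun x : ℝ => max 0 (δ - |x - s|)) T : K →L[ℂ] K) : K →ₗ[ℂ] K) := by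
        have := congrArg (fun V : K →L[ℂ] K => V x) hmul
        exact this
      rw [h1, Submodule.mem_bot] at h2
      exact h2
    · apply hne s hs
      refine ContinuousLinearMap.ext (fun x => ?_)
      have h2 : x ∈ LinearMap.ker ((cfc (fun x : ℝ => max 0 (δ - |x - s|)) T : K →L[ℂ] K) : K →ₗ[ℂ] K) := by
        rw [h1]; trivial
      exact h2
  refine ⟨t, ?_⟩
  have h1 : cfc (id : ℝ → ℝ) T = cfc (fun _ : ℝ => t) T := cfc_congr (fun s hs => key s hs)
  rw [cfc_id ℝ T hT, cfc_const t T hT] at h1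
  rw [h1]
  refine ContinuousLinearMap.ext (fun x => ?_)
  rw [Algebra.algebraMap_eq_smul_one]
  simp

/-- A C*-algebra with a finite dimensional ideal with commutative quotient is subhomogeneous. -/
theorem isSubhomogeneous_of_ideal {B : Type} [NonUnitalCStarAlgebra B] (F : Submodule ℂ B)
    [FiniteDimensional ℂ F] (hl : ∀ b : B, ∀ f ∈ F, b * f ∈ F) (hr : ∀ b : B, ∀ f ∈ F, f * b ∈ F)
    (hc : ∀ b c : B, b * c - c * b ∈ F) : IsSubhomogeneous B := by
  refine ⟨max 1 (Module.finrank ℂ F), ?_⟩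
  intro K _ _ _ ρ hρ
  by_cases hF : ∀ f ∈ F, ρ f = 0
  · obtain ⟨⟨b₀, hb₀⟩, hirr⟩ := hρ
    have : Nontrivial (K →L[ℂ] K) := ⟨⟨ρ b₀, 0, hb₀⟩⟩
    have hcomm : ∀ b c : B, Commute (ρ b) (ρ c) := by
      intro b c
      have h1 := hF _ (hc b c)
      rw [map_sub, map_mul, map_mul, sub_eq_zero] at h1
      exact h1
    have hsa : ∀ b : B, IsSelfAdjoint b → ∃ t : ℂ, ρ b = t • (1 : K →L[ℂ] K) := by
      intro b hb
      obtain ⟨t, ht⟩ := scalar_of_commutant (ρ b) (hb.map ρ) (fun M hM hM2 =>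
        hirr M hM (fun c x hx => hM2 (ρ c) (hcomm b c) x hx))
      exact ⟨t, ht⟩
    have hall : ∀ b : B, ∃ t : ℂ, ρ b = t • (1 : K →L[ℂ] K) := by
      intro b
      obtain ⟨s, hs⟩ := hsa _ (realPart b).2
      obtain ⟨t, ht⟩ := hsa _ (imaginaryPart b).2
      refine ⟨s + Complex.I * t, ?_⟩
      conv_lhs => rw [← realPart_add_I_smul_imaginaryPart b]
      rw [map_add, map_smul, hs, ht, add_smul, mul_smul]
    have hx0 : ∃ x : K, x ≠ 0 := by
      by_contra hcon
      push Not at hcon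
      apply hb₀
      refine ContinuousLinearMap.ext (fun x => ?_)
      rw [hcon x, map_zero, map_zero]
    obtain ⟨x, hx⟩ := hx0
    have h1 := hirr (Submodule.span ℂ {x}) (Submodule.closed_of_finiteDimensional _) (by
      intro b y hy
      obtain ⟨t, ht⟩ := hall b
      rw [ht]
      exact Submodule.smul_mem _ t hy)
    rcases h1 with h1 | h1
    · rw [Submodule.span_singleton_eq_bot] at h1
      exact absurd h1 hx
    · have h2 : FiniteDimensional ℂ (⊤ : Submodule ℂ K) := by
        rw [← h1]; infer_instance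
      have h3 : FiniteDimensional ℂ K := Module.Finite.of_surjective _ (Submodule.topEquiv (R := ℂ) (M := K)).surjective
      refine ⟨h3, ?_⟩
      rw [← finrank_top ℂ K, ← h1, finrank_span_singleton hx]
      exact le_max_left _ _
  · push Not at hF
    obtain ⟨f, hf, hf0⟩ := hF
    obtain ⟨_, hirr⟩ := hρ
    have h0 : ∃ ξ, ρ f ξ ≠ 0 := by
      by_contra hcon
      push Not at hcon
      exact hf0 (ContinuousLinearMap.ext hcon)
    obtain ⟨ξ, hξ⟩ := h0
    let L : F →ₗ[ℂ] K :=
      { toFun := fun g => ρ (g : B) ξ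
        map_add' := fun g g' => by
          show ρ ((g : B) + g') ξ = _
          rw [map_add]; rfl
        map_smul' := fun c g => by
          show ρ (c • (g : B)) ξ = _
          rw [map_smul]; rfl }
    have h1 := hirr (LinearMap.range L) (Submodule.closed_of_finiteDimensional _) (by
      rintro b _ ⟨g, rfl⟩
      refine ⟨⟨b * g, hl b g g.2⟩, ?_⟩
      show ρ (b * g) ξ = ρ b (ρ (g : B) ξ)
      rw [map_mul]
      rfl)
    rcases h1 with h1 | h1
    · exfalso
      apply hξ
      have h2 : ρ f ξ ∈ LinearMap.range L := ⟨⟨f, hf⟩, rfl⟩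
      rw [h1, Submodule.mem_bot] at h2
      exact h2
    · have h3 : FiniteDimensional ℂ K := Module.Finite.of_surjective L (LinearMap.range_eq_top.1 h1)
      refine ⟨h3, ?_⟩
      rw [← finrank_top ℂ K, ← h1]
      exact (LinearMap.finrank_range_le L).trans (le_max_right _ _)

variable {H : Type} [NormedAddCommGroup H] [InnerProductSpace ℂ H] [CompleteSpace H]

/-- An increasing sequence of closed star subalgebras with dense union. -/
lemma isASH_of_seq (A : NonUnitalStarSubalgebra ℂ (Bd H)) [IsClosed (A : Set (Bd H))]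
    (B : ℕ → NonUnitalStarSubalgebra ℂ (Bd H)) [∀ n, IsClosed (B n : Set (Bd H))]
    (hmono : ∀ n, B n ≤ B (n + 1)) (hle : ∀ n, B n ≤ A) (hsub : ∀ n, IsSubhomogeneous (B n))
    (hdense : ∀ a ∈ A, a ∈ closure (⋃ n, (B n : Set (Bd H)))) : IsASH A := by
  refine ⟨fun n => B n, fun n => inferInstance,
    fun n => NonUnitalStarSubalgebra.inclusion (hmono n),
    fun n => NonUnitalStarSubalgebra.inclusion (hle n), hsub, ?_, ?_, ?_⟩
  · intro n b
    rfl
  · intro n b
    have h1 : ∀ k, ((connect (B := fun n => B n)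
        (fun n => NonUnitalStarSubalgebra.inclusion (hmono n)) n k b : B (n + k)) : Bd H) = b := by
      intro k
      induction k with
      | zero => rfl
      | succ k ih => exact ih
    have h2 : ∀ k, ‖(connect (B := fun n => B n)
        (fun n => NonUnitalStarSubalgebra.inclusion (hmono n)) n k b : B (n + k))‖ =
        ‖NonUnitalStarSubalgebra.inclusion (hle n) b‖ := by
      intro k
      show ‖((connect (B := fun n => B n)
        (fun n => NonUnitalStarSubalgebra.inclusion (hmono n)) n k b : B (n + k)) : Bd H)‖ = ‖(b : Bd H)‖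
      rw [h1 k]
    simp only [h2]
    exact tendsto_const_nhds
  · intro a
    have h1 := hdense a a.2
    rw [Metric.mem_closure_iff] at h1 ⊢
    intro ε hε
    obtain ⟨b, hb, hb2⟩ := h1 ε hε
    rw [Set.mem_iUnion] at hb
    obtain ⟨n, hn⟩ := hb
    exact ⟨⟨b, hle n hn⟩, Set.mem_iUnion.2 ⟨n, ⟨b, hn⟩, rfl⟩, hb2⟩

/-- operators commuting with `p` and `star p` -/
def cent (p : Bd H) : NonUnitalStarSubalgebra ℂ (Bd H) where
  carrier := {a | Commute a p ∧ Commute a (star p)}
  add_mem' := fun {a b} ha hb => ⟨ha.1.add_left hb.1, ha.2.add_left hb.2⟩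
  zero_mem' := ⟨Commute.zero_left _, Commute.zero_left _⟩
  mul_mem' := fun {a b} ha hb => ⟨ha.1.mul_left hb.1, ha.2.mul_left hb.2⟩
  smul_mem' := fun c a ha => ⟨ha.1.smul_left c, ha.2.smul_left c⟩
  star_mem' := fun {a} ha => ⟨by
    have := ha.2.star_star
    rwa [star_star] at this, by
    have := ha.1.star_star
    exact this⟩

lemma mem_cent {p a : Bd H} : a ∈ cent p ↔ Commute a p ∧ Commute a (star p) := Iff.rfl

lemma isClosed_cent (p : Bd H) : IsClosed (cent p : Set (Bd H)) := by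
  have h1 : (cent p : Set (Bd H)) = {a | a * p = p * a} ∩ {a | a * star p = star p * a} := rfl
  rw [h1]
  refine IsClosed.inter (isClosed_eq ?_ ?_) (isClosed_eq ?_ ?_) <;> fun_prop

/-- operators killed by `p` on both sides -/
def kill (p : Bd H) (hp : IsSelfAdjoint p) : NonUnitalStarSubalgebra ℂ (Bd H) where
  carrier := {a | a * p = 0 ∧ p * a = 0}
  add_mem' := fun {a b} ha hb => ⟨by rw [add_mul, ha.1, hb.1, add_zero], by
    rw [mul_add, ha.2, hb.2, add_zero]⟩
  zero_mem' := ⟨zero_mul _, mul_zero _⟩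
  mul_mem' := fun {a b} ha hb => ⟨by rw [mul_assoc, hb.1, mul_zero], by
    rw [← mul_assoc, ha.2, zero_mul]⟩
  smul_mem' := fun c a ha => ⟨by rw [smul_mul_assoc, ha.1, smul_zero], by
    rw [mul_smul_comm, ha.2, smul_zero]⟩
  star_mem' := fun {a} ha => ⟨by
    have := congrArg star ha.2
    rwa [star_mul, star_zero, hp.star_eq] at this, by
    have := congrArg star ha.1
    rwa [star_mul, star_zero, hp.star_eq] at this⟩

lemma mem_kill {p a : Bd H} {hp : IsSelfAdjoint p} : a ∈ kill p hp ↔ a * p = 0 ∧ p * a = 0 :=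
  Iff.rfl

lemma isClosed_kill (p : Bd H) (hp : IsSelfAdjoint p) : IsClosed (kill p hp : Set (Bd H)) := by
  have h1 : (kill p hp : Set (Bd H)) = {a | a * p = 0} ∩ {a | p * a = 0} := rfl
  rw [h1]
  refine IsClosed.inter (isClosed_eq ?_ ?_) (isClosed_eq ?_ ?_) <;> fun_prop

/-- the operators commuting with the projection `R` whose part under `1 - R` is in `C` -/
def Bsub (R : Bd H) (hR : IsSelfAdjoint R) (hR2 : R * R = R)
    (C : NonUnitalStarSubalgebra ℂ (Bd H)) : NonUnitalStarSubalgebra ℂ (Bd H) where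
  carrier := {a | Commute a R ∧ a * (1 - R) ∈ C}
  add_mem' := fun {a b} ha hb => ⟨ha.1.add_left hb.1, by
    rw [add_mul]; exact C.add_mem ha.2 hb.2⟩
  zero_mem' := ⟨Commute.zero_left _, by rw [zero_mul]; exact C.zero_mem⟩
  mul_mem' := fun {a b} ha hb => ⟨ha.1.mul_left hb.1, by
    have h1 : Commute b (1 - R) := (Commute.one_right b).sub_right hb.1
    have h2 : (1 - R) * (1 - R) = 1 - R := by
      rw [mul_sub, sub_mul, sub_mul, hR2]; simp
    have h3 : a * b * (1 - R) = a * (1 - R) * (b * (1 - R)) := by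
      rw [h1.eq, mul_assoc a (1 - R), ← mul_assoc (1 - R) (1 - R) b, h2, ← h1.eq, mul_assoc]
    rw [h3]
    exact C.mul_mem ha.2 hb.2⟩
  smul_mem' := fun c a ha => ⟨ha.1.smul_left c, by
    rw [smul_mul_assoc]; exact C.smul_mem c ha.2⟩
  star_mem' := fun {a} ha => ⟨by
    have := ha.1.star_star
    rwa [hR.star_eq] at this, by
    have h1 : Commute a (1 - R) := (Commute.one_right a).sub_right ha.1
    have h2 : star a * (1 - R) = star (a * (1 - R)) := by
      rw [h1.eq, star_mul, star_sub, star_one, hR.star_eq]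
    rw [h2]
    exact star_mem ha.2⟩

lemma mem_Bsub {R : Bd H} {hR : IsSelfAdjoint R} {hR2 : R * R = R}
    {C : NonUnitalStarSubalgebra ℂ (Bd H)} {a : Bd H} :
    a ∈ Bsub R hR hR2 C ↔ Commute a R ∧ a * (1 - R) ∈ C := Iff.rfl

lemma isClosed_Bsub (R : Bd H) (hR : IsSelfAdjoint R) (hR2 : R * R = R)
    (C : NonUnitalStarSubalgebra ℂ (Bd H)) (hC : IsClosed (C : Set (Bd H))) :
    IsClosed (Bsub R hR hR2 C : Set (Bd H)) := by
  have h1 : (Bsub R hR hR2 C : Set (Bd H)) =
      {a | a * R = R * a} ∩ (fun a => a * (1 - R)) ⁻¹' (C : Set (Bd H)) := rfl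
  rw [h1]
  refine IsClosed.inter (isClosed_eq (by fun_prop) (by fun_prop)) (hC.preimage (by fun_prop))

/-- the generated algebra is commutative -/
lemma commute_of_gen {s : Set (Bd H)} (hs : ∀ a ∈ s, ∀ b ∈ s, Commute a b)
    (hs2 : ∀ a ∈ s, star a ∈ s) {a b : Bd H}
    (ha : a ∈ (NonUnitalStarAlgebra.adjoin ℂ s).topologicalClosure)
    (hb : b ∈ (NonUnitalStarAlgebra.adjoin ℂ s).topologicalClosure) : Commute a b := by
  have h1 : ∀ g ∈ s, (NonUnitalStarAlgebra.adjoin ℂ s).topologicalClosure ≤ cent g := by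
    intro g hg
    refine NonUnitalStarSubalgebra.topologicalClosure_minimal _
      (NonUnitalStarAlgebra.adjoin_le (fun c hc => ?_)) (isClosed_cent g)
    exact ⟨hs c hc g hg, hs c hc _ (hs2 g hg)⟩
  have h2 : (NonUnitalStarAlgebra.adjoin ℂ s).topologicalClosure ≤ cent b := by
    refine NonUnitalStarSubalgebra.topologicalClosure_minimal _
      (NonUnitalStarAlgebra.adjoin_le (fun c hc => ?_)) (isClosed_cent b)
    have hb' : star b ∈ (NonUnitalStarAlgebra.adjoin ℂ s).topologicalClosure := star_mem hb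
    exact ⟨(h1 c hc hb).1.symm, (h1 c hc hb').1.symm⟩
  exact (h2 ha).1

section

variable {I : Type} (e : HilbertBasis I ℂ H) (G : I → ℕ)

lemma bdd_ind (s : Set I) : Bdd (s.indicator (fun _ => (1 : ℂ))) := by
  classical
  refine ⟨1, fun x => ?_⟩
  rw [Set.indicator_apply]
  split_ifs <;> simp

/-- projection onto the span of the `e x` with `G x < n` -/
noncomputable def Rn (n : ℕ) : Bd H := diag e ({x | G x < n}.indicator (fun _ => (1 : ℂ)))

lemma Rn_mul_Rn {m n : ℕ} (h : m ≤ n) : Rn e G m * Rn e G n = Rn e G m := by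
  classical
  unfold Rn
  rw [diag_mul e (bdd_ind _) (bdd_ind _)]
  congr 1
  funext x
  simp only [Set.indicator_apply, Set.mem_ofPred_eq]
  split_ifs with h1 h2 h2 <;> first | omega | simp

lemma Rn_mul_Rn' {m n : ℕ} (h : m ≤ n) : Rn e G n * Rn e G m = Rn e G m := by
  have h1 : Commute (Rn e G n) (Rn e G m) := diag_commute e (bdd_ind _) (bdd_ind _)
  rw [h1.eq, Rn_mul_Rn e G h]

lemma Rn_selfAdjoint (n : ℕ) : IsSelfAdjoint (Rn e G n) := by
  classical
  unfold Rn IsSelfAdjoint
  rw [diag_star e (bdd_ind _)]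
  congr 1
  funext x
  rw [Set.indicator_apply]
  split_ifs <;> simp

lemma Rn_zero : Rn e G 0 = 0 := by
  unfold Rn
  have h1 : ({x | G x < 0}.indicator (fun _ => (1 : ℂ))) = fun _ => 0 := by
    funext x
    simp
  rw [h1, diag_zero]

lemma Rn_succ (n : ℕ) : Rn e G (n + 1) = Rn e G n +
    diag e ({x | G x = n}.indicator (fun _ => (1 : ℂ))) := by
  classical
  unfold Rn
  rw [diag_add e (bdd_ind _) (bdd_ind _)]
  congr 1
  funext x
  simp only [Set.indicator_apply, Set.mem_ofPred_eq]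
  split_ifs with h1 h2 h3 h3 h4 <;> first | omega | simp

lemma commute_Rn {a : Bd H}
    (ha : ∀ n, Commute a (diag e ({x | G x = n}.indicator (fun _ => (1 : ℂ))))) (n : ℕ) :
    Commute a (Rn e G n) := by
  induction n with
  | zero => rw [Rn_zero]; exact Commute.zero_right _
  | succ n ih => rw [Rn_succ]; exact ih.add_right (ha n)

lemma finite_lt (hG : ∀ n, {x | G x = n}.Finite) (n : ℕ) : {x | G x < n}.Finite := by
  have h1 : {x | G x < n} = ⋃ m ∈ Set.Iio n, {x | G x = m} := by
    ext x; simp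
  rw [h1]
  exact (Set.finite_Iio n).biUnion (fun m _ => hG m)

lemma finRk_Rn (hG : ∀ n, {x | G x = n}.Finite) (n : ℕ) : FinRk (Rn e G n) := by
  classical
  refine finRk_diag e ((finite_lt G hG n).subset (fun x hx => ?_))
  rw [Function.mem_support, Set.indicator_apply] at hx
  by_contra hcon
  exact hx (if_neg hcon)

/-- the generated commutative algebra -/
noncomputable def Cn (D : Set (Bd H)) (n : ℕ) : NonUnitalStarSubalgebra ℂ (Bd H) :=
  (NonUnitalStarAlgebra.adjoin ℂ ((fun d => d * (1 - Rn e G n)) '' D)).topologicalClosure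

lemma isClosed_Cn (D : Set (Bd H)) (n : ℕ) : IsClosed (Cn e G D n : Set (Bd H)) :=
  NonUnitalStarSubalgebra.isClosed_topologicalClosure _

lemma Cn_le (D : Set (Bd H)) (n : ℕ) (M : NonUnitalStarSubalgebra ℂ (Bd H))
    (hM : IsClosed (M : Set (Bd H))) (h : ∀ d ∈ D, d * (1 - Rn e G n) ∈ M) : Cn e G D n ≤ M := by
  refine NonUnitalStarSubalgebra.topologicalClosure_minimal _
    (NonUnitalStarAlgebra.adjoin_le ?_) hM
  rintro _ ⟨d, hd, rfl⟩
  exact h d hd

lemma mem_Cn (D : Set (Bd H)) (n : ℕ) {d : Bd H} (hd : d ∈ D) :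
    d * (1 - Rn e G n) ∈ Cn e G D n :=
  NonUnitalStarSubalgebra.le_topologicalClosure _
    (NonUnitalStarAlgebra.subset_adjoin ℂ _ ⟨d, hd, rfl⟩)

/-- the approximating algebras -/
noncomputable def Bn (D : Set (Bd H)) (n : ℕ) : NonUnitalStarSubalgebra ℂ (Bd H) :=
  Bsub (Rn e G n) (Rn_selfAdjoint e G n) (Rn_mul_Rn e G le_rfl) (Cn e G D n)

lemma mem_Bn {D : Set (Bd H)} {n : ℕ} {a : Bd H} :
    a ∈ Bn e G D n ↔ Commute a (Rn e G n) ∧ a * (1 - Rn e G n) ∈ Cn e G D n := Iff.rfl

instance isClosed_Bn (D : Set (Bd H)) (n : ℕ) : IsClosed (Bn e G D n : Set (Bd H)) :=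
  isClosed_Bsub _ _ _ _ (isClosed_Cn e G D n)

end

section

variable {I : Type} (e : HilbertBasis I ℂ H) (G : I → ℕ)

lemma Rn_mu (x y : I) {n : ℕ} (h : G x < n) : Rn e G n * mu e x y = mu e x y := by
  classical
  refine ContinuousLinearMap.ext (fun v => ?_)
  show Rn e G n (mu e x y v) = mu e x y v
  rw [mu_apply, map_smul]
  unfold Rn
  rw [diag_basis e (bdd_ind _), Set.indicator_of_mem (show x ∈ {x | G x < n} from h), one_smul]

lemma mu_Rn (x y : I) {n : ℕ} (h : G y < n) : mu e x y * Rn e G n = mu e x y := by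
  classical
  refine ext_basis e (fun z => ?_)
  show mu e x y (Rn e G n (e z)) = mu e x y (e z)
  unfold Rn
  rw [diag_basis e (bdd_ind _), map_smul]
  by_cases hz : z = y
  · rw [hz, Set.indicator_of_mem (show y ∈ {x | G x < n} from h), one_smul]
  · rw [mu_basis_ne e hz, smul_zero]

lemma one_sub_Rn_mul {m n : ℕ} (h : m ≤ n) :
    (1 - Rn e G m) * (1 - Rn e G n) = 1 - Rn e G n := by
  rw [mul_sub, sub_mul, sub_mul, Rn_mul_Rn e G h]; simp

/-- the corner `F` -/
def Fsub (B : NonUnitalStarSubalgebra ℂ (Bd H)) (R : Bd H) : Submodule ℂ B where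
  carrier := {b | R * (b : Bd H) * R = b}
  add_mem' := fun {a b} ha hb => by
    show R * ((a : Bd H) + b) * R = (a : Bd H) + b
    have ha' : R * (a : Bd H) * R = a := ha
    have hb' : R * (b : Bd H) * R = b := hb
    rw [mul_add, add_mul, ha', hb']
  zero_mem' := by
    show R * (0 : Bd H) * R = 0
    rw [mul_zero, zero_mul]
  smul_mem' := fun c a ha => by
    show R * (c • (a : Bd H)) * R = c • (a : Bd H)
    have ha' : R * (a : Bd H) * R = a := ha
    rw [mul_smul_comm, smul_mul_assoc, ha']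

lemma mem_Fsub {B : NonUnitalStarSubalgebra ℂ (Bd H)} {R : Bd H} {b : B} :
    b ∈ Fsub B R ↔ R * (b : Bd H) * R = b := Iff.rfl

lemma finite_Fsub (hG : ∀ n, {x | G x = n}.Finite) (B : NonUnitalStarSubalgebra ℂ (Bd H)) (n : ℕ) :
    FiniteDimensional ℂ (Fsub B (Rn e G n)) := by
  classical
  have hfin := finite_lt G hG n
  have : Fintype {x | G x < n} := hfin.fintype
  let L : Fsub B (Rn e G n) →ₗ[ℂ] ({x | G x < n} → {x | G x < n} → ℂ) :=
    { toFun := fun b => fun x y => e.repr (((b : B) : Bd H) (e y)) x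
      map_add' := fun b c => by
        funext x y
        show e.repr ((((b : B) : Bd H) + ((c : B) : Bd H)) (e y)) x = _
        rw [add_apply, map_add]
        rfl
      map_smul' := fun t b => by
        funext x y
        show e.repr ((t • ((b : B) : Bd H)) (e y)) x = _
        rw [smul_apply, map_smul]
        rfl }
  have h1 : ∀ (b : Fsub B (Rn e G n)) (y : I),
      ((b : B) : Bd H) (e y) = Rn e G n (((b : B) : Bd H) (Rn e G n (e y))) := by
    intro b y
    have hb2 : Rn e G n * ((b : B) : Bd H) * Rn e G n = ((b : B) : Bd H) := b.2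
    conv_lhs => rw [← hb2]
    rfl
  have h2 : ∀ y, ¬ G y < n → Rn e G n (e y) = 0 := by
    intro y hy
    unfold Rn
    rw [diag_basis e (bdd_ind _), Set.indicator_of_notMem (show y ∉ {x | G x < n} from hy),
      zero_smul]
  have h3 : ∀ (v : H) (x : I), ¬ G x < n → e.repr (Rn e G n v) x = 0 := by
    intro v x hx
    unfold Rn
    rw [repr_diag e (bdd_ind _), Set.indicator_of_notMem (show x ∉ {x | G x < n} from hx),
      zero_mul]
  refine Module.Finite.of_injective L (fun b c hbc => ?_)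
  refine Subtype.ext (Subtype.ext (ext_basis e (fun y => ext_repr e (fun x => ?_))))
  by_cases hx : G x < n
  · by_cases hy : G y < n
    · exact congrFun (congrFun hbc ⟨x, hx⟩) ⟨y, hy⟩
    · rw [h1 b y, h1 c y, h2 y hy, map_zero ((b : B) : Bd H), map_zero ((c : B) : Bd H)]
  · rw [h1 b y, h1 c y, h3 _ x hx, h3 _ x hx]

lemma isSubhomogeneous_Bn (hG : ∀ n, {x | G x = n}.Finite) (D : Set (Bd H))
    (hDc : ∀ a ∈ D, ∀ b ∈ D, Commute a b) (hDs : ∀ a ∈ D, star a ∈ D)
    (hDR : ∀ a ∈ D, ∀ n, Commute a (Rn e G n)) (n : ℕ) : IsSubhomogeneous (Bn e G D n) := by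
  have := finite_Fsub e G hG (Bn e G D n) n
  set R := Rn e G n with hRdef
  have hR2 : R * R = R := Rn_mul_Rn e G le_rfl
  have hgen : ∀ a ∈ ((fun d => d * (1 - R)) '' D), ∀ b ∈ ((fun d => d * (1 - R)) '' D),
      Commute a b := by
    rintro _ ⟨a, ha, rfl⟩ _ ⟨b, hb, rfl⟩
    have h1 : Commute a (1 - R) := (Commute.one_right a).sub_right (hDR a ha n)
    have h2 : Commute b (1 - R) := (Commute.one_right b).sub_right (hDR b hb n)
    exact ((hDc a ha b hb).mul_right h1).mul_left (h2.symm.mul_right (Commute.refl _))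
  have hgen2 : ∀ a ∈ ((fun d => d * (1 - R)) '' D), star a ∈ ((fun d => d * (1 - R)) '' D) := by
    rintro _ ⟨a, ha, rfl⟩
    refine ⟨star a, hDs a ha, ?_⟩
    have h1 : Commute (star a) (1 - R) :=
      (Commute.one_right _).sub_right (hDR _ (hDs a ha) n)
    show star a * (1 - R) = star (a * (1 - R))
    rw [star_mul, star_sub, star_one, (Rn_selfAdjoint e G n).star_eq]
    exact h1.eq
  refine isSubhomogeneous_of_ideal (Fsub (Bn e G D n) R) ?_ ?_ ?_
  · intro b f hf
    have hb : Commute (b : Bd H) R := b.2.1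
    have hf' : R * (f : Bd H) * R = f := hf
    show R * ((b : Bd H) * f) * R = (b : Bd H) * f
    rw [← mul_assoc R, ← hb.eq, mul_assoc (b : Bd H), mul_assoc (b : Bd H), hf']
  · intro b f hf
    have hb : Commute (b : Bd H) R := b.2.1
    have hf' : R * (f : Bd H) * R = f := hf
    show R * ((f : Bd H) * b) * R = (f : Bd H) * b
    rw [← mul_assoc R, mul_assoc (R * (f : Bd H)), hb.eq, ← mul_assoc (R * (f : Bd H)), hf']
  · intro b c
    have hb : Commute (b : Bd H) R := b.2.1
    have hc : Commute (c : Bd H) R := c.2.1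
    have hb1 : Commute (b : Bd H) (1 - R) := (Commute.one_right _).sub_right hb
    have hc1 : Commute (c : Bd H) (1 - R) := (Commute.one_right _).sub_right hc
    have hbc : Commute ((b : Bd H) * (1 - R)) ((c : Bd H) * (1 - R)) :=
      commute_of_gen hgen hgen2 b.2.2 c.2.2
    have hQ : (1 - R) * (1 - R) = 1 - R := one_sub_Rn_mul e G le_rfl
    have h1 : ∀ x y : Bd H, Commute y (1 - R) → x * (1 - R) * (y * (1 - R)) = x * y * (1 - R) := by
      intro x y hy
      rw [hy.eq, mul_assoc x (1 - R), ← mul_assoc (1 - R) (1 - R) y, hQ, ← hy.eq, mul_assoc]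
    have h2 : ((b : Bd H) * c - c * b) * (1 - R) = 0 := by
      rw [sub_mul, ← h1 _ _ hc1, ← h1 _ _ hb1, hbc.eq, sub_self]
    have h3 : ((b : Bd H) * c - c * b) * R = (b : Bd H) * c - c * b := by
      rw [mul_sub, mul_one, sub_eq_zero] at h2
      exact h2.symm
    have h4 : Commute ((b : Bd H) * c - c * b) R :=
      (hb.mul_left hc).sub_left (hc.mul_left hb)
    show R * ((b : Bd H) * c - c * b) * R = (b : Bd H) * c - c * b
    rw [← h4.eq, mul_assoc, hR2, h3]

lemma Bn_mono (D : Set (Bd H)) (hDR : ∀ a ∈ D, ∀ n, Commute a (Rn e G n)) (n : ℕ) :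
    Bn e G D n ≤ Bn e G D (n + 1) := by
  intro a ha
  have ha1 : Commute a (Rn e G n) := ha.1
  have hC : Cn e G D n ≤ Bn e G D (n + 1) := by
    refine Cn_le e G D n _ (isClosed_Bn e G D (n + 1)) (fun d hd => ?_)
    refine ⟨(hDR d hd (n + 1)).mul_left ((Commute.one_left _).sub_left
      (diag_commute e (bdd_ind _) (bdd_ind _))), ?_⟩
    rw [mul_assoc, one_sub_Rn_mul e G (Nat.le_succ n)]
    exact mem_Cn e G D (n + 1) hd
  have h1 : a * Rn e G n ∈ Bn e G D (n + 1) := by
    have h2 : a * Rn e G n * Rn e G (n + 1) = a * Rn e G n := by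
      rw [mul_assoc, Rn_mul_Rn e G (Nat.le_succ n)]
    refine ⟨?_, ?_⟩
    · show a * Rn e G n * Rn e G (n + 1) = Rn e G (n + 1) * (a * Rn e G n)
      rw [h2, ha1.eq, ← mul_assoc, Rn_mul_Rn' e G (Nat.le_succ n)]
    · rw [mul_sub, mul_one, h2, sub_self]
      exact (Cn e G D (n + 1)).zero_mem
  have h3 : a = a * Rn e G n + a * (1 - Rn e G n) := by
    rw [mul_sub, mul_one]; abel
  rw [h3]
  exact add_mem h1 (hC ha.2)

end

/-- ASH criterion. `A` is generated by `S`, contains the matrix units and a commuting,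
star-closed set `D` of operators which commute with all the finite rank projections
`diag e (indicator {G = n})`, and every generator is in `D` up to `IsKp`. Then `A` is ASH. -/
theorem isASH_of_diag {I : Type} (e : HilbertBasis I ℂ H) (G : I → ℕ)
    (hG : ∀ n, {x | G x = n}.Finite) (S D : Set (Bd H))
    (A : NonUnitalStarSubalgebra ℂ (Bd H)) [IsClosed (A : Set (Bd H))]
    (hA : A = (NonUnitalStarAlgebra.adjoin ℂ S).topologicalClosure)
    (hmu : ∀ x y, mu e x y ∈ A) (hDA : ∀ a ∈ D, a ∈ A)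
    (hDc : ∀ a ∈ D, ∀ b ∈ D, Commute a b) (hDs : ∀ a ∈ D, star a ∈ D)
    (hDR : ∀ a ∈ D, ∀ n, Commute a (diag e ({x | G x = n}.indicator (fun _ => (1 : ℂ)))))
    (hS : ∀ s ∈ S, ∃ d ∈ D, IsKp (s - d)) : IsASH A := by
  have hDR' : ∀ a ∈ D, ∀ n, Commute a (Rn e G n) := fun a ha n => commute_Rn e G (hDR a ha) n
  have hAc : IsClosed (A : Set (Bd H)) := inferInstance
  have hKA : ∀ k : Bd H, IsKp k → k ∈ A := fun k hk =>
    hk.mem_of_mu e A.toNonUnitalSubalgebra.toSubmodule hAc hmu
  have hmono := Bn_mono e G D hDR'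
  have hmono' : ∀ m n, m ≤ n → Bn e G D m ≤ Bn e G D n := by
    intro m n hmn
    induction hmn with
    | refl => exact le_rfl
    | step _ ih => exact ih.trans (hmono _)
  have hCA : ∀ n, Cn e G D n ≤ A := by
    intro n
    refine Cn_le e G D n A hAc (fun d hd => ?_)
    rw [mul_sub, mul_one]
    exact sub_mem (hDA d hd) (hKA _ ((finRk_Rn e G hG n).mul_left d).isKp)
  have hBA : ∀ n, Bn e G D n ≤ A := by
    intro n a ha
    have h3 : a = a * Rn e G n + a * (1 - Rn e G n) := by
      rw [mul_sub, mul_one]; abel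
    rw [h3]
    exact add_mem (hKA _ ((finRk_Rn e G hG n).mul_left a).isKp) (hCA n ha.2)
  let U : NonUnitalStarSubalgebra ℂ (Bd H) :=
    { carrier := ⋃ n, (Bn e G D n : Set (Bd H))
      add_mem' := fun {a b} ha hb => by
        rw [Set.mem_iUnion] at ha hb ⊢
        obtain ⟨m, hm⟩ := ha
        obtain ⟨n, hn⟩ := hb
        exact ⟨max m n, add_mem (hmono' _ _ (le_max_left m n) hm) (hmono' _ _ (le_max_right m n) hn)⟩
      zero_mem' := Set.mem_iUnion.2 ⟨0, zero_mem _⟩
      mul_mem' := fun {a b} ha hb => by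
        rw [Set.mem_iUnion] at ha hb ⊢
        obtain ⟨m, hm⟩ := ha
        obtain ⟨n, hn⟩ := hb
        exact ⟨max m n, mul_mem (hmono' _ _ (le_max_left m n) hm) (hmono' _ _ (le_max_right m n) hn)⟩
      smul_mem' := fun c a ha => by
        rw [Set.mem_iUnion] at ha ⊢
        obtain ⟨m, hm⟩ := ha
        exact ⟨m, SMulMemClass.smul_mem c hm⟩
      star_mem' := fun {a} ha => by
        rw [Set.mem_iUnion] at ha ⊢
        obtain ⟨m, hm⟩ := ha
        exact ⟨m, star_mem hm⟩ }
  have hUmem : ∀ n, ∀ a ∈ Bn e G D n, a ∈ U.topologicalClosure := fun n a ha =>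
    NonUnitalStarSubalgebra.le_topologicalClosure _ (Set.mem_iUnion.2 ⟨n, ha⟩)
  have hUc : IsClosed (U.topologicalClosure : Set (Bd H)) :=
    NonUnitalStarSubalgebra.isClosed_topologicalClosure _
  have hUmu : ∀ x y, mu e x y ∈ U.topologicalClosure := by
    intro x y
    have hx : G x < max (G x) (G y) + 1 := by omega
    have hy : G y < max (G x) (G y) + 1 := by omega
    refine hUmem (max (G x) (G y) + 1) _ ⟨?_, ?_⟩
    · show mu e x y * Rn e G _ = Rn e G _ * mu e x y
      rw [mu_Rn e G x y hy, Rn_mu e G x y hx]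
    · rw [mul_sub, mul_one, mu_Rn e G x y hy, sub_self]
      exact zero_mem _
  have hUD : ∀ d ∈ D, d ∈ U.topologicalClosure := by
    intro d hd
    refine hUmem 0 _ ⟨hDR' d hd 0, mem_Cn e G D 0 hd⟩
  have hUS : A ≤ U.topologicalClosure := by
    rw [hA]
    refine NonUnitalStarSubalgebra.topologicalClosure_minimal _
      (NonUnitalStarAlgebra.adjoin_le (fun s hs => ?_)) hUc
    obtain ⟨d, hd, hsd⟩ := hS s hs
    have h1 : s = d + (s - d) := by abel
    rw [h1]
    exact add_mem (hUD d hd)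
      (hsd.mem_of_mu e U.topologicalClosure.toNonUnitalSubalgebra.toSubmodule hUc hUmu)
  exact isASH_of_seq A (Bn e G D) hmono hBA (isSubhomogeneous_Bn e G hG D hDc hDs hDR')
    (fun a ha => hUS ha)

end Pool.Agent.Ped8316
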