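import Mathlib
import Pool.Agent.Lib.Ped8316.Index

/-!
# The logarithmic trace and the index
-/

set_option autoImplicit false
set_option linter.unusedSectionVars false

open Topology Filter Set selfAdjoint Unitary
open scoped InnerProductSpace ComplexConjugate

namespace Pool.Agent.Ped8316

variable {H : Type*} [NormedAddCommGroup H] [InnerProductSpace ℂ H] [CompleteSpace H]

lemma Red.arg {L : Submodule ℂ H} [L.HasOrthogonalProjection] {X : unitary (Bd H)}
    (hX : Red L (X : Bd H)) : Red L (argSelfAdjoint X : Bd H) := by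
  rw [argSelfAdjoint_coe]
  have h2 : Commute (Star.star (X : Bd H)) L.starProjection := Commute.symm (Red.star hX)
  exact Commute.symm (Commute.cfc (Commute.symm hX) h2 _)

lemma Red.exp {L : Submodule ℂ H} [L.HasOrthogonalProjection] {D : selfAdjoint (Bd H)}
    (hD : Red L (D : Bd H)) : Red L (expUnitary D : Bd H) := by
  rw [expUnitary_coe]
  exact Commute.exp_right (Commute.smul_right hD _)

/-- the logarithmic trace -/
noncomputable def lg (L : Submodule ℂ H) [L.HasOrthogonalProjection] (X : unitary (Bd H)) : ℝ :=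
  (trL L (argSelfAdjoint X : Bd H)).re

section

variable {L : Submodule ℂ H} [FiniteDimensional ℂ L]

lemma trL_arg (X : unitary (Bd H)) : trL L (argSelfAdjoint X : Bd H) = (lg L X : ℂ) :=
  trL_real L (argSelfAdjoint X).2

lemma detL_eq_exp_lg {X : unitary (Bd H)} (hX : Red L (X : Bd H)) (h : ‖((X : Bd H) - 1)‖ < 2) :
    detL L (X : Bd H) = Complex.exp (Complex.I * (lg L X : ℂ)) := by
  have := detL_exp L (argSelfAdjoint X) hX.arg
  rw [expUnitary_argSelfAdjoint h, trL_arg] at this
  exact this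

lemma norm_arg_lt {X : unitary (Bd H)} (h : ‖((X : Bd H) - 1)‖ < 2) : ‖argSelfAdjoint X‖ < Real.pi := by
  have h1 : X ∈ (openPartialHomeomorph (A := Bd H)).source := by
    show X ∈ Metric.ball (1 : unitary (Bd H)) 2
    rw [Metric.mem_ball, Subtype.dist_eq, dist_eq_norm]
    exact h
  have h2 := (openPartialHomeomorph (A := Bd H)).map_source h1
  have h3 : argSelfAdjoint X ∈ Metric.ball (0 : selfAdjoint (Bd H)) Real.pi := h2
  simpa using h3

lemma arg_one : argSelfAdjoint (1 : unitary (Bd H)) = 0 := by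
  have h := argSelfAdjoint_expUnitary (x := (0 : selfAdjoint (Bd H))) (by simp [Real.pi_pos])
  rwa [expUnitary_zero] at h

lemma trL_zero : trL L (0 : Bd H) = 0 := by
  have := trL_smul L 0 (0 : Bd H)
  simpa using this

lemma lg_one : lg L (1 : unitary (Bd H)) = 0 := by
  unfold lg
  rw [arg_one]
  show (trL L (0 : Bd H)).re = 0
  rw [trL_zero]
  rfl

lemma arg_star {X : unitary (Bd H)} (h : ‖((X : Bd H) - 1)‖ < 2) :
    argSelfAdjoint (star X) = -argSelfAdjoint X := by
  have h1 : star X = expUnitary (-argSelfAdjoint X) := by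
    have h2 : expUnitary (-argSelfAdjoint X) * X = 1 := by
      have h3 := expUnitary_argSelfAdjoint h
      have h4 : Commute ((-argSelfAdjoint X : selfAdjoint (Bd H)) : Bd H)
          ((argSelfAdjoint X : selfAdjoint (Bd H)) : Bd H) := by
        exact (Commute.refl (argSelfAdjoint X : Bd H)).neg_left
      have h5 := h4.expUnitary_add
      rw [h3, neg_add_cancel, expUnitary_zero] at h5
      exact h5.symm
    have h6 : expUnitary (-argSelfAdjoint X) = X⁻¹ := eq_inv_of_mul_eq_one_left h2
    rw [h6]; rfl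
  rw [h1]
  exact argSelfAdjoint_expUnitary (by rw [norm_neg]; exact norm_arg_lt h)

lemma lg_star {X : unitary (Bd H)} (h : ‖((X : Bd H) - 1)‖ < 2) : lg L (star X) = -lg L X := by
  unfold lg
  rw [arg_star h]
  show (trL L (-(argSelfAdjoint X : Bd H))).re = _
  rw [trL_neg, Complex.neg_re]

lemma const_of_int {f : ℝ → ℝ} (hf : ContinuousOn f (Icc 0 1))
    (hi : ∀ t ∈ Icc (0 : ℝ) 1, ∃ k : ℤ, f t = k) : f 1 = f 0 := by
  obtain ⟨k0, hk0⟩ := hi 0 ⟨le_rfl, zero_le_one⟩
  obtain ⟨k1, hk1⟩ := hi 1 ⟨zero_le_one, le_rfl⟩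
  rcases lt_trichotomy (f 0) (f 1) with h | h | h
  · exfalso
    have h1 : k0 < k1 := by rw [hk0, hk1] at h; exact_mod_cast h
    have h2 : (k0 : ℝ) + 1 ≤ k1 := by exact_mod_cast h1
    have h3 : f 0 + 1 / 2 ∈ Icc (f 0) (f 1) := ⟨by linarith, by rw [hk0, hk1]; linarith⟩
    obtain ⟨t, ht, hft⟩ := intermediate_value_Icc zero_le_one hf h3
    obtain ⟨k, hk⟩ := hi t ht
    rw [hk, hk0] at hft
    have h4 : (2 * k : ℤ) = 2 * k0 + 1 := by
      have : (2 : ℝ) * k = 2 * k0 + 1 := by linarith
      exact_mod_cast this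
    omega
  · exact h.symm
  · exfalso
    have h1 : k1 < k0 := by rw [hk0, hk1] at h; exact_mod_cast h
    have h2 : (k1 : ℝ) + 1 ≤ k0 := by exact_mod_cast h1
    have h3 : f 1 + 1 / 2 ∈ Icc (f 1) (f 0) := ⟨by linarith, by rw [hk0, hk1]; linarith⟩
    obtain ⟨t, ht, hft⟩ := intermediate_value_Icc' zero_le_one hf h3
    obtain ⟨k, hk⟩ := hi t ht
    rw [hk, hk1] at hft
    have h4 : (2 * k : ℤ) = 2 * k1 + 1 := by
      have : (2 : ℝ) * k = 2 * k1 + 1 := by linarith
      exact_mod_cast this
    omega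

lemma norm_mul_sub_one_le (X Y : unitary (Bd H)) :
    ‖((X * Y : unitary (Bd H)) : Bd H) - 1‖ ≤ ‖(X : Bd H) - 1‖ + ‖(Y : Bd H) - 1‖ := by
  have h1 : ((X * Y : unitary (Bd H)) : Bd H) - 1 = ((X : Bd H) - 1) * Y + ((Y : Bd H) - 1) := by
    rw [Submonoid.coe_mul]; noncomm_ring
  rw [h1]
  refine (norm_add_le _ _).trans ?_
  rw [CStarRing.norm_mul_coe_unitary]

lemma lg_mul {X Y : unitary (Bd H)} (hX : Red L (X : Bd H)) (hY : Red L (Y : Bd H))
    (h1 : ‖(X : Bd H) - 1‖ ≤ 1 / 2) (h2 : ‖(Y : Bd H) - 1‖ ≤ 1 / 2) :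
    lg L (X * Y) = lg L X + lg L Y := by
  set a := argSelfAdjoint X with ha
  set b := argSelfAdjoint Y with hb
  let Z : ℝ → unitary (Bd H) := fun t => expUnitary (t • a) * expUnitary (t • b)
  have hZ : ∀ t ∈ Icc (0 : ℝ) 1, ‖((Z t : unitary (Bd H)) : Bd H) - 1‖ ≤ 1 := by
    intro t ht
    refine (norm_mul_sub_one_le _ _).trans ?_
    have h3 := norm_expUnitary_smul_argSelfAdjoint_sub_one_le X ht (by linarith)
    have h4 := norm_expUnitary_smul_argSelfAdjoint_sub_one_le Y ht (by linarith)
    linarith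
  have hRa : ∀ t : ℝ, Red L ((expUnitary (t • a) : unitary (Bd H)) : Bd H) := fun t => by
    refine Red.exp ?_
    show Commute _ (t • (a : Bd H))
    exact Commute.smul_right hX.arg t
  have hRb : ∀ t : ℝ, Red L ((expUnitary (t • b) : unitary (Bd H)) : Bd H) := fun t => by
    refine Red.exp ?_
    show Commute _ (t • (b : Bd H))
    exact Commute.smul_right hY.arg t
  have htr : ∀ (t : ℝ) (W : unitary (Bd H)), trL L ((t • argSelfAdjoint W : selfAdjoint (Bd H)) : Bd H) =
      ((t * lg L W : ℝ) : ℂ) := by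
    intro t W
    have h3 : ((t • argSelfAdjoint W : selfAdjoint (Bd H)) : Bd H) =
        (t : ℂ) • (argSelfAdjoint W : Bd H) := by
      rw [selfAdjoint.val_smul]
      exact (Complex.coe_smul t _).symm
    rw [h3, trL_smul, trL_arg]
    push_cast
    ring
  let Φ : ℝ → ℝ := fun t => (lg L (Z t) - t * lg L X - t * lg L Y) / (2 * Real.pi)
  have hΦint : ∀ t ∈ Icc (0 : ℝ) 1, ∃ k : ℤ, Φ t = k := by
    intro t ht
    have h3 : detL L ((Z t : unitary (Bd H)) : Bd H) = Complex.exp (Complex.I * (lg L (Z t) : ℂ)) :=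
      detL_eq_exp_lg (Red.mul (hRa t) (hRb t)) (by have := hZ t ht; linarith)
    have h4 : detL L ((Z t : unitary (Bd H)) : Bd H) =
        Complex.exp (Complex.I * ((t * lg L X : ℝ) : ℂ)) *
        Complex.exp (Complex.I * ((t * lg L Y : ℝ) : ℂ)) := by
      show detL L (((expUnitary (t • a) : unitary (Bd H)) : Bd H) *
        ((expUnitary (t • b) : unitary (Bd H)) : Bd H)) = _
      rw [detL_mul L _ (fun x hx => (hRb t).mem hx), detL_exp L _ (by
          show Commute _ (t • (a : Bd H))
          exact Commute.smul_right hX.arg t), detL_exp L _ (by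
          show Commute _ (t • (b : Bd H))
          exact Commute.smul_right hY.arg t), htr, htr]
    have h5 : Complex.exp (Complex.I * ((lg L (Z t) - t * lg L X - t * lg L Y : ℝ) : ℂ)) = 1 := by
      have h6 : Complex.I * ((lg L (Z t) - t * lg L X - t * lg L Y : ℝ) : ℂ) =
          Complex.I * (lg L (Z t) : ℂ) - (Complex.I * ((t * lg L X : ℝ) : ℂ) +
          Complex.I * ((t * lg L Y : ℝ) : ℂ)) := by push_cast; ring
      rw [h6, Complex.exp_sub, Complex.exp_add, ← h3, h4]
      exact div_self (mul_ne_zero (Complex.exp_ne_zero _) (Complex.exp_ne_zero _))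
    rw [Complex.exp_eq_one_iff] at h5
    obtain ⟨k, hk⟩ := h5
    refine ⟨k, ?_⟩
    have h6 : ((lg L (Z t) - t * lg L X - t * lg L Y : ℝ) : ℂ) = ((k * (2 * Real.pi) : ℝ) : ℂ) := by
      have h7 : Complex.I * ((lg L (Z t) - t * lg L X - t * lg L Y : ℝ) : ℂ) =
          Complex.I * ((k * (2 * Real.pi) : ℝ) : ℂ) := by
        rw [hk]; push_cast; ring
      exact mul_left_cancel₀ Complex.I_ne_zero h7
    have h7 : lg L (Z t) - t * lg L X - t * lg L Y = k * (2 * Real.pi) := by exact_mod_cast h6
    show (lg L (Z t) - t * lg L X - t * lg L Y) / (2 * Real.pi) = k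
    rw [h7]
    field_simp
  have hcont : ContinuousOn Φ (Icc 0 1) := by
    have hZc : Continuous Z := by
      have hs : ∀ a : selfAdjoint (Bd H), Continuous fun t : ℝ => (t • a : selfAdjoint (Bd H)) := by
        intro a
        refine continuous_induced_rng.2 ?_
        show Continuous fun t : ℝ => t • (a : Bd H)
        exact continuous_id.smul continuous_const
      have h3 : Continuous fun t : ℝ => expUnitary (t • a) := continuous_expUnitary.comp (hs a)
      have h4 : Continuous fun t : ℝ => expUnitary (t • b) := continuous_expUnitary.comp (hs b)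
      exact h3.mul h4
    have h3 : ContinuousOn (fun t => argSelfAdjoint (Z t)) (Icc 0 1) := by
      refine (continuousOn_argSelfAdjoint (A := Bd H)).comp hZc.continuousOn (fun t ht => ?_)
      rw [Metric.mem_ball, Subtype.dist_eq, dist_eq_norm]
      have := hZ t ht
      show ‖((Z t : unitary (Bd H)) : Bd H) - 1‖ < 2
      linarith
    have h4 : ContinuousOn (fun t => lg L (Z t)) (Icc 0 1) :=
      Complex.continuous_re.comp_continuousOn
        ((continuous_trL L).comp_continuousOn (continuous_subtype_val.comp_continuousOn h3))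
    exact ((h4.sub (continuousOn_id.mul continuousOn_const)).sub
      (continuousOn_id.mul continuousOn_const)).div_const _
  have h3 := const_of_int hcont hΦint
  have h4 : Φ 0 = 0 := by
    show (lg L (Z 0) - 0 * lg L X - 0 * lg L Y) / (2 * Real.pi) = 0
    have h5 : Z 0 = 1 := by
      show expUnitary ((0 : ℝ) • a) * expUnitary ((0 : ℝ) • b) = 1
      have h6 : (0 : ℝ) • a = 0 := by ext1; simp
      have h7 : (0 : ℝ) • b = 0 := by ext1; simp
      rw [h6, h7, expUnitary_zero, mul_one]
    rw [h5, lg_one]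
    ring
  have h5 : Φ 1 = (lg L (X * Y) - lg L X - lg L Y) / (2 * Real.pi) := by
    show (lg L (Z 1) - 1 * lg L X - 1 * lg L Y) / (2 * Real.pi) = _
    have h6 : Z 1 = X * Y := by
      show expUnitary ((1 : ℝ) • a) * expUnitary ((1 : ℝ) • b) = X * Y
      have h6 : (1 : ℝ) • a = a := by ext1; simp
      have h7 : (1 : ℝ) • b = b := by ext1; simp
      rw [h6, h7, ha, hb, expUnitary_argSelfAdjoint (by linarith),
        expUnitary_argSelfAdjoint (by linarith)]
    rw [h6]
    ring
  rw [h4, h5, div_eq_zero_iff] at h3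
  rcases h3 with h3 | h3
  · linarith
  · have := Real.pi_pos
    linarith

end

end Pool.Agent.Ped8316
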