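import Mathlib
import Pool.Agent.Lib.Ped8316.Log

/-!
# The index of a pair of almost commuting unitaries
-/

set_option autoImplicit false
set_option linter.unusedSectionVars false

open Topology Filter Set selfAdjoint Unitary
open scoped InnerProductSpace ComplexConjugate

namespace Pool.Agent.Ped8316

variable {H : Type*} [NormedAddCommGroup H] [InnerProductSpace ℂ H] [CompleteSpace H]

lemma umul_star (U : unitary (Bd H)) : (U : Bd H) * star (U : Bd H) = 1 :=
  Unitary.mul_star_self_of_mem U.2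

lemma ustar_mul (U : unitary (Bd H)) : star (U : Bd H) * (U : Bd H) = 1 :=
  Unitary.star_mul_self_of_mem U.2

lemma Red.ustar {L : Submodule ℂ H} [L.HasOrthogonalProjection] {U : unitary (Bd H)}
    (hU : Red L (U : Bd H)) : Red L ((Star.star U : unitary (Bd H)) : Bd H) := by
  rw [Unitary.coe_star]; exact hU.star

lemma Red.umul {L : Submodule ℂ H} [L.HasOrthogonalProjection] {U V : unitary (Bd H)}
    (hU : Red L (U : Bd H)) (hV : Red L (V : Bd H)) :
    Red L ((U * V : unitary (Bd H)) : Bd H) := by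
  rw [Submonoid.coe_mul]; exact hU.mul hV

lemma norm_conj_sub_one (W X : unitary (Bd H)) :
    ‖((W * X * star W : unitary (Bd H)) : Bd H) - 1‖ = ‖(X : Bd H) - 1‖ := by
  have h5 : ((W * X * star W : unitary (Bd H)) : Bd H) - 1 =
      (W : Bd H) * ((X : Bd H) - 1) * ((star W : unitary (Bd H)) : Bd H) := by
    rw [mul_sub, sub_mul, mul_one, Unitary.coe_star, umul_star, Submonoid.coe_mul,
      Submonoid.coe_mul, Unitary.coe_star]
  rw [h5, CStarRing.norm_mul_coe_unitary, CStarRing.norm_coe_unitary_mul]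

lemma norm_star_sub_one (W : unitary (Bd H)) :
    ‖((star W : unitary (Bd H)) : Bd H) - 1‖ = ‖(W : Bd H) - 1‖ := by
  have h1 : ((star W : unitary (Bd H)) : Bd H) - 1 = star ((W : Bd H) - 1) := by
    rw [star_sub, star_one, Unitary.coe_star]
  rw [h1, norm_star]

lemma norm_star_mul_sub_one (U U' : unitary (Bd H)) :
    ‖((star U * U' : unitary (Bd H)) : Bd H) - 1‖ = ‖(U' : Bd H) - U‖ := by
  have h5 : ((star U * U' : unitary (Bd H)) : Bd H) - 1 =
      ((star U : unitary (Bd H)) : Bd H) * ((U' : Bd H) - U) := by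
    rw [mul_sub, Unitary.coe_star, ustar_mul, Submonoid.coe_mul, Unitary.coe_star]
  rw [h5, CStarRing.norm_coe_unitary_mul]

/-- the multiplicative commutator -/
noncomputable def cm (U V : unitary (Bd H)) : unitary (Bd H) := U * V * star U * star V

/-- the norm of the commutator -/
noncomputable def nc (U V : unitary (Bd H)) : ℝ := ‖(U : Bd H) * V - V * U‖

lemma coe_cm_sub_one (U V : unitary (Bd H)) :
    ((cm U V : unitary (Bd H)) : Bd H) - 1 =
      ((U : Bd H) * V - V * U) * ((star U * star V : unitary (Bd H)) : Bd H) := by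
  have h1 : (V : Bd H) * U * (star (U : Bd H) * star (V : Bd H)) = 1 := by
    have h2 := umul_star U
    have h3 := umul_star V
    calc (V : Bd H) * U * (star (U : Bd H) * star (V : Bd H))
        = V * (U * star (U : Bd H)) * star (V : Bd H) := by noncomm_ring
      _ = 1 := by rw [h2, mul_one, h3]
  unfold cm
  simp only [Submonoid.coe_mul, Unitary.coe_star]
  rw [sub_mul, h1]
  noncomm_ring

lemma norm_cm (U V : unitary (Bd H)) : ‖((cm U V : unitary (Bd H)) : Bd H) - 1‖ = nc U V := by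
  rw [coe_cm_sub_one, CStarRing.norm_mul_coe_unitary]
  rfl

lemma nc_nonneg (U V : unitary (Bd H)) : 0 ≤ nc U V := norm_nonneg _

lemma nc_symm (U V : unitary (Bd H)) : nc U V = nc V U := by
  unfold nc
  rw [← norm_neg, neg_sub]

lemma nc_le_two (W V : unitary (Bd H)) : nc W V ≤ 2 * ‖(W : Bd H) - 1‖ := by
  unfold nc
  have h1 : (W : Bd H) * V - V * W = ((W : Bd H) - 1) * V - V * ((W : Bd H) - 1) := by noncomm_ring
  rw [h1]
  refine (norm_sub_le _ _).trans ?_
  rw [CStarRing.norm_mul_coe_unitary, CStarRing.norm_coe_unitary_mul]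
  linarith

lemma nc_mul (U₁ U₂ V : unitary (Bd H)) : nc (U₁ * U₂) V ≤ nc U₁ V + nc U₂ V := by
  unfold nc
  have h1 : ((U₁ * U₂ : unitary (Bd H)) : Bd H) * V - V * ((U₁ * U₂ : unitary (Bd H)) : Bd H) =
      (U₁ : Bd H) * ((U₂ : Bd H) * V - V * U₂) + ((U₁ : Bd H) * V - V * U₁) * U₂ := by
    rw [Submonoid.coe_mul]
    noncomm_ring
  rw [h1]
  refine (norm_add_le _ _).trans ?_
  rw [CStarRing.norm_coe_unitary_mul, CStarRing.norm_mul_coe_unitary]
  linarith

lemma nc_congr (U U' V V' : unitary (Bd H)) :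
    nc U' V' ≤ nc U V + 2 * ‖(U' : Bd H) - U‖ + 2 * ‖(V' : Bd H) - V‖ := by
  unfold nc
  have h1 : (U' : Bd H) * V' - V' * U' = ((U : Bd H) * V - V * U) + ((U' : Bd H) - U) * V' -
      V' * ((U' : Bd H) - U) + U * ((V' : Bd H) - V) - ((V' : Bd H) - V) * U := by noncomm_ring
  rw [h1]
  have h2 := norm_sub_le (((U : Bd H) * V - V * U) + ((U' : Bd H) - U) * V' -
      V' * ((U' : Bd H) - U) + U * ((V' : Bd H) - V)) (((V' : Bd H) - V) * U)
  have h3 := norm_add_le (((U : Bd H) * V - V * U) + ((U' : Bd H) - U) * V' -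
      V' * ((U' : Bd H) - U)) (U * ((V' : Bd H) - V))
  have h4 := norm_sub_le (((U : Bd H) * V - V * U) + ((U' : Bd H) - U) * V')
      (V' * ((U' : Bd H) - U))
  have h5 := norm_add_le ((U : Bd H) * V - V * U) (((U' : Bd H) - U) * V')
  rw [CStarRing.norm_mul_coe_unitary] at h2 h5
  rw [CStarRing.norm_coe_unitary_mul] at h3 h4
  linarith

lemma Red.cm {L : Submodule ℂ H} [L.HasOrthogonalProjection] {U V : unitary (Bd H)}
    (hU : Red L (U : Bd H)) (hV : Red L (V : Bd H)) :
    Red L ((Ped8316.cm U V : unitary (Bd H)) : Bd H) :=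
  ((hU.umul hV).umul hU.ustar).umul hV.ustar

/-- the index -/
noncomputable def om (L : Submodule ℂ H) [L.HasOrthogonalProjection] (U V : unitary (Bd H)) : ℝ :=
  lg L (cm U V) / (2 * Real.pi)

section

variable {L : Submodule ℂ H} [FiniteDimensional ℂ L]

lemma om_int {U V : unitary (Bd H)} (hU : Red L (U : Bd H)) (hV : Red L (V : Bd H))
    (h : nc U V < 2) : ∃ k : ℤ, om L U V = k := by
  have h1 : ‖((cm U V : unitary (Bd H)) : Bd H) - 1‖ < 2 := by rw [norm_cm]; exact h
  have h2 := detL_eq_exp_lg (hU.cm hV) h1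
  have h3 : detL L ((cm U V : unitary (Bd H)) : Bd H) = 1 := by
    have e1 : detL L (U : Bd H) * detL L (star (U : Bd H)) = 1 := by
      rw [← detL_mul L _ (fun x hx => hU.star.mem hx), umul_star, detL_one]
    have e2 : detL L (V : Bd H) * detL L (star (V : Bd H)) = 1 := by
      rw [← detL_mul L _ (fun x hx => hV.star.mem hx), umul_star, detL_one]
    have e3 : detL L ((cm U V : unitary (Bd H)) : Bd H) =
        detL L (U : Bd H) * detL L (V : Bd H) * detL L (star (U : Bd H)) *
          detL L (star (V : Bd H)) := by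
      unfold cm
      simp only [Submonoid.coe_mul, Unitary.coe_star]
      rw [detL_mul L _ (fun x hx => hV.star.mem hx), detL_mul L _ (fun x hx => hU.star.mem hx),
        detL_mul L _ (fun x hx => hV.mem hx)]
    rw [e3]
    linear_combination e2 + (detL L (V : Bd H) * detL L (star (V : Bd H))) * e1
  rw [h3] at h2
  obtain ⟨k, hk⟩ := Complex.exp_eq_one_iff.1 h2.symm
  refine ⟨k, ?_⟩
  have h4 : ((lg L (cm U V) : ℝ) : ℂ) = ((k * (2 * Real.pi) : ℝ) : ℂ) := by
    have h7 : Complex.I * ((lg L (cm U V) : ℝ) : ℂ) = Complex.I * ((k * (2 * Real.pi) : ℝ) : ℂ) := by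
      rw [hk]; push_cast; ring
    exact mul_left_cancel₀ Complex.I_ne_zero h7
  have h5 : lg L (cm U V) = k * (2 * Real.pi) := by exact_mod_cast h4
  unfold om
  rw [h5]
  field_simp

lemma arg_conj {W X : unitary (Bd H)} (h : ‖(X : Bd H) - 1‖ < 2) :
    ((argSelfAdjoint (W * X * star W) : selfAdjoint (Bd H)) : Bd H) =
      W * (argSelfAdjoint X : Bd H) * star (W : Bd H) := by
  have hWW := ustar_mul W
  have hWW' := umul_star W
  set a := argSelfAdjoint X with ha
  have hsa : IsSelfAdjoint ((W : Bd H) * (a : Bd H) * star (W : Bd H)) := by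
    rw [IsSelfAdjoint, star_mul, star_mul, star_star, a.2.star_eq, mul_assoc]
  let a' : selfAdjoint (Bd H) := ⟨_, hsa⟩
  have h1 : expUnitary a' = W * X * star W := by
    ext1
    rw [expUnitary_coe]
    have h2 : (Complex.I • (a' : Bd H)) = (W : Bd H) * (Complex.I • (a : Bd H)) * star (W : Bd H) := by
      show Complex.I • ((W : Bd H) * (a : Bd H) * star (W : Bd H)) = _
      rw [mul_smul_comm, smul_mul_assoc]
    let w : (Bd H)ˣ := ⟨(W : Bd H), star (W : Bd H), hWW', hWW⟩
    let +nondep : NormedAlgebra ℚ (Bd H) := .restrictScalars ℚ ℂ (Bd H)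
    have h3 : NormedSpace.exp ((w : Bd H) * (Complex.I • (a : Bd H)) * ((w⁻¹ : (Bd H)ˣ) : Bd H)) =
        (w : Bd H) * NormedSpace.exp (Complex.I • (a : Bd H)) * ((w⁻¹ : (Bd H)ˣ) : Bd H) :=
      NormedSpace.exp_units_conj w _
    have h4 : ((w⁻¹ : (Bd H)ˣ) : Bd H) = star (W : Bd H) := rfl
    rw [h4] at h3
    have h5 : (w : Bd H) = (W : Bd H) := rfl
    rw [h5] at h3
    rw [h2, h3, ← expUnitary_coe, expUnitary_argSelfAdjoint h]
    rfl
  have h2 : ‖a'‖ < Real.pi := by
    have h3 : ‖(a' : Bd H)‖ = ‖(a : Bd H)‖ := by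
      show ‖(W : Bd H) * (a : Bd H) * star (W : Bd H)‖ = _
      rw [show star (W : Bd H) = ((star W : unitary (Bd H)) : Bd H) from rfl,
        CStarRing.norm_mul_coe_unitary, CStarRing.norm_coe_unitary_mul]
    have h4 := norm_arg_lt h
    show ‖(a' : Bd H)‖ < Real.pi
    rw [h3]
    exact h4
  rw [← h1, argSelfAdjoint_expUnitary h2]

lemma lg_conj {W X : unitary (Bd H)} (hW : Red L (W : Bd H)) (hX : Red L (X : Bd H))
    (h : ‖(X : Bd H) - 1‖ < 2) : lg L (W * X * star W) = lg L X := by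
  unfold lg
  rw [arg_conj h, trL_conj L (fun x hx => hW.mem hx) (fun x hx => hX.arg.mem hx)
    (fun x hx => hW.star.mem hx) (ustar_mul W)]

lemma om_mul_left {U₁ U₂ V : unitary (Bd H)} (h1 : Red L (U₁ : Bd H)) (h2 : Red L (U₂ : Bd H))
    (hV : Red L (V : Bd H)) (n1 : nc U₁ V ≤ 1 / 2) (n2 : nc U₂ V ≤ 1 / 2) :
    om L (U₁ * U₂) V = om L U₁ V + om L U₂ V := by
  have e : cm (U₁ * U₂) V = (U₁ * cm U₂ V * star U₁) * cm U₁ V := by
    unfold cm
    have h3 : star V * V = 1 := Unitary.star_mul_self V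
    have h4 : star U₁ * U₁ = 1 := Unitary.star_mul_self U₁
    rw [star_mul]
    calc U₁ * U₂ * V * (star U₂ * star U₁) * star V
        = U₁ * U₂ * V * star U₂ * (star V * V) * star U₁ * star V := by
          rw [h3, mul_one]; simp only [mul_assoc]
      _ = U₁ * U₂ * V * star U₂ * star V * (star U₁ * U₁) * V * star U₁ * star V := by
          rw [h4, mul_one]; simp only [mul_assoc]
      _ = _ := by simp only [mul_assoc]
  have hc1 : ‖((cm U₁ V : unitary (Bd H)) : Bd H) - 1‖ ≤ 1 / 2 := by rw [norm_cm]; exact n1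
  have hc2 : ‖((cm U₂ V : unitary (Bd H)) : Bd H) - 1‖ ≤ 1 / 2 := by rw [norm_cm]; exact n2
  have hc3 : ‖((U₁ * cm U₂ V * star U₁ : unitary (Bd H)) : Bd H) - 1‖ ≤ 1 / 2 := by
    rw [norm_conj_sub_one]
    exact hc2
  unfold om
  rw [e, lg_mul ((h1.umul (h2.cm hV)).umul h1.ustar) (h1.cm hV) hc3 hc1,
    lg_conj h1 (h2.cm hV) (by linarith)]
  ring

lemma om_symm {U V : unitary (Bd H)} (h : nc U V < 2) : om L V U = -om L U V := by
  have e : cm V U = star (cm U V) := by
    unfold cm
    simp only [star_mul, star_star, mul_assoc]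
  unfold om
  rw [e, lg_star (by rw [norm_cm]; exact h)]
  ring

lemma om_mul_right {U V₁ V₂ : unitary (Bd H)} (hU : Red L (U : Bd H)) (h1 : Red L (V₁ : Bd H))
    (h2 : Red L (V₂ : Bd H)) (n1 : nc U V₁ ≤ 1 / 2) (n2 : nc U V₂ ≤ 1 / 2) :
    om L U (V₁ * V₂) = om L U V₁ + om L U V₂ := by
  have h3 := om_mul_left (L := L) h1 h2 hU (by rw [nc_symm]; exact n1) (by rw [nc_symm]; exact n2)
  have h4 : nc (V₁ * V₂) U ≤ 1 := by
    have h5 := nc_mul V₁ V₂ U
    rw [nc_symm V₁, nc_symm V₂] at h5
    linarith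
  rw [om_symm (U := V₁ * V₂) (V := U) (by linarith), h3,
    om_symm (L := L) (U := V₁) (V := U) (by rw [nc_symm]; linarith),
    om_symm (L := L) (U := V₂) (V := U) (by rw [nc_symm]; linarith)]
  ring

lemma om_near_one {W V : unitary (Bd H)} (hW : Red L (W : Bd H)) (hV : Red L (V : Bd H))
    (h : ‖(W : Bd H) - 1‖ ≤ 1 / 2) : om L W V = 0 := by
  have hs : ‖((star W : unitary (Bd H)) : Bd H) - 1‖ ≤ 1 / 2 := by
    rw [norm_star_sub_one]
    exact h
  have e : cm W V = W * (V * star W * star V) := by unfold cm; simp only [mul_assoc]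
  have hc3 : ‖((V * star W * star V : unitary (Bd H)) : Bd H) - 1‖ ≤ 1 / 2 := by
    rw [norm_conj_sub_one]
    exact hs
  have e1 := lg_mul hW ((hV.umul hW.ustar).umul hV.ustar) h hc3
  have e2 := lg_conj hV hW.ustar (by linarith)
  have e3 : lg L (star W) = -lg L W := lg_star (by linarith)
  unfold om
  rw [e, e1, e2, e3]
  ring

lemma om_congr {U U' V V' : unitary (Bd H)} (hU : Red L (U : Bd H)) (hU' : Red L (U' : Bd H))
    (hV : Red L (V : Bd H)) (hV' : Red L (V' : Bd H)) (n : nc U V ≤ 1 / 4)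
    (h1 : ‖(U' : Bd H) - U‖ ≤ 1 / 8) (h2 : ‖(V' : Bd H) - V‖ ≤ 1 / 8) :
    om L U' V' = om L U V := by
  have hW : U' = U * (star U * U') := by
    rw [← mul_assoc, Unitary.mul_star_self, one_mul]
  have hW' : V' = V * (star V * V') := by
    rw [← mul_assoc, Unitary.mul_star_self, one_mul]
  have n1 : ‖((star U * U' : unitary (Bd H)) : Bd H) - 1‖ ≤ 1 / 8 := by
    rw [norm_star_mul_sub_one]
    exact h1
  have n2 : ‖((star V * V' : unitary (Bd H)) : Bd H) - 1‖ ≤ 1 / 8 := by
    rw [norm_star_mul_sub_one]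
    exact h2
  have hRU : Red L ((star U * U' : unitary (Bd H)) : Bd H) := hU.ustar.umul hU'
  have hRV : Red L ((star V * V' : unitary (Bd H)) : Bd H) := hV.ustar.umul hV'
  have e1 : om L U' V = om L U V := by
    rw [hW, om_mul_left hU hRU hV (by linarith)
      ((nc_le_two _ _).trans (by linarith)), om_near_one hRU hV (by linarith), add_zero]
  have n3 : nc U' V ≤ 1 / 2 := by
    have := nc_congr U U' V V
    rw [sub_self, norm_zero] at this
    linarith
  have n4 : nc U' (star V * V') ≤ 1 / 2 := by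
    rw [nc_symm]
    exact (nc_le_two _ _).trans (by linarith)
  rw [← e1, hW', om_mul_right hU' hV hRV n3 n4]
  rw [om_symm (L := L) (U := star V * V') (V := U') (by rw [nc_symm]; linarith),
    om_near_one hRV hU' (by linarith)]
  ring

lemma om_one (V : unitary (Bd H)) : om L 1 V = 0 := by
  unfold om
  have : cm 1 V = 1 := by
    unfold cm
    rw [one_mul, star_one, mul_one, Unitary.mul_star_self]
  rw [this, lg_one]
  ring

lemma om_orth {L₁ L₂ L : Submodule ℂ H} [FiniteDimensional ℂ L₁] [FiniteDimensional ℂ L₂]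
    [FiniteDimensional ℂ L] (h1 : L₁ ≤ L) (h2 : L₂ ≤ L)
    (h : L.starProjection = L₁.starProjection + L₂.starProjection) (U V : unitary (Bd H)) :
    om L U V = om L₁ U V + om L₂ U V := by
  unfold om lg
  rw [trL_orth h1 h2 h, Complex.add_re]
  ring

/-- the index vanishes if the commutator is small compared with the dimension -/
lemma om_small {U V : unitary (Bd H)} (hU : Red L (U : Bd H)) (hV : Red L (V : Bd H)) {κ : ℝ}
    (hκ : ∀ x ∈ L, ‖(((cm U V : unitary (Bd H)) : Bd H) - 1) x‖ ≤ κ * ‖x‖)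
    (hκ2 : Module.finrank ℂ L * κ < 4) (h : nc U V < 2) : om L U V = 0 := by
  have h1 : ‖((cm U V : unitary (Bd H)) : Bd H) - 1‖ < 2 := by rw [norm_cm]; exact h
  obtain ⟨k, hk⟩ := om_int hU hV h
  have hR := (hU.cm hV).arg
  set D := argSelfAdjoint (cm U V) with hD
  have hT := isSymmetric_cmp L D.2
  set e := hT.eigenvectorBasis rfl with he
  have h3 : ∀ i, (D : Bd H) (e i : H) = ((hT.eigenvalues rfl i : ℝ) : ℂ) • (e i : H) := by
    intro i
    have h2 := hT.apply_eigenvectorBasis rfl i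
    have h3 := congrArg (fun x : L => (x : H)) h2
    simp only [coe_cmp_apply] at h3
    rw [Submodule.starProjection_eq_self_iff.2 (hR.mem (Submodule.coe_mem _))] at h3
    exact h3
  have hne : ∀ i, ‖(e i : H)‖ = 1 := fun i => e.orthonormal.1 i
  have h4 : ∀ i, |hT.eigenvalues rfl i| ≤ Real.pi := by
    intro i
    have h5 := (D : Bd H).le_opNorm (e i : H)
    rw [h3 i, norm_smul, hne, mul_one, mul_one, Complex.norm_real, Real.norm_eq_abs] at h5
    exact h5.trans (norm_arg_lt h1).le
  have h5 : ∀ i, |hT.eigenvalues rfl i| ≤ Real.pi / 2 * κ := by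
    intro i
    set lam := hT.eigenvalues rfl i with hlam
    have h6 : ((cm U V : unitary (Bd H)) : Bd H) (e i : H) = Complex.exp (Complex.I * (lam : ℂ)) • (e i : H) := by
      rw [← expUnitary_argSelfAdjoint h1, expUnitary_coe]
      refine exp_apply_eigen ?_
      rw [smul_apply, h3 i, smul_smul]
    have h7 := hκ (e i : H) (e i).2
    rw [sub_apply, h6, one_apply_eq_self, hne, mul_one] at h7
    have h8 : Complex.exp (Complex.I * (lam : ℂ)) • (e i : H) - (e i : H) =
        (Complex.exp (Complex.I * (lam : ℂ)) - 1) • (e i : H) := by rw [sub_smul, one_smul]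
    rw [h8, norm_smul, hne, mul_one] at h7
    have h9 : ‖Complex.exp (Complex.I * (lam : ℂ)) - 1‖ = 2 * |Real.sin (lam / 2)| := by
      have := Complex.norm_exp_I_mul_ofReal_sub_one lam
      rw [this, Real.norm_eq_abs, abs_mul, abs_two]
    have h10 : 2 / Real.pi * |lam / 2| ≤ |Real.sin (lam / 2)| := by
      refine Real.mul_abs_le_abs_sin ?_
      rw [abs_div, abs_two]
      have := h4 i
      linarith
    rw [abs_div, abs_two] at h10
    have hpi := Real.pi_pos
    rw [h9] at h7
    have h11 : 2 / Real.pi * |lam| ≤ κ := by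
      have : 2 / Real.pi * (|lam| / 2) * 2 = 2 / Real.pi * |lam| := by ring
      linarith
    rw [div_mul_eq_mul_div, div_le_iff₀ hpi] at h11
    linarith
  have h6 : |om L U V| < 1 := by
    have h7 : trL L (D : Bd H) = ((∑ i, hT.eigenvalues rfl i : ℝ) : ℂ) := by
      unfold trL
      rw [hT.trace_eq_sum_eigenvalues rfl]
      push_cast
      rfl
    have h8 : lg L (cm U V) = ∑ i, hT.eigenvalues rfl i := by
      unfold lg
      rw [← hD, h7, Complex.ofReal_re]
    have h9 : |lg L (cm U V)| ≤ Module.finrank ℂ L * (Real.pi / 2 * κ) := by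
      rw [h8]
      refine (Finset.abs_sum_le_sum_abs _ _).trans ?_
      refine (Finset.sum_le_sum (fun i _ => h5 i)).trans ?_
      rw [Finset.sum_const, Finset.card_univ, Fintype.card_fin, nsmul_eq_mul]
    unfold om
    have hpi := Real.pi_pos
    rw [abs_div, abs_of_pos (by positivity : 0 < 2 * Real.pi), div_lt_one (by positivity)]
    nlinarith
  rw [hk] at h6 ⊢
  have h7 : |k| < 1 := by exact_mod_cast h6
  have h8 : k = 0 := by
    rw [abs_lt] at h7
    omega
  rw [h8]
  simp

end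

end Pool.Agent.Ped8316
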