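import Mathlib
import Pool.Agent.Lib.Ped8316.Om
import Pool.Agent.Lib.Ped8316.Ops

/-!
# Finite dimensional invariant subspaces of algebras with bounded irreducible subspaces
-/

set_option autoImplicit false
set_option linter.unusedSectionVars false

open Topology Filter Set
open scoped InnerProductSpace ComplexConjugate

namespace Pool.Agent.Ped8316

variable {H : Type*} [NormedAddCommGroup H] [InnerProductSpace ℂ H] [CompleteSpace H]

/-- invariant subspaces -/
def Inv (B : Set (Bd H)) (M : Submodule ℂ H) : Prop := ∀ b ∈ B, ∀ x ∈ M, b x ∈ M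

/-- the irreducible closed invariant subspaces have dimension at most `N` -/
def BddIrr (B : Set (Bd H)) (N : ℕ) : Prop :=
  ∀ M : Submodule ℂ H, IsClosed (M : Set H) → Inv B M → M ≠ ⊥ →
    (∀ M' : Submodule ℂ H, IsClosed (M' : Set H) → Inv B M' → M' ≤ M → M' = ⊥ ∨ M' = M) →
    FiniteDimensional ℂ M ∧ Module.finrank ℂ M ≤ N

lemma Inv.mono {B B' : Set (Bd H)} (h : B ⊆ B') {M : Submodule ℂ H} (hM : Inv B' M) : Inv B M :=
  fun b hb => hM b (h hb)

lemma Inv.inf {B : Set (Bd H)} {M M' : Submodule ℂ H} (h : Inv B M) (h' : Inv B M') :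
    Inv B (M ⊓ M') := fun b hb x hx => ⟨h b hb x hx.1, h' b hb x hx.2⟩

lemma Inv.sup {B : Set (Bd H)} {M M' : Submodule ℂ H} (h : Inv B M) (h' : Inv B M') :
    Inv B (M ⊔ M') := by
  intro b hb x hx
  obtain ⟨y, hy, z, hz, rfl⟩ := Submodule.mem_sup.1 hx
  rw [map_add]
  exact Submodule.add_mem_sup (h b hb y hy) (h' b hb z hz)

variable {B : StarSubalgebra ℂ (Bd H)}

lemma Inv.orth {M : Submodule ℂ H} (h : Inv (B : Set (Bd H)) M) : Inv (B : Set (Bd H)) Mᗮ := by
  intro b hb x hx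
  rw [Submodule.mem_orthogonal] at hx ⊢
  intro y hy
  rw [← ContinuousLinearMap.adjoint_inner_left, ← ContinuousLinearMap.star_eq_adjoint]
  exact hx _ (h (star b) (star_mem hb) y hy)

lemma Inv.closure {M : Submodule ℂ H} (h : Inv (B : Set (Bd H)) M) :
    Inv (B : Set (Bd H)) M.topologicalClosure := by
  intro b hb x hx
  exact map_mem_closure b.continuous hx (fun y hy => h b hb y hy)

lemma Inv.red {M : Submodule ℂ H} [M.HasOrthogonalProjection] (h : Inv (B : Set (Bd H)) M)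
    {b : Bd H} (hb : b ∈ B) : Red M b :=
  red_of_invariant (fun x hx => h b hb x hx) (fun x hx => h (star b) (star_mem hb) x hx)

lemma sa_inner {r : Bd H} (hr : IsSelfAdjoint r) (x y : H) : ⟪r x, y⟫_ℂ = ⟪x, r y⟫_ℂ :=
  hr.isSymmetric x y

/-- an irreducible piece not killed by `r` -/
lemma exists_irr {N : ℕ} (hB : BddIrr (B : Set (Bd H)) N) {r : Bd H} (hr : r ∈ B)
    (hsa : IsSelfAdjoint r) (hfin : FinRk r) {M : Submodule ℂ H} (hM : IsClosed (M : Set H))
    (hMi : Inv (B : Set (Bd H)) M) (hne : ∃ x ∈ M, r x ≠ 0) :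
    ∃ M₁ : Submodule ℂ H, M₁ ≤ M ∧ FiniteDimensional ℂ M₁ ∧ Inv (B : Set (Bd H)) M₁ ∧
      ∃ x ∈ M₁, r x ≠ 0 := by
  have := hfin
  unfold FinRk at this
  set R := LinearMap.range (r : H →ₗ[ℂ] H) with hR
  have hmapfin : ∀ M' : Submodule ℂ H, FiniteDimensional ℂ (M'.map (r : H →ₗ[ℂ] H)) := fun M' =>
    Submodule.finiteDimensional_of_le (S₂ := R) (LinearMap.map_le_range)
  let P : Set (Submodule ℂ H) := {M' | M' ≤ M ∧ IsClosed (M' : Set H) ∧
    Inv (B : Set (Bd H)) M' ∧ ∃ x ∈ M', r x ≠ 0}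
  have hPne : P.Nonempty := ⟨M, le_rfl, hM, hMi, hne⟩
  let f : Submodule ℂ H → ℕ := fun M' => Module.finrank ℂ (M'.map (r : H →ₗ[ℂ] H))
  obtain ⟨M', hM', hmin⟩ := WellFounded.has_min (measure f).wf P hPne
  have hmin2 : ∀ M'' ∈ P, f M' ≤ f M'' := fun M'' h => not_lt.1 (hmin M'' h)
  obtain ⟨hM'M, hM'c, hM'i, y, hy, hry⟩ := hM'
  let S : Submodule ℂ H := Submodule.span ℂ {v | ∃ b ∈ B, ∃ z ∈ M', v = b (r z)}
  have hSi : Inv (B : Set (Bd H)) S := by
    intro b hb x hx
    have h1 : S ≤ S.comap (b : H →ₗ[ℂ] H) := by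
      refine Submodule.span_le.2 ?_
      rintro _ ⟨b', hb', z, hz, rfl⟩
      exact Submodule.subset_span ⟨b * b', mul_mem hb hb', z, hz, rfl⟩
    exact h1 hx
  have hSM : S ≤ M' := by
    refine Submodule.span_le.2 ?_
    rintro _ ⟨b', hb', z, hz, rfl⟩
    exact hM'i b' hb' _ (hM'i r hr z hz)
  have hSM' : S.topologicalClosure ≤ M' := Submodule.topologicalClosure_minimal _ hSM hM'c
  have hry1 : r y ∈ S := Submodule.subset_span ⟨1, one_mem B, y, hy, rfl⟩
  have hrr : r (r y) ≠ 0 := by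
    intro h
    apply hry
    have h1 : ⟪r y, r y⟫_ℂ = 0 := by rw [sa_inner hsa, h, inner_zero_right]
    exact inner_self_eq_zero.1 h1
  have hirr : ∀ M'' : Submodule ℂ H, IsClosed (M'' : Set H) → Inv (B : Set (Bd H)) M'' →
      M'' ≤ S.topologicalClosure → M'' = ⊥ ∨ M'' = S.topologicalClosure := by
    intro M'' hc hi hle
    by_cases h : ∃ x ∈ M'', r x ≠ 0
    · right
      refine le_antisymm hle ?_
      have h1 := hmin2 M'' ⟨hle.trans (hSM'.trans hM'M), hc, hi, h⟩
      have h2 : M''.map (r : H →ₗ[ℂ] H) ≤ M'.map (r : H →ₗ[ℂ] H) :=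
        Submodule.map_mono (hle.trans hSM')
      have h3 : M''.map (r : H →ₗ[ℂ] H) = M'.map (r : H →ₗ[ℂ] H) := by
        have := hmapfin M'
        exact Submodule.eq_of_le_of_finrank_le h2 h1
      refine Submodule.topologicalClosure_minimal _ (Submodule.span_le.2 ?_) hc
      rintro _ ⟨b', hb', z, hz, rfl⟩
      have h4 : r z ∈ M''.map (r : H →ₗ[ℂ] H) := by rw [h3]; exact ⟨z, hz, rfl⟩
      obtain ⟨w, hw, hw2⟩ := h4
      have h5 : r z ∈ M'' := by
        rw [← hw2]
        exact hi r hr w hw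
      exact hi b' hb' _ h5
    · left
      push Not at h
      have h1 : M'' ≤ Sᗮ := by
        intro x hx
        have h2 : Submodule.span ℂ {x} ⟂ S := by
          rw [Submodule.isOrtho_span]
          rintro u (rfl : u = x) _ ⟨b', hb', z, hz, rfl⟩
          have h3 : (star b') u ∈ M'' := hi _ (star_mem hb') u hx
          rw [← ContinuousLinearMap.adjoint_inner_left, ← ContinuousLinearMap.star_eq_adjoint,
            ← sa_inner hsa, h _ h3, inner_zero_left]
        exact h2 (Submodule.mem_span_singleton_self x)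
      have h2 : M'' ≤ S.topologicalClosureᗮ := by
        rwa [Submodule.orthogonal_closure]
      rw [eq_bot_iff]
      intro x hx
      have h3 := h2 hx
      rw [Submodule.mem_orthogonal] at h3
      exact inner_self_eq_zero.1 (h3 x (hle hx))
  have hnb : S.topologicalClosure ≠ ⊥ := by
    intro h
    have h1 : r y ∈ S.topologicalClosure := S.le_topologicalClosure hry1
    rw [h, Submodule.mem_bot] at h1
    exact hry h1
  refine ⟨S.topologicalClosure, hSM'.trans hM'M,
    (hB _ S.isClosed_topologicalClosure hSi.closure hnb hirr).1, hSi.closure, r y,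
    S.le_topologicalClosure hry1, hrr⟩

/-- Lemma F -/
theorem exists_fd {N : ℕ} (hB : BddIrr (B : Set (Bd H)) N) {r : Bd H} (hr : r ∈ B)
    (hsa : IsSelfAdjoint r) (hfin : FinRk r) :
    ∃ L : Submodule ℂ H, FiniteDimensional ℂ L ∧ Inv (B : Set (Bd H)) L ∧ ∀ x, r x ∈ L := by
  have := hfin
  unfold FinRk at this
  set R := LinearMap.range (r : H →ₗ[ℂ] H) with hR
  have hmapfin : ∀ M' : Submodule ℂ H, FiniteDimensional ℂ (M'.map (r : H →ₗ[ℂ] H)) := fun M' =>
    Submodule.finiteDimensional_of_le (S₂ := R) (LinearMap.map_le_range)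
  let P : Set (Submodule ℂ H) := {L | FiniteDimensional ℂ L ∧ Inv (B : Set (Bd H)) L}
  have hPne : P.Nonempty := by
    refine ⟨⊥, inferInstance, fun b _ x hx => ?_⟩
    rw [Submodule.mem_bot] at hx ⊢
    rw [hx, map_zero]
  let f : Submodule ℂ H → ℕ := fun M' => Module.finrank ℂ R -
    Module.finrank ℂ (M'.map (r : H →ₗ[ℂ] H))
  obtain ⟨L, hL, hmin⟩ := WellFounded.has_min (measure f).wf P hPne
  have hmin2 : ∀ M'' ∈ P, f L ≤ f M'' := fun M'' h => not_lt.1 (hmin M'' h)
  obtain ⟨hLf, hLi⟩ := hL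
  refine ⟨L, hLf, hLi, ?_⟩
  by_contra hcon
  push Not at hcon
  obtain ⟨x₀, hx₀⟩ := hcon
  have h1 : ∃ x ∈ Lᗮ, r x ≠ 0 := by
    by_contra h
    push Not at h
    apply hx₀
    rw [← L.orthogonal_orthogonal, Submodule.mem_orthogonal]
    intro z hz
    rw [← sa_inner hsa, h z hz, inner_zero_left]
  obtain ⟨M₁, hM₁, hM₁f, hM₁i, x, hx, hrx⟩ := exists_irr hB hr hsa hfin L.isClosed_orthogonal
    hLi.orth h1
  have h2 : L ⊔ M₁ ∈ P := ⟨Submodule.finiteDimensional_sup _ _, hLi.sup hM₁i⟩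
  have h3 := hmin2 _ h2
  have h4 : L.map (r : H →ₗ[ℂ] H) < (L ⊔ M₁).map (r : H →ₗ[ℂ] H) := by
    refine lt_of_le_of_ne (Submodule.map_mono le_sup_left) (fun h => hrx ?_)
    have h5 : r x ∈ (L ⊔ M₁).map (r : H →ₗ[ℂ] H) := ⟨x, (le_sup_right : M₁ ≤ L ⊔ M₁) hx, rfl⟩
    rw [← h] at h5
    obtain ⟨z, hz, hz2⟩ := h5
    have h6 : r x ∈ L := by
      rw [← hz2]
      exact hLi r hr z hz
    have h7 : r x ∈ Lᗮ := hM₁ (hM₁i r hr x hx)
    rw [Submodule.mem_orthogonal] at h7
    exact inner_self_eq_zero.1 (h7 _ h6)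
  have h5 : Module.finrank ℂ (L.map (r : H →ₗ[ℂ] H)) <
      Module.finrank ℂ ((L ⊔ M₁).map (r : H →ₗ[ℂ] H)) := by
    have := hmapfin (L ⊔ M₁)
    exact Submodule.finrank_lt_finrank_of_lt h4
  have h6 : Module.finrank ℂ ((L ⊔ M₁).map (r : H →ₗ[ℂ] H)) ≤ Module.finrank ℂ R :=
    Submodule.finrank_mono LinearMap.map_le_range
  simp only [f] at h3
  omega

/-- splitting of the projection -/
lemma starProjection_split {L₁ L : Submodule ℂ H} [FiniteDimensional ℂ L₁]
    [FiniteDimensional ℂ L] (h : L₁ ≤ L) :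
    L.starProjection = L₁.starProjection + (L ⊓ L₁ᗮ).starProjection := by
  refine ContinuousLinearMap.ext (fun x => ?_)
  rw [add_apply]
  have h1 : L₁.starProjection (L.starProjection x) = L₁.starProjection x :=
    congrArg (fun Y : Bd H => Y x) (Submodule.starProjection_comp_starProjection_of_le h)
  have h2 : (L ⊓ L₁ᗮ).starProjection x = L.starProjection x - L₁.starProjection x := by
    refine Submodule.eq_starProjection_of_mem_orthogonal ⟨?_, ?_⟩ ?_
    · exact L.sub_mem (L.starProjection_apply_mem x) (h (L₁.starProjection_apply_mem x))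
    · have h3 := L₁.sub_starProjection_mem_orthogonal (L.starProjection x)
      rwa [h1] at h3
    · have h3 : x - (L.starProjection x - L₁.starProjection x) =
          (x - L.starProjection x) + L₁.starProjection x := by abel
      rw [h3]
      refine Submodule.add_mem _ ?_ ?_
      · exact Submodule.orthogonal_le inf_le_left (L.sub_starProjection_mem_orthogonal x)
      · have h4 : L₁ᗮᗮ ≤ (L ⊓ L₁ᗮ)ᗮ := Submodule.orthogonal_le inf_le_right
        exact h4 (L₁.le_orthogonal_orthogonal (L₁.starProjection_apply_mem x))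
  rw [h2]
  abel

/-- Lemma V -/
theorem om_zero {N : ℕ} (hB : BddIrr (B : Set (Bd H)) N) {U V : unitary (Bd H)}
    (hU : (U : Bd H) ∈ B) (hV : (V : Bd H) ∈ B) {κ : ℝ} (hκ0 : 0 ≤ κ) (hκ : N * κ < 4)
    (hnc : nc U V < 2) (n : ℕ) :
    ∀ (L : Submodule ℂ H) [FiniteDimensional ℂ L], Module.finrank ℂ L = n →
      Inv (B : Set (Bd H)) L →
      (∀ x ∈ L, ‖(((cm U V : unitary (Bd H)) : Bd H) - 1) x‖ ≤ κ * ‖x‖) → om L U V = 0 := by
  induction n using Nat.strong_induction_on with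
  | _ n ih =>
    intro L hLf hn hLi hL
    by_cases hbot : L = ⊥
    · refine om_small (hLi.red hU) (hLi.red hV) hL ?_ hnc
      have h1 : Module.finrank ℂ L = 0 := by rw [hbot]; exact finrank_bot ℂ H
      rw [h1]
      norm_num
    by_cases hirr : ∀ M' : Submodule ℂ H, IsClosed (M' : Set H) → Inv (B : Set (Bd H)) M' →
      M' ≤ L → M' = ⊥ ∨ M' = L
    · refine om_small (hLi.red hU) (hLi.red hV) hL ?_ hnc
      have h1 := (hB L L.closed_of_finiteDimensional hLi hbot hirr).2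
      have h2 : (Module.finrank ℂ L : ℝ) ≤ N := by exact_mod_cast h1
      nlinarith
    · push Not at hirr
      obtain ⟨L₁, -, h1i, h1L, h1b, h1n⟩ := hirr
      have h1f : FiniteDimensional ℂ L₁ := Submodule.finiteDimensional_of_le h1L
      have h2f : FiniteDimensional ℂ (L ⊓ L₁ᗮ : Submodule ℂ H) :=
        Submodule.finiteDimensional_of_le inf_le_left
      have e1 : Module.finrank ℂ L₁ < n := by
        rw [← hn]
        exact Submodule.finrank_lt_finrank_of_lt (lt_of_le_of_ne h1L h1n)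
      have e2 : Module.finrank ℂ (L ⊓ L₁ᗮ : Submodule ℂ H) < n := by
        rw [← hn]
        refine Submodule.finrank_lt_finrank_of_lt (lt_of_le_of_ne inf_le_left (fun h => h1b ?_))
        rw [eq_bot_iff]
        intro x hx
        have h3 : x ∈ L ⊓ L₁ᗮ := by rw [h]; exact h1L hx
        have h4 : x ∈ L₁ᗮ := h3.2
        rw [Submodule.mem_orthogonal] at h4
        exact inner_self_eq_zero.1 (h4 x hx)
      rw [om_orth h1L inf_le_left (starProjection_split h1L) U V,
        ih _ e1 L₁ rfl h1i (fun x hx => hL x (h1L hx)),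
        ih _ e2 (L ⊓ L₁ᗮ) rfl (hLi.inf h1i.orth) (fun x hx => hL x hx.1), add_zero]

/-! ### spectral cut-off -/

lemma inner_star_mul_self (c : Bd H) (x : H) : ⟪x, (star c * c) x⟫_ℂ = ((‖c x‖ ^ 2 : ℝ) : ℂ) := by
  have h1 : ⟪x, (star c * c) x⟫_ℂ = ⟪c x, c x⟫_ℂ := by
    show ⟪x, (star c) (c x)⟫_ℂ = _
    rw [ContinuousLinearMap.star_eq_adjoint, ContinuousLinearMap.adjoint_inner_right]
  rw [h1, inner_self_eq_norm_sq_to_K]
  norm_cast

lemma nonneg_re_inner {a : Bd H} (h : 0 ≤ a) (x : H) : 0 ≤ (⟪x, a x⟫_ℂ).re := by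
  rw [ContinuousLinearMap.nonneg_iff_isPositive] at h
  exact h.re_inner_nonneg_right x

/-- Lemma R -/
theorem exists_cut [hBc : IsClosed (B : Set (Bd H))] {c : Bd H} (hc : c ∈ B) (hk : IsKp c) {κ : ℝ}
    (hκ : 0 < κ) :
    ∃ r ∈ B, IsSelfAdjoint r ∧ FinRk r ∧ ∀ x, r x = 0 → ‖c x‖ ≤ κ * ‖x‖ := by
  set a := star c * c with ha
  have hsa : IsSelfAdjoint a := IsSelfAdjoint.star_mul_self c
  set f : ℝ → ℝ := fun t => max (t - κ ^ 2) 0 with hf
  have hfc : Continuous f := by fun_prop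
  set r := cfc f a with hr
  have hrsa : IsSelfAdjoint r := cfc_predicate f a
  have hid : cfc (fun t : ℝ => t) a = a := cfc_id' ℝ a
  have hB2 : r ∈ B := cfc_mem f (mul_mem (star_mem hc) hc)
  refine ⟨r, hB2, hrsa, ?_, ?_⟩
  · -- finite rank
    obtain ⟨k, hk1, hk2⟩ := hk (κ / 2) (by linarith)
    have hpos : 0 ≤ r * (a - algebraMap ℝ (Bd H) (κ ^ 2)) * r := by
      have h1 : r * (a - algebraMap ℝ (Bd H) (κ ^ 2)) * r =
          cfc (fun t => f t * (t - κ ^ 2) * f t) a := by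
        rw [cfc_mul (fun t => f t * (t - κ ^ 2)) f a (by fun_prop) (by fun_prop),
          cfc_mul f (fun t => t - κ ^ 2) a (by fun_prop) (by fun_prop),
          cfc_sub (fun t : ℝ => t) (fun _ => κ ^ 2) a (by fun_prop) (by fun_prop), hid,
          cfc_const (κ ^ 2) a]
      rw [h1]
      refine cfc_nonneg (fun t _ => ?_)
      show 0 ≤ f t * (t - κ ^ 2) * f t
      rcases le_total (t - κ ^ 2) 0 with h | h
      · rw [hf]; simp only [max_eq_right h]; simp
      · have : 0 ≤ f t := le_max_right _ _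
        positivity
    have hinj : ∀ y, k (r y) = 0 → r y = 0 := by
      intro y hy
      have h1 := nonneg_re_inner hpos y
      have h2 : ⟪y, (r * (a - algebraMap ℝ (Bd H) (κ ^ 2)) * r) y⟫_ℂ =
          ⟪r y, a (r y)⟫_ℂ - ((κ ^ 2 * ‖r y‖ ^ 2 : ℝ) : ℂ) := by
        have h3 : (r * (a - algebraMap ℝ (Bd H) (κ ^ 2)) * r) y =
            r (a (r y) - ((κ ^ 2 : ℝ) : ℂ) • r y) := by
          show r ((a - algebraMap ℝ (Bd H) (κ ^ 2)) (r y)) = _
          congr 1
        rw [h3, ← sa_inner hrsa, inner_sub_right, inner_smul_right, inner_self_eq_norm_sq_to_K]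
        push_cast
        rfl
      rw [h2, inner_star_mul_self, Complex.sub_re, Complex.ofReal_re, Complex.ofReal_re] at h1
      have h4 : ‖c (r y)‖ ≤ κ / 2 * ‖r y‖ := by
        have h5 : c (r y) = (c - k) (r y) := by rw [sub_apply, hy, sub_zero]
        rw [h5]
        exact (ContinuousLinearMap.le_opNorm _ _).trans
          (mul_le_mul_of_nonneg_right hk2 (norm_nonneg _))
      have h5 : 0 ≤ ‖c (r y)‖ := norm_nonneg _
      have h6 : ‖c (r y)‖ ^ 2 ≤ (κ / 2 * ‖r y‖) ^ 2 := by gcongr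
      have h7 : κ ^ 2 * ‖r y‖ ^ 2 = 0 := by nlinarith [sq_nonneg (κ * ‖r y‖)]
      rcases mul_eq_zero.1 h7 with h8 | h8
      · exact absurd h8 (by positivity)
      · exact norm_eq_zero.1 (pow_eq_zero_iff (two_ne_zero)|>.1 h8)
    have := hk1
    unfold FinRk at this ⊢
    let g : LinearMap.range (r : H →ₗ[ℂ] H) →ₗ[ℂ] LinearMap.range (k : H →ₗ[ℂ] H) :=
      ((k : H →ₗ[ℂ] H).rangeRestrict) ∘ₗ (LinearMap.range (r : H →ₗ[ℂ] H)).subtype
    have hg : Function.Injective g := by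
      rw [← LinearMap.ker_eq_bot, LinearMap.ker_eq_bot']
      rintro ⟨_, y, rfl⟩ hy
      have h1 : k (r y) = 0 := congrArg (fun z : LinearMap.range (k : H →ₗ[ℂ] H) => (z : H)) hy
      exact Subtype.ext (hinj y h1)
    exact FiniteDimensional.of_injective g hg
  · intro x hx
    have h1 : 0 ≤ algebraMap ℝ (Bd H) (κ ^ 2) + r - a := by
      have h2 : algebraMap ℝ (Bd H) (κ ^ 2) + r - a = cfc (fun t => κ ^ 2 + f t - t) a := by
        rw [cfc_sub (fun t => κ ^ 2 + f t) (fun t => t) a (by fun_prop) (by fun_prop),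
          cfc_add (a := a) (fun _ => κ ^ 2) f (by fun_prop) (by fun_prop), hid, cfc_const (κ ^ 2) a]
      rw [h2]
      refine cfc_nonneg (fun t _ => ?_)
      have : t - κ ^ 2 ≤ f t := le_max_left _ _
      linarith
    have h2 := nonneg_re_inner h1 x
    have h3 : ⟪x, (algebraMap ℝ (Bd H) (κ ^ 2) + r - a) x⟫_ℂ =
        ((κ ^ 2 * ‖x‖ ^ 2 : ℝ) : ℂ) - ((‖c x‖ ^ 2 : ℝ) : ℂ) := by
      rw [← inner_star_mul_self]
      have h4 : (algebraMap ℝ (Bd H) (κ ^ 2) + r - a) x = ((κ ^ 2 : ℝ) : ℂ) • x - a x := by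
        rw [sub_apply, add_apply, hx, add_zero]
        congr 1
      rw [h4, inner_sub_right, inner_smul_right, inner_self_eq_norm_sq_to_K]
      push_cast
      rfl
    rw [h3, Complex.sub_re, Complex.ofReal_re, Complex.ofReal_re] at h2
    have h4 : ‖c x‖ ^ 2 ≤ (κ * ‖x‖) ^ 2 := by nlinarith
    exact abs_le_of_sq_le_sq' h4 (by positivity) |>.2

end Pool.Agent.Ped8316
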