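import Mathlib
import Pool.Agent.Lib.Ped8316.Om

/-!
# Polar decomposition near unitaries, projections near projections
-/

set_option autoImplicit false
set_option linter.unusedSectionVars false

open Topology Filter Set
open scoped InnerProductSpace ComplexConjugate

namespace Pool.Agent.Ped8316

variable {A : Type*} [CStarAlgebra A]

lemma spec_sub {a : A} (ha : IsSelfAdjoint a) (f : ℝ → ℝ) (hf : Continuous f) {t : ℝ}
    (ht : t ∈ spectrum ℝ a) {δ : ℝ} (h : ‖cfc f a‖ ≤ δ) : |f t| ≤ δ := by
  have h1 := norm_apply_le_norm_cfc f a ht hf.continuousOn ha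
  rw [Real.norm_eq_abs] at h1
  exact h1.trans h

lemma spec_sub_one {a : A} (ha : IsSelfAdjoint a) {t : ℝ} (ht : t ∈ spectrum ℝ a) :
    |t - 1| ≤ ‖a - 1‖ := by
  have h1 : cfc (fun t : ℝ => t - 1) a = a - 1 := by
    rw [cfc_sub (fun t : ℝ => t) (fun _ => (1 : ℝ)) a, cfc_id' ℝ a, cfc_const_one ℝ a]
  exact spec_sub ha (fun t => t - 1) (by fun_prop) ht (by rw [h1])

/-- Polar decomposition of an element near a unitary. -/
theorem polar {b : A} {U : unitary A} {ε : ℝ} (hb : ‖b - U‖ ≤ ε) (hε : ε ≤ 1 / 4) :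
    ∃ (u : unitary A) (s : A), (u : A) = b * s ∧
      (∀ B : StarSubalgebra ℂ A, IsClosed (B : Set A) → b ∈ B → s ∈ B) ∧
      (∀ c, Commute c (star b * b) → Commute c s) ∧ ‖(u : A) - U‖ ≤ 4 * ε := by
  have hε0 : 0 ≤ ε := (norm_nonneg _).trans hb
  set a := star b * b with ha
  have hsa : IsSelfAdjoint a := IsSelfAdjoint.star_mul_self b
  have hU1 : ‖(U : A)‖ ≤ 1 := by
    rcases subsingleton_or_nontrivial A with h | h
    · rw [Subsingleton.elim (U : A) 0, norm_zero]; exact zero_le_one
    · exact (CStarRing.norm_coe_unitary U).le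
  have hb1 : ‖b‖ ≤ 1 + ε := by
    calc ‖b‖ = ‖(b - U) + U‖ := by rw [sub_add_cancel]
      _ ≤ ‖b - U‖ + ‖(U : A)‖ := norm_add_le _ _
      _ ≤ 1 + ε := by linarith
  have ha1 : ‖a - 1‖ ≤ 9 / 4 * ε := by
    have h1 : a - 1 = star b * (b - U) + star (b - U) * U := by
      have h2 : star (U : A) * (U : A) = 1 := Unitary.star_mul_self_of_mem U.2
      rw [ha, star_sub, sub_mul, h2]
      noncomm_ring
    rw [h1]
    refine (norm_add_le _ _).trans ?_
    rw [CStarRing.norm_mul_coe_unitary, norm_star]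
    have h3 := norm_mul_le (star b) (b - U)
    rw [norm_star] at h3
    have h4 : ‖b‖ * ‖b - U‖ ≤ (1 + ε) * ε := by gcongr
    nlinarith
  have hsp : ∀ t ∈ spectrum ℝ a, |t - 1| ≤ 9 / 4 * ε := fun t ht => (spec_sub_one hsa ht).trans ha1
  have hpos : ∀ t ∈ spectrum ℝ a, 7 / 16 ≤ t := by
    intro t ht
    have := abs_le.1 (hsp t ht)
    linarith
  set f : ℝ → ℝ := fun t => (Real.sqrt t)⁻¹ with hf
  have hfc : ContinuousOn f (spectrum ℝ a) := by
    refine ContinuousOn.inv₀ Real.continuous_sqrt.continuousOn (fun t ht => ?_)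
    have := hpos t ht
    exact (Real.sqrt_pos.2 (by linarith)).ne'
  set s := cfc f a with hs
  have hssa : IsSelfAdjoint s := cfc_predicate f a
  have hsas : s * a * s = 1 := by
    have h1 : s * a = cfc (fun t : ℝ => f t * t) a := by
      rw [cfc_mul f (fun t : ℝ => t) a hfc continuousOn_id, cfc_id' ℝ a]
    rw [h1, hs, ← cfc_mul (fun t : ℝ => f t * t) f a (hfc.mul continuousOn_id) hfc]
    rw [← cfc_const_one ℝ a]
    refine cfc_congr (fun t ht => ?_)
    have h2 := hpos t ht
    have h3 : 0 < Real.sqrt t := Real.sqrt_pos.2 (by linarith)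
    have h4 : Real.sqrt t * Real.sqrt t = t := Real.mul_self_sqrt (by linarith)
    show (Real.sqrt t)⁻¹ * t * (Real.sqrt t)⁻¹ = 1
    field_simp
    nlinarith
  -- b is invertible
  have hbinv : IsUnit b := by
    have h1 : ‖1 - star (U : A) * b‖ < 1 := by
      have h2 : 1 - star (U : A) * b = -(star (U : A) * (b - U)) := by
        have h2 : star (U : A) * (U : A) = 1 := Unitary.star_mul_self_of_mem U.2
        rw [mul_sub, h2]; abel
      rw [h2, norm_neg]
      have h3 : ‖star (U : A) * (b - U)‖ = ‖b - U‖ := CStarRing.norm_coe_unitary_mul (star U) _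
      rw [h3]
      linarith
    have h4 : IsUnit (star (U : A) * b) := by
      have := isUnit_one_sub_of_norm_lt_one h1
      rwa [sub_sub_cancel] at this
    have h5 : b = (U : A) * (star (U : A) * b) := by
      rw [← mul_assoc, Unitary.mul_star_self_of_mem U.2, one_mul]
    rw [h5]
    exact (Unitary.toUnits U).isUnit.mul h4
  have hsu : IsUnit s := by
    refine (isUnit_cfc_iff f a hfc hsa).2 (fun t ht => ?_)
    have := hpos t ht
    exact inv_ne_zero (Real.sqrt_pos.2 (by linarith)).ne'
  have hstar : star (b * s) * (b * s) = 1 := by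
    rw [star_mul, hssa.star_eq]
    calc s * star b * (b * s) = s * (star b * b) * s := by noncomm_ring
      _ = 1 := hsas
  have hmem : b * s ∈ unitary A := by
    refine ⟨hstar, ?_⟩
    have hu : IsUnit (b * s) := hbinv.mul hsu
    obtain ⟨v, hv⟩ := hu
    have h1 : star (b * s) = ((v⁻¹ : Aˣ) : A) := by
      rw [← hv] at hstar ⊢
      exact (Units.inv_eq_of_mul_eq_one_left hstar).symm
    rw [h1, ← hv]
    exact v.mul_inv
  refine ⟨⟨b * s, hmem⟩, s, rfl, fun B hB hbB => cfc_mem f (mul_mem (star_mem hbB) hbB),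
    fun c hc => ?_, ?_⟩
  · exact (Commute.cfc_real hc.symm f).symm
  · show ‖b * s - U‖ ≤ 4 * ε
    have h1 : b * s - U = b * (s - 1) + (b - U) := by noncomm_ring
    have h2 : ‖s - 1‖ ≤ 9 / 4 * ε := by
      have h3 : s - 1 = cfc (fun t => f t - 1) a := by
        rw [cfc_sub f (fun _ => (1 : ℝ)) a hfc, cfc_const_one ℝ a]
      rw [h3]
      refine norm_cfc_le (by positivity) (fun t ht => ?_)
      have h4 := hpos t ht
      have h5 := hsp t ht
      rw [Real.norm_eq_abs]
      show |(Real.sqrt t)⁻¹ - 1| ≤ 9 / 4 * ε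
      set r := Real.sqrt t with hr
      have h6 : r * r = t := Real.mul_self_sqrt (by linarith)
      have h7 : 13 / 20 ≤ r := by
        rw [hr]
        refine Real.le_sqrt_of_sq_le ?_
        linarith
      have h8 : r⁻¹ - 1 = (1 - t) / (r * (1 + r)) := by
        field_simp
        nlinarith
      rw [h8, abs_div, abs_sub_comm]
      have h9 : (1 : ℝ) ≤ |r * (1 + r)| := by
        rw [abs_of_pos (by positivity)]
        nlinarith
      exact (div_le_self (abs_nonneg _) h9).trans h5
    rw [h1]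
    refine (norm_add_le _ _).trans ?_
    have h3 := norm_mul_le b (s - 1)
    have h4 : ‖b‖ * ‖s - 1‖ ≤ (1 + ε) * (9 / 4 * ε) := by gcongr
    nlinarith

/-- Polar decomposition, relative version -/
theorem polar' {b : A} {U : unitary A} {ε : ℝ} (hb : ‖b - U‖ ≤ ε) (hε : ε ≤ 1 / 4) :
    ∃ u : unitary A, (∀ B : StarSubalgebra ℂ A, IsClosed (B : Set A) → b ∈ B → (u : A) ∈ B) ∧
      (∀ c, Commute c b → Commute c (star b) → Commute c u) ∧ ‖(u : A) - U‖ ≤ 4 * ε := by
  obtain ⟨u, s, hu, hs, hc, hn⟩ := polar hb hε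
  refine ⟨u, fun B hB hbB => ?_, fun c h1 h2 => ?_, hn⟩
  · rw [hu]
    exact mul_mem hbB (hs B hB hbB)
  · rw [hu]
    exact h1.mul_right (hc c (h2.mul_right h1))

/-- the smooth step -/
noncomputable def chi (t : ℝ) : ℝ := max 0 (min 1 (2 * t - 1 / 2))

lemma continuous_chi : Continuous chi := by
  unfold chi
  fun_prop

/-- a projection near a projection -/
theorem near_proj {P b : A} (hP : IsSelfAdjoint P) (hPP : P * P = P) {δ : ℝ} (hb : ‖b - P‖ ≤ δ)
    (hδ : δ ≤ 1 / 40) :
    ∃ q : A, IsSelfAdjoint q ∧ q * q = q ∧ ‖q - P‖ ≤ 7 * δ ∧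
      ∀ B : StarSubalgebra ℂ A, IsClosed (B : Set A) → b ∈ B → q ∈ B := by
  have hδ0 : 0 ≤ δ := (norm_nonneg _).trans hb
  set a : A := (1 / 2 : ℂ) • (b + star b) with ha
  have hsa : IsSelfAdjoint a := by
    rw [IsSelfAdjoint, ha, star_smul, star_add, star_star, add_comm]
    congr 1
    simp
  have haP : ‖a - P‖ ≤ δ := by
    have h1 : a - P = (1 / 2 : ℂ) • ((b - P) + star (b - P)) := by
      rw [star_sub, hP.star_eq, ha]
      have h2 : b - P + (star b - P) = (b + star b) - (2 : ℂ) • P := by rw [two_smul]; abel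
      rw [h2, smul_sub, smul_smul]
      norm_num
    rw [h1, norm_smul]
    have h2 := norm_add_le (b - P) (star (b - P))
    rw [norm_star] at h2
    have h3 : ‖(1 / 2 : ℂ)‖ = 1 / 2 := by norm_num
    rw [h3]
    linarith
  have hP1 : ‖P‖ ≤ 1 := by
    have h1 : ‖P‖ * ‖P‖ = ‖P‖ := by
      have h2 := CStarRing.norm_star_mul_self (x := P)
      rw [hP.star_eq, hPP] at h2
      exact h2.symm
    rcases eq_or_ne ‖P‖ 0 with h | h
    · rw [h]; exact zero_le_one
    · exact (mul_right_cancel₀ h (by rw [h1, one_mul])).le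
  have ha1 : ‖a‖ ≤ 1 + δ := by
    calc ‖a‖ = ‖(a - P) + P‖ := by rw [sub_add_cancel]
      _ ≤ ‖a - P‖ + ‖P‖ := norm_add_le _ _
      _ ≤ 1 + δ := by linarith
  have hquad : ‖a * a - a‖ ≤ 4 * δ := by
    have h1 : a * a - a = a * (a - P) + (a - P) * P - (a - P) := by
      have : P * P - P = 0 := by rw [hPP, sub_self]
      calc a * a - a = a * (a - P) + (a - P) * P - (a - P) + (P * P - P) := by noncomm_ring
        _ = _ := by rw [this, add_zero]
    rw [h1]
    have h2 := norm_sub_le (a * (a - P) + (a - P) * P) (a - P)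
    have h3 := norm_add_le (a * (a - P)) ((a - P) * P)
    have h4 := norm_mul_le a (a - P)
    have h5 := norm_mul_le (a - P) P
    have h6 : ‖a‖ * ‖a - P‖ ≤ (1 + δ) * δ := by gcongr
    have h7 : ‖a - P‖ * ‖P‖ ≤ δ * 1 := by gcongr
    nlinarith
  have hid : cfc (fun t : ℝ => t) a = a := cfc_id' ℝ a
  have hsp : ∀ t ∈ spectrum ℝ a, |t * t - t| ≤ 4 * δ := by
    intro t ht
    refine spec_sub hsa (fun t => t * t - t) (by fun_prop) ht ?_
    rw [cfc_sub (fun t : ℝ => t * t) (fun t => t) a, cfc_mul (fun t : ℝ => t) (fun t => t) a, hid]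
    exact hquad
  have hloc : ∀ t ∈ spectrum ℝ a, (|t| ≤ 1 / 4 ∧ chi t = 0 ∧ |chi t - t| ≤ 6 * δ) ∨
      (|t - 1| ≤ 1 / 4 ∧ chi t = 1 ∧ |chi t - t| ≤ 6 * δ) := by
    intro t ht
    have h1 := hsp t ht
    have h2 := abs_le.1 h1
    by_cases ht2 : t ≤ 1 / 2
    · left
      have h3 : |t| ≤ 1 / 4 := by
        rw [abs_le]
        constructor
        · by_contra hc
          push Not at hc
          nlinarith
        · by_contra hc
          push Not at hc
          nlinarith
      have h4 := abs_le.1 h3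
      have h5 : chi t = 0 := by
        unfold chi
        rw [max_eq_left]
        exact (min_le_right _ _).trans (by linarith)
      refine ⟨h3, h5, ?_⟩
      rw [h5, zero_sub, abs_neg]
      have h6 : t * t - t = t * (t - 1) := by ring
      rw [h6, abs_mul] at h1
      have h7 : 3 / 4 ≤ |t - 1| := by rw [abs_of_nonpos (by linarith)]; linarith
      nlinarith [abs_nonneg t]
    · right
      push Not at ht2
      have h3 : |t - 1| ≤ 1 / 4 := by
        rw [abs_le]
        constructor
        · by_contra hc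
          push Not at hc
          nlinarith
        · by_contra hc
          push Not at hc
          nlinarith
      have h4 := abs_le.1 h3
      have h5 : chi t = 1 := by
        unfold chi
        rw [min_eq_left (by linarith), max_eq_right zero_le_one]
      refine ⟨h3, h5, ?_⟩
      rw [h5, abs_sub_comm]
      have h6 : t * t - t = t * (t - 1) := by ring
      rw [h6, abs_mul] at h1
      have h7 : 3 / 4 ≤ |t| := by rw [abs_of_nonneg (by linarith)]; linarith
      nlinarith [abs_nonneg (t - 1)]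
  refine ⟨cfc chi a, cfc_predicate chi a, ?_, ?_, ?_⟩
  · rw [← cfc_mul chi chi a continuous_chi.continuousOn continuous_chi.continuousOn]
    refine cfc_congr (fun t ht => ?_)
    show chi t * chi t = chi t
    rcases hloc t ht with h | h
    · rw [h.2.1, mul_zero]
    · rw [h.2.1, mul_one]
  · have h1 : ‖cfc chi a - a‖ ≤ 6 * δ := by
      conv_lhs => rw [← hid]
      rw [cfc_id' ℝ a]
      have h2 : cfc chi a - a = cfc (fun t => chi t - t) a := by
        rw [cfc_sub chi (fun t => t) a continuous_chi.continuousOn, hid]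
      rw [h2]
      refine norm_cfc_le (by positivity) (fun t ht => ?_)
      rw [Real.norm_eq_abs]
      rcases hloc t ht with h | h
      · exact h.2.2
      · exact h.2.2
    calc ‖cfc chi a - P‖ = ‖(cfc chi a - a) + (a - P)‖ := by rw [sub_add_sub_cancel]
      _ ≤ ‖cfc chi a - a‖ + ‖a - P‖ := norm_add_le _ _
      _ ≤ 7 * δ := by linarith
  · intro B hB hbB
    have haB : a ∈ B := B.smul_mem (add_mem hbB (star_mem hbB)) _
    exact cfc_mem chi haB

/-- a unitary of `B`, near `U`, commuting with the projection `q ∈ B` -/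
theorem near_unitary {P q b : A} {U : unitary A} (hP : IsSelfAdjoint P) (hPP : P * P = P)
    (hPU : Commute P (U : A)) (hq : IsSelfAdjoint q) (hqq : q * q = q) {δ : ℝ}
    (hqP : ‖q - P‖ ≤ δ) (hb : ‖b - U‖ ≤ δ) (hδ : δ ≤ 1 / 40) :
    ∃ u : unitary A, (∀ B : StarSubalgebra ℂ A, IsClosed (B : Set A) → q ∈ B → b ∈ B →
      (u : A) ∈ B) ∧ Commute q u ∧ ‖(u : A) - U‖ ≤ 40 * δ := by
  have hδ0 : 0 ≤ δ := (norm_nonneg _).trans hb
  have norm_le_one : ∀ {p : A}, IsSelfAdjoint p → p * p = p → ‖p‖ ≤ 1 := by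
    intro p hp hpp
    have h1 : ‖p‖ * ‖p‖ = ‖p‖ := by
      have h2 := CStarRing.norm_star_mul_self (x := p)
      rw [hp.star_eq, hpp] at h2
      exact h2.symm
    rcases eq_or_ne ‖p‖ 0 with h | h
    · rw [h]; exact zero_le_one
    · exact (mul_right_cancel₀ h (by rw [h1, one_mul])).le
  have hU1 : ‖(U : A)‖ ≤ 1 := by
    rcases subsingleton_or_nontrivial A with h | h
    · rw [Subsingleton.elim (U : A) 0, norm_zero]; exact zero_le_one
    · exact (CStarRing.norm_coe_unitary U).le
  set b' : A := q * b * q + (1 - q) * b * (1 - q) with hb'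
  have hqb : Commute q b' := by
    show q * b' = b' * q
    rw [hb']
    have h1 : q * (q * b * q + (1 - q) * b * (1 - q)) = q * b * q := by
      have h2 : q * (1 - q) = 0 := by rw [mul_sub, mul_one, hqq, sub_self]
      calc q * (q * b * q + (1 - q) * b * (1 - q))
          = (q * q) * b * q + (q * (1 - q)) * b * (1 - q) := by simp only [mul_add, mul_assoc]
        _ = q * b * q := by rw [h2, hqq, zero_mul, zero_mul, add_zero]
    have h3 : (q * b * q + (1 - q) * b * (1 - q)) * q = q * b * q := by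
      have h2 : (1 - q) * q = 0 := by rw [sub_mul, one_mul, hqq, sub_self]
      calc (q * b * q + (1 - q) * b * (1 - q)) * q
          = q * b * (q * q) + (1 - q) * b * ((1 - q) * q) := by simp only [add_mul, mul_assoc]
        _ = q * b * q := by rw [h2, hqq, mul_zero, add_zero]
    rw [h1, h3]
  have hqb2 : Commute q (star b') := by
    have := hqb.star_star
    rwa [hq.star_eq] at this
  have hdist : ‖b' - U‖ ≤ 10 * δ := by
    have hU2 : (U : A) = P * U * P + (1 - P) * U * (1 - P) := by
      have h1 : P * (U : A) = U * P := hPU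
      calc (U : A) = U * (P * P) + U * (1 - (P + P) + P * P) := by rw [hPP]; noncomm_ring
        _ = (U * P) * P + (U - U * P) * (1 - P) := by noncomm_ring
        _ = P * U * P + (U - P * U) * (1 - P) := by rw [← h1]
        _ = _ := by noncomm_ring
    have h1 : ∀ {p r : A}, ‖p‖ ≤ 1 → ‖r‖ ≤ 1 → ‖r - p‖ ≤ δ → ‖r * b * r - p * U * p‖ ≤ 5 * δ := by
      intro p r hp hr hrp
      have h2 : r * b * r - p * U * p = r * (b - U) * r + (r - p) * (U * r) + p * U * (r - p) := by
        noncomm_ring
      rw [h2]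
      have h3 := norm_add_le (r * (b - U) * r + (r - p) * (U * r)) (p * U * (r - p))
      have h4 := norm_add_le (r * (b - U) * r) ((r - p) * (U * r))
      have h5 : ‖r * (b - U) * r‖ ≤ 1 * δ * 1 := by
        refine (norm_mul_le _ _).trans ?_
        have := norm_mul_le r (b - U)
        have h6 : ‖r‖ * ‖b - U‖ ≤ 1 * δ := by gcongr
        gcongr
        exact this.trans h6
      have h6 : ‖(r - p) * (U * r)‖ ≤ δ * (1 * 1) := by
        refine (norm_mul_le _ _).trans ?_
        have := norm_mul_le (U : A) r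
        gcongr
        exact this.trans (by gcongr)
      have h7 : ‖p * U * (r - p)‖ ≤ 1 * 1 * δ := by
        refine (norm_mul_le _ _).trans ?_
        have := norm_mul_le p (U : A)
        gcongr
        exact this.trans (by gcongr)
      linarith
    have h2 : ‖1 - P‖ ≤ 1 := norm_le_one (by
      rw [IsSelfAdjoint, star_sub, star_one, hP.star_eq]) (by
      calc (1 - P) * (1 - P) = 1 - (P + P) + P * P := by noncomm_ring
        _ = 1 - P := by rw [hPP]; noncomm_ring)
    have h3 : ‖1 - q‖ ≤ 1 := norm_le_one (by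
      rw [IsSelfAdjoint, star_sub, star_one, hq.star_eq]) (by
      calc (1 - q) * (1 - q) = 1 - (q + q) + q * q := by noncomm_ring
        _ = 1 - q := by rw [hqq]; noncomm_ring)
    have h4 := h1 (norm_le_one hP hPP) (norm_le_one hq hqq) hqP
    have h5 := h1 h2 h3 (by
      have : (1 - q) - (1 - P) = -(q - P) := by noncomm_ring
      rw [this, norm_neg]
      exact hqP)
    have h6 : b' - U = (q * b * q - P * U * P) +
        ((1 - q) * b * (1 - q) - (1 - P) * U * (1 - P)) := by
      conv_lhs => rw [hU2]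
      rw [hb']
      abel
    rw [h6]
    refine (norm_add_le _ _).trans ?_
    linarith
  obtain ⟨u, hu1, hu2, hu3⟩ := polar' hdist (by linarith)
  refine ⟨u, fun B hB hqB hbB => hu1 B hB ?_, hu2 q hqb hqb2, hu3.trans (by linarith)⟩
  exact add_mem (mul_mem (mul_mem hqB hbB) hqB) (mul_mem (mul_mem (sub_mem (one_mem B) hqB) hbB)
    (sub_mem (one_mem B) hqB))

end Pool.Agent.Ped8316
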