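import Mathlib
import Pool.Agent.Lib.Ped8316.Fd
import Pool.Agent.Lib.Ped8316.Polar

/-!
# The integer valued index on unitaries of an ASH algebra almost commuting with `V`
-/

set_option autoImplicit false
set_option linter.unusedSectionVars false

open Topology Filter Set Unitary selfAdjoint
open scoped InnerProductSpace ComplexConjugate

namespace Pool.Agent.Ped8316

variable {H : Type*} [NormedAddCommGroup H] [InnerProductSpace ℂ H] [CompleteSpace H]

section one

variable {B : StarSubalgebra ℂ (Bd H)}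

/-- `k` is the index of `(U, V)` relative to `B`. -/
def Good (B : StarSubalgebra ℂ (Bd H)) (U V : unitary (Bd H)) (k : ℤ) : Prop :=
  (U : Bd H) ∈ B ∧ (V : Bd H) ∈ B ∧ ∃ r ∈ B, IsSelfAdjoint r ∧ FinRk r ∧
    ∀ (L : Submodule ℂ H) [FiniteDimensional ℂ L], Inv (B : Set (Bd H)) L → (∀ x, r x ∈ L) →
      om L U V = k

lemma norm_unitary_apply (U : unitary (Bd H)) (x : H) : ‖(U : Bd H) x‖ = ‖x‖ :=
  ContinuousLinearMap.norm_map_of_mem_unitary U.2 x

lemma om_of_le {N : ℕ} (hB : BddIrr (B : Set (Bd H)) N) {U V : unitary (Bd H)}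
    (hU : (U : Bd H) ∈ B) (hV : (V : Bd H) ∈ B) {κ : ℝ} (hκ0 : 0 ≤ κ) (hκ : N * κ < 4)
    (hnc : nc U V < 2) {r : Bd H} (hr : IsSelfAdjoint r)
    (hcut : ∀ x, r x = 0 → ‖((U : Bd H) * V - V * U) x‖ ≤ κ * ‖x‖)
    {L₀ L : Submodule ℂ H} [FiniteDimensional ℂ L₀] [FiniteDimensional ℂ L]
    (h0 : Inv (B : Set (Bd H)) L₀) (h1 : Inv (B : Set (Bd H)) L) (hle : L₀ ≤ L)
    (hr0 : ∀ x, r x ∈ L₀) : om L U V = om L₀ U V := by
  have h2f : FiniteDimensional ℂ (L ⊓ L₀ᗮ : Submodule ℂ H) :=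
    Submodule.finiteDimensional_of_le inf_le_left
  have hi := h1.inf h0.orth
  rw [om_orth hle inf_le_left (starProjection_split hle) U V,
    om_zero hB hU hV hκ0 hκ hnc _ (L ⊓ L₀ᗮ) rfl hi ?_, add_zero]
  intro x hx
  have h3 : ∀ y ∈ L ⊓ L₀ᗮ, r y = 0 := by
    intro y hy
    have h4 : y ∈ L₀ᗮ := hy.2
    rw [Submodule.mem_orthogonal] at h4
    have h5 : ⟪r y, r y⟫_ℂ = 0 := by rw [← sa_inner hr]; exact h4 _ (hr0 _)
    exact inner_self_eq_zero.1 h5
  have h4 : ((star U * star V : unitary (Bd H)) : Bd H) ∈ B := by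
    rw [Submonoid.coe_mul, Unitary.coe_star, Unitary.coe_star]
    exact mul_mem (star_mem hU) (star_mem hV)
  have h5 := hi _ h4 x hx
  have h6 := hcut _ (h3 _ h5)
  rw [norm_unitary_apply] at h6
  rw [coe_cm_sub_one]
  exact h6

/-- common finite dimensional invariant subspaces -/
lemma common {N : ℕ} (hB : BddIrr (B : Set (Bd H)) N) {r₁ r₂ r₃ : Bd H}
    (h1 : r₁ ∈ B) (h1' : IsSelfAdjoint r₁) (h1'' : FinRk r₁)
    (h2 : r₂ ∈ B) (h2' : IsSelfAdjoint r₂) (h2'' : FinRk r₂)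
    (h3 : r₃ ∈ B) (h3' : IsSelfAdjoint r₃) (h3'' : FinRk r₃) :
    ∃ L : Submodule ℂ H, FiniteDimensional ℂ L ∧ Inv (B : Set (Bd H)) L ∧
      (∀ x, r₁ x ∈ L) ∧ (∀ x, r₂ x ∈ L) ∧ (∀ x, r₃ x ∈ L) := by
  obtain ⟨L₁, f1, i1, e1⟩ := exists_fd hB h1 h1' h1''
  obtain ⟨L₂, f2, i2, e2⟩ := exists_fd hB h2 h2' h2''
  obtain ⟨L₃, f3, i3, e3⟩ := exists_fd hB h3 h3' h3''
  have f12 : FiniteDimensional ℂ (L₁ ⊔ L₂ : Submodule ℂ H) := Submodule.finiteDimensional_sup _ _
  have f123 : FiniteDimensional ℂ (L₁ ⊔ L₂ ⊔ L₃ : Submodule ℂ H) :=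
    Submodule.finiteDimensional_sup _ _
  refine ⟨L₁ ⊔ L₂ ⊔ L₃, f123, (i1.sup i2).sup i3, fun x => ?_, fun x => ?_, fun x => ?_⟩
  · exact (le_sup_left : L₁ ⊔ L₂ ≤ _) ((le_sup_left : L₁ ≤ _) (e1 x))
  · exact (le_sup_left : L₁ ⊔ L₂ ≤ _) ((le_sup_right : L₂ ≤ _) (e2 x))
  · exact (le_sup_right : L₃ ≤ _) (e3 x)

lemma good_exists [IsClosed (B : Set (Bd H))] {N : ℕ} (hB : BddIrr (B : Set (Bd H)) N)
    (hess : ∀ a ∈ B, ∀ b ∈ B, IsKp (a * b - b * a)) {U V : unitary (Bd H)}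
    (hU : (U : Bd H) ∈ B) (hV : (V : Bd H) ∈ B) (hnc : nc U V < 2) : ∃ k, Good B U V k := by
  set κ : ℝ := 1 / (N + 1) with hκ
  have hκ0 : 0 < κ := by positivity
  have hκ1 : N * κ < 4 := by
    rw [hκ, mul_one_div, div_lt_iff₀ (by positivity)]
    have : (0 : ℝ) ≤ N := Nat.cast_nonneg N
    linarith
  have hc : (U : Bd H) * V - V * U ∈ B := sub_mem (mul_mem hU hV) (mul_mem hV hU)
  obtain ⟨r, hr, hrs, hrf, hcut⟩ := exists_cut hc (hess _ hU _ hV) hκ0
  obtain ⟨L₀, f0, i0, e0⟩ := exists_fd hB hr hrs hrf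
  obtain ⟨k, hk⟩ := om_int (i0.red hU) (i0.red hV) hnc
  refine ⟨k, hU, hV, r, hr, hrs, hrf, fun L fL iL hL => ?_⟩
  have fs : FiniteDimensional ℂ (L₀ ⊔ L : Submodule ℂ H) := Submodule.finiteDimensional_sup _ _
  rw [← hk, ← om_of_le hB hU hV hκ0.le hκ1 hnc hrs hcut i0 (i0.sup iL) le_sup_left e0,
    ← om_of_le hB hU hV hκ0.le hκ1 hnc hrs hcut iL (i0.sup iL) le_sup_right hL]

lemma Good.mono {B' : StarSubalgebra ℂ (Bd H)} (h : B ≤ B') {U V : unitary (Bd H)} {k : ℤ}
    (hg : Good B U V k) : Good B' U V k := by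
  obtain ⟨hU, hV, r, hr, hrs, hrf, hL⟩ := hg
  exact ⟨h hU, h hV, r, h hr, hrs, hrf, fun L _ iL hr => hL L (iL.mono h) hr⟩

lemma good_unique {N : ℕ} (hB : BddIrr (B : Set (Bd H)) N) {U V U' V' : unitary (Bd H)}
    {k k' : ℤ} (h : Good B U V k) (h' : Good B U' V' k') (hnc : nc U V ≤ 1 / 4)
    (h1 : ‖(U' : Bd H) - U‖ ≤ 1 / 8) (h2 : ‖(V' : Bd H) - V‖ ≤ 1 / 8) : k = k' := by
  obtain ⟨hU, hV, r, hr, hrs, hrf, hL⟩ := h
  obtain ⟨hU', hV', r', hr', hrs', hrf', hL'⟩ := h'
  obtain ⟨L, fL, iL, e1, e2, -⟩ := common hB hr hrs hrf hr' hrs' hrf' hr' hrs' hrf'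
  have h3 := hL L iL e1
  have h4 := hL' L iL e2
  have h5 := om_congr (iL.red hU) (iL.red hU') (iL.red hV) (iL.red hV') hnc h1 h2
  rw [h3, h4] at h5
  exact_mod_cast h5.symm

lemma good_mul [IsClosed (B : Set (Bd H))] {N : ℕ} (hB : BddIrr (B : Set (Bd H)) N)
    (hess : ∀ a ∈ B, ∀ b ∈ B, IsKp (a * b - b * a)) {U₁ U₂ V : unitary (Bd H)} {k₁ k₂ : ℤ}
    (h1 : Good B U₁ V k₁) (h2 : Good B U₂ V k₂) (n1 : nc U₁ V ≤ 1 / 2) (n2 : nc U₂ V ≤ 1 / 2) :
    Good B (U₁ * U₂) V (k₁ + k₂) := by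
  have hmem : ((U₁ * U₂ : unitary (Bd H)) : Bd H) ∈ B := by
    rw [Submonoid.coe_mul]; exact mul_mem h1.1 h2.1
  have hnc : nc (U₁ * U₂) V < 2 := by
    have := nc_mul U₁ U₂ V
    linarith
  obtain ⟨k, hk⟩ := good_exists hB hess hmem h1.2.1 hnc
  have hk' := hk
  obtain ⟨hU₁, hV, r₁, hr₁, hrs₁, hrf₁, hL₁⟩ := h1
  obtain ⟨hU₂, -, r₂, hr₂, hrs₂, hrf₂, hL₂⟩ := h2
  obtain ⟨-, -, r₃, hr₃, hrs₃, hrf₃, hL₃⟩ := hk'
  obtain ⟨L, fL, iL, e1, e2, e3⟩ := common hB hr₁ hrs₁ hrf₁ hr₂ hrs₂ hrf₂ hr₃ hrs₃ hrf₃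
  have h4 := om_mul_left (iL.red hU₁) (iL.red hU₂) (iL.red hV) n1 n2
  rw [hL₁ L iL e1, hL₂ L iL e2, hL₃ L iL e3] at h4
  have h5 : k = k₁ + k₂ := by exact_mod_cast h4
  rw [← h5]
  exact hk

end one

/-! ### the index on the closure of the union -/

/-- `k` is the index of `(U, V)` with respect to the sequence `B`. -/
def Idx (B : ℕ → StarSubalgebra ℂ (Bd H)) (U V : unitary (Bd H)) (k : ℤ) : Prop :=
  ∃ (n : ℕ) (U' V' : unitary (Bd H)), Good (B n) U' V' k ∧ ‖(U' : Bd H) - U‖ ≤ 1 / 64 ∧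
    ‖(V' : Bd H) - V‖ ≤ 1 / 64

/-- the closure of the union -/
def InCl (B : ℕ → StarSubalgebra ℂ (Bd H)) (a : Bd H) : Prop :=
  ∀ ε : ℝ, 0 < ε → ∃ n, ∃ b ∈ B n, ‖b - a‖ ≤ ε

variable {B : ℕ → StarSubalgebra ℂ (Bd H)}

lemma approx_unitary (hmono : Monotone B) (hcl : ∀ n, IsClosed (B n : Set (Bd H)))
    {U : unitary (Bd H)} (hU : InCl B U) {ε : ℝ} (hε : 0 < ε) :
    ∃ n, ∃ U' : unitary (Bd H), (U' : Bd H) ∈ B n ∧ ‖(U' : Bd H) - U‖ ≤ ε := by
  obtain ⟨n, b, hb, hb2⟩ := hU (min (ε / 4) (1 / 4)) (by positivity)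
  obtain ⟨u, h1, -, h3⟩ := polar' (U := U) hb2 (min_le_right _ _)
  refine ⟨n, u, h1 (B n) (hcl n) hb, h3.trans ?_⟩
  have := min_le_left (ε / 4) (1 / 4 : ℝ)
  linarith

lemma idx_unique (hmono : Monotone B) (hbd : ∀ n, ∃ N, BddIrr (B n : Set (Bd H)) N)
    {U V : unitary (Bd H)} {k k' : ℤ} (h : Idx B U V k) (h' : Idx B U V k')
    (hnc : nc U V ≤ 1 / 16) : k = k' := by
  obtain ⟨n, U₁, V₁, g1, a1, b1⟩ := h
  obtain ⟨m, U₂, V₂, g2, a2, b2⟩ := h'
  obtain ⟨N, hN⟩ := hbd (max n m)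
  have g1' := g1.mono (hmono (le_max_left n m))
  have g2' := g2.mono (hmono (le_max_right n m))
  refine good_unique hN g1' g2' ?_ ?_ ?_
  · have := nc_congr U U₁ V V₁
    linarith
  · have h1 : (U₂ : Bd H) - U₁ = ((U₂ : Bd H) - U) - ((U₁ : Bd H) - U) := by abel
    rw [h1]
    have := norm_sub_le ((U₂ : Bd H) - U) ((U₁ : Bd H) - U)
    linarith
  · have h1 : (V₂ : Bd H) - V₁ = ((V₂ : Bd H) - V) - ((V₁ : Bd H) - V) := by abel
    rw [h1]
    have := norm_sub_le ((V₂ : Bd H) - V) ((V₁ : Bd H) - V)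
    linarith

lemma idx_exists (hmono : Monotone B) (hcl : ∀ n, IsClosed (B n : Set (Bd H)))
    (hbd : ∀ n, ∃ N, BddIrr (B n : Set (Bd H)) N)
    (hess : ∀ n, ∀ a ∈ B n, ∀ b ∈ B n, IsKp (a * b - b * a))
    {U V : unitary (Bd H)} (hU : InCl B U) (hV : InCl B V) (hnc : nc U V ≤ 1 / 16) :
    ∃ k, Idx B U V k := by
  obtain ⟨n, U', hU', hU2⟩ := approx_unitary hmono hcl hU (ε := 1 / 64) (by norm_num)
  obtain ⟨m, V', hV', hV2⟩ := approx_unitary hmono hcl hV (ε := 1 / 64) (by norm_num)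
  obtain ⟨N, hN⟩ := hbd (max n m)
  have := hcl (max n m)
  obtain ⟨k, hk⟩ := good_exists hN (hess (max n m)) (hmono (le_max_left n m) hU')
    (hmono (le_max_right n m) hV') (by
      have := nc_congr U U' V V'
      linarith)
  exact ⟨k, max n m, U', V', hk, hU2, hV2⟩

lemma idx_mul (hmono : Monotone B) (hcl : ∀ n, IsClosed (B n : Set (Bd H)))
    (hbd : ∀ n, ∃ N, BddIrr (B n : Set (Bd H)) N)
    (hess : ∀ n, ∀ a ∈ B n, ∀ b ∈ B n, IsKp (a * b - b * a))
    {U₁ U₂ V : unitary (Bd H)} (hU₁ : InCl B U₁) (hU₂ : InCl B U₂) (hV : InCl B V)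
    (n1 : nc U₁ V ≤ 1 / 16) (n2 : nc U₂ V ≤ 1 / 16) {k₁ k₂ : ℤ} (h1 : Idx B U₁ V k₁)
    (h2 : Idx B U₂ V k₂) : Idx B (U₁ * U₂) V (k₁ + k₂) := by
  obtain ⟨n₁, U₁', hU₁', a1⟩ := approx_unitary hmono hcl hU₁ (ε := 1 / 256) (by norm_num)
  obtain ⟨n₂, U₂', hU₂', a2⟩ := approx_unitary hmono hcl hU₂ (ε := 1 / 256) (by norm_num)
  obtain ⟨m, V', hV', hV2⟩ := approx_unitary hmono hcl hV (ε := 1 / 256) (by norm_num)
  set M := max (max n₁ n₂) m with hM
  have e1 : n₁ ≤ M := (le_max_left _ _).trans (le_max_left _ _)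
  have e2 : n₂ ≤ M := (le_max_right _ _).trans (le_max_left _ _)
  have e3 : m ≤ M := le_max_right _ _
  obtain ⟨N, hN⟩ := hbd M
  have := hcl M
  have m1 : nc U₁' V' ≤ 1 / 2 := by
    have := nc_congr U₁ U₁' V V'
    linarith
  have m2 : nc U₂' V' ≤ 1 / 2 := by
    have := nc_congr U₂ U₂' V V'
    linarith
  obtain ⟨l₁, hl₁⟩ := good_exists hN (hess M) (hmono e1 hU₁') (hmono e3 hV') (by linarith)
  obtain ⟨l₂, hl₂⟩ := good_exists hN (hess M) (hmono e2 hU₂') (hmono e3 hV') (by linarith)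
  have hl := good_mul hN (hess M) hl₁ hl₂ m1 m2
  have c1 : l₁ = k₁ := idx_unique hmono hbd ⟨M, U₁', V', hl₁, by linarith, by linarith⟩ h1 n1
  have c2 : l₂ = k₂ := idx_unique hmono hbd ⟨M, U₂', V', hl₂, by linarith, by linarith⟩ h2 n2
  rw [← c1, ← c2]
  refine ⟨M, U₁' * U₂', V', hl, ?_, by linarith⟩
  have h3 : ((U₁' * U₂' : unitary (Bd H)) : Bd H) - ((U₁ * U₂ : unitary (Bd H)) : Bd H) =
      ((U₁' : Bd H) - U₁) * U₂' + U₁ * ((U₂' : Bd H) - U₂) := by
    rw [Submonoid.coe_mul, Submonoid.coe_mul]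
    noncomm_ring
  rw [h3]
  refine (norm_add_le _ _).trans ?_
  rw [CStarRing.norm_mul_coe_unitary, CStarRing.norm_coe_unitary_mul]
  linarith

/-! ### normalisation -/

lemma norm_trL_le (L : Submodule ℂ H) [FiniteDimensional ℂ L] (X : Bd H) :
    ‖trL L X‖ ≤ Module.finrank ℂ L * ‖X‖ := by
  rw [trL_eq_sum L X (stdOrthonormalBasis ℂ L)]
  refine (norm_sum_le _ _).trans ?_
  have h1 : ∀ i ∈ Finset.univ, ‖⟪((stdOrthonormalBasis ℂ L i : L) : H),
      X (stdOrthonormalBasis ℂ L i : L)⟫_ℂ‖ ≤ ‖X‖ := by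
    intro i _
    have h2 : ‖((stdOrthonormalBasis ℂ L i : L) : H)‖ = 1 :=
      (stdOrthonormalBasis ℂ L).orthonormal.1 i
    refine (norm_inner_le_norm _ _).trans ?_
    rw [h2, one_mul]
    have h3 := X.le_opNorm ((stdOrthonormalBasis ℂ L i : L) : H)
    rwa [h2, mul_one] at h3
  refine (Finset.sum_le_sum h1).trans ?_
  rw [Finset.sum_const, Finset.card_univ, Fintype.card_fin, nsmul_eq_mul]

/-- continuity of the index with respect to the subspace and the unitaries (for fixed rank) -/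
lemma om_near (S : Submodule ℂ H) [FiniteDimensional ℂ S] {U V : unitary (Bd H)}
    (hnc : nc U V < 2) : ∃ δ : ℝ, 0 < δ ∧ δ ≤ 1 / 2 ∧ ∀ (S' : Submodule ℂ H) [FiniteDimensional ℂ S']
      (U' V' : unitary (Bd H)), ‖S'.starProjection - S.starProjection‖ ≤ δ →
      ‖(U' : Bd H) - U‖ ≤ δ → ‖(V' : Bd H) - V‖ ≤ δ → |om S' U' V' - om S U V| < 1 := by
  set d : ℝ := (Module.finrank ℂ S : ℝ) with hd
  have hd0 : 0 ≤ d := Nat.cast_nonneg _
  set X := cm U V with hX
  have hX2 : ‖(X : Bd H) - 1‖ < 2 := by rw [hX, norm_cm]; exact hnc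
  have hcont : ContinuousAt (argSelfAdjoint (A := Bd H)) X := by
    refine (continuousOn_argSelfAdjoint (A := Bd H)).continuousAt (Metric.isOpen_ball.mem_nhds ?_)
    rw [Metric.mem_ball, Subtype.dist_eq, dist_eq_norm]
    exact hX2
  rw [Metric.continuousAt_iff] at hcont
  obtain ⟨η, hη, hη2⟩ := hcont (1 / (2 * d + 1)) (by positivity)
  set δ : ℝ := min (min (1 / 2) (η / 5)) (1 / (4 * (2 * d + 1))) with hδ
  have hδ0 : 0 < δ := by positivity
  have hδ1 : δ ≤ 1 / 2 := (min_le_left _ _).trans (min_le_left _ _)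
  have hδ2 : δ ≤ η / 5 := (min_le_left _ _).trans (min_le_right _ _)
  have hδ3 : δ ≤ 1 / (4 * (2 * d + 1)) := min_le_right _ _
  refine ⟨δ, hδ0, hδ1, fun S' fS' U' V' h1 h2 h3 => ?_⟩
  -- the dimension of `S'`
  have hfr : (Module.finrank ℂ S' : ℝ) ≤ d := by
    have hinj : Function.Injective ((S.orthogonalProjectionOnto ∘L S'.subtypeL : S' →L[ℂ] S) :
        S' →ₗ[ℂ] S) := by
      rw [← LinearMap.ker_eq_bot, LinearMap.ker_eq_bot']
      intro x hx
      have h4 : S.starProjection (x : H) = 0 := by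
        have := congrArg (fun z : S => (z : H)) hx
        exact this
      have h5 : (S'.starProjection - S.starProjection) (x : H) = x := by
        rw [sub_apply, h4, sub_zero]
        exact Submodule.starProjection_eq_self_iff.2 x.2
      have h6 := (S'.starProjection - S.starProjection).le_opNorm (x : H)
      rw [h5] at h6
      have h7 : ‖(x : H)‖ ≤ 1 / 2 * ‖(x : H)‖ :=
        h6.trans (mul_le_mul_of_nonneg_right (h1.trans hδ1) (norm_nonneg _))
      have h8 : ‖(x : H)‖ = 0 := by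
        have := norm_nonneg (x : H)
        linarith
      exact Subtype.ext (norm_eq_zero.1 h8)
    have h4 := LinearMap.finrank_le_finrank_of_injective hinj
    rw [hd]
    exact_mod_cast h4
  -- closeness of the commutators
  set X' := cm U' V' with hX'
  have hXX : ‖(X' : Bd H) - X‖ < η := by
    have e1 : ‖(star (U' : Bd H)) - star (U : Bd H)‖ ≤ δ := by rw [← star_sub, norm_star]; exact h2
    have e2 : ‖(star (V' : Bd H)) - star (V : Bd H)‖ ≤ δ := by rw [← star_sub, norm_star]; exact h3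
    have e3 : (X' : Bd H) - X = ((U' : Bd H) - U) * ((V' * star U' * star V' : unitary (Bd H)) : Bd H) +
        (U : Bd H) * ((V' : Bd H) - V) * ((star U' * star V' : unitary (Bd H)) : Bd H) +
        ((U * V : unitary (Bd H)) : Bd H) * (star (U' : Bd H) - star (U : Bd H)) *
          ((star V' : unitary (Bd H)) : Bd H) +
        ((U * V * star U : unitary (Bd H)) : Bd H) * (star (V' : Bd H) - star (V : Bd H)) := by
      rw [hX, hX']
      unfold cm
      simp only [Submonoid.coe_mul, Unitary.coe_star]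
      noncomm_ring
    rw [e3]
    have n1 : ‖((U' : Bd H) - U) * ((V' * star U' * star V' : unitary (Bd H)) : Bd H)‖ ≤ δ := by
      rw [CStarRing.norm_mul_coe_unitary]; exact h2
    have n2 : ‖(U : Bd H) * ((V' : Bd H) - V) * ((star U' * star V' : unitary (Bd H)) : Bd H)‖ ≤ δ := by
      rw [CStarRing.norm_mul_coe_unitary, CStarRing.norm_coe_unitary_mul]; exact h3
    have n3 : ‖((U * V : unitary (Bd H)) : Bd H) * (star (U' : Bd H) - star (U : Bd H)) *
          ((star V' : unitary (Bd H)) : Bd H)‖ ≤ δ := by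
      rw [CStarRing.norm_mul_coe_unitary, CStarRing.norm_coe_unitary_mul]; exact e1
    have n4 : ‖((U * V * star U : unitary (Bd H)) : Bd H) *
        (star (V' : Bd H) - star (V : Bd H))‖ ≤ δ := by
      rw [CStarRing.norm_coe_unitary_mul]; exact e2
    have t1 := norm_add_le (((U' : Bd H) - U) * ((V' * star U' * star V' : unitary (Bd H)) : Bd H) +
        (U : Bd H) * ((V' : Bd H) - V) * ((star U' * star V' : unitary (Bd H)) : Bd H) +
        ((U * V : unitary (Bd H)) : Bd H) * (star (U' : Bd H) - star (U : Bd H)) *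
          ((star V' : unitary (Bd H)) : Bd H))
        (((U * V * star U : unitary (Bd H)) : Bd H) * (star (V' : Bd H) - star (V : Bd H)))
    have t2 := norm_add_le (((U' : Bd H) - U) * ((V' * star U' * star V' : unitary (Bd H)) : Bd H) +
        (U : Bd H) * ((V' : Bd H) - V) * ((star U' * star V' : unitary (Bd H)) : Bd H))
        (((U * V : unitary (Bd H)) : Bd H) * (star (U' : Bd H) - star (U : Bd H)) *
          ((star V' : unitary (Bd H)) : Bd H))
    have t3 := norm_add_le (((U' : Bd H) - U) * ((V' * star U' * star V' : unitary (Bd H)) : Bd H))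
        ((U : Bd H) * ((V' : Bd H) - V) * ((star U' * star V' : unitary (Bd H)) : Bd H))
    linarith
  have harg : ‖(argSelfAdjoint X' : Bd H) - argSelfAdjoint X‖ ≤ 1 / (2 * d + 1) := by
    have h4 := hη2 (x := X') (by rw [Subtype.dist_eq, dist_eq_norm]; exact hXX)
    rw [Subtype.dist_eq, dist_eq_norm] at h4
    exact h4.le
  -- comparison of the traces
  have f2 : FiniteDimensional ℂ (S' ⊔ S : Submodule ℂ H) := Submodule.finiteDimensional_sup _ _
  have hfr2 : (Module.finrank ℂ (S' ⊔ S : Submodule ℂ H) : ℝ) ≤ 2 * d := by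
    have h4 := Submodule.finrank_add_le_finrank_add_finrank S' S
    have h5 : (Module.finrank ℂ (S' ⊔ S : Submodule ℂ H) : ℝ) ≤
        Module.finrank ℂ S' + Module.finrank ℂ S := by exact_mod_cast h4
    linarith
  have htr : trL S' (argSelfAdjoint X' : Bd H) - trL S (argSelfAdjoint X : Bd H) =
      trL (S' ⊔ S) ((argSelfAdjoint X' : Bd H) * S'.starProjection -
        (argSelfAdjoint X : Bd H) * S.starProjection) := by
    rw [trL_le (le_sup_left : S' ≤ S' ⊔ S), trL_le (le_sup_right : S ≤ S' ⊔ S),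
      sub_eq_add_neg (_ * _ : Bd H), trL_add, trL_neg]
    ring
  have hpi : ‖(argSelfAdjoint X : Bd H)‖ ≤ 4 := by
    have h4 := norm_arg_lt hX2
    have h5 : ‖(argSelfAdjoint X : Bd H)‖ < Real.pi := h4
    have := Real.pi_lt_four
    linarith
  have hnrm : ‖(argSelfAdjoint X' : Bd H) * S'.starProjection -
        (argSelfAdjoint X : Bd H) * S.starProjection‖ ≤ 2 / (2 * d + 1) := by
    have h4 : (argSelfAdjoint X' : Bd H) * S'.starProjection -
        (argSelfAdjoint X : Bd H) * S.starProjection =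
        ((argSelfAdjoint X' : Bd H) - argSelfAdjoint X) * S'.starProjection +
        (argSelfAdjoint X : Bd H) * (S'.starProjection - S.starProjection) := by noncomm_ring
    rw [h4]
    refine (norm_add_le _ _).trans ?_
    have h5 := norm_mul_le ((argSelfAdjoint X' : Bd H) - argSelfAdjoint X) (S'.starProjection)
    have h6 := norm_mul_le (argSelfAdjoint X : Bd H) (S'.starProjection - S.starProjection)
    have h7 : ‖S'.starProjection‖ ≤ 1 := S'.starProjection_norm_le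
    have h8 : ‖(argSelfAdjoint X' : Bd H) - argSelfAdjoint X‖ * ‖S'.starProjection‖ ≤
        1 / (2 * d + 1) * 1 := by gcongr
    have h9 : ‖(argSelfAdjoint X : Bd H)‖ * ‖S'.starProjection - S.starProjection‖ ≤
        4 * (1 / (4 * (2 * d + 1))) := by
      gcongr
      exact h1.trans hδ3
    have h10 : 4 * (1 / (4 * (2 * d + 1))) = 1 / (2 * d + 1) := by field_simp
    have h11 : 2 / (2 * d + 1) = 1 / (2 * d + 1) + 1 / (2 * d + 1) := by ring
    rw [h11]
    linarith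
  have hlg : |lg S' X' - lg S X| ≤ 2 := by
    have h4 : lg S' X' - lg S X = (trL S' (argSelfAdjoint X' : Bd H) -
        trL S (argSelfAdjoint X : Bd H)).re := by
      unfold lg
      rw [Complex.sub_re]
    rw [h4, htr]
    refine (Complex.abs_re_le_norm _).trans ((norm_trL_le _ _).trans ?_)
    have h5 : (Module.finrank ℂ (S' ⊔ S : Submodule ℂ H) : ℝ) *
        ‖(argSelfAdjoint X' : Bd H) * S'.starProjection -
        (argSelfAdjoint X : Bd H) * S.starProjection‖ ≤ (2 * d) * (2 / (2 * d + 1)) := by gcongr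
    refine h5.trans ?_
    rw [mul_div_assoc', div_le_iff₀ (by positivity)]
    linarith
  have h4 : om S' U' V' - om S U V = (lg S' X' - lg S X) / (2 * Real.pi) := by
    unfold om
    ring
  rw [h4, abs_div, abs_of_pos (by positivity : 0 < 2 * Real.pi), div_lt_one (by positivity)]
  have := Real.pi_gt_three
  linarith

/-- the range of a self-adjoint idempotent -/
lemma exists_range {q : Bd H} (hq : IsSelfAdjoint q) (hqq : q * q = q) (hf : FinRk q) :
    ∃ S : Submodule ℂ H, ∃ _ : FiniteDimensional ℂ S, S.starProjection = q ∧ ∀ x, q x ∈ S := by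
  have := hf
  unfold FinRk at this
  refine ⟨LinearMap.range (q : H →ₗ[ℂ] H), this, ?_, fun x => FinRk.mem x⟩
  refine ContinuousLinearMap.ext (fun x => ?_)
  have hmem : q x ∈ LinearMap.range (q : H →ₗ[ℂ] H) := FinRk.mem x
  refine Submodule.eq_starProjection_of_mem_orthogonal hmem ?_
  rw [Submodule.mem_orthogonal]
  rintro _ ⟨y, rfl⟩
  show ⟪q y, x - q x⟫_ℂ = 0
  rw [sa_inner hq]
  have h1 : q (x - q x) = 0 := by
    rw [map_sub]
    have : q (q x) = q x := congrArg (fun T : Bd H => T x) hqq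
    rw [this, sub_self]
  rw [h1, inner_zero_right]

/-- Normalisation of the index. -/
theorem idx_norm (hmono : Monotone B) (hcl : ∀ n, IsClosed (B n : Set (Bd H)))
    (hbd : ∀ n, ∃ N, BddIrr (B n : Set (Bd H)) N)
    (hess : ∀ n, ∀ a ∈ B n, ∀ b ∈ B n, IsKp (a * b - b * a))
    {U V : unitary (Bd H)} (hU : InCl B U) (hV : InCl B V) (hnc : nc U V ≤ 1 / 16)
    {S : Submodule ℂ H} [FiniteDimensional ℂ S] (hS : InCl B S.starProjection)
    (hSU : Red S (U : Bd H)) (hSV : Red S (V : Bd H))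
    (hU1 : ∀ x ∈ Sᗮ, (U : Bd H) x = x) {k : ℤ} (hk : Idx B U V k) : om S U V = k := by
  obtain ⟨k₀, hk₀⟩ := om_int hSU hSV (by linarith : nc U V < 2)
  obtain ⟨δ, hδ0, hδ1, hδ⟩ := om_near S (by linarith : nc U V < 2)
  set P := S.starProjection with hP
  have hPsa : IsSelfAdjoint P := isSelfAdjoint_starProjection S
  have hPP : P * P = P := by
    refine ContinuousLinearMap.ext (fun x => ?_)
    exact Submodule.starProjection_eq_self_iff.2 (S.starProjection_apply_mem x)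
  set ε : ℝ := min (δ / 1000) (1 / 40000) with hε
  have hε0 : 0 < ε := by positivity
  have hε1 : ε ≤ δ / 1000 := min_le_left _ _
  have hε2 : ε ≤ 1 / 40000 := min_le_right _ _
  obtain ⟨n₁, p, hp, hp2⟩ := hS ε hε0
  obtain ⟨n₂, b, hb, hb2⟩ := hU ε hε0
  obtain ⟨n₃, c, hc, hc2⟩ := hV ε hε0
  set M := max (max n₁ n₂) n₃ with hM
  have e1 : n₁ ≤ M := (le_max_left _ _).trans (le_max_left _ _)
  have e2 : n₂ ≤ M := (le_max_right _ _).trans (le_max_left _ _)
  have e3 : n₃ ≤ M := le_max_right _ _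
  obtain ⟨q, hq, hqq, hqP, hqB⟩ := near_proj hPsa hPP hp2 (by linarith)
  have hqM : q ∈ B M := hqB (B M) (hcl M) (hmono e1 hp)
  obtain ⟨U', hU'B, hqU', hU'⟩ := near_unitary (U := U) (b := b) hPsa hPP hSU hq hqq hqP
    (hb2.trans (by linarith : ε ≤ 7 * ε)) (by linarith)
  obtain ⟨V', hV'B, hqV', hV'⟩ := near_unitary (U := V) (b := c) hPsa hPP hSV hq hqq hqP
    (hc2.trans (by linarith : ε ≤ 7 * ε)) (by linarith)
  have hU'M : (U' : Bd H) ∈ B M := hU'B (B M) (hcl M) hqM (hmono e2 hb)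
  have hV'M : (V' : Bd H) ∈ B M := hV'B (B M) (hcl M) hqM (hmono e3 hc)
  -- cut off
  have hq1 : q * (U' : Bd H) = U' * q := hqU'
  have hq2 : q * star (U' : Bd H) = star (U' : Bd H) * q := by
    have := hqU'.star_star
    rw [hq.star_eq] at this
    exact this
  have hmem : q * (U' : Bd H) + (1 - q) ∈ unitary (Bd H) := by
    have hst : star (q * (U' : Bd H) + (1 - q)) = q * star (U' : Bd H) + (1 - q) := by
      rw [star_add, star_mul, star_sub, star_one, hq.star_eq, hq2]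
    refine ⟨?_, ?_⟩
    · rw [hst]
      calc (q * star (U' : Bd H) + (1 - q)) * (q * (U' : Bd H) + (1 - q))
          = q * star (U' : Bd H) * q * U' + q * star (U' : Bd H) - (q * star (U' : Bd H)) * q +
            (q - q * q) * U' + (1 - (q + q) + q * q) := by noncomm_ring
        _ = q * (star (U' : Bd H) * q) * U' + q * star (U' : Bd H) - q * (star (U' : Bd H) * q) +
            (1 - q) := by rw [hqq]; noncomm_ring
        _ = 1 := by
          rw [← hq2, ← mul_assoc q q, hqq, mul_assoc q, ustar_mul]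
          noncomm_ring
    · rw [hst]
      calc (q * (U' : Bd H) + (1 - q)) * (q * star (U' : Bd H) + (1 - q))
          = q * (U' : Bd H) * q * star (U' : Bd H) + q * (U' : Bd H) - (q * (U' : Bd H)) * q +
            (q - q * q) * star (U' : Bd H) + (1 - (q + q) + q * q) := by noncomm_ring
        _ = q * ((U' : Bd H) * q) * star (U' : Bd H) + q * (U' : Bd H) - q * ((U' : Bd H) * q) +
            (1 - q) := by rw [hqq]; noncomm_ring
        _ = 1 := by
          rw [← hq1, ← mul_assoc q q, hqq, mul_assoc q, umul_star]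
          noncomm_ring
  set U'' : unitary (Bd H) := ⟨q * (U' : Bd H) + (1 - q), hmem⟩ with hU''
  have hU''M : (U'' : Bd H) ∈ B M :=
    add_mem (mul_mem hqM hU'M) (sub_mem (one_mem _) hqM)
  have hUdec : (U : Bd H) = P * U + (1 - P) := by
    refine ContinuousLinearMap.ext (fun x => ?_)
    show (U : Bd H) x = P ((U : Bd H) x) + (x - P x)
    have h1 : (U : Bd H) (x - P x) = x - P x := hU1 _ (S.sub_starProjection_mem_orthogonal x)
    have h2 : P ((U : Bd H) x) = (U : Bd H) (P x) := congrArg (fun T : Bd H => T x) hSU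
    rw [h2, ← h1, map_sub]
    abel
  have hU''U : ‖(U'' : Bd H) - U‖ ≤ 300 * ε := by
    have h1 : (U'' : Bd H) - U = q * ((U' : Bd H) - U) + (q - P) * U - (q - P) := by
      conv_lhs => rw [hUdec]
      show q * (U' : Bd H) + (1 - q) - (P * U + (1 - P)) = _
      noncomm_ring
    rw [h1]
    have h2 := norm_sub_le (q * ((U' : Bd H) - U) + (q - P) * U) (q - P)
    have h3 := norm_add_le (q * ((U' : Bd H) - U)) ((q - P) * (U : Bd H))
    rw [CStarRing.norm_mul_coe_unitary] at h3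
    have h4 := norm_mul_le q ((U' : Bd H) - U)
    have h5 : ‖q‖ ≤ 1 := by
      have h6 := CStarRing.norm_star_mul_self (x := q)
      rw [hq.star_eq, hqq] at h6
      rcases eq_or_ne ‖q‖ 0 with h | h
      · rw [h]; exact zero_le_one
      · exact (mul_right_cancel₀ h (by rw [← h6, one_mul])).le
    have h6 : ‖q‖ * ‖(U' : Bd H) - U‖ ≤ 1 * (40 * (7 * ε)) := by gcongr
    linarith
  have hV'V : ‖(V' : Bd H) - V‖ ≤ 300 * ε := by linarith
  have hnc'' : nc U'' V' ≤ 1 / 4 := by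
    have := nc_congr U U'' V V'
    linarith
  have hqfin : FinRk q := by
    have hPf : FinRk P := FinRk.of_le S (fun x => S.starProjection_apply_mem x)
    unfold FinRk at hPf ⊢
    let g : LinearMap.range (q : H →ₗ[ℂ] H) →ₗ[ℂ] LinearMap.range (P : H →ₗ[ℂ] H) :=
      ((P : H →ₗ[ℂ] H).rangeRestrict) ∘ₗ (LinearMap.range (q : H →ₗ[ℂ] H)).subtype
    have hg : Function.Injective g := by
      rw [← LinearMap.ker_eq_bot, LinearMap.ker_eq_bot']
      rintro ⟨_, y, rfl⟩ hy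
      have h1 : P (q y) = 0 := congrArg (fun z : LinearMap.range (P : H →ₗ[ℂ] H) => (z : H)) hy
      have h2 : q (q y) = q y := congrArg (fun T : Bd H => T y) hqq
      have h3 : (q - P) (q y) = q y := by rw [sub_apply, h1, h2, sub_zero]
      have h4 := (q - P).le_opNorm (q y)
      rw [h3] at h4
      have h5 : ‖q y‖ ≤ 1 / 2 * ‖q y‖ :=
        h4.trans (mul_le_mul_of_nonneg_right (by linarith) (norm_nonneg _))
      have h6 : ‖q y‖ = 0 := by
        have := norm_nonneg (q y)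
        linarith
      exact Subtype.ext (norm_eq_zero.1 h6)
    exact FiniteDimensional.of_injective g hg
  obtain ⟨N, hN⟩ := hbd M
  have := hcl M
  obtain ⟨k', hk'⟩ := good_exists hN (hess M) hU''M hV'M (by linarith)
  have hkk : k' = k := idx_unique hmono hbd ⟨M, U'', V', hk', by linarith, by linarith⟩ hk hnc
  obtain ⟨Sq, fSq, hSq, hSq2⟩ := exists_range hq hqq hqfin
  obtain ⟨-, -, r, hr, hrs, hrf, hL⟩ := hk'
  obtain ⟨L, fL, iL, i1, i2, -⟩ := common hN hr hrs hrf hqM hq hqfin hqM hq hqfin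
  have hSqL : Sq ≤ L := by
    intro x hx
    have h1 : q x = x := by rw [← hSq]; exact Submodule.starProjection_eq_self_iff.2 hx
    rw [← h1]
    exact i2 x
  have hom := hL L iL i1
  have f2 : FiniteDimensional ℂ (L ⊓ Sqᗮ : Submodule ℂ H) :=
    Submodule.finiteDimensional_of_le inf_le_left
  have hq0 : ∀ x ∈ Sqᗮ, q x = 0 := by
    intro x hx
    rw [← hSq]
    exact (Submodule.starProjection_apply_eq_zero_iff _).2 hx
  have hRedSq : ∀ {X : Bd H}, Commute q X → Red Sq X := by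
    intro X hX
    show Commute Sq.starProjection X
    rw [hSq]
    exact hX
  have hqU'' : Commute q (U'' : Bd H) := by
    show q * (q * (U' : Bd H) + (1 - q)) = (q * (U' : Bd H) + (1 - q)) * q
    have a1 : q * (q * (U' : Bd H) + (1 - q)) = q * U' := by
      calc q * (q * (U' : Bd H) + (1 - q)) = (q * q) * U' + (q - q * q) := by noncomm_ring
        _ = q * U' := by rw [hqq, sub_self, add_zero]
    have a2 : (q * (U' : Bd H) + (1 - q)) * q = q * U' := by
      calc (q * (U' : Bd H) + (1 - q)) * q = q * (U' * q) + (q - q * q) := by noncomm_ring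
        _ = q * (q * U') := by rw [← hq1, hqq, sub_self, add_zero]
        _ = q * U' := by rw [← mul_assoc, hqq]
    rw [a1, a2]
  have hRedM : ∀ {X : Bd H}, X ∈ B M → Commute q X → Red (L ⊓ Sqᗮ) X := by
    intro X hXM hX
    refine red_of_invariant (fun x hx => ⟨iL X hXM x hx.1, ?_⟩)
      (fun x hx => ⟨iL _ (star_mem hXM) x hx.1, ?_⟩)
    · have h1 : q (X x) = 0 := by
        have h2 : q (X x) = X (q x) := congrArg (fun T : Bd H => T x) hX
        rw [h2, hq0 x hx.2, map_zero]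
      rw [← hSq] at h1
      exact (Submodule.starProjection_apply_eq_zero_iff _).1 h1
    · have hX' : Commute q (star X) := by
        have := hX.star_star
        rwa [hq.star_eq] at this
      have h1 : q ((star X) x) = 0 := by
        have h2 : q ((star X) x) = (star X) (q x) := congrArg (fun T : Bd H => T x) hX'
        rw [h2, hq0 x hx.2, map_zero]
      rw [← hSq] at h1
      exact (Submodule.starProjection_apply_eq_zero_iff _).1 h1
  have hU''id : ∀ x ∈ Sqᗮ, (U'' : Bd H) x = x := by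
    intro x hx
    show (q * (U' : Bd H) + (1 - q)) x = x
    rw [hq1]
    show (U' : Bd H) (q x) + (x - q x) = x
    rw [hq0 x hx, map_zero, sub_zero, zero_add]
  have hsU''id : ∀ x ∈ Sqᗮ, (star (U'' : Bd H)) x = x := by
    intro x hx
    conv_lhs => rw [← hU''id x hx]
    have := ustar_mul U''
    exact congrArg (fun T : Bd H => T x) this
  have hM0 : om (L ⊓ Sqᗮ) U'' V' = 0 := by
    have hRV := hRedM hV'M hqV'
    refine om_small (κ := 0) (hRedM hU''M hqU'') hRV (fun x hx => ?_) (by norm_num)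
      (by linarith)
    rw [zero_mul]
    have h1 : ((cm U'' V' : unitary (Bd H)) : Bd H) x = x := by
      unfold cm
      simp only [Submonoid.coe_mul, Unitary.coe_star]
      show (U'' : Bd H) ((V' : Bd H) ((star (U'' : Bd H)) ((star (V' : Bd H)) x))) = x
      have h2 : (star (V' : Bd H)) x ∈ L ⊓ Sqᗮ := hRV.star.mem hx
      rw [hsU''id _ h2.2]
      have h3 : (V' : Bd H) ((star (V' : Bd H)) x) = x :=
        congrArg (fun T : Bd H => T x) (umul_star V')
      rw [h3]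
      exact hU''id x hx.2
    rw [sub_apply, h1, one_apply_eq_self, sub_self, norm_zero]
  have hsplit := om_orth hSqL inf_le_left (starProjection_split hSqL) U'' V'
  rw [hM0, add_zero, hom] at hsplit
  have hfin := hδ Sq U'' V' (by rw [hSq]; linarith) (by linarith) (by linarith)
  rw [← hsplit, hk₀] at hfin
  have h1 : |k' - k₀| < 1 := by exact_mod_cast hfin
  have h2 : k' = k₀ := by
    rw [abs_lt] at h1
    omega
  rw [hk₀, ← h2, hkk]

/-- Theorem N: the index. -/
theorem exists_index (hmono : Monotone B) (hcl : ∀ n, IsClosed (B n : Set (Bd H)))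
    (hbd : ∀ n, ∃ N, BddIrr (B n : Set (Bd H)) N)
    (hess : ∀ n, ∀ a ∈ B n, ∀ b ∈ B n, IsKp (a * b - b * a))
    {V : unitary (Bd H)} (hV : InCl B V) :
    ∃ f : unitary (Bd H) → ℤ,
      (∀ U₁ U₂ : unitary (Bd H), InCl B U₁ → InCl B U₂ → nc U₁ V ≤ 1 / 16 → nc U₂ V ≤ 1 / 16 →
        nc (U₁ * U₂) V ≤ 1 / 16 → f (U₁ * U₂) = f U₁ + f U₂) ∧
      (∀ U : unitary (Bd H), InCl B U → nc U V ≤ 1 / 16 →
        ∀ (S : Submodule ℂ H) [FiniteDimensional ℂ S], InCl B S.starProjection →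
          Red S (U : Bd H) → Red S (V : Bd H) → (∀ x ∈ Sᗮ, (U : Bd H) x = x) →
          om S U V = f U) := by
  classical
  let f : unitary (Bd H) → ℤ := fun U => if h : ∃ k, Idx B U V k then h.choose else 0
  have hf : ∀ U : unitary (Bd H), InCl B U → nc U V ≤ 1 / 16 → Idx B U V (f U) := by
    intro U hU hnc
    have h := idx_exists hmono hcl hbd hess hU hV hnc
    have h2 : f U = h.choose := dif_pos h
    rw [h2]
    exact h.choose_spec
  refine ⟨f, ?_, ?_⟩
  · intro U₁ U₂ h1 h2 n1 n2 n3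
    have hmul : InCl B ((U₁ * U₂ : unitary (Bd H)) : Bd H) := by
      intro ε hε
      obtain ⟨n, b, hb, hb2⟩ := h1 (min (ε / 4) 1) (by positivity)
      obtain ⟨m, c, hc, hc2⟩ := h2 (min (ε / 4) 1) (by positivity)
      refine ⟨max n m, b * c, mul_mem (hmono (le_max_left n m) hb) (hmono (le_max_right n m) hc), ?_⟩
      have h3 : b * c - ((U₁ * U₂ : unitary (Bd H)) : Bd H) =
          (b - U₁) * (c - U₂) + (b - U₁) * U₂ + U₁ * (c - U₂) := by
        rw [Submonoid.coe_mul]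
        noncomm_ring
      rw [h3]
      have h4 := norm_add_le ((b - U₁) * (c - U₂) + (b - U₁) * U₂) (U₁ * (c - U₂))
      have h5 := norm_add_le ((b - U₁) * (c - U₂)) ((b - (U₁ : Bd H)) * U₂)
      rw [CStarRing.norm_mul_coe_unitary] at h5
      rw [CStarRing.norm_coe_unitary_mul] at h4
      have h6 := norm_mul_le (b - U₁) (c - (U₂ : Bd H))
      have h7 : ‖b - U₁‖ * ‖c - (U₂ : Bd H)‖ ≤ (ε / 4) * 1 := by
        have a1 := hb2.trans (min_le_left _ _)
        have a2 := hc2.trans (min_le_right _ _)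
        gcongr
      have a1 := hb2.trans (min_le_left _ _)
      have a2 := hc2.trans (min_le_left _ _)
      linarith
    exact idx_unique hmono hbd (hf _ hmul n3) (idx_mul hmono hcl hbd hess h1 h2 hV n1 n2
      (hf _ h1 n1) (hf _ h2 n2)) n3
  · intro U hU hnc S _ hS hSU hSV hU1
    exact idx_norm hmono hcl hbd hess hU hV hnc hS hSU hSV hU1 (hf U hU hnc)

end Pool.Agent.Ped8316
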