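import Mathlib
import Pool.Agent.Lib.Ped8316.Defs
import Pool.Agent.Lib.Ped8316.NegAbs

/-!
# From an ASH structure to an increasing sequence of algebras with bounded irreducible subspaces
-/

set_option autoImplicit false
set_option linter.unusedSectionVars false

open Topology Filter Set
open scoped InnerProductSpace ComplexConjugate

namespace Pool.Agent.Ped8316

variable {H : Type} [NormedAddCommGroup H] [InnerProductSpace ℂ H] [CompleteSpace H]

/-- a closed subspace invariant under a star closed set is invariant under the closed unital star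
algebra it generates -/
lemma inv_closure {R : Set (Bd H)} (hR : ∀ T ∈ R, star T ∈ R) {M : Submodule ℂ H}
    (hM : IsClosed (M : Set H)) (h : Inv R M) :
    Inv ((StarAlgebra.adjoin ℂ R).topologicalClosure : Set (Bd H)) M := by
  have h1 : ∀ T ∈ StarAlgebra.adjoin ℂ R, (∀ x ∈ M, T x ∈ M) ∧ (∀ x ∈ M, (star T) x ∈ M) := by
    intro T hT
    induction hT using StarAlgebra.adjoin_induction with
    | mem T hT => exact ⟨fun x hx => h T hT x hx, fun x hx => h _ (hR T hT) x hx⟩
    | algebraMap r =>
      refine ⟨fun x hx => ?_, fun x hx => ?_⟩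
      · rw [Algebra.algebraMap_eq_smul_one]
        exact M.smul_mem _ hx
      · rw [Algebra.algebraMap_eq_smul_one, star_smul, star_one]
        exact M.smul_mem _ hx
    | add a b _ _ ha hb =>
      refine ⟨fun x hx => M.add_mem (ha.1 x hx) (hb.1 x hx), fun x hx => ?_⟩
      rw [star_add]
      exact M.add_mem (ha.2 x hx) (hb.2 x hx)
    | mul a b _ _ ha hb =>
      refine ⟨fun x hx => ha.1 _ (hb.1 x hx), fun x hx => ?_⟩
      rw [star_mul]
      exact hb.2 _ (ha.2 x hx)
    | star a _ ha =>
      refine ⟨ha.2, ?_⟩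
      rw [star_star]
      exact ha.1
  have h2 : ((StarAlgebra.adjoin ℂ R).topologicalClosure : Set (Bd H)) ⊆
      {T : Bd H | ∀ x ∈ M, T x ∈ M} := by
    rw [StarSubalgebra.topologicalClosure_coe]
    refine closure_minimal (fun T hT => (h1 T hT).1) ?_
    have : {T : Bd H | ∀ x ∈ M, T x ∈ M} = ⋂ x ∈ M, (fun T : Bd H => T x) ⁻¹' (M : Set H) := by
      ext T
      simp
    rw [this]
    refine isClosed_biInter fun x _ => hM.preimage ?_
    exact (ContinuousLinearMap.apply ℂ H x).continuous
  exact fun T hT x hx => h2 hT x hx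

/-- the restriction of an operator to an invariant subspace -/
noncomputable def restr (M : Submodule ℂ H) (T : Bd H) (h : ∀ x ∈ M, T x ∈ M) : M →L[ℂ] M :=
  (T.comp M.subtypeL).codRestrict M (fun x => h x x.2)

lemma coe_restr (M : Submodule ℂ H) (T : Bd H) (h : ∀ x ∈ M, T x ∈ M) (x : M) :
    (restr M T h x : H) = T x := rfl

/-- the restriction of a representation -/
noncomputable def restrRep {C : Type} [NonUnitalCStarAlgebra C]
    {A : NonUnitalStarSubalgebra ℂ (Bd H)} [IsClosed (A : Set (Bd H))]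
    (ψ : C →⋆ₙₐ[ℂ] A) (M : Submodule ℂ H) [CompleteSpace M]
    (h : ∀ b, ∀ x ∈ M, ((ψ b : A) : Bd H) x ∈ M) : C →⋆ₙₐ[ℂ] (M →L[ℂ] M) where
  toFun b := restr M (ψ b : A) (h b)
  map_smul' := by
    intro c b
    ext x
    show ((ψ (c • b) : A) : Bd H) x = c • ((ψ b : A) : Bd H) x
    rw [map_smul]
    rfl
  map_zero' := by
    ext x
    show ((ψ 0 : A) : Bd H) x = 0
    rw [map_zero]
    rfl
  map_add' := by
    intro b b'
    ext x
    show ((ψ (b + b') : A) : Bd H) x = ((ψ b : A) : Bd H) x + ((ψ b' : A) : Bd H) x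
    rw [map_add]
    rfl
  map_mul' := by
    intro b b'
    ext x
    show ((ψ (b * b') : A) : Bd H) x = ((ψ b : A) : Bd H) (((ψ b' : A) : Bd H) x)
    rw [map_mul]
    rfl
  map_star' := by
    intro b
    rw [ContinuousLinearMap.star_eq_adjoint, ContinuousLinearMap.eq_adjoint_iff]
    intro x y
    show ⟪((ψ (star b) : A) : Bd H) x, (y : H)⟫_ℂ = ⟪(x : H), ((ψ b : A) : Bd H) y⟫_ℂ
    rw [map_star]
    show ⟪(star ((ψ b : A) : Bd H)) x, (y : H)⟫_ℂ = ⟪(x : H), ((ψ b : A) : Bd H) y⟫_ℂ
    rw [ContinuousLinearMap.star_eq_adjoint, ContinuousLinearMap.adjoint_inner_left]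

/-- Proof. `B n := (StarAlgebra.adjoin ℂ (range fun b => (ψ n b : Bd H))).topologicalClosure`. The
closed `B n`-invariant subspaces are the closed `range (ψ n)`-invariant subspaces. Let `M` be closed,
invariant, `≠ ⊥`, irreducible. If `ψ n b` vanishes on `M` for all `b`, then every line in `M` is
invariant, so `finrank M = 1`. Otherwise the restriction of `ψ n` to `M` (a Hilbert space in `Type`)
is an irreducible representation of the domain of `ψ n`, so `finrank M ≤ N`. Take `max N 1`. -/
theorem exists_B (A : NonUnitalStarSubalgebra ℂ (Bd H)) [IsClosed (A : Set (Bd H))]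
    (h1 : (1 : Bd H) ∈ A) (hA : IsASH A) :
    ∃ B : ℕ → StarSubalgebra ℂ (Bd H), Monotone B ∧ (∀ n, IsClosed (B n : Set (Bd H))) ∧
      (∀ n, ∃ N, BddIrr (B n : Set (Bd H)) N) ∧ (∀ n, ∀ a ∈ B n, a ∈ A) ∧ ∀ a ∈ A, InCl B a := by
  obtain ⟨C, iC, φ, ψ, hsub, hcomp, -, hdense⟩ := hA
  set R : ℕ → Set (Bd H) := fun n => range (fun b => ((ψ n b : A) : Bd H)) with hR
  have hRstar : ∀ n, ∀ T ∈ R n, star T ∈ R n := by
    rintro n _ ⟨b, rfl⟩
    refine ⟨star b, ?_⟩
    show ((ψ n (star b) : A) : Bd H) = star ((ψ n b : A) : Bd H)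
    rw [map_star]
    rfl
  have hRmono : ∀ n, R n ⊆ R (n + 1) := by
    rintro n _ ⟨b, rfl⟩
    refine ⟨φ n b, ?_⟩
    show ((ψ (n + 1) (φ n b) : A) : Bd H) = ((ψ n b : A) : Bd H)
    rw [hcomp]
  have hRB : ∀ n, R n ⊆ ((StarAlgebra.adjoin ℂ (R n)).topologicalClosure : Set (Bd H)) := by
    intro n T hT
    exact StarSubalgebra.le_topologicalClosure _ (StarAlgebra.subset_adjoin ℂ _ hT)
  let A' : StarSubalgebra ℂ (Bd H) :=
    { carrier := A
      mul_mem' := fun ha hb => A.mul_mem ha hb
      one_mem' := h1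
      add_mem' := fun ha hb => A.add_mem ha hb
      zero_mem' := A.zero_mem
      algebraMap_mem' := fun r => by
        rw [Algebra.algebraMap_eq_smul_one]
        exact SMulMemClass.smul_mem (S := NonUnitalStarSubalgebra ℂ (Bd H)) (s := A) r h1
      star_mem' := fun {a} ha => star_mem (S := NonUnitalStarSubalgebra ℂ (Bd H)) (s := A) ha }
  refine ⟨fun n => (StarAlgebra.adjoin ℂ (R n)).topologicalClosure, ?_, ?_, ?_, ?_, ?_⟩
  · refine monotone_nat_of_le_succ fun n => ?_
    exact StarSubalgebra.topologicalClosure_mono (StarAlgebra.adjoin_mono (hRmono n))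
  · exact fun n => StarSubalgebra.isClosed_topologicalClosure _
  · intro n
    obtain ⟨N, hN⟩ := hsub n
    refine ⟨max N 1, ?_⟩
    intro M hMc hMinv hM0 hMirr
    have hMR : Inv (R n) M := hMinv.mono (hRB n)
    have hcs : CompleteSpace M := hMc.completeSpace_coe
    by_cases hz : ∀ b, ∀ x ∈ M, ((ψ n b : A) : Bd H) x = 0
    · obtain ⟨x, hxM, hx0⟩ := Submodule.exists_mem_ne_zero_of_ne_bot hM0
      have h2 : Inv (R n) (ℂ ∙ x) := by
        rintro _ ⟨b, rfl⟩ y hy
        have hyM : y ∈ M := (Submodule.span_singleton_le_iff_mem x M).2 hxM hy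
        show ((ψ n b : A) : Bd H) y ∈ _
        rw [hz b y hyM]
        exact Submodule.zero_mem _
      have h3 := inv_closure (hRstar n) (Submodule.closed_of_finiteDimensional (ℂ ∙ x)) h2
      rcases hMirr (ℂ ∙ x) (Submodule.closed_of_finiteDimensional _) h3
        ((Submodule.span_singleton_le_iff_mem x M).2 hxM) with h4 | h4
      · exact absurd (Submodule.span_singleton_eq_bot.1 h4) hx0
      · rw [← h4]
        refine ⟨inferInstance, ?_⟩
        rw [finrank_span_singleton hx0]
        exact le_max_right _ _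
    · push Not at hz
      obtain ⟨b₀, x₀, hx₀, hb₀⟩ := hz
      have hMR' : ∀ b, ∀ x ∈ M, ((ψ n b : A) : Bd H) x ∈ M := fun b x hx => hMR _ ⟨b, rfl⟩ x hx
      have hirr : IsIrreducible (restrRep (ψ n) M hMR') := by
        refine ⟨⟨b₀, fun h0 => hb₀ ?_⟩, ?_⟩
        · have h5 : (restrRep (ψ n) M hMR' b₀ ⟨x₀, hx₀⟩ : M) = 0 := by
            rw [h0]
            rfl
          exact congrArg (fun z : M => (z : H)) h5
        · intro M' hM'c hM'inv
          set M'' : Submodule ℂ H := M'.map M.subtype with hM''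
          have hle : M'' ≤ M := by
            rintro _ ⟨y, _, rfl⟩
            exact y.2
          have hcl : IsClosed (M'' : Set H) := by
            have : (M'' : Set H) = Subtype.val '' (M' : Set M) := by
              rw [hM'', Submodule.map_coe]
              rfl
            rw [this]
            exact hMc.isClosedEmbedding_subtypeVal.isClosedMap _ hM'c
          have hinv : Inv (R n) M'' := by
            rintro _ ⟨b, rfl⟩ _ ⟨y, hy, rfl⟩
            exact ⟨restrRep (ψ n) M hMR' b y, hM'inv b y hy, rfl⟩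
          rcases hMirr M'' hcl (inv_closure (hRstar n) hcl hinv) hle with h4 | h4
          · left
            rw [eq_bot_iff]
            intro y hy
            have h5 : (y : H) ∈ M'' := ⟨y, hy, rfl⟩
            rw [h4, Submodule.mem_bot] at h5
            rw [Submodule.mem_bot]
            exact Subtype.ext h5
          · right
            rw [eq_top_iff]
            intro y _
            have h5 : (y : H) ∈ M'' := by
              rw [h4]
              exact y.2
            obtain ⟨z, hz, hzy⟩ := h5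
            have : z = y := Subtype.ext hzy
            rw [← this]
            exact hz
      obtain ⟨h5, h6⟩ := hN M (restrRep (ψ n) M hMR') hirr
      exact ⟨h5, h6.trans (le_max_left _ _)⟩
  · intro n a ha
    have h2 : (StarAlgebra.adjoin ℂ (R n)).topologicalClosure ≤ A' := by
      refine StarSubalgebra.topologicalClosure_minimal ?_ (by assumption)
      refine StarAlgebra.adjoin_le ?_
      rintro _ ⟨b, rfl⟩
      exact (ψ n b : A).2
    exact h2 ha
  · intro a ha ε hε
    obtain ⟨y, hy, hya⟩ := hdense.exists_dist_lt (⟨a, ha⟩ : A) hε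
    rw [mem_iUnion] at hy
    obtain ⟨n, b, rfl⟩ := hy
    refine ⟨n, _, hRB n ⟨b, rfl⟩, ?_⟩
    rw [dist_comm, dist_eq_norm] at hya
    exact hya.le

end Pool.Agent.Ped8316
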