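import Mathlib

/-!
# The set of ill-founded trees is not Borel

Nodes of the tree of finite sequences of naturals are coded by naturals: `0` is the root and the
`i`-th child of `s` is `Nat.pair i s + 1`.
-/

set_option autoImplicit false

open MeasureTheory Topology Filter Set

namespace Pool.Agent.Ped8316

/-- the `i`-th child of `s` -/
def child (s i : ℕ) : ℕ := Nat.pair i s + 1

/-- the parent of a node -/
def par (n : ℕ) : ℕ := (Nat.unpair (n - 1)).2

@[simp] lemma par_child (s i : ℕ) : par (child s i) = s := by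
  simp [par, child]

lemma child_pos (s i : ℕ) : 1 ≤ child s i := by unfold child; omega

lemma lt_child (s i : ℕ) : s < child s i := by
  unfold child
  have := Nat.right_le_pair i s
  omega

lemma par_lt {n : ℕ} (h : 1 ≤ n) : par n < n := by
  unfold par
  have := Nat.unpair_right_le (n - 1)
  omega

lemma child_par {n : ℕ} (h : 1 ≤ n) : child (par n) (Nat.unpair (n - 1)).1 = n := by
  unfold child par
  rw [Nat.pair_unpair]
  omega

lemma child_inj {s i s' i' : ℕ} (h : child s i = child s' i') : s = s' ∧ i = i' := by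
  unfold child at h
  have h1 : Nat.pair i s = Nat.pair i' s' := by omega
  rw [Nat.pair_eq_pair] at h1
  exact ⟨h1.2, h1.1⟩

/-- `T` (a set of nodes) has an infinite branch starting at the root. -/
def IllFounded (T : ℕ → Bool) : Prop :=
  ∃ β : ℕ → ℕ, β 0 = 0 ∧ ∀ k, 1 ≤ β (k + 1) ∧ par (β (k + 1)) = β k ∧ T (β (k + 1)) = true

/-- the node reached along `y` after `k` steps -/
def node (y : ℕ → ℕ) : ℕ → ℕ
  | 0 => 0
  | k + 1 => child (node y k) (y k)

lemma le_node (y : ℕ → ℕ) (k : ℕ) : k ≤ node y k := by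
  induction k with
  | zero => exact Nat.zero_le _
  | succ k ih =>
    have := lt_child (node y k) (y k)
    simp only [node]
    omega

lemma node_inj {y y' : ℕ → ℕ} : ∀ {k k' : ℕ}, node y k = node y' k' →
    k = k' ∧ ∀ l < k, y l = y' l
  | 0, 0, _ => ⟨rfl, fun l hl => absurd hl (Nat.not_lt_zero l)⟩
  | 0, k' + 1, h => by
    have := child_pos (node y' k') (y' k')
    simp only [node] at h
    omega
  | k + 1, 0, h => by
    have := child_pos (node y k) (y k)
    simp only [node] at h
    omega
  | k + 1, k' + 1, h => by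
    simp only [node] at h
    obtain ⟨h1, h2⟩ := child_inj h
    obtain ⟨h3, h4⟩ := node_inj h1
    refine ⟨by rw [h3], fun l hl => ?_⟩
    rcases Nat.lt_succ_iff_lt_or_eq.1 hl with h5 | h5
    · exact h4 l h5
    · subst h5
      subst h3
      exact h2

open Classical in
/-- the diagonal tree -/
noncomputable def diagTree (g : (ℕ → ℕ) → (ℕ → Bool)) (m : ℕ) : Bool :=
  decide (∃ (y : ℕ → ℕ) (k : ℕ), node y k = m ∧ ∀ l, l < k →
    if _h : l < m then g y l = diagTree g l else False)
termination_by m

lemma diagTree_iff (g : (ℕ → ℕ) → (ℕ → Bool)) (m : ℕ) :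
    diagTree g m = true ↔ ∃ (y : ℕ → ℕ) (k : ℕ), node y k = m ∧
      ∀ l, l < k → g y l = diagTree g l := by
  rw [diagTree]
  simp only [decide_eq_true_eq]
  constructor
  · rintro ⟨y, k, h1, h2⟩
    refine ⟨y, k, h1, fun l hl => ?_⟩
    have h3 := h2 l hl
    have h4 : l < m := by have := le_node y k; omega
    rw [dif_pos h4] at h3
    exact h3
  · rintro ⟨y, k, h1, h2⟩
    refine ⟨y, k, h1, fun l hl => ?_⟩
    have h4 : l < m := by have := le_node y k; omega
    rw [dif_pos h4]
    exact h2 l hl

/-- The set of ill-founded trees is not Borel. -/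
theorem not_measurableSet_illFounded : ¬ MeasurableSet {T : ℕ → Bool | IllFounded T} := by
  intro hmeas
  have hcm : TopologicalSpace.IsCompletelyMetrizableSpace (ℕ → Bool) :=
    TopologicalSpace.IsCompletelyMetrizableSpace.pi_countable (X := fun _ : ℕ => Bool)
  have hpol : PolishSpace (ℕ → Bool) := inferInstance
  have han : AnalyticSet {T : ℕ → Bool | IllFounded T}ᶜ := hmeas.compl.analyticSet
  have hne : ({T : ℕ → Bool | IllFounded T}ᶜ).Nonempty := by
    refine ⟨fun _ => false, ?_⟩
    rintro ⟨β, _, h2⟩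
    have := (h2 0).2.2
    simp at this
  rw [AnalyticSet] at han
  rcases han with h | ⟨g, hg, hr⟩
  · exact hne.ne_empty h
  have hmem : ∀ T : ℕ → Bool, T ∈ range g ↔ ¬ IllFounded T := by
    intro T
    rw [hr]
    rfl
  have h1 : IllFounded (diagTree g) := by
    by_contra hcon
    obtain ⟨y, hy⟩ := (hmem _).2 hcon
    refine hcon ⟨node y, rfl, fun k => ⟨child_pos _ _, par_child _ _, ?_⟩⟩
    rw [diagTree_iff]
    exact ⟨y, k + 1, rfl, fun l _ => congrFun hy l⟩
  refine (hmem (diagTree g)).1 ?_ h1
  obtain ⟨β, hβ0, hβ⟩ := h1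
  -- the branch as a sequence
  set y : ℕ → ℕ := fun k => (Nat.unpair (β (k + 1) - 1)).1 with hy
  have hnode : ∀ k, node y k = β k := by
    intro k
    induction k with
    | zero => exact hβ0.symm
    | succ k ih =>
      simp only [node]
      rw [ih, ← (hβ k).2.1]
      exact child_par (hβ k).1
  have hz : ∀ k, ∃ z : ℕ → ℕ, (∀ l < k + 1, z l = y l) ∧ ∀ l < k + 1, g z l = diagTree g l := by
    intro k
    have h2 := (hβ k).2.2
    rw [diagTree_iff] at h2
    obtain ⟨z, k', h3, h4⟩ := h2
    rw [← hnode (k + 1)] at h3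
    obtain ⟨h5, h6⟩ := node_inj h3
    subst h5
    exact ⟨z, h6, h4⟩
  choose z hz1 hz2 using hz
  have hlim : Tendsto z atTop (𝓝 y) := by
    rw [tendsto_pi_nhds]
    intro l
    refine tendsto_const_nhds.congr' ?_
    filter_upwards [eventually_ge_atTop l] with k hk
    exact (hz1 k l (by omega)).symm
  have hlim2 : Tendsto (fun k => g (z k)) atTop (𝓝 (g y)) := (hg.tendsto y).comp hlim
  refine ⟨y, ?_⟩
  funext l
  rw [tendsto_pi_nhds] at hlim2
  have h3 := hlim2 l
  have h4 : Tendsto (fun k => g (z k) l) atTop (𝓝 (diagTree g l)) := by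
    refine tendsto_const_nhds.congr' ?_
    filter_upwards [eventually_ge_atTop l] with k hk
    exact (hz2 k l (by omega)).symm
  exact tendsto_nhds_unique h3 h4

end Pool.Agent.Ped8316
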