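import Mathlib
import Pool.Agent.Lib.Ped8316.DST

/-!
# Words, labels and counts
-/

set_option autoImplicit false
set_option linter.unusedSectionVars false

open Topology Filter Set

namespace Pool.Agent.Ped8316

/-- letters -/
inductive Ltr
  | c (r : ℕ)
  | l (r : ℕ)
  deriving DecidableEq

/-- signed letters; `true` is `+` -/
abbrev SL := Ltr × Bool

/-- the inverse of a slot content -/
def inv : Option SL → Option SL
  | none => none
  | some (g, s) => some (g, !s)

/-- the signed number of occurrences of `g` in a slot content -/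
def sgn (g : Ltr) : Option SL → ℤ
  | none => 0
  | some (h, s) => if h = g then (if s then 1 else -1) else 0

/-- the value of a slot content for a weight on the letters -/
def val (w : Ltr → ℤ) : Option SL → ℤ
  | none => 0
  | some (h, s) => if s then w h else -w h

/-- length of the words -/
def K (j : ℕ) : ℕ := j + 3

/-- active nodes: all nodes on the path to the root (except the root) are in `T` -/
def act (T : ℕ → Bool) (r : ℕ) : Bool :=
  if h : r = 0 then true else T r && act T (par r)
termination_by r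
decreasing_by exact par_lt (by omega)

/-- the `k`-th entry (`k < K j`) of the word at level `j` of the letter at level `j + 1` -/
def stepP (T : ℕ → Bool) (j : ℕ) : Ltr → ℕ → Option SL
  | .c r, k =>
    if act T r = true ∧ 1 ≤ r ∧ r ≤ j + 1 then
      (if k = 0 then some (.l (par r), false)
       else if k = 1 ∧ r ≤ j then some (.c r, true)
       else if k = 2 ∧ r ≤ j then some (.l r, true)
       else none)
    else none
  | .l r, _ => if act T r = true ∧ r ≤ j then some (.l r, true) else none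

/-- the `k`-th entry (`k < K j`) of the word at level `j` of a signed letter (or of nothing) at
level `j + 1` -/
def step (T : ℕ → Bool) (j : ℕ) : Option SL → ℕ → Option SL
  | none, _ => none
  | some (g, true), k => stepP T j g k
  | some (g, false), k => inv (stepP T j g (K j - 1 - k))

/-- the `s`-th entry (`s < PK j d`) of the word at level `j` of a content at level `j + d` -/
def W (T : ℕ → Bool) : ℕ → ℕ → Option SL → ℕ → Option SL
  | _, 0, a, _ => a
  | j, d + 1, a, s => step T j (W T (j + 1) d a (s / K j)) (s % K j)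

/-- length of the composite words -/
def PK : ℕ → ℕ → ℕ
  | _, 0 => 1
  | j, d + 1 => K j * PK (j + 1) d

/-- number of windows of the blocks at level `j` -/
def Q : ℕ → ℕ
  | 0 => 10000
  | j + 1 => 2 * K j * Q j

/-- number of windows per level `j` slot of the blocks at level `j + d` -/
def Dn (j d : ℕ) : ℕ := Q j * 2 ^ d

lemma Q_eq (j d : ℕ) : Q (j + d) = Dn j d * PK j d := by
  induction d generalizing j with
  | zero => simp [Dn, PK]
  | succ d ih =>
    have h : j + (d + 1) = (j + 1) + d := by omega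
    rw [h, ih]
    simp only [Dn, PK, Q]
    ring

/-- two steps of composition, `s` arbitrary -/
lemma W_comp (T : ℕ → Bool) (j d e : ℕ) (a : Option SL) (s : ℕ) :
    W T j (d + e) a s = W T j d (W T (j + d) e a (s / PK j d)) (s % PK j d) := by
  induction d generalizing j s with
  | zero => simp [W, PK]
  | succ d ih =>
    have h : d + 1 + e = (d + e) + 1 := by omega
    have h2 : j + (d + 1) = (j + 1) + d := by omega
    rw [h, h2]
    simp only [W, PK]
    rw [ih, Nat.mod_mul_right_div_self, Nat.mod_mul_right_mod, Nat.div_div_eq_div_mul]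

lemma inv_inv' (a : Option SL) : inv (inv a) = a := by
  rcases a with _ | ⟨g, s⟩ <;> simp [inv]

lemma step_inv (T : ℕ → Bool) (j : ℕ) (b : Option SL) {k : ℕ} (hk : k < K j) :
    step T j (inv b) k = inv (step T j b (K j - 1 - k)) := by
  rcases b with _ | ⟨g, s⟩
  · simp [inv, step]
  · cases s
    · simp only [inv, Bool.not_false, step]
      have : K j - 1 - (K j - 1 - k) = k := by omega
      rw [this]
      exact (inv_inv' _).symm
    · simp [inv, step]

lemma step_none (T : ℕ → Bool) (j k : ℕ) : step T j none k = none := by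
  simp [step]

lemma W_none (T : ℕ → Bool) (j d s : ℕ) : W T j d none s = none := by
  induction d generalizing j s with
  | zero => rfl
  | succ d ih => simp only [W]; rw [ih, step_none]

lemma K_pos (j : ℕ) : 0 < K j := by unfold K; omega

lemma PK_pos (j d : ℕ) : 0 < PK j d := by
  induction d generalizing j with
  | zero => simp [PK]
  | succ d ih => simp only [PK]; exact Nat.mul_pos (K_pos j) (ih _)

lemma W_inv (T : ℕ → Bool) (j d : ℕ) (a : Option SL) {s : ℕ} (hs : s < PK j d) :
    W T j d (inv a) s = inv (W T j d a (PK j d - 1 - s)) := by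
  induction d generalizing j s with
  | zero => simp [W]
  | succ d ih =>
    simp only [W]
    simp only [PK] at hs ⊢
    have hK := K_pos j
    have h1 : s / K j < PK (j + 1) d := Nat.div_lt_of_lt_mul hs
    rw [ih (j + 1) h1, step_inv T j _ (Nat.mod_lt _ hK)]
    -- arithmetic
    have hs' := Nat.div_add_mod s (K j)
    have hm := Nat.mod_lt s hK
    set q := s / K j
    set r := s % K j
    obtain ⟨q', hq'⟩ : ∃ q', PK (j + 1) d = q + 1 + q' := ⟨PK (j + 1) d - (q + 1), by omega⟩
    obtain ⟨r', hr'⟩ : ∃ r', K j = r + 1 + r' := ⟨K j - (r + 1), by omega⟩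
    have e1 : K j * PK (j + 1) d - 1 - s = K j * q' + r' := by
      rw [hq', ← hs', Nat.mul_add, Nat.mul_add, Nat.mul_one]
      omega
    have e2 : (K j * q' + r') / K j = q' := by
      rw [Nat.mul_add_div hK, Nat.div_eq_of_lt (by omega), Nat.add_zero]
    have e3 : (K j * q' + r') % K j = r' := by
      rw [Nat.mul_add_mod, Nat.mod_eq_of_lt (by omega)]
    rw [e1, e2, e3]
    have e4 : PK (j + 1) d - 1 - q = q' := by omega
    have e5 : K j - 1 - r = r' := by omega
    rw [e4, e5]

/-- the integral of a sequence of integers -/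
noncomputable def PL (w : ℕ → ℤ) (t : ℝ) : ℝ :=
  ∑ k ∈ Finset.range ⌊t⌋₊, (w k : ℝ) + w ⌊t⌋₊ * Int.fract t

lemma PL_mono {w : ℕ → ℤ} (hw : ∀ k, 0 ≤ w k) {t t' : ℝ} (ht : 0 ≤ t) (htt : t ≤ t') :
    PL w t ≤ PL w t' := by
  have hw' : ∀ k, (0 : ℝ) ≤ (w k : ℝ) := fun k => by exact_mod_cast hw k
  have hfl : ⌊t⌋₊ ≤ ⌊t'⌋₊ := Nat.floor_le_floor htt
  have e1 : Int.fract t = t - ⌊t⌋₊ := by
    rw [Int.fract, ← natCast_floor_eq_intCast_floor ht]
  have e2 : Int.fract t' = t' - ⌊t'⌋₊ := by
    rw [Int.fract, ← natCast_floor_eq_intCast_floor (ht.trans htt)]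
  unfold PL
  rcases hfl.eq_or_lt with h | h
  · rw [e1, e2, ← h]
    have := mul_le_mul_of_nonneg_left (show t - (⌊t⌋₊ : ℝ) ≤ t' - (⌊t⌋₊ : ℝ) by linarith)
      (hw' ⌊t⌋₊)
    linarith
  · have h1 : ∑ k ∈ Finset.range ⌊t⌋₊, (w k : ℝ) + w ⌊t⌋₊ * Int.fract t ≤
        ∑ k ∈ Finset.range (⌊t⌋₊ + 1), (w k : ℝ) := by
      rw [Finset.sum_range_succ]
      have := mul_le_mul_of_nonneg_left (Int.fract_lt_one t).le (hw' ⌊t⌋₊)
      rw [mul_one] at this
      linarith
    have h2 : ∑ k ∈ Finset.range (⌊t⌋₊ + 1), (w k : ℝ) ≤ ∑ k ∈ Finset.range ⌊t'⌋₊, (w k : ℝ) := by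
      apply Finset.sum_le_sum_of_subset_of_nonneg
      · exact Finset.range_mono (by omega)
      · intro k _ _
        exact hw' k
    have h3 : (0 : ℝ) ≤ w ⌊t'⌋₊ * Int.fract t' := mul_nonneg (hw' _) (Int.fract_nonneg _)
    linarith

lemma PL_one {t : ℝ} (ht : 0 ≤ t) : PL (fun _ => 1) t = t := by
  unfold PL
  simp only [Int.cast_one, Finset.sum_const, Finset.card_range, nsmul_eq_mul, mul_one, one_mul]
  rw [natCast_floor_eq_intCast_floor ht]
  exact Int.floor_add_fract t

lemma PL_sub (w w' : ℕ → ℤ) (t : ℝ) : PL (fun k => w k - w' k) t = PL w t - PL w' t := by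
  unfold PL
  push_cast
  rw [Finset.sum_sub_distrib]
  ring

lemma PL_add (w w' : ℕ → ℤ) (t : ℝ) : PL (fun k => w k + w' k) t = PL w t + PL w' t := by
  unfold PL
  push_cast
  rw [Finset.sum_add_distrib]
  ring

lemma PL_lip_aux {w : ℕ → ℤ} (hw : ∀ k, |w k| ≤ 1) {t t' : ℝ} (ht : 0 ≤ t) (htt : t ≤ t') :
    |PL w t - PL w t'| ≤ t' - t := by
  have h1 := PL_mono (w := fun k => (fun _ => 1 : ℕ → ℤ) k - w k)
    (fun k => by have := (abs_le.1 (hw k)).2; simp only; linarith) ht htt
  have h2 := PL_mono (w := fun k => (fun _ => 1 : ℕ → ℤ) k + w k)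
    (fun k => by have := (abs_le.1 (hw k)).1; simp only; linarith) ht htt
  rw [PL_sub, PL_sub, PL_one ht, PL_one (ht.trans htt)] at h1
  rw [PL_add, PL_add, PL_one ht, PL_one (ht.trans htt)] at h2
  rw [abs_le]
  constructor <;> linarith

lemma PL_lipschitz {w : ℕ → ℤ} (hw : ∀ k, |w k| ≤ 1) {t t' : ℝ} (ht : 0 ≤ t) (ht' : 0 ≤ t') :
    |PL w t - PL w t'| ≤ |t - t'| := by
  rcases le_total t t' with h | h
  · have := PL_lip_aux hw ht h
    rwa [abs_sub_comm t t', abs_of_nonneg (sub_nonneg.2 h)]
  · have := PL_lip_aux hw ht' h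
    rwa [abs_sub_comm, abs_of_nonneg (sub_nonneg.2 h)]

lemma coe_int_circle (n : ℤ) : (((n : ℤ) : ℝ) : UnitAddCircle) = 0 := by
  rw [AddCircle.coe_eq_zero_iff]
  exact ⟨n, by simp⟩

lemma coe_zero_circle : ((0 : ℝ) : UnitAddCircle) = 0 := by
  simp

lemma PL_coe (w : ℕ → ℤ) (t : ℝ) :
    ((PL w t : ℝ) : UnitAddCircle) = (((w ⌊t⌋₊ : ℝ) * Int.fract t : ℝ) : UnitAddCircle) := by
  unfold PL
  rw [AddCircle.coe_add]
  have : (∑ k ∈ Finset.range ⌊t⌋₊, (w k : ℝ)) = ((∑ k ∈ Finset.range ⌊t⌋₊, w k : ℤ) : ℝ) := by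
    push_cast; rfl
  rw [this, coe_int_circle, zero_add]

lemma abs_sgn_le (g : Ltr) (x : Option SL) : |sgn g x| ≤ 1 := by
  rcases x with _ | ⟨h, s⟩
  · simp [sgn]
  · simp only [sgn]
    split_ifs <;> simp

/-- the label (position on the circle `g` at level `j`) at time `t ∈ [0, PK j d]` when running
through the word at level `j` of the content `a` at level `j + d` -/
noncomputable def Lm (T : ℕ → Bool) (j d : ℕ) (a : Option SL) (g : Ltr) (t : ℝ) : UnitAddCircle :=
  ((PL (fun k => sgn g (W T j d a k)) t : ℝ) : UnitAddCircle)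

lemma Lm_lipschitz (T : ℕ → Bool) (j d : ℕ) (a : Option SL) (g : Ltr) {t t' : ℝ} (ht : 0 ≤ t)
    (ht' : 0 ≤ t') : ‖Lm T j d a g t - Lm T j d a g t'‖ ≤ |t - t'| := by
  unfold Lm
  rw [← AddCircle.coe_sub, UnitAddCircle.norm_eq]
  have h1 := PL_lipschitz (w := fun k => sgn g (W T j d a k)) (fun k => abs_sgn_le _ _) ht ht'
  refine le_trans ?_ h1
  have := round_le (PL (fun k => sgn g (W T j d a k)) t - PL (fun k => sgn g (W T j d a k)) t') 0
  simpa using this

/-- labels vanish at integer times -/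
lemma Lm_nat (T : ℕ → Bool) (j d : ℕ) (a : Option SL) (g : Ltr) (n : ℕ) :
    Lm T j d a g n = 0 := by
  unfold Lm
  rw [PL_coe, Int.fract_natCast, mul_zero]
  exact coe_zero_circle

lemma Lm_none (T : ℕ → Bool) (j d : ℕ) (g : Ltr) (t : ℝ) : Lm T j d none g t = 0 := by
  unfold Lm
  rw [PL_coe, W_none]
  simp only [sgn, Int.cast_zero, zero_mul]
  exact coe_zero_circle

lemma sgn_inv (g : Ltr) (x : Option SL) : sgn g (inv x) = -sgn g x := by
  rcases x with _ | ⟨h, s⟩
  · simp [sgn, inv]
  · simp only [sgn, inv]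
    cases s <;> split_ifs <;> simp_all

lemma Lm_inv (T : ℕ → Bool) (j d : ℕ) (a : Option SL) (g : Ltr) {t : ℝ} (ht : 0 ≤ t)
    (ht' : t ≤ PK j d) : Lm T j d (inv a) g t = Lm T j d a g (PK j d - t) := by
  unfold Lm
  rw [PL_coe, PL_coe]
  by_cases hfr : Int.fract t = 0
  · have h2 : Int.fract ((PK j d : ℝ) - t) = 0 := by
      rw [Int.fract_eq_zero_iff] at hfr ⊢
      obtain ⟨n, hn⟩ := hfr
      exact ⟨PK j d - n, by rw [← hn]; push_cast; ring⟩
    rw [hfr, h2, mul_zero, mul_zero]
  · set n := ⌊t⌋₊ with hn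
    have htn : t = n + Int.fract t := by
      rw [hn, natCast_floor_eq_intCast_floor ht]
      exact (Int.floor_add_fract t).symm
    have hf0 : 0 < Int.fract t := lt_of_le_of_ne (Int.fract_nonneg t) (Ne.symm hfr)
    have hf1 := Int.fract_lt_one t
    have hnP : n < PK j d := by
      have : (n : ℝ) < PK j d := by linarith
      exact_mod_cast this
    have hfl : ⌊(PK j d : ℝ) - t⌋₊ = PK j d - 1 - n := by
      rw [Nat.floor_eq_iff (by linarith)]
      have e : ((PK j d - 1 - n : ℕ) : ℝ) = (PK j d : ℝ) - 1 - n := by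
        rw [Nat.cast_sub (by omega), Nat.cast_sub (by omega)]
        push_cast; ring
      rw [e]
      constructor <;> linarith
    have hfr2 : Int.fract ((PK j d : ℝ) - t) = 1 - Int.fract t := by
      rw [Int.fract_eq_iff]
      refine ⟨by linarith, by linarith, (PK j d : ℤ) - n - 1, ?_⟩
      push_cast
      linarith
    rw [hfl, hfr2, W_inv T j d a hnP, sgn_inv]
    rw [← sub_eq_zero, ← AddCircle.coe_sub]
    set c := sgn g (W T j d a (PK j d - 1 - n))
    have : ((-c : ℤ) : ℝ) * Int.fract t - (c : ℝ) * (1 - Int.fract t) = ((-c : ℤ) : ℝ) := by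
      push_cast; ring
    rw [this]
    exact coe_int_circle _

lemma Lm_comp (T : ℕ → Bool) (j d e : ℕ) (a : Option SL) (g : Ltr) {t : ℝ} (ht : 0 ≤ t) :
    Lm T j (d + e) a g (PK j d * t) =
      Lm T j d (W T (j + d) e a ⌊t⌋₊) g (PK j d * Int.fract t) := by
  unfold Lm
  rw [PL_coe, PL_coe]
  have hP := PK_pos j d
  have hP' : (0 : ℝ) < PK j d := by exact_mod_cast hP
  set n := ⌊t⌋₊ with hn
  have htn : t = n + Int.fract t := by
    rw [hn, natCast_floor_eq_intCast_floor ht]
    exact (Int.floor_add_fract t).symm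
  have hf0 := Int.fract_nonneg t
  have hf1 := Int.fract_lt_one t
  set f := Int.fract t with hf
  have e1 : (PK j d : ℝ) * t = ((PK j d * n : ℕ) : ℝ) + PK j d * f := by
    rw [htn]; push_cast; ring
  have hnn : (0 : ℝ) ≤ PK j d * f := by positivity
  set m := ⌊(PK j d : ℝ) * f⌋₊ with hm
  have hmP : m < PK j d := by
    rw [hm, Nat.floor_lt hnn]
    nlinarith
  have e2 : ⌊(PK j d : ℝ) * t⌋₊ = PK j d * n + m := by
    rw [e1, add_comm, Nat.floor_add_natCast hnn, add_comm]
  have e3 : Int.fract ((PK j d : ℝ) * t) = Int.fract ((PK j d : ℝ) * f) := by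
    rw [e1, Int.fract_natCast_add]
  rw [e2, e3, W_comp, Nat.mul_add_div hP, Nat.div_eq_of_lt hmP, Nat.add_zero, Nat.mul_add_mod,
    Nat.mod_eq_of_lt hmP]

/-- the label at level `j = j + 0` -/
lemma Lm_zero (T : ℕ → Bool) (j : ℕ) (a : Option SL) (g : Ltr) {t : ℝ} (ht : 0 ≤ t)
    (ht' : t ≤ 1) : Lm T j 0 a g t = ((((sgn g a : ℤ) : ℝ) * t : ℝ) : UnitAddCircle) := by
  unfold Lm
  rw [PL_coe]
  change ((((sgn g a : ℤ) : ℝ) * Int.fract t : ℝ) : UnitAddCircle) = _
  rcases ht'.eq_or_lt with h | h
  · rw [h, Int.fract_one, mul_zero, mul_one, coe_int_circle]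
    exact coe_zero_circle
  · rw [Int.fract_eq_self.2 ⟨ht, h⟩]

/-- transposed count operator: `(TT w) b` is the total value of the word of the letter `b` -/
def TT (T : ℕ → Bool) (j : ℕ) (w : Ltr → ℤ) (b : Ltr) : ℤ :=
  ∑ k ∈ Finset.range (K j), val w (stepP T j b k)

def TTn (T : ℕ → Bool) : ℕ → ℕ → (Ltr → ℤ) → (Ltr → ℤ)
  | _, 0, w => w
  | j, d + 1, w => TTn T (j + 1) d (TT T j w)

lemma val_inv (w : Ltr → ℤ) (x : Option SL) : val w (inv x) = -val w x := by
  rcases x with _ | ⟨h, s⟩
  · simp [val, inv]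
  · cases s <;> simp [val, inv]

lemma sum_div_mod {M : Type*} [AddCommMonoid M] (k p : ℕ) (hk : 0 < k) (f : ℕ → ℕ → M) :
    ∑ s ∈ Finset.range (k * p), f (s / k) (s % k) =
      ∑ i ∈ Finset.range p, ∑ r ∈ Finset.range k, f i r := by
  induction p with
  | zero => simp
  | succ p ih =>
    rw [Nat.mul_succ, Finset.sum_range_add, ih, Finset.sum_range_succ]
    congr 1
    apply Finset.sum_congr rfl
    intro x hx
    have hx' := Finset.mem_range.1 hx
    rw [Nat.mul_add_div hk, Nat.div_eq_of_lt hx', Nat.add_zero, Nat.mul_add_mod,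
      Nat.mod_eq_of_lt hx']

lemma sum_val_step (T : ℕ → Bool) (j : ℕ) (w : Ltr → ℤ) (b : Option SL) :
    ∑ k ∈ Finset.range (K j), val w (step T j b k) = val (TT T j w) b := by
  rcases b with _ | ⟨g, s⟩
  · simp [step, val]
  · cases s
    · simp only [step, val_inv, Finset.sum_neg_distrib]
      rw [Finset.sum_range_reflect (fun k => val w (stepP T j g k))]
      rfl
    · simp only [step, val]
      rfl

lemma sum_val_W (T : ℕ → Bool) (j d : ℕ) (w : Ltr → ℤ) (a : Option SL) :
    ∑ s ∈ Finset.range (PK j d), val w (W T j d a s) = val (TTn T j d w) a := by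
  induction d generalizing j w with
  | zero => simp [PK, W, TTn]
  | succ d ih =>
    simp only [PK, W, TTn]
    rw [sum_div_mod (K j) (PK (j + 1) d) (K_pos j)
      (fun s' k => val w (step T j (W T (j + 1) d a s') k))]
    rw [← ih (j + 1) (TT T j w)]
    exact Finset.sum_congr rfl fun s' _ => sum_val_step T j w _

/-- outer recursion of `TTn` -/
lemma TTn_succ (T : ℕ → Bool) (j d : ℕ) (w : Ltr → ℤ) :
    TTn T j (d + 1) w = TT T (j + d) (TTn T j d w) := by
  induction d generalizing j w with
  | zero => rfl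
  | succ d ih =>
    have h : j + (d + 1) = (j + 1) + d := by omega
    rw [TTn, ih (j + 1) (TT T j w), h]
    rfl

lemma TT_l (T : ℕ → Bool) (j : ℕ) (w : Ltr → ℤ) (r : ℕ) :
    TT T j w (.l r) = if act T r = true ∧ r ≤ j then (K j : ℤ) * w (.l r) else 0 := by
  unfold TT
  by_cases h : act T r = true ∧ r ≤ j
  · simp only [stepP, if_pos h, val]
    simp
  · simp only [stepP, if_neg h, val]
    simp

lemma TT_c (T : ℕ → Bool) (j : ℕ) (w : Ltr → ℤ) (r : ℕ) :
    TT T j w (.c r) = if act T r = true ∧ 1 ≤ r ∧ r ≤ j + 1 then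
      -w (.l (par r)) + (if r ≤ j then w (.c r) + w (.l r) else 0) else 0 := by
  unfold TT
  by_cases h : act T r = true ∧ 1 ≤ r ∧ r ≤ j + 1
  · have hK : K j = 3 + j := by unfold K; omega
    rw [hK, Finset.sum_range_add, if_pos h]
    have h0 : ∀ x ∈ Finset.range j, val w (stepP T j (.c r) (3 + x)) = 0 := by
      intro x _
      simp only [stepP, if_pos h]
      rw [if_neg (by omega), if_neg (by omega), if_neg (by omega)]
      rfl
    rw [Finset.sum_eq_zero h0, add_zero]
    simp only [Finset.sum_range_succ, Finset.sum_range_zero, zero_add, stepP, if_pos h]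
    by_cases hr : r ≤ j
    · simp [hr, val]
      ring
    · simp [hr, val]
  · rw [if_neg h]
    apply Finset.sum_eq_zero
    intro x _
    simp only [stepP, if_neg h, val]

/-- continuity in the tree of everything with values in a discrete space -/
lemma continuous_act (r : ℕ) : Continuous (fun T : ℕ → Bool => act T r) := by
  induction r using Nat.strong_induction_on with
  | _ r ih =>
    by_cases hr : r = 0
    · have : (fun T : ℕ → Bool => act T r) = fun _ => true := by
        ext T; rw [act, dif_pos hr]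
      rw [this]
      exact continuous_const
    · have : (fun T : ℕ → Bool => act T r) = fun T => (T r && act T (par r)) := by
        ext T; rw [act, dif_neg hr]
      rw [this]
      have h1 : Continuous fun T : ℕ → Bool => (T r, act T (par r)) :=
        (continuous_apply r).prodMk (ih _ (par_lt (by omega)))
      exact (continuous_of_discreteTopology (f := fun p : Bool × Bool => (p.1 && p.2))).comp h1

lemma act_zero (T : ℕ → Bool) : act T 0 = true := by
  rw [act, dif_pos rfl]

lemma act_of_ne (T : ℕ → Bool) {r : ℕ} (hr : r ≠ 0) : act T r = (T r && act T (par r)) := by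
  rw [act, dif_neg hr]

lemma act_congr {T T' : ℕ → Bool} (r : ℕ) (h : ∀ r', r' ≤ r → T r' = T' r') :
    act T r = act T' r := by
  induction r using Nat.strong_induction_on with
  | _ r ih =>
    by_cases hr : r = 0
    · rw [hr, act_zero, act_zero]
    · rw [act_of_ne T hr, act_of_ne T' hr, h r le_rfl]
      have hp : par r < r := par_lt (by omega)
      rw [ih _ hp (fun r' hr' => h r' (by omega))]

lemma stepP_congr {T T' : ℕ → Bool} {j : ℕ} (h : ∀ r, r ≤ j + 1 → T r = T' r) (g : Ltr)
    (k : ℕ) : stepP T j g k = stepP T' j g k := by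
  cases g with
  | c r =>
    by_cases hr : r ≤ j + 1
    · simp only [stepP]
      rw [act_congr r (fun r' hr' => h r' (by omega))]
    · simp only [stepP]
      rw [if_neg (fun hh => hr hh.2.2), if_neg (fun hh => hr hh.2.2)]
  | l r =>
    by_cases hr : r ≤ j
    · simp only [stepP]
      rw [act_congr r (fun r' hr' => h r' (by omega))]
    · simp only [stepP]
      rw [if_neg (fun hh => hr hh.2), if_neg (fun hh => hr hh.2)]

lemma step_congr {T T' : ℕ → Bool} {j : ℕ} (h : ∀ r, r ≤ j + 1 → T r = T' r) (b : Option SL)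
    (k : ℕ) : step T j b k = step T' j b k := by
  rcases b with _ | ⟨g, s⟩
  · simp [step]
  · cases s <;> simp only [step] <;> rw [stepP_congr h]

/-- `W T j d a s` only depends on the part of `T` below `j + d` -/
lemma W_congr {T T' : ℕ → Bool} {j d : ℕ} (h : ∀ r, r ≤ j + d → T r = T' r) (a : Option SL)
    (s : ℕ) : W T j d a s = W T' j d a s := by
  induction d generalizing j s with
  | zero => rfl
  | succ d ih =>
    simp only [W]
    rw [ih (j := j + 1) (fun r hr => h r (by omega)), step_congr (fun r hr => h r (by omega))]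

end Pool.Agent.Ped8316
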