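import Mathlib
import Pool.Agent.Lib.Ped8316.Words
import Pool.Agent.Lib.Ped8316.Ops

/-!
# The index set, the shift and the labels
-/

set_option autoImplicit false
set_option linter.unusedSectionVars false

open Topology Filter Set
open scoped InnerProductSpace

namespace Pool.Agent.Ped8316

/-- A position: in the block `(r, s)` at level `i`, in the window `X`, `e` steps before the end
of the window. The block `(0, true)` runs through `l 0`, the block `(r, s)` with `1 ≤ r ≤ i` runs
through `c r` in the direction `s`. -/
@[ext] structure Pos where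
  i : ℕ
  r : ℕ
  s : Bool
  X : ℕ
  e : ℕ
  hr : r ≤ i
  hs : r = 0 → s = true
  hX : X < Q i
  he : e ≤ i + 1

/-- the signed letter at its own level of the block -/
def blkLetter (r : ℕ) (s : Bool) : SL := if r = 0 then (.l 0, true) else (.c r, s)

/-- the signed letter of the block of `x` -/
def Pos.letter (x : Pos) : SL := blkLetter x.r x.s

lemma Q_pos (i : ℕ) : 0 < Q i := by
  induction i with
  | zero => norm_num [Q]
  | succ i ih =>
    unfold Q
    have := K_pos i
    positivity

/-- next window -/
def nextX (i X : ℕ) : ℕ := if X + 1 < Q i then X + 1 else 0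

/-- previous window -/
def prevX (i X : ℕ) : ℕ := if X = 0 then Q i - 1 else X - 1

lemma nextX_lt (i X : ℕ) : nextX i X < Q i := by
  unfold nextX
  split_ifs with h
  · exact h
  · exact Q_pos i

lemma prevX_lt {i X : ℕ} (h : X < Q i) : prevX i X < Q i := by
  unfold prevX
  have := Q_pos i
  split_ifs <;> omega

lemma next_prev {i X : ℕ} (h : X < Q i) : nextX i (prevX i X) = X := by
  have hQ := Q_pos i
  by_cases h0 : X = 0
  · have h1 : prevX i X = Q i - 1 := if_pos h0
    have h2 : ¬ (Q i - 1 + 1 < Q i) := by omega
    rw [h1, nextX, if_neg h2, h0]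
  · have h1 : prevX i X = X - 1 := if_neg h0
    have h2 : X - 1 + 1 < Q i := by omega
    rw [h1, nextX, if_pos h2]
    omega

lemma prev_next {i X : ℕ} (h : X < Q i) : prevX i (nextX i X) = X := by
  have hQ := Q_pos i
  by_cases h0 : X + 1 < Q i
  · have h1 : nextX i X = X + 1 := if_pos h0
    rw [h1, prevX, if_neg (by omega)]
    omega
  · have h1 : nextX i X = 0 := if_neg h0
    rw [h1, prevX, if_pos rfl]
    omega

/-- the next position -/
def nxt (x : Pos) : Pos :=
  if x.e = 0 then { x with X := nextX x.i x.X, e := x.i + 1, hX := nextX_lt _ _, he := le_rfl }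
  else { x with e := x.e - 1, he := (Nat.sub_le _ _).trans x.he }

/-- the previous position -/
def prv (x : Pos) : Pos :=
  if h : x.e = x.i + 1 then
    { x with X := prevX x.i x.X, e := 0, hX := prevX_lt x.hX, he := Nat.zero_le _ }
  else { x with e := x.e + 1, he := by have := x.he; omega }

lemma prv_nxt (x : Pos) : prv (nxt x) = x := by
  unfold nxt
  split_ifs with h
  · unfold prv
    simp only [dif_pos]
    ext <;> simp [prev_next x.hX, h]
  · unfold prv
    have h1 : ¬ (x.e - 1 = x.i + 1) := by have := x.he; omega
    simp only [h1, dif_neg, not_false_eq_true]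
    ext <;> simp
    omega

lemma nxt_prv (x : Pos) : nxt (prv x) = x := by
  unfold prv
  split_ifs with h
  · unfold nxt
    simp only [if_pos]
    ext <;> simp [next_prev x.hX, h]
  · unfold nxt
    simp only [Nat.add_eq_zero_iff, one_ne_zero, and_false, if_false]
    ext <;> simp

/-- the shift -/
def shift : Equiv.Perm Pos := ⟨nxt, prv, prv_nxt, nxt_prv⟩

lemma shift_apply (x : Pos) : shift x = nxt x := rfl

@[simp] lemma shift_i (x : Pos) : (shift x).i = x.i := by
  rw [shift_apply]; unfold nxt; split_ifs <;> rfl

@[simp] lemma shift_r (x : Pos) : (shift x).r = x.r := by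
  rw [shift_apply]; unfold nxt; split_ifs <;> rfl

@[simp] lemma shift_s (x : Pos) : (shift x).s = x.s := by
  rw [shift_apply]; unfold nxt; split_ifs <;> rfl

lemma shift_X (x : Pos) : (shift x).X = if x.e = 0 then nextX x.i x.X else x.X := by
  rw [shift_apply]; unfold nxt; split_ifs <;> rfl

lemma shift_e (x : Pos) : (shift x).e = if x.e = 0 then x.i + 1 else x.e - 1 := by
  rw [shift_apply]; unfold nxt; split_ifs <;> rfl

/-- the label of the position `x` on the circle `g` at level `j` -/
noncomputable def lab (T : ℕ → Bool) (j : ℕ) (g : Ltr) (x : Pos) : UnitAddCircle :=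
  if x.i < j then 0
  else Lm T j (x.i - j) (some x.letter) g ((x.X : ℝ) / (Dn j (x.i - j) : ℝ))

/-- the circle valued label -/
noncomputable def zf (T : ℕ → Bool) (j : ℕ) (g : Ltr) (x : Pos) : Circle :=
  AddCircle.toCircle (lab T j g x)

/-- the content at level `J` of the slot of `x` -/
def cont (T : ℕ → Bool) (J : ℕ) (x : Pos) : Option SL :=
  W T J (x.i - J) (some x.letter) (x.X / Dn J (x.i - J))

variable {H : Type*} [NormedAddCommGroup H] [InnerProductSpace ℂ H] [CompleteSpace H]

/-- the generators of the algebra of the tree `T` -/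
def gens (e : HilbertBasis Pos ℂ H) (T : ℕ → Bool) : Set (Bd H) :=
  {perm e shift} ∪ (Set.range fun p : Pos × Pos => mu e p.1 p.2) ∪
    (Set.range fun p : ℕ × Ltr => ((udiag e (zf T p.1 p.2) : unitary (Bd H)) : Bd H))

/-- the algebra of the tree `T` -/
noncomputable def AT (e : HilbertBasis Pos ℂ H) (T : ℕ → Bool) : NonUnitalStarSubalgebra ℂ (Bd H) :=
  (NonUnitalStarAlgebra.adjoin ℂ (gens e T)).topologicalClosure

/-- letters occurring with nonempty words at level `j` -/
def Lset (j : ℕ) : Finset Ltr :=
  (Finset.range (j + 1)).image Ltr.l ∪ (Finset.Icc 1 (j + 1)).image Ltr.c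

/-- the signed number of occurrences of `g` in the word at level `j` of `b` -/
def cnt (T : ℕ → Bool) (j : ℕ) (g b : Ltr) : ℤ := TT T j (fun g' => if g' = g then 1 else 0) b

end Pool.Agent.Ped8316
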