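import Mathlib
import Pool.Agent.Lib.Ped8316.Blocks

/-!
# The groups of blocks attached to an infinite branch: definitions
-/

set_option autoImplicit false
set_option linter.unusedSectionVars false

open Topology Filter Set

namespace Pool.Agent.Ped8316

/-- `β` is an infinite branch of `T` -/
def Branch (T : ℕ → Bool) (β : ℕ → ℕ) : Prop :=
  β 0 = 0 ∧ ∀ k, 1 ≤ β (k + 1) ∧ par (β (k + 1)) = β k ∧ T (β (k + 1)) = true

/-- the base level of the group `k` -/
def Jb (β : ℕ → ℕ) (k : ℕ) : ℕ := β (k + 1) - 1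

/-- `r` is one of `β 1, …, β k` -/
def onB (β : ℕ → ℕ) (k r : ℕ) : Prop := ∃ n, 1 ≤ n ∧ n ≤ k ∧ r = β n

/-- the block `(r, s)` at level `i` belongs to the group `k` -/
def inGB (β : ℕ → ℕ) (k i r : ℕ) (s : Bool) : Prop :=
  r ≤ i ∧ (r = 0 → s = true) ∧
    ((Jb β k < i ∧ i < Jb β (k + 1)) ∨ (i = Jb β k ∧ ¬ (s = true ∧ onB β k r)) ∨
      (i = Jb β (k + 1) ∧ s = true ∧ onB β (k + 1) r))

/-- the slots of the group `k`: a block (level, letter, sign) and a slot number -/
def Slot (β : ℕ → ℕ) (k : ℕ) : Type :=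
  {p : (ℕ × ℕ × Bool) × ℕ // inGB β k p.1.1 p.1.2.1 p.1.2.2 ∧
    p.2 < PK (Jb β k) (p.1.1 - Jb β k)}

/-- the content of a slot at the base level of the group -/
def Slot.c (T : ℕ → Bool) {β : ℕ → ℕ} {k : ℕ} (p : Slot β k) : Option SL :=
  W T (Jb β k) (p.1.1.1 - Jb β k) (some (blkLetter p.1.1.2.1 p.1.1.2.2)) p.1.2

open scoped Classical in
/-- the group number (plus one) of a position; `0` if it is in no group -/
noncomputable def grp (β : ℕ → ℕ) (x : Pos) : ℕ :=
  if h : ∃ k, inGB β k x.i x.r x.s then Nat.find h + 1 else 0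

end Pool.Agent.Ped8316
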