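import Mathlib
import Pool.Agent.Lib.Ped8316.Blocks

/-!
# Facts on the labels
-/

set_option autoImplicit false
set_option linter.unusedSectionVars false

open Topology Filter Set
open scoped InnerProductSpace ComplexConjugate

namespace Pool.Agent.Ped8316

lemma Q_mono : Monotone Q := by
  apply monotone_nat_of_le_succ
  intro n
  show Q n ≤ 2 * K n * Q n
  have := K_pos n
  calc Q n = 1 * Q n := (one_mul _).symm
    _ ≤ 2 * K n * Q n := Nat.mul_le_mul_right _ (by omega)

/-- the coordinates of a position -/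
def Pos.tup (x : Pos) : ℕ × ℕ × Bool × ℕ × ℕ := (x.i, x.r, x.s, x.X, x.e)

lemma Pos.tup_injective : Function.Injective Pos.tup := by
  intro x y h
  simp only [Pos.tup, Prod.mk.injEq] at h
  obtain ⟨h1, h2, h3, h4, h5⟩ := h
  ext
  · rw [h1]
  · rw [h2]
  · rw [h3]
  · rw [h4]
  · rw [h5]

lemma finite_level (n : ℕ) : {x : Pos | x.i ≤ n}.Finite := by
  apply Set.Finite.of_finite_image (f := Pos.tup) _ (Pos.tup_injective.injOn)
  apply Set.Finite.subset (s := (Set.Iic n) ×ˢ ((Set.Iic n) ×ˢ ((Set.univ : Set Bool) ×ˢ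
    ((Set.Iic (Q n)) ×ˢ (Set.Iic (n + 1))))))
  · exact (Set.finite_Iic n).prod ((Set.finite_Iic n).prod (Set.finite_univ.prod
      ((Set.finite_Iic _).prod (Set.finite_Iic _))))
  · rintro _ ⟨x, hx, rfl⟩
    have hx' : x.i ≤ n := hx
    have h1 := x.hr
    have h2 := x.hX
    have h3 := x.he
    have h4 := Q_mono hx'
    refine ⟨hx', ?_, Set.mem_univ _, ?_, ?_⟩
    · show x.r ≤ n; omega
    · show x.X ≤ Q n; omega
    · show x.e ≤ n + 1; omega

instance : Countable Pos := Pos.tup_injective.countable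

instance : Infinite Pos :=
  Infinite.of_injective
    (fun n : ℕ => (⟨n, 0, true, 0, 0, Nat.zero_le _, fun _ => rfl, Q_pos n, Nat.zero_le _⟩ : Pos))
    (fun _ _ h => congrArg Pos.i h)

lemma Dn_pos (j d : ℕ) : 0 < Dn j d := Nat.mul_pos (Q_pos j) (by positivity)

lemma letter_shift (x : Pos) : (shift x).letter = x.letter := by
  simp [Pos.letter]

/-- the labels vary slowly. (For `x.i < j` both labels are `0`. If `x.e ≠ 0`, the window does not
change. Otherwise the time changes by `1 / Dn j d`, `Lm_lipschitz`; for the last window use that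
the labels vanish at the integer times `0` and `PK j d = Q (j + d) / Dn j d`, `Lm_nat`, `Q_eq`.) -/
lemma lab_shift (T : ℕ → Bool) (j : ℕ) (g : Ltr) (x : Pos) :
    ‖lab T j g (shift x) - lab T j g x‖ ≤ 1 / (Dn j (x.i - j) : ℝ) := by
  have hD : (0 : ℝ) < (Dn j (x.i - j) : ℝ) := by exact_mod_cast Dn_pos _ _
  unfold lab
  rw [shift_i, letter_shift]
  by_cases hi : x.i < j
  · rw [if_pos hi, if_pos hi, sub_self, norm_zero]
    positivity
  · rw [if_neg hi, if_neg hi, shift_X]
    by_cases he : x.e = 0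
    · rw [if_pos he]
      unfold nextX
      by_cases hX : x.X + 1 < Q x.i
      · rw [if_pos hX]
        refine (Lm_lipschitz T j _ _ g (by positivity) (by positivity)).trans ?_
        rw [← sub_div, abs_div, abs_of_pos hD]
        push_cast
        rw [add_sub_cancel_left, abs_one]
      · rw [if_neg hX]
        have hXe : x.X + 1 = Q x.i := by have := x.hX; omega
        have hQ : Q x.i = Dn j (x.i - j) * PK j (x.i - j) := by
          rw [← Q_eq]; congr 1; omega
        have h0 : Lm T j (x.i - j) (some x.letter) g (((0 : ℕ) : ℝ) / (Dn j (x.i - j) : ℝ)) = 0 := by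
          have := Lm_nat T j (x.i - j) (some x.letter) g 0
          simpa using this
        have h1 : Lm T j (x.i - j) (some x.letter) g
            (((PK j (x.i - j) : ℕ) : ℝ)) = 0 := Lm_nat T j (x.i - j) (some x.letter) g _
        rw [h0, ← h1]
        refine (Lm_lipschitz T j _ _ g (by positivity) (by positivity)).trans ?_
        have e : ((PK j (x.i - j) : ℕ) : ℝ) - (x.X : ℝ) / (Dn j (x.i - j) : ℝ) =
            1 / (Dn j (x.i - j) : ℝ) := by
          have : (x.X : ℝ) + 1 = (Dn j (x.i - j) : ℝ) * PK j (x.i - j) := by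
            rw [hQ] at hXe
            exact_mod_cast hXe
          field_simp
          linarith
        rw [e, abs_of_pos (by positivity)]
    · rw [if_neg he, sub_self, norm_zero]
      positivity

lemma lab_shift' (T : ℕ → Bool) (j : ℕ) (g : Ltr) (x : Pos) :
    ‖lab T j g (shift x) - lab T j g x‖ ≤ 1 / (Q j : ℝ) := by
  refine (lab_shift T j g x).trans ?_
  have hQ : (0 : ℝ) < (Q j : ℝ) := by exact_mod_cast Q_pos j
  apply one_div_le_one_div_of_le hQ
  have : Q j ≤ Dn j (x.i - j) := by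
    unfold Dn
    exact Nat.le_mul_of_pos_right _ (by positivity)
  exact_mod_cast this

/-- the label at level `j` in terms of the content at level `J`. (Lm_comp, Nat.floor_div_eq_div,
`Dn j d = Dn (j+..) ..` etc.) -/
lemma lab_comp (T : ℕ → Bool) {j J : ℕ} (h : j ≤ J) (g : Ltr) {x : Pos} (hx : J ≤ x.i) :
    lab T j g x = Lm T j (J - j) (cont T J x) g
      ((PK j (J - j) : ℝ) * (((x.X % Dn J (x.i - J) : ℕ) : ℝ) / (Dn J (x.i - J) : ℝ))) := by
  obtain ⟨d, rfl⟩ := Nat.exists_eq_add_of_le h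
  obtain ⟨e, he⟩ := Nat.exists_eq_add_of_le hx
  have hd : j + d - j = d := by omega
  have he2 : x.i - (j + d) = e := by omega
  have he3 : x.i - j = d + e := by omega
  unfold lab cont
  rw [if_neg (by omega), hd, he2, he3]
  have hD : (0 : ℝ) < (Dn (j + d) e : ℝ) := by exact_mod_cast Dn_pos _ _
  have hD2 : (0 : ℝ) < (Dn j (d + e) : ℝ) := by exact_mod_cast Dn_pos _ _
  have key : (Dn j (d + e) : ℝ) * PK j d = Dn (j + d) e := by
    have : Dn j (d + e) * PK j d = Dn (j + d) e := by
      unfold Dn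
      rw [Q_eq]
      unfold Dn
      ring
    exact_mod_cast this
  have e1 : (x.X : ℝ) / (Dn j (d + e) : ℝ) = PK j d * ((x.X : ℝ) / (Dn (j + d) e : ℝ)) := by
    rw [← key]
    have hP : (0 : ℝ) < PK j d := by exact_mod_cast PK_pos j d
    field_simp
  rw [e1, Lm_comp T j d e _ g (by positivity)]
  rw [Nat.floor_div_natCast, Nat.floor_natCast]
  congr 1
  congr 1
  have h2 : ((x.X % Dn (j + d) e : ℕ) : ℝ) + (Dn (j + d) e : ℝ) * ((x.X / Dn (j + d) e : ℕ) : ℝ)
      = x.X := by exact_mod_cast Nat.mod_add_div x.X (Dn (j + d) e)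
  rw [Int.fract_eq_iff]
  have hm : ((x.X % Dn (j + d) e : ℕ) : ℝ) < (Dn (j + d) e : ℝ) := by
    exact_mod_cast Nat.mod_lt _ (Dn_pos _ _)
  refine ⟨by positivity, by rw [div_lt_one hD]; exact hm, ((x.X / Dn (j + d) e : ℕ) : ℤ), ?_⟩
  rw [Int.cast_natCast, ← sub_div, div_eq_iff hD.ne']
  linarith

/-- the label of `x` only depends on the tree up to the level of `x` -/
lemma lab_congr {T T' : ℕ → Bool} {j : ℕ} {g : Ltr} {x : Pos} (h : ∀ r, r ≤ x.i → T r = T' r) :
    lab T j g x = lab T' j g x := by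
  unfold lab
  by_cases hi : x.i < j
  · rw [if_pos hi, if_pos hi]
  · rw [if_neg hi, if_neg hi]
    unfold Lm
    have : (fun k => sgn g (W T j (x.i - j) (some x.letter) k)) =
        fun k => sgn g (W T' j (x.i - j) (some x.letter) k) := by
      funext k
      rw [W_congr (fun r hr => h r (by omega))]
    rw [this]

lemma norm_toCircle_sub (a b : UnitAddCircle) :
    ‖(AddCircle.toCircle a : ℂ) - AddCircle.toCircle b‖ ≤ 2 * Real.pi * ‖a - b‖ := by
  obtain ⟨x, hx⟩ : ∃ x : ℝ, ((x : ℝ) : UnitAddCircle) = a - b := ⟨(QuotientAddGroup.mk_surjective (a - b)).choose, (QuotientAddGroup.mk_surjective (a - b)).choose_spec⟩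
  set y : ℝ := x - round x with hy
  have hxy : ((y : ℝ) : UnitAddCircle) = a - b := by
    rw [hy, AddCircle.coe_sub, hx]
    have : (((round x : ℤ) : ℝ) : UnitAddCircle) = 0 := coe_int_circle _
    rw [this, sub_zero]
  have hn : ‖a - b‖ = |y| := by
    rw [← hx, UnitAddCircle.norm_eq]
  have e1 : (AddCircle.toCircle a : ℂ) = AddCircle.toCircle ((y : ℝ) : UnitAddCircle) *
      AddCircle.toCircle b := by
    rw [← Circle.coe_mul, ← AddCircle.toCircle_add, hxy, sub_add_cancel]
  have e2 : (AddCircle.toCircle a : ℂ) - AddCircle.toCircle b =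
      ((AddCircle.toCircle ((y : ℝ) : UnitAddCircle) : ℂ) - 1) * AddCircle.toCircle b := by
    rw [e1]; ring
  rw [e2, norm_mul, Circle.norm_coe, mul_one, hn]
  have e3 : (AddCircle.toCircle ((y : ℝ) : UnitAddCircle) : ℂ) =
      Complex.exp (Complex.I * ((2 * Real.pi * y : ℝ) : ℂ)) := by
    rw [AddCircle.toCircle_apply_mk, Circle.coe_exp]
    congr 1
    push_cast
    ring
  rw [e3]
  have := Real.norm_exp_I_mul_ofReal_sub_one_le (x := 2 * Real.pi * y)
  refine this.trans ?_
  rw [Real.norm_eq_abs, abs_mul, abs_of_pos (by positivity : (0 : ℝ) < 2 * Real.pi)]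

lemma zf_shift (T : ℕ → Bool) (j : ℕ) (g : Ltr) (x : Pos) :
    ‖(zf T j g (shift x) : ℂ) - zf T j g x‖ ≤ 2 * Real.pi / (Dn j (x.i - j) : ℝ) := by
  unfold zf
  refine (norm_toCircle_sub _ _).trans ?_
  have := mul_le_mul_of_nonneg_left (lab_shift T j g x)
    (by positivity : (0 : ℝ) ≤ 2 * Real.pi)
  rw [mul_one_div] at this
  exact this

/-- the variation of the labels tends to zero -/
lemma zf_shift_finite (T : ℕ → Bool) (j : ℕ) (g : Ltr) {ε : ℝ} (hε : 0 < ε) :
    {x : Pos | ε < ‖(zf T j g (shift x) : ℂ) - zf T j g x‖}.Finite := by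
  obtain ⟨n, hn⟩ := exists_nat_gt (2 * Real.pi / ε)
  apply (finite_level (j + n)).subset
  intro x hx
  by_contra hcon
  have hx1 : ¬ x.i ≤ j + n := hcon
  have h1 : ε < 2 * Real.pi / (Dn j (x.i - j) : ℝ) := lt_of_lt_of_le hx (zf_shift T j g x)
  have h2 : n ≤ Dn j (x.i - j) := by
    unfold Dn
    calc n ≤ 2 ^ n := Nat.lt_two_pow_self.le
      _ ≤ 2 ^ (x.i - j) := Nat.pow_le_pow_right (by norm_num) (by omega)
      _ ≤ Q j * 2 ^ (x.i - j) := Nat.le_mul_of_pos_left _ (Q_pos j)
  have h3 : (n : ℝ) ≤ (Dn j (x.i - j) : ℝ) := by exact_mod_cast h2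
  have hD : (0 : ℝ) < (Dn j (x.i - j) : ℝ) := by exact_mod_cast Dn_pos _ _
  rw [lt_div_iff₀ hD] at h1
  rw [div_lt_iff₀ hε] at hn
  nlinarith

end Pool.Agent.Ped8316
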