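import Mathlib
import Pool.Agent.Lib.Ped8316.GrpDefs
import Pool.Agent.Lib.Ped8316.Labels

/-!
# The groups of blocks: basic facts
-/

set_option autoImplicit false
set_option linter.unusedSectionVars false

open Topology Filter Set

namespace Pool.Agent.Ped8316

lemma Branch.lt' {T : ℕ → Bool} {β : ℕ → ℕ} (h : Branch T β) (k : ℕ) : β k < β (k + 1) := by
  obtain ⟨h1, h2, -⟩ := h.2 k
  rw [← h2]
  exact par_lt h1

lemma Branch.le' {T : ℕ → Bool} {β : ℕ → ℕ} (h : Branch T β) (k : ℕ) : k ≤ β k := by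
  induction k with
  | zero => exact Nat.zero_le _
  | succ k ih => exact Nat.succ_le_of_lt (ih.trans_lt (h.lt' k))

lemma Jb_lt' {T : ℕ → Bool} {β : ℕ → ℕ} (h : Branch T β) (k : ℕ) : Jb β k < Jb β (k + 1) := by
  have h1 := h.lt' (k + 1)
  have h2 := (h.2 k).1
  unfold Jb
  omega

lemma Jb_strictMono {T : ℕ → Bool} {β : ℕ → ℕ} (h : Branch T β) : StrictMono (Jb β) :=
  strictMono_nat_of_lt_succ (Jb_lt' h)

lemma le_Jb {T : ℕ → Bool} {β : ℕ → ℕ} (h : Branch T β) (k : ℕ) : k ≤ Jb β k := by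
  have h1 := h.le' (k + 1)
  unfold Jb
  omega

lemma inGB_le {T : ℕ → Bool} {β : ℕ → ℕ} (h : Branch T β) {k i r : ℕ} {s : Bool}
    (hx : inGB β k i r s) : Jb β k ≤ i ∧ i ≤ Jb β (k + 1) := by
  have h1 := Jb_lt' h k
  obtain ⟨-, -, h2 | h2 | h2⟩ := hx <;> omega

lemma inGB_unique_aux {T : ℕ → Bool} {β : ℕ → ℕ} (h : Branch T β) {k k' i r : ℕ} {s : Bool}
    (hx : inGB β k i r s) (hx' : inGB β k' i r s) (hk : k < k') : False := by
  have h1 := (inGB_le h hx).2
  have h2 := (inGB_le h hx').1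
  have h3 : k' = k + 1 := by
    by_contra hc
    have h4 : k + 1 < k' := by omega
    have h5 := Jb_strictMono h h4
    omega
  subst h3
  have h6 := Jb_lt' h k
  have h7 := Jb_lt' h (k + 1)
  obtain ⟨-, -, h8 | h8 | h8⟩ := hx
  · omega
  · omega
  · obtain ⟨-, -, h9 | h9 | h9⟩ := hx'
    · omega
    · exact h9.2 h8.2
    · omega

lemma inGB_unique {T : ℕ → Bool} {β : ℕ → ℕ} (h : Branch T β) {k k' i r : ℕ} {s : Bool}
    (hx : inGB β k i r s) (hx' : inGB β k' i r s) : k = k' := by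
  rcases lt_trichotomy k k' with h1 | h1 | h1
  · exact (inGB_unique_aux h hx hx' h1).elim
  · exact h1
  · exact (inGB_unique_aux h hx' hx h1).elim

lemma inGB_exists {T : ℕ → Bool} {β : ℕ → ℕ} (h : Branch T β) {i r : ℕ} {s : Bool}
    (hi : Jb β 0 ≤ i) (hr : r ≤ i) (hs : r = 0 → s = true) : ∃ k, inGB β k i r s := by
  classical
  have h1 : ∃ k, i < Jb β (k + 1) := ⟨i, by
    have := le_Jb h (i + 1)
    omega⟩
  obtain ⟨k, hk1, hk2⟩ : ∃ k, Jb β k ≤ i ∧ i < Jb β (k + 1) := by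
    refine ⟨Nat.find h1, ?_, Nat.find_spec h1⟩
    rcases Nat.eq_zero_or_pos (Nat.find h1) with h2 | h2
    · rw [h2]; exact hi
    · have h3 := Nat.find_min h1 (m := Nat.find h1 - 1) (by omega)
      have h4 : Nat.find h1 - 1 + 1 = Nat.find h1 := by omega
      rw [h4] at h3
      omega
  rcases hk1.lt_or_eq with h2 | h2
  · exact ⟨k, hr, hs, Or.inl ⟨h2, hk2⟩⟩
  · by_cases h3 : s = true ∧ onB β k r
    · obtain ⟨h4, n, hn1, hn2, hn3⟩ := h3
      obtain ⟨k', rfl⟩ : ∃ k', k = k' + 1 := ⟨k - 1, by omega⟩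
      exact ⟨k', hr, hs, Or.inr (Or.inr ⟨h2.symm, h4, n, hn1, hn2, hn3⟩)⟩
    · exact ⟨k, hr, hs, Or.inr (Or.inl ⟨h2.symm, h3⟩)⟩

lemma grp_eq {T : ℕ → Bool} {β : ℕ → ℕ} (h : Branch T β) {x : Pos} {k : ℕ} :
    grp β x = k + 1 ↔ inGB β k x.i x.r x.s := by
  classical
  unfold grp
  constructor
  · intro h1
    split_ifs at h1 with h2
    · have h3 := Nat.find_spec h2
      have h4 : Nat.find h2 = k := by
        convert Nat.succ_injective h1
      rw [h4] at h3
      exact h3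
  · intro h1
    have h2 : ∃ k, inGB β k x.i x.r x.s := ⟨k, h1⟩
    rw [dif_pos h2]
    have h3 := inGB_unique h h1 (Nat.find_spec h2)
    rw [h3]

lemma grp_eq_zero {β : ℕ → ℕ} {x : Pos} : grp β x = 0 ↔ ¬ ∃ k, inGB β k x.i x.r x.s := by
  unfold grp
  constructor
  · intro h1 h2
    rw [dif_pos h2] at h1
    exact Nat.succ_ne_zero _ h1
  · intro h1
    rw [dif_neg h1]

open scoped Classical in
lemma grp_aux (p q : ℕ → Prop) (h : p = q) :
    (if h : ∃ k, p k then Nat.find h + 1 else 0) = if h : ∃ k, q k then Nat.find h + 1 else 0 := by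
  subst h
  rfl

lemma grp_shift (β : ℕ → ℕ) (x : Pos) : grp β (shift x) = grp β x := by
  refine grp_aux (fun k => inGB β k (shift x).i (shift x).r (shift x).s)
    (fun k => inGB β k x.i x.r x.s) ?_
  simp only [shift_i, shift_r, shift_s]

/-- finitely many positions in each group, and outside the groups -/
lemma grp_finite {T : ℕ → Bool} {β : ℕ → ℕ} (h : Branch T β) (n : ℕ) :
    {x : Pos | grp β x ≤ n}.Finite := by
  refine (finite_level (Jb β n)).subset (fun x hx => ?_)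
  have hx' : grp β x ≤ n := hx
  show x.i ≤ Jb β n
  rcases Nat.eq_zero_or_pos (grp β x) with h1 | h1
  · rw [grp_eq_zero] at h1
    by_contra hc
    refine h1 (inGB_exists h ?_ x.hr x.hs)
    have := (Jb_strictMono h).monotone (Nat.zero_le n)
    omega
  · obtain ⟨k, hk⟩ : ∃ k, grp β x = k + 1 := ⟨grp β x - 1, by omega⟩
    have h2 := (inGB_le h ((grp_eq h).1 hk)).2
    have := (Jb_strictMono h).monotone (show k + 1 ≤ n by omega)
    omega

end Pool.Agent.Ped8316
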