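import Mathlib
import Pool.Agent.Lib.Ped8316.Grp

/-!
# Exchange windows, cells and the partner involution
-/

set_option autoImplicit false
set_option linter.unusedSectionVars false

open Topology Filter Set

namespace Pool.Agent.Ped8316

/-! ### rounding up -/

/-- `⌈y / P⌉` -/
def cei (y P : ℕ) : ℕ := (y + P - 1) / P

lemma cei_mul {P : ℕ} (hP : 0 < P) (m : ℕ) : cei (P * m) P = m := by
  unfold cei
  rw [Nat.add_sub_assoc hP, Nat.mul_add_div hP, Nat.div_eq_of_lt (by omega), Nat.add_zero]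

lemma cei_mul_add_one {P : ℕ} (hP : 0 < P) (m : ℕ) : cei (P * m + 1) P = m + 1 := by
  unfold cei
  have h1 : P * m + 1 + P - 1 = P * (m + 1) := by rw [Nat.mul_add]; omega
  rw [h1, Nat.mul_div_cancel_left _ hP]

lemma cei_zero {P : ℕ} (hP : 0 < P) : cei 0 P = 0 := by
  have := cei_mul hP 0
  rwa [Nat.mul_zero] at this

lemma cei_succ {P y : ℕ} (hP : 0 < P) (h : ¬ P ∣ y) : cei (y + 1) P = cei y P := by
  have h1 : y % P ≠ 0 := fun h' => h (Nat.dvd_of_mod_eq_zero h')
  have h2 := Nat.div_add_mod y P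
  have h3 := Nat.mod_lt y hP
  set q := y / P
  set r := y % P
  have e1 : cei y P = q + 1 := by
    unfold cei
    have : y + P - 1 = P * (q + 1) + (r - 1) := by rw [Nat.mul_add]; omega
    rw [this, Nat.mul_add_div hP, Nat.div_eq_of_lt (by omega), Nat.add_zero]
  have e2 : cei (y + 1) P = q + 1 := by
    unfold cei
    have : y + 1 + P - 1 = P * (q + 1) + r := by rw [Nat.mul_add]; omega
    rw [this, Nat.mul_add_div hP, Nat.div_eq_of_lt h3, Nat.add_zero]
  rw [e1, e2]

lemma cei_bounds {P y : ℕ} (hP : 0 < P) : y ≤ P * cei y P ∧ P * cei y P < y + P := by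
  have h2 := Nat.div_add_mod (y + P - 1) P
  have h3 := Nat.mod_lt (y + P - 1) hP
  unfold cei
  omega

/-! ### cells -/

/-- The cell of a content `a` at fine position `c ∈ [0, QJ]` (rounded up). -/
def cell (QJ : ℕ) (a : Option SL) (c : ℕ) : Option (Ltr × ℕ) :=
  match a with
  | none => none
  | some (g, s) => if c ≤ 1 ∨ QJ ≤ c then none else some (g, if s then c else QJ + 1 - c)

lemma cell_base {QJ : ℕ} (a : Option SL) {c : ℕ} (h : c ≤ 1 ∨ QJ ≤ c) : cell QJ a c = none := by
  unfold cell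
  rcases a with _ | ⟨g, s⟩
  · rfl
  · simp [h]

lemma cell_mid {QJ : ℕ} (g : Ltr) (s : Bool) {c : ℕ} (h1 : 2 ≤ c) (h2 : c < QJ) :
    cell QJ (some (g, s)) c = some (g, if s then c else QJ + 1 - c) :=
  if_neg (by omega)

lemma cell_inv {QJ : ℕ} (a : Option SL) {m : ℕ} (h1 : 1 ≤ m) (h2 : m < QJ) :
    cell QJ (inv a) (QJ - m + 1) = cell QJ a m := by
  rcases a with _ | ⟨g, s⟩
  · rfl
  · by_cases hm : m = 1
    · subst hm
      rw [cell_base _ (Or.inl le_rfl), cell_base _ (Or.inr (by omega))]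
    · show cell QJ (some (g, !s)) (QJ - m + 1) = _
      rw [cell_mid g (!s) (by omega) (by omega), cell_mid g s (by omega) h2]
      cases s
      · show some (g, QJ - m + 1) = some (g, QJ + 1 - m)
        congr 2
        omega
      · show some (g, QJ + 1 - (QJ - m + 1)) = some (g, m)
        congr 2
        omega

variable (T : ℕ → Bool) (β : ℕ → ℕ)

/-- number of windows per base level slot -/
abbrev DD (k i : ℕ) : ℕ := Dn (Jb β k) (i - Jb β k)

/-- number of windows per exchange point -/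
abbrev PP (k i : ℕ) : ℕ := 2 ^ (i - Jb β k)

lemma PP_pos (k i : ℕ) : 0 < PP β k i := by unfold PP; positivity

lemma DD_eq (k i : ℕ) : DD β k i = PP β k i * Q (Jb β k) := by
  unfold DD PP Dn
  ring

lemma DD_pos (k i : ℕ) : 0 < DD β k i := by
  rw [DD_eq]
  exact Nat.mul_pos (PP_pos β k i) (Q_pos _)

lemma Q_eq_DD {k i : ℕ} (h : Jb β k ≤ i) : Q i = DD β k i * PK (Jb β k) (i - Jb β k) := by
  have := Q_eq (Jb β k) (i - Jb β k)
  rwa [Nat.add_sub_cancel' h] at this

/-- the group index of a position -/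
noncomputable def gk (x : Pos) : ℕ := grp β x - 1

/-- the cell of a position -/
noncomputable def cellOf (x : Pos) : ℕ × Option (Ltr × ℕ) :=
  (grp β x, if grp β x = 0 then none else
    cell (Q (Jb β (gk β x))) (cont T (Jb β (gk β x)) x)
      (cei (x.X % DD β (gk β x) x.i) (PP β (gk β x) x.i)))

/-- exchange windows of the group `k` -/
def EW (k : ℕ) (x : Pos) : Prop :=
  inGB β k x.i x.r x.s ∧ cont T (Jb β k) x ≠ none ∧ PP β k x.i ∣ x.X % DD β k x.i ∧
    x.X % DD β k x.i ≠ 0

variable {T β}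

lemma gk_eq (h : Branch T β) {k : ℕ} {x : Pos} (hx : inGB β k x.i x.r x.s) : gk β x = k := by
  unfold gk
  rw [(grp_eq h).2 hx]
  rfl

lemma mem_of_grp (h : Branch T β) {x : Pos} (hx : grp β x ≠ 0) :
    inGB β (gk β x) x.i x.r x.s := by
  refine (grp_eq h).1 ?_
  unfold gk
  omega

/-- the slot of a position -/
def slotOf (h : Branch T β) {k : ℕ} {x : Pos} (hx : inGB β k x.i x.r x.s) : Slot β k :=
  ⟨((x.i, x.r, x.s), x.X / DD β k x.i), hx, by
    rw [Nat.div_lt_iff_lt_mul (DD_pos β k x.i), mul_comm, ← Q_eq_DD β (inGB_le h hx).1]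
    exact x.hX⟩

lemma slotOf_c (h : Branch T β) {k : ℕ} {x : Pos} (hx : inGB β k x.i x.r x.s) :
    (slotOf h hx).c T = cont T (Jb β k) x := rfl

/-- the exchange point (in the direction of the block) -/
noncomputable def mm (β : ℕ → ℕ) (k : ℕ) (x : Pos) : ℕ := (x.X % DD β k x.i) / PP β k x.i

lemma EW.mod_eq {k : ℕ} {x : Pos} (hE : EW T β k x) :
    x.X % DD β k x.i = PP β k x.i * mm β k x := (Nat.mul_div_cancel' hE.2.2.1).symm

lemma EW.mm_pos {k : ℕ} {x : Pos} (hE : EW T β k x) : 1 ≤ mm β k x := by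
  have h1 := hE.mod_eq
  have h2 := hE.2.2.2
  by_contra hc
  have h3 : mm β k x = 0 := by omega
  rw [h3, Nat.mul_zero] at h1
  exact h2 h1

lemma EW.mm_lt {k : ℕ} {x : Pos} (hE : EW T β k x) : mm β k x < Q (Jb β k) := by
  have h1 := Nat.mod_lt x.X (DD_pos β k x.i)
  rw [hE.mod_eq] at h1
  have h2 := DD_eq β k x.i
  rw [h2] at h1
  exact lt_of_mul_lt_mul_left h1 (Nat.zero_le _)

/-- the partner of a position in an exchange window -/
noncomputable def partner (h : Branch T β) (κ : ∀ k, Slot β k → Slot β k) {k : ℕ} {x : Pos}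
    (hE : EW T β k x) (he : x.e ≤ Jb β k + 1) : Pos where
  i := (κ k (slotOf h hE.1)).1.1.1
  r := (κ k (slotOf h hE.1)).1.1.2.1
  s := (κ k (slotOf h hE.1)).1.1.2.2
  X := DD β k (κ k (slotOf h hE.1)).1.1.1 * (κ k (slotOf h hE.1)).1.2 +
    PP β k (κ k (slotOf h hE.1)).1.1.1 * (Q (Jb β k) - mm β k x)
  e := x.e
  hr := (κ k (slotOf h hE.1)).2.1.1
  hs := (κ k (slotOf h hE.1)).2.1.2.1
  hX := by
    set q := κ k (slotOf h hE.1) with hq
    have h1 := inGB_le h q.2.1
    rw [Q_eq_DD β h1.1]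
    have h2 := q.2.2
    have h3 := hE.mm_pos
    have h4 := hE.mm_lt
    have h5 : PP β k q.1.1.1 * (Q (Jb β k) - mm β k x) < DD β k q.1.1.1 := by
      rw [DD_eq]
      exact Nat.mul_lt_mul_of_pos_left (by omega) (PP_pos β k _)
    calc DD β k q.1.1.1 * q.1.2 + PP β k q.1.1.1 * (Q (Jb β k) - mm β k x)
        < DD β k q.1.1.1 * q.1.2 + DD β k q.1.1.1 := by omega
      _ = DD β k q.1.1.1 * (q.1.2 + 1) := by ring
      _ ≤ DD β k q.1.1.1 * PK (Jb β k) (q.1.1.1 - Jb β k) := Nat.mul_le_mul_left _ h2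
  he := by
    have h1 := inGB_le h (κ k (slotOf h hE.1)).2.1
    omega

section partner

variable (h : Branch T β) {κ : ∀ k, Slot β k → Slot β k} {k : ℕ} {x : Pos}
    (hE : EW T β k x) (he : x.e ≤ Jb β k + 1)

lemma partner_e : (partner h κ hE he).e = x.e := rfl

lemma partner_inGB : inGB β k (partner h κ hE he).i (partner h κ hE he).r
    (partner h κ hE he).s := (κ k (slotOf h hE.1)).2.1

lemma partner_lt : PP β k (partner h κ hE he).i * (Q (Jb β k) - mm β k x) <
    DD β k (partner h κ hE he).i := by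
  have h3 := hE.mm_pos
  have h4 := hE.mm_lt
  rw [DD_eq]
  exact Nat.mul_lt_mul_of_pos_left (by omega) (PP_pos β k _)

lemma partner_div : (partner h κ hE he).X / DD β k (partner h κ hE he).i =
    (κ k (slotOf h hE.1)).1.2 := by
  have h1 : (partner h κ hE he).X = DD β k (partner h κ hE he).i * (κ k (slotOf h hE.1)).1.2 +
    PP β k (partner h κ hE he).i * (Q (Jb β k) - mm β k x) := rfl
  rw [h1, Nat.mul_add_div (DD_pos β k _), Nat.div_eq_of_lt (partner_lt h hE he), Nat.add_zero]

lemma partner_mod : (partner h κ hE he).X % DD β k (partner h κ hE he).i =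
    PP β k (partner h κ hE he).i * (Q (Jb β k) - mm β k x) := by
  have h1 : (partner h κ hE he).X = DD β k (partner h κ hE he).i * (κ k (slotOf h hE.1)).1.2 +
    PP β k (partner h κ hE he).i * (Q (Jb β k) - mm β k x) := rfl
  rw [h1, Nat.mul_add_mod, Nat.mod_eq_of_lt (partner_lt h hE he)]

lemma partner_slot : slotOf h (partner_inGB h (κ := κ) hE he) = κ k (slotOf h hE.1) := by
  refine Subtype.ext (Prod.ext rfl ?_)
  exact partner_div h hE he

lemma partner_cont (hκ : ∀ k p, (κ k p).c T = inv (p.c T)) :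
    cont T (Jb β k) (partner h κ hE he) = inv (cont T (Jb β k) x) := by
  rw [← slotOf_c h (partner_inGB h hE he), partner_slot, hκ, slotOf_c]

lemma inv_eq_none {a : Option SL} (ha : inv a = none) : a = none := by
  rcases a with _ | ⟨g, s⟩
  · rfl
  · exact absurd ha (by simp [inv])

lemma inv_ne {a : Option SL} (ha : a ≠ none) : inv a ≠ a := by
  rcases a with _ | ⟨g, s⟩
  · exact absurd rfl ha
  · simp [inv]

lemma partner_EW (hκ : ∀ k p, (κ k p).c T = inv (p.c T)) : EW T β k (partner h κ hE he) := by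
  have h3 := hE.mm_pos
  have h4 := hE.mm_lt
  refine ⟨partner_inGB h hE he, ?_, ?_, ?_⟩
  · rw [partner_cont h hE he hκ]
    exact fun hc => hE.2.1 (inv_eq_none hc)
  · rw [partner_mod]
    exact Nat.dvd_mul_right _ _
  · rw [partner_mod]
    have := PP_pos β k (partner h κ hE he).i
    exact (Nat.mul_pos this (by omega)).ne'

lemma partner_mm : mm β k (partner h κ hE he) = Q (Jb β k) - mm β k x := by
  unfold mm
  rw [partner_mod, Nat.mul_div_cancel_left _ (PP_pos β k _)]
  rfl

lemma partner_ne (hκ : ∀ k p, (κ k p).c T = inv (p.c T)) : partner h κ hE he ≠ x := by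
  intro hc
  have h1 := partner_cont h hE he hκ
  rw [hc] at h1
  exact inv_ne hE.2.1 h1.symm

lemma partner_partner (hκ1 : ∀ k p, κ k (κ k p) = p) (hκ : ∀ k p, (κ k p).c T = inv (p.c T))
    (he' : (partner h κ hE he).e ≤ Jb β k + 1) :
    partner h κ (partner_EW h hE he hκ) he' = x := by
  have h3 := hE.mm_pos
  have h4 := hE.mm_lt
  have h1 : κ k (slotOf h (partner_EW h hE he hκ).1) = slotOf h hE.1 := by
    have h2 : slotOf h (partner_EW h hE he hκ).1 = κ k (slotOf h hE.1) := partner_slot h hE he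
    rw [h2, hκ1]
  have e1 : (κ k (slotOf h (partner_EW h hE he hκ).1)).1 = (slotOf h hE.1).1 := by rw [h1]
  have e2 : ((slotOf h hE.1).1 : (ℕ × ℕ × Bool) × ℕ) = ((x.i, x.r, x.s), x.X / DD β k x.i) := rfl
  rw [e2] at e1
  have hi : (partner h κ (partner_EW h hE he hκ) he').i = x.i :=
    congrArg (fun z : (ℕ × ℕ × Bool) × ℕ => z.1.1) e1
  have hr : (partner h κ (partner_EW h hE he hκ) he').r = x.r :=
    congrArg (fun z : (ℕ × ℕ × Bool) × ℕ => z.1.2.1) e1
  have hs : (partner h κ (partner_EW h hE he hκ) he').s = x.s :=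
    congrArg (fun z : (ℕ × ℕ × Bool) × ℕ => z.1.2.2) e1
  have hsl : (κ k (slotOf h (partner_EW h hE he hκ).1)).1.2 = x.X / DD β k x.i :=
    congrArg (fun z : (ℕ × ℕ × Bool) × ℕ => z.2) e1
  refine Pos.ext hi hr hs ?_ rfl
  have hX : (partner h κ (partner_EW h hE he hκ) he').X =
      DD β k (partner h κ (partner_EW h hE he hκ) he').i *
        (κ k (slotOf h (partner_EW h hE he hκ).1)).1.2 +
      PP β k (partner h κ (partner_EW h hE he hκ) he').i *
        (Q (Jb β k) - mm β k (partner h κ hE he)) := rfl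
  rw [hX, hi, hsl, partner_mm, Nat.sub_sub_self h4.le, ← hE.mod_eq, Nat.div_add_mod]

end partner

/-! ### the involutions -/

open scoped Classical in
/-- exchange the positions of the exchange windows which are at most `bd` steps before the end -/
noncomputable def swp (h : Branch T β) (κ : ∀ k, Slot β k → Slot β k) (bd : ℕ → ℕ)
    (hbd : ∀ k, bd k ≤ Jb β k + 1) (x : Pos) : Pos :=
  if hx : EW T β (gk β x) x ∧ x.e ≤ bd (gk β x) then
    partner h κ hx.1 (hx.2.trans (hbd _)) else x

section swp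

variable (h : Branch T β) {κ : ∀ k, Slot β k → Slot β k} {bd : ℕ → ℕ}
    (hbd : ∀ k, bd k ≤ Jb β k + 1)

lemma swp_of_EW {k : ℕ} {x : Pos} (hE : EW T β k x) (he : x.e ≤ bd k) :
    swp h κ bd hbd x = partner h κ hE (he.trans (hbd k)) := by
  have hk : gk β x = k := gk_eq h hE.1
  subst hk
  unfold swp
  rw [dif_pos ⟨hE, he⟩]

lemma swp_of_not {x : Pos} (hx : ∀ k, EW T β k x → ¬ x.e ≤ bd k) : swp h κ bd hbd x = x := by
  unfold swp
  rw [dif_neg]
  rintro ⟨h1, h2⟩
  exact hx _ h1 h2

lemma swp_cases (x : Pos) : (∃ k, ∃ hE : EW T β k x, ∃ he : x.e ≤ bd k,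
    swp h κ bd hbd x = partner h κ hE (he.trans (hbd k))) ∨
    (swp h κ bd hbd x = x ∧ ∀ k, EW T β k x → ¬ x.e ≤ bd k) := by
  by_cases hx : ∃ k, EW T β k x ∧ x.e ≤ bd k
  · obtain ⟨k, hE, he⟩ := hx
    exact Or.inl ⟨k, hE, he, swp_of_EW h hbd hE he⟩
  · push Not at hx
    have hx' : ∀ k, EW T β k x → ¬ x.e ≤ bd k := fun k hk => not_le.2 (hx k hk)
    exact Or.inr ⟨swp_of_not h hbd hx', hx'⟩

lemma swp_swp (hκ1 : ∀ k p, κ k (κ k p) = p) (hκ : ∀ k p, (κ k p).c T = inv (p.c T)) (x : Pos) :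
    swp h κ bd hbd (swp h κ bd hbd x) = x := by
  rcases swp_cases h hbd (κ := κ) x with ⟨k, hE, he, h1⟩ | ⟨h1, -⟩
  · rw [h1, swp_of_EW h hbd (partner_EW h hE _ hκ) (by rw [partner_e]; exact he)]
    exact partner_partner h hE _ hκ1 hκ _
  · rw [h1, h1]

lemma swp_grp (x : Pos) : grp β (swp h κ bd hbd x) = grp β x := by
  rcases swp_cases h hbd (κ := κ) x with ⟨k, hE, he, h1⟩ | ⟨h1, -⟩
  · rw [h1, (grp_eq h).2 (partner_inGB h hE _), (grp_eq h).2 hE.1]
  · rw [h1]

/-- the permutation -/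
noncomputable def swpE (hκ1 : ∀ k p, κ k (κ k p) = p) (hκ : ∀ k p, (κ k p).c T = inv (p.c T)) :
    Equiv.Perm Pos :=
  ⟨swp h κ bd hbd, swp h κ bd hbd, swp_swp h hbd hκ1 hκ, swp_swp h hbd hκ1 hκ⟩

end swp

/-! ### the next window -/

/-- the next window relative to the slots of the group -/
lemma next_window (h : Branch T β) {k : ℕ} {x : Pos} (hx : inGB β k x.i x.r x.s) (he : x.e = 0) :
    ((shift x).X / DD β k x.i = x.X / DD β k x.i ∧
      (shift x).X % DD β k x.i = x.X % DD β k x.i + 1 ∧ x.X % DD β k x.i + 1 < DD β k x.i) ∨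
    ((shift x).X % DD β k x.i = 0 ∧ x.X % DD β k x.i + 1 = DD β k x.i) := by
  have hD := DD_pos β k x.i
  have h1 := Nat.div_add_mod x.X (DD β k x.i)
  have h2 := Nat.mod_lt x.X hD
  have hQ := Q_eq_DD β (inGB_le h hx).1
  rw [shift_X, if_pos he]
  set D := DD β k x.i
  set q := x.X / D
  set y := x.X % D
  by_cases hy : y + 1 < D
  · left
    have h3 : x.X + 1 < Q x.i := by
      have h4 : q < PK (Jb β k) (x.i - Jb β k) := by
        have := x.hX
        rw [hQ] at this
        exact Nat.div_lt_of_lt_mul this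
      have h5 : D * (q + 1) ≤ D * PK (Jb β k) (x.i - Jb β k) := Nat.mul_le_mul_left _ h4
      rw [hQ]
      rw [Nat.mul_add] at h5
      omega
    have h4 : x.X + 1 = D * q + (y + 1) := by omega
    rw [nextX, if_pos h3, h4, Nat.mul_add_div hD, Nat.div_eq_of_lt hy, Nat.mul_add_mod,
      Nat.mod_eq_of_lt hy]
    exact ⟨by omega, rfl, hy⟩
  · right
    have hy2 : y + 1 = D := by omega
    refine ⟨?_, hy2⟩
    unfold nextX
    split_ifs with h3
    · have h4 : x.X + 1 = D * (q + 1) := by rw [Nat.mul_add]; omega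
      rw [h4, Nat.mul_mod_right]
    · exact Nat.zero_mod _

lemma cont_shift_of_ne {x : Pos} (J : ℕ) (he : x.e ≠ 0) : cont T J (shift x) = cont T J x := by
  unfold cont Pos.letter
  rw [shift_i, shift_r, shift_s, shift_X, if_neg he]

lemma inGB_shift {k : ℕ} {x : Pos} : inGB β k (shift x).i (shift x).r (shift x).s ↔
    inGB β k x.i x.r x.s := by
  rw [shift_i, shift_r, shift_s]

lemma EW_shift {k : ℕ} {x : Pos} (he : x.e ≠ 0) : EW T β k (shift x) ↔ EW T β k x := by
  unfold EW
  rw [inGB_shift, cont_shift_of_ne _ he, shift_i, shift_X, if_neg he]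

lemma cellOf_shift_of_ne {x : Pos} (he : x.e ≠ 0) : cellOf T β (shift x) = cellOf T β x := by
  have h1 : gk β (shift x) = gk β x := by unfold gk; rw [grp_shift]
  unfold cellOf
  rw [h1, grp_shift, cont_shift_of_ne _ he, shift_i, shift_X, if_neg he]

/-- the cell in terms of the group -/
lemma cellOf_eq (h : Branch T β) {k : ℕ} {x : Pos} (hx : inGB β k x.i x.r x.s) :
    cellOf T β x = (k + 1, cell (Q (Jb β k)) (cont T (Jb β k) x)
      (cei (x.X % DD β k x.i) (PP β k x.i))) := by
  have hk : gk β x = k := gk_eq h hx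
  have hg : grp β x = k + 1 := (grp_eq h).2 hx
  unfold cellOf
  rw [hk, hg, if_neg (Nat.succ_ne_zero k)]

/-- (C1) the cells are invariant under the modified shift -/
theorem cellOf_inv (h : Branch T β) {κ : ∀ k, Slot β k → Slot β k}
    (hκ : ∀ k p, (κ k p).c T = inv (p.c T)) (hbd : ∀ k, (fun _ => 0 : ℕ → ℕ) k ≤ Jb β k + 1)
    (x : Pos) : cellOf T β (shift (swp h κ (fun _ => 0) hbd x)) = cellOf T β x := by
  rcases swp_cases h hbd (κ := κ) x with ⟨k, hE, he, h1⟩ | ⟨h1, h2⟩
  · -- exchange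
    rw [h1]
    set x' := partner h κ hE (he.trans (hbd k)) with hx'
    have he0 : x.e = 0 := by simpa using he
    have hx'e : x'.e = 0 := he0
    have hin : inGB β k x'.i x'.r x'.s := partner_inGB h hE _
    have hin2 : inGB β k (shift x').i (shift x').r (shift x').s := inGB_shift.2 hin
    have hmod : x'.X % DD β k x'.i = PP β k x'.i * (Q (Jb β k) - mm β k x) := partner_mod h hE _
    have hm1 := hE.mm_pos
    have hm2 := hE.mm_lt
    rw [cellOf_eq h hin2, cellOf_eq h hE.1, hE.mod_eq, cei_mul (PP_pos β k _), shift_i]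
    congr 1
    rcases next_window h hin hx'e with ⟨n1, n2, n3⟩ | ⟨n1, n2⟩
    · have hc : cont T (Jb β k) (shift x') = inv (cont T (Jb β k) x) := by
        rw [← partner_cont h hE (he.trans (hbd k)) hκ, ← hx']
        unfold cont Pos.letter
        rw [shift_i, shift_r, shift_s]
        change W T (Jb β k) (x'.i - Jb β k) _ ((shift x').X / DD β k x'.i) =
          W T (Jb β k) (x'.i - Jb β k) _ (x'.X / DD β k x'.i)
        rw [n1]
      rw [hc, n2, hmod, cei_mul_add_one (PP_pos β k _)]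
      exact cell_inv _ hm1 hm2
    · rw [n1, cei_zero (PP_pos β k _), cell_base _ (Or.inl (Nat.zero_le 1))]
      -- `y' + 1 = D'` forces `m = 1`
      have h3 : PP β k x'.i * (Q (Jb β k) - mm β k x) + 1 = PP β k x'.i * Q (Jb β k) := by
        rw [← hmod, n2, DD_eq]
      have h4 : PP β k x'.i * Q (Jb β k) = PP β k x'.i * (Q (Jb β k) - mm β k x) +
          PP β k x'.i * mm β k x := by
        rw [← Nat.mul_add]
        congr 1
        omega
      have h5 : PP β k x'.i * mm β k x = 1 := by omega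
      have h6 : mm β k x = 1 := Nat.eq_one_of_mul_eq_one_left h5
      rw [h6, cell_base _ (Or.inl le_rfl)]
  · rw [h1]
    by_cases he : x.e = 0
    · by_cases hg : grp β x = 0
      · have hg2 : grp β (shift x) = 0 := by rw [grp_shift, hg]
        unfold cellOf
        rw [hg, hg2, if_pos rfl, if_pos rfl]
      · have hin : inGB β (gk β x) x.i x.r x.s := mem_of_grp h hg
        set k := gk β x with hk
        have hin2 : inGB β k (shift x).i (shift x).r (shift x).s := inGB_shift.2 hin
        have hnE : ¬ EW T β k x := fun hE => h2 k hE (by rw [he])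
        rw [cellOf_eq h hin2, cellOf_eq h hin, shift_i]
        congr 1
        have hPP := PP_pos β k x.i
        have hcase : cont T (Jb β k) x = none ∨ (¬ PP β k x.i ∣ x.X % DD β k x.i) ∨
            x.X % DD β k x.i = 0 := by
          by_contra hc
          push Not at hc
          exact hnE ⟨hin, hc.1, hc.2.1, hc.2.2⟩
        have hQJ := Q_pos (Jb β k)
        rcases next_window h hin he with ⟨n1, n2, n3⟩ | ⟨n1, n2⟩
        · have hc : cont T (Jb β k) (shift x) = cont T (Jb β k) x := by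
            unfold cont Pos.letter
            rw [shift_i, shift_r, shift_s]
            change W T (Jb β k) (x.i - Jb β k) _ ((shift x).X / DD β k x.i) =
              W T (Jb β k) (x.i - Jb β k) _ (x.X / DD β k x.i)
            rw [n1]
          rw [hc, n2]
          rcases hcase with hc1 | hc1 | hc1
          · rw [hc1]; rfl
          · rw [cei_succ hPP hc1]
          · rw [hc1, cei_zero hPP, cell_base _ (Or.inl (Nat.zero_le 1))]
            have := cei_mul_add_one hPP 0
            rw [Nat.mul_zero] at this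
            rw [this, cell_base _ (Or.inl le_rfl)]
        · rw [n1, cei_zero hPP, cell_base _ (Or.inl (Nat.zero_le 1))]
          rcases hcase with hc1 | hc1 | hc1
          · rw [hc1]; rfl
          · have h4 : cei (x.X % DD β k x.i) (PP β k x.i) = Q (Jb β k) := by
              rw [← cei_succ hPP hc1, n2, DD_eq, cei_mul hPP]
            rw [h4, cell_base _ (Or.inr le_rfl)]
          · rw [hc1, cei_zero hPP, cell_base _ (Or.inl (Nat.zero_le 1))]
    · exact cellOf_shift_of_ne he

end Pool.Agent.Ped8316
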