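import Mathlib
import Pool.Agent.Lib.Ped8316.Cells

/-!
# Labels of cells, and the ramp
-/

set_option autoImplicit false
set_option linter.unusedSectionVars false

open Topology Filter Set

namespace Pool.Agent.Ped8316

/-- the label of a cell -/
noncomputable def cellLab (T : ℕ → Bool) (β : ℕ → ℕ) (j : ℕ) (g : Ltr)
    (c : ℕ × Option (Ltr × ℕ)) : UnitAddCircle :=
  match c with
  | (0, _) => 0
  | (_ + 1, none) => 0
  | (k + 1, some (g', m)) =>
    if j ≤ Jb β k then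
      Lm T j (Jb β k - j) (some (g', true)) g
        ((PK j (Jb β k - j) : ℝ) * ((m : ℝ) / (Q (Jb β k) : ℝ)))
    else 0

variable {T : ℕ → Bool} {β : ℕ → ℕ}

lemma PK_div_Q {j J : ℕ} (h : j ≤ J) :
    (PK j (J - j) : ℝ) / (Q J : ℝ) = 1 / (Dn j (J - j) : ℝ) := by
  have h1 := Q_eq j (J - j)
  rw [Nat.add_sub_cancel' h] at h1
  have h2 : (Q J : ℝ) = (Dn j (J - j) : ℝ) * (PK j (J - j) : ℝ) := by exact_mod_cast h1
  have h3 : (0 : ℝ) < PK j (J - j) := by exact_mod_cast PK_pos j (J - j)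
  rw [h2]
  rw [div_mul_eq_div_div_swap, div_self h3.ne']

lemma fine_bounds (k i : ℕ) (y : ℕ) :
    (y : ℝ) / (DD β k i : ℝ) ≤ (cei y (PP β k i) : ℝ) / (Q (Jb β k) : ℝ) ∧
    (cei y (PP β k i) : ℝ) / (Q (Jb β k) : ℝ) ≤
      (y : ℝ) / (DD β k i : ℝ) + 1 / (Q (Jb β k) : ℝ) := by
  have hP := PP_pos β k i
  have hQ := Q_pos (Jb β k)
  have hb := cei_bounds (y := y) hP
  have hP' : (0 : ℝ) < (PP β k i : ℝ) := by exact_mod_cast hP
  have hQ' : (0 : ℝ) < (Q (Jb β k) : ℝ) := by exact_mod_cast hQ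
  have hD : (DD β k i : ℝ) = (PP β k i : ℝ) * (Q (Jb β k) : ℝ) := by exact_mod_cast DD_eq β k i
  have h1 : (y : ℝ) ≤ (PP β k i : ℝ) * (cei y (PP β k i) : ℝ) := by exact_mod_cast hb.1
  have h2 : (PP β k i : ℝ) * (cei y (PP β k i) : ℝ) ≤ (y : ℝ) + (PP β k i : ℝ) := by
    exact_mod_cast hb.2.le
  rw [hD]
  constructor
  · rw [div_le_div_iff₀ (by positivity) hQ']
    nlinarith
  · have h3 : (y : ℝ) / ((PP β k i : ℝ) * (Q (Jb β k) : ℝ)) + 1 / (Q (Jb β k) : ℝ) =
        ((y : ℝ) + (PP β k i : ℝ)) / ((PP β k i : ℝ) * (Q (Jb β k) : ℝ)) := by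
      field_simp
    rw [h3, div_le_div_iff₀ hQ' (by positivity)]
    nlinarith

lemma Lm_zero_time (T : ℕ → Bool) (j d : ℕ) (a : Option SL) (g : Ltr) : Lm T j d a g 0 = 0 := by
  have := Lm_nat T j d a g 0
  rwa [Nat.cast_zero] at this

/-- (C2) -/
theorem cellLab_near (h : Branch T β) {j k : ℕ} (g : Ltr) {x : Pos}
    (hx : inGB β k x.i x.r x.s) (hj : j ≤ Jb β k) :
    ‖cellLab T β j g (cellOf T β x) - lab T j g x‖ ≤ 1 / (Dn j (Jb β k - j) : ℝ) := by
  rw [← PK_div_Q hj, lab_comp T hj g (inGB_le h hx).1, cellOf_eq h hx]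
  set J := Jb β k with hJ
  set d := J - j with hd
  set y := x.X % DD β k x.i with hy
  set a := cont T J x with ha
  set c := cei y (PP β k x.i) with hc
  set u : ℝ := (y : ℝ) / (DD β k x.i : ℝ) with hu
  have hb := fine_bounds (β := β) k x.i y
  rw [← hu, ← hc, ← hJ] at hb
  have hQ' : (0 : ℝ) < (Q J : ℝ) := by exact_mod_cast Q_pos J
  have hK' : (0 : ℝ) < (PK j d : ℝ) := by exact_mod_cast PK_pos j d
  have hD' : (0 : ℝ) < (DD β k x.i : ℝ) := by exact_mod_cast DD_pos β k x.i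
  have hu0 : 0 ≤ u := by positivity
  have hu1 : u ≤ 1 := by
    rw [hu, div_le_one hD']
    exact_mod_cast (Nat.mod_lt _ (DD_pos β k x.i)).le
  have hzero : ∀ (a : Option SL), (c ≤ 1 ∨ Q J ≤ c) →
      ‖(0 : UnitAddCircle) - Lm T j d a g ((PK j d : ℝ) * u)‖ ≤ (PK j d : ℝ) / (Q J : ℝ) := by
    intro a hcase
    rcases hcase with h1 | h1
    · have h2 := Lm_lipschitz T j d a g (t := 0) (t' := (PK j d : ℝ) * u) le_rfl (by positivity)
      rw [Lm_zero_time] at h2
      refine h2.trans ?_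
      rw [zero_sub, abs_neg, abs_of_nonneg (by positivity)]
      have h3 : u ≤ 1 / (Q J : ℝ) := by
        refine hb.1.trans ?_
        gcongr
        exact_mod_cast h1
      calc (PK j d : ℝ) * u ≤ (PK j d : ℝ) * (1 / (Q J : ℝ)) := by gcongr
        _ = (PK j d : ℝ) / (Q J : ℝ) := by ring
    · have h2 := Lm_lipschitz T j d a g (t := (PK j d : ℝ)) (t' := (PK j d : ℝ) * u)
        (by positivity) (by positivity)
      rw [Lm_nat] at h2
      refine h2.trans ?_
      have h3 : (1 : ℝ) ≤ (c : ℝ) / (Q J : ℝ) := by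
        rw [one_le_div hQ']
        exact_mod_cast h1
      have h4 : 0 ≤ (PK j d : ℝ) - (PK j d : ℝ) * u := by nlinarith
      rw [abs_of_nonneg h4]
      have h5 : 1 - u ≤ 1 / (Q J : ℝ) := by linarith [hb.2]
      calc (PK j d : ℝ) - (PK j d : ℝ) * u = (PK j d : ℝ) * (1 - u) := by ring
        _ ≤ (PK j d : ℝ) * (1 / (Q J : ℝ)) := by gcongr
        _ = (PK j d : ℝ) / (Q J : ℝ) := by ring
  have hpos : (0 : ℝ) ≤ (PK j d : ℝ) / (Q J : ℝ) := by positivity
  rcases hac : a with _ | ⟨g', s⟩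
  · show ‖(0 : UnitAddCircle) - Lm T j d none g _‖ ≤ _
    rw [Lm_none, sub_zero, norm_zero]
    exact hpos
  · by_cases hbase : c ≤ 1 ∨ Q J ≤ c
    · rw [cell_base _ hbase]
      exact hzero _ hbase
    · rw [cell_mid g' s (by omega) (by omega)]
      show ‖(if j ≤ Jb β k then Lm T j (Jb β k - j) (some (g', true)) g
        ((PK j (Jb β k - j) : ℝ) * (((if s then c else Q J + 1 - c : ℕ) : ℝ) /
          (Q (Jb β k) : ℝ))) else 0) - _‖ ≤ _
      rw [← hJ, if_pos hj, ← hd]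
      cases s
      · simp only [Bool.false_eq_true, if_false]
        have e1 : Lm T j d (some (g', false)) g ((PK j d : ℝ) * u) =
            Lm T j d (some (g', true)) g ((PK j d : ℝ) - (PK j d : ℝ) * u) :=
          Lm_inv T j d (some (g', true)) g (by positivity) (by nlinarith)
        rw [e1]
        refine (Lm_lipschitz T j d _ g (by positivity) (by nlinarith)).trans ?_
        have e2 : ((Q J + 1 - c : ℕ) : ℝ) = (Q J : ℝ) + 1 - (c : ℝ) := by
          rw [Nat.cast_sub (by omega)]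
          push_cast
          ring
        rw [e2]
        have e3 : (PK j d : ℝ) * (((Q J : ℝ) + 1 - (c : ℝ)) / (Q J : ℝ)) -
            ((PK j d : ℝ) - (PK j d : ℝ) * u) =
            (PK j d : ℝ) * (u + 1 / (Q J : ℝ) - (c : ℝ) / (Q J : ℝ)) := by
          field_simp
          ring
        rw [e3, abs_mul, abs_of_pos hK', abs_of_nonneg (by linarith [hb.2])]
        calc (PK j d : ℝ) * (u + 1 / (Q J : ℝ) - (c : ℝ) / (Q J : ℝ)) ≤
            (PK j d : ℝ) * (1 / (Q J : ℝ)) := by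
              gcongr
              linarith [hb.1]
          _ = (PK j d : ℝ) / (Q J : ℝ) := by ring
      · simp only [if_true]
        refine (Lm_lipschitz T j d _ g (by positivity) (by positivity)).trans ?_
        rw [← mul_sub, abs_mul, abs_of_pos hK', abs_of_nonneg (by linarith [hb.1])]
        calc (PK j d : ℝ) * ((c : ℝ) / (Q J : ℝ) - u) ≤ (PK j d : ℝ) * (1 / (Q J : ℝ)) := by
              gcongr
              linarith [hb.2]
          _ = (PK j d : ℝ) / (Q J : ℝ) := by ring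

/-- (C3) -/
theorem lab_partner (h : Branch T β) {κ : ∀ k, Slot β k → Slot β k}
    (hκ : ∀ k p, (κ k p).c T = inv (p.c T)) {j k : ℕ} (g : Ltr) {x : Pos} (hE : EW T β k x)
    (he : x.e ≤ Jb β k + 1) (hj : j ≤ Jb β k) :
    lab T j g (partner h κ hE he) = lab T j g x := by
  have hp := partner_inGB h (κ := κ) hE he
  have hm1 := hE.mm_pos
  have hm2 := hE.mm_lt
  rw [lab_comp T hj g (inGB_le h hp).1, lab_comp T hj g (inGB_le h hE.1).1,
    partner_cont h hE he hκ]
  have hmod : (partner h κ hE he).X % Dn (Jb β k) ((partner h κ hE he).i - Jb β k) =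
    PP β k (partner h κ hE he).i * (Q (Jb β k) - mm β k x) := partner_mod h hE he
  have hmod2 : x.X % Dn (Jb β k) (x.i - Jb β k) = PP β k x.i * mm β k x := hE.mod_eq
  rw [hmod, hmod2]
  have hD : ∀ i, (Dn (Jb β k) (i - Jb β k) : ℝ) = (PP β k i : ℝ) * (Q (Jb β k) : ℝ) := fun i => by
    exact_mod_cast DD_eq β k i
  rw [hD, hD]
  have hQ' : (0 : ℝ) < (Q (Jb β k) : ℝ) := by exact_mod_cast Q_pos (Jb β k)
  have hP' : ∀ i, (0 : ℝ) < (PP β k i : ℝ) := fun i => by exact_mod_cast PP_pos β k i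
  have e1 : ((PP β k (partner h κ hE he).i * (Q (Jb β k) - mm β k x) : ℕ) : ℝ) /
      ((PP β k (partner h κ hE he).i : ℝ) * (Q (Jb β k) : ℝ)) =
      1 - (mm β k x : ℝ) / (Q (Jb β k) : ℝ) := by
    rw [Nat.cast_mul, Nat.cast_sub hm2.le, mul_div_mul_left _ _ (hP' _).ne', sub_div,
      div_self hQ'.ne']
  have e2 : ((PP β k x.i * mm β k x : ℕ) : ℝ) / ((PP β k x.i : ℝ) * (Q (Jb β k) : ℝ)) =
      (mm β k x : ℝ) / (Q (Jb β k) : ℝ) := by
    rw [Nat.cast_mul, mul_div_mul_left _ _ (hP' _).ne']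
  rw [e1, e2]
  have hv0 : 0 ≤ (mm β k x : ℝ) / (Q (Jb β k) : ℝ) := by positivity
  have hv1 : (mm β k x : ℝ) / (Q (Jb β k) : ℝ) ≤ 1 := by
    rw [div_le_one hQ']
    exact_mod_cast hm2.le
  have hK' : (0 : ℝ) < (PK j (Jb β k - j) : ℝ) := by exact_mod_cast PK_pos j (Jb β k - j)
  rw [Lm_inv T j _ _ g (by nlinarith) (by nlinarith)]
  congr 1
  ring

/-! ### the ramp -/

open scoped Classical in
/-- the coefficient of the exchange unitary -/
noncomputable def ramp (T : ℕ → Bool) (β : ℕ → ℕ) (x : Pos) : ℂ :=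
  if EW T β (gk β x) x ∧ x.e ≤ Jb β (gk β x) + 1 then
    (1 + Complex.exp (Complex.I * ((Real.pi * (1 - (x.e : ℝ) / ((Jb β (gk β x) : ℝ) + 1)) : ℝ) : ℂ)))
      / 2
  else 1

lemma ramp_of_EW (h : Branch T β) {k : ℕ} {x : Pos} (hE : EW T β k x) (he : x.e ≤ Jb β k + 1) :
    ramp T β x = (1 + Complex.exp (Complex.I *
      ((Real.pi * (1 - (x.e : ℝ) / ((Jb β k : ℝ) + 1)) : ℝ) : ℂ))) / 2 := by
  have hk : gk β x = k := gk_eq h hE.1
  subst hk
  unfold ramp
  rw [if_pos ⟨hE, he⟩]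

lemma ramp_one (h : Branch T β) {x : Pos} (hx : ∀ k, EW T β k x → Jb β k + 1 ≤ x.e) :
    ramp T β x = 1 := by
  by_cases hc : EW T β (gk β x) x ∧ x.e ≤ Jb β (gk β x) + 1
  · have h1 := hx _ hc.1
    have h2 : x.e = Jb β (gk β x) + 1 := le_antisymm hc.2 h1
    rw [ramp_of_EW h hc.1 hc.2, h2]
    have h3 : ((Jb β (gk β x) + 1 : ℕ) : ℝ) / ((Jb β (gk β x) : ℝ) + 1) = 1 := by
      push_cast
      exact div_self (by positivity)
    rw [h3]
    simp
  · unfold ramp
    rw [if_neg hc]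

lemma ramp_top (h : Branch T β) {x : Pos} (hx : x.e = x.i + 1) : ramp T β x = 1 := by
  refine ramp_one h (fun k hE => ?_)
  have := (inGB_le h hE.1).1
  omega

/-- (R1) -/
lemma norm_ramp (x : Pos) : ‖2 * ramp T β x - 1‖ = 1 := by
  unfold ramp
  split_ifs
  · have h1 : ∀ z : ℂ, 2 * ((1 + z) / 2) - 1 = z := fun z => by ring
    rw [h1, mul_comm Complex.I, Complex.norm_exp_ofReal_mul_I]
  · norm_num

/-- (R2) -/
lemma ramp_swp (h : Branch T β) {κ : ∀ k, Slot β k → Slot β k}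
    (hκ : ∀ k p, (κ k p).c T = inv (p.c T))
    (hbd : ∀ k, (fun k => Jb β k + 1 : ℕ → ℕ) k ≤ Jb β k + 1) (x : Pos) :
    ramp T β (swp h κ (fun k => Jb β k + 1) hbd x) = ramp T β x := by
  rcases swp_cases h hbd (κ := κ) x with ⟨k, hE, he, h1⟩ | ⟨h1, -⟩
  · rw [h1, ramp_of_EW h (partner_EW h hE _ hκ) he, ramp_of_EW h hE he]
    rfl
  · rw [h1]

lemma partner_shift (h : Branch T β) {κ : ∀ k, Slot β k → Slot β k} {k : ℕ} {x : Pos}
    (hE : EW T β k x) (he : x.e ≤ Jb β k + 1) (h0 : x.e ≠ 0) (hE' : EW T β k (shift x))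
    (he' : (shift x).e ≤ Jb β k + 1) :
    partner h κ hE' he' = shift (partner h κ hE he) := by
  have hX : (shift x).X = x.X := by rw [shift_X, if_neg h0]
  have hsl : slotOf h hE'.1 = slotOf h hE.1 := by
    refine Subtype.ext (Prod.ext ?_ ?_)
    · show ((shift x).i, (shift x).r, (shift x).s) = (x.i, x.r, x.s)
      rw [shift_i, shift_r, shift_s]
    · show (shift x).X / DD β k (shift x).i = x.X / DD β k x.i
      rw [shift_i, hX]
  have hmm : mm β k (shift x) = mm β k x := by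
    unfold mm
    rw [shift_i, hX]
  have hpe : (partner h κ hE he).e ≠ 0 := h0
  refine Pos.ext ?_ ?_ ?_ ?_ ?_
  · rw [shift_i]
    show (κ k (slotOf h hE'.1)).1.1.1 = (κ k (slotOf h hE.1)).1.1.1
    rw [hsl]
  · rw [shift_r]
    show (κ k (slotOf h hE'.1)).1.1.2.1 = (κ k (slotOf h hE.1)).1.1.2.1
    rw [hsl]
  · rw [shift_s]
    show (κ k (slotOf h hE'.1)).1.1.2.2 = (κ k (slotOf h hE.1)).1.1.2.2
    rw [hsl]
  · rw [shift_X, if_neg hpe]
    show DD β k (κ k (slotOf h hE'.1)).1.1.1 * (κ k (slotOf h hE'.1)).1.2 +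
        PP β k (κ k (slotOf h hE'.1)).1.1.1 * (Q (Jb β k) - mm β k (shift x)) =
      DD β k (κ k (slotOf h hE.1)).1.1.1 * (κ k (slotOf h hE.1)).1.2 +
        PP β k (κ k (slotOf h hE.1)).1.1.1 * (Q (Jb β k) - mm β k x)
    rw [hsl, hmm]
  · rw [shift_e, if_neg hpe]
    show (shift x).e = (partner h κ hE he).e - 1
    rw [shift_e, if_neg h0]
    rfl

/-- the three cases -/
lemma ramp_cases (h : Branch T β) {κ : ∀ k, Slot β k → Slot β k}
    (hκ : ∀ k p, (κ k p).c T = inv (p.c T))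
    (hbd : ∀ k, (fun k => Jb β k + 1 : ℕ → ℕ) k ≤ Jb β k + 1)
    (hbd0 : ∀ k, (fun _ => 0 : ℕ → ℕ) k ≤ Jb β k + 1) (x : Pos) :
    (swp h κ (fun _ => 0) hbd0 x = x ∧
      swp h κ (fun k => Jb β k + 1) hbd (shift x) = shift (swp h κ (fun k => Jb β k + 1) hbd x) ∧
      ∃ k, EW T β k x ∧ ‖ramp T β (shift x) - ramp T β x‖ ≤ Real.pi / ((Jb β k : ℝ) + 1)) ∨
    (swp h κ (fun _ => 0) hbd0 x = swp h κ (fun k => Jb β k + 1) hbd x ∧ ramp T β x = 0 ∧
      ramp T β (shift (swp h κ (fun k => Jb β k + 1) hbd x)) = 1 ∧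
      swp h κ (fun _ => 0) hbd0 x ≠ x) ∨
    (swp h κ (fun _ => 0) hbd0 x = x ∧ ramp T β x = 1 ∧ ramp T β (shift x) = 1) := by
  by_cases hx : ∃ k, EW T β k x ∧ x.e ≤ Jb β k + 1
  · obtain ⟨k, hE, he⟩ := hx
    by_cases h0 : x.e = 0
    · right; left
      have h1 : swp h κ (fun k => Jb β k + 1) hbd x = partner h κ hE he := swp_of_EW h hbd hE he
      have h2 : swp h κ (fun _ => 0) hbd0 x = partner h κ hE he := swp_of_EW h hbd0 hE h0.le
      refine ⟨by rw [h1, h2], ?_, ?_, ?_⟩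
      · rw [ramp_of_EW h hE he, h0]
        have h3 : Complex.I * ((Real.pi * (1 - ((0 : ℕ) : ℝ) / ((Jb β k : ℝ) + 1)) : ℝ) : ℂ) =
            Real.pi * Complex.I := by
          rw [Nat.cast_zero, zero_div, sub_zero, mul_one, mul_comm]
        rw [h3, Complex.exp_pi_mul_I]
        norm_num
      · rw [h1]
        refine ramp_top h ?_
        rw [shift_e, shift_i, if_pos (show (partner h κ hE he).e = 0 from h0)]
      · rw [h2]
        exact partner_ne h hE he hκ
    · left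
      have hE' : EW T β k (shift x) := (EW_shift h0).2 hE
      have hse : (shift x).e = x.e - 1 := by rw [shift_e, if_neg h0]
      have he' : (shift x).e ≤ Jb β k + 1 := by omega
      refine ⟨?_, ?_, k, hE, ?_⟩
      · refine swp_of_not h hbd0 (fun k' _ hc => h0 ?_)
        have hc' : x.e ≤ 0 := hc
        omega
      · rw [swp_of_EW h hbd hE he, swp_of_EW h hbd hE' he']
        exact partner_shift h hE he h0 hE' he'
      · rw [ramp_of_EW h hE' he', ramp_of_EW h hE he, hse]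
        have h1 : ∀ z w : ℂ, (1 + z) / 2 - (1 + w) / 2 = (z - w) / 2 := fun z w => by ring
        rw [h1, norm_div]
        have h2 : ∀ s t : ℝ, ‖Complex.exp (Complex.I * (s : ℂ)) - Complex.exp (Complex.I * (t : ℂ))‖
            ≤ |s - t| := by
          intro s t
          have h3 : Complex.exp (Complex.I * (s : ℂ)) - Complex.exp (Complex.I * (t : ℂ)) =
              Complex.exp (Complex.I * (t : ℂ)) *
                (Complex.exp (Complex.I * ((s - t : ℝ) : ℂ)) - 1) := by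
            rw [mul_sub, ← Complex.exp_add]
            push_cast
            ring_nf
          rw [h3, norm_mul, mul_comm Complex.I (t : ℂ), Complex.norm_exp_ofReal_mul_I, one_mul]
          have := Real.norm_exp_I_mul_ofReal_sub_one_le (x := s - t)
          rwa [Real.norm_eq_abs] at this
        have h4 := h2 (Real.pi * (1 - ((x.e - 1 : ℕ) : ℝ) / ((Jb β k : ℝ) + 1)))
          (Real.pi * (1 - (x.e : ℝ) / ((Jb β k : ℝ) + 1)))
        have h5 : Real.pi * (1 - ((x.e - 1 : ℕ) : ℝ) / ((Jb β k : ℝ) + 1)) -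
            Real.pi * (1 - (x.e : ℝ) / ((Jb β k : ℝ) + 1)) = Real.pi / ((Jb β k : ℝ) + 1) := by
          rw [Nat.cast_sub (by omega)]
          push_cast
          field_simp
          ring
        have hpi := Real.pi_pos
        rw [h5, abs_of_pos (by positivity)] at h4
        have h6 : ‖(2 : ℂ)‖ = 2 := by norm_num
        rw [h6]
        have h7 : 0 ≤ Real.pi / ((Jb β k : ℝ) + 1) := by positivity
        linarith
  · push Not at hx
    right; right
    have h1 : ∀ k, EW T β k x → Jb β k + 1 ≤ x.e := fun k hk => (hx k hk).le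
    refine ⟨?_, ramp_one h h1, ?_⟩
    · refine swp_of_not h hbd0 (fun k hk hc => ?_)
      have := hx k hk
      have hc' : x.e ≤ 0 := hc
      omega
    · by_cases h0 : x.e = 0
      · refine ramp_top h ?_
        rw [shift_e, shift_i, if_pos h0]
      · refine ramp_one h (fun k hk => ?_)
        have hE := (EW_shift h0).1 hk
        have := hx k hE
        rw [shift_e, if_neg h0]
        omega

/-- (R4) -/
lemma ramp_finite (h : Branch T β) {κ : ∀ k, Slot β k → Slot β k}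
    (hκ : ∀ k p, (κ k p).c T = inv (p.c T))
    (hbd : ∀ k, (fun k => Jb β k + 1 : ℕ → ℕ) k ≤ Jb β k + 1)
    (hbd0 : ∀ k, (fun _ => 0 : ℕ → ℕ) k ≤ Jb β k + 1) {ε : ℝ} (hε : 0 < ε) :
    {x : Pos | swp h κ (fun _ => 0) hbd0 x = x ∧ ε < ‖ramp T β (shift x) - ramp T β x‖}.Finite := by
  refine (grp_finite h (⌈Real.pi / ε⌉₊ + 1)).subset ?_
  rintro x ⟨hx1, hx2⟩
  rcases ramp_cases h hκ hbd hbd0 x with ⟨-, -, k, hE, hr⟩ | ⟨-, -, -, hne⟩ | ⟨-, hr1, hr2⟩
  · have h1 : ε < Real.pi / ((Jb β k : ℝ) + 1) := hx2.trans_le hr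
    have h2 : (Jb β k : ℝ) + 1 < Real.pi / ε := by
      rw [lt_div_iff₀ hε]
      rw [lt_div_iff₀ (by positivity)] at h1
      linarith
    have h3 : grp β x = k + 1 := (grp_eq h).2 hE.1
    show grp β x ≤ _
    rw [h3]
    have h4 := le_Jb h k
    have h5 : ((Jb β k : ℕ) : ℝ) ≤ ((⌈Real.pi / ε⌉₊ : ℕ) : ℝ) := by
      have := Nat.le_ceil (Real.pi / ε)
      linarith
    have h6 : Jb β k ≤ ⌈Real.pi / ε⌉₊ := by exact_mod_cast h5
    omega
  · exact absurd hx1 hne
  · rw [hr1, hr2, sub_self, norm_zero] at hx2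
    exact absurd hx2 (not_lt.2 hε.le)

end Pool.Agent.Ped8316
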