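import Mathlib
import Pool.Agent.Lib.Ped8316.Blocks

/-!
# The recursion for the indices forces an infinite branch
-/

set_option autoImplicit false
set_option linter.unusedSectionVars false

open Topology Filter Set
open scoped InnerProductSpace ComplexConjugate

namespace Pool.Agent.Ped8316

lemma Lset_sum (j : ℕ) (F : Ltr → ℤ) :
    ∑ b ∈ Lset j, F b = ∑ r ∈ Finset.range (j + 1), F (.l r) +
      ∑ r ∈ Finset.Icc 1 (j + 1), F (.c r) := by
  unfold Lset
  rw [Finset.sum_union, Finset.sum_image, Finset.sum_image]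
  · intro a _ b _ hab
    injection hab
  · intro a _ b _ hab
    injection hab
  · rw [Finset.disjoint_left]
    intro b hb hb'
    rw [Finset.mem_image] at hb hb'
    obtain ⟨r, _, hr⟩ := hb
    obtain ⟨r', _, hr'⟩ := hb'
    rw [← hr] at hr'
    exact absurd hr' (by simp)

lemma cnt_cl (T : ℕ → Bool) (j r r' : ℕ) : cnt T j (.c r) (.l r') = 0 := by
  unfold cnt
  rw [TT_l]
  split_ifs <;> simp_all

lemma cnt_cc (T : ℕ → Bool) (j r t : ℕ) : cnt T j (.c r) (.c t) =
    if t = r ∧ act T t = true ∧ 1 ≤ t ∧ t ≤ j then 1 else 0 := by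
  unfold cnt
  rw [TT_c]
  by_cases h1 : act T t = true ∧ 1 ≤ t ∧ t ≤ j + 1
  · rw [if_pos h1]
    by_cases h2 : t ≤ j
    · by_cases h3 : t = r
      · rw [if_pos (⟨h3, h1.1, h1.2.1, h2⟩ : t = r ∧ act T t = true ∧ 1 ≤ t ∧ t ≤ j)]
        subst h3
        simp [h2]
      · rw [if_neg (fun h : t = r ∧ act T t = true ∧ 1 ≤ t ∧ t ≤ j => h3 h.1)]
        simp [h3]
    · rw [if_neg (fun h : t = r ∧ act T t = true ∧ 1 ≤ t ∧ t ≤ j => h2 h.2.2.2)]
      simp [h2]
  · rw [if_neg h1, if_neg]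
    rintro ⟨-, h2, h3, h4⟩
    exact h1 ⟨h2, h3, by omega⟩

lemma cnt_ll (T : ℕ → Bool) (j r r' : ℕ) : cnt T j (.l r) (.l r') =
    if r' = r ∧ act T r' = true ∧ r' ≤ j then (K j : ℤ) else 0 := by
  unfold cnt
  rw [TT_l]
  by_cases h1 : act T r' = true ∧ r' ≤ j
  · rw [if_pos h1]
    by_cases h3 : r' = r
    · rw [if_pos (⟨h3, h1⟩ : r' = r ∧ act T r' = true ∧ r' ≤ j)]
      simp [h3]
    · rw [if_neg (fun h : r' = r ∧ act T r' = true ∧ r' ≤ j => h3 h.1)]
      simp [h3]
  · rw [if_neg h1, if_neg (fun h : r' = r ∧ act T r' = true ∧ r' ≤ j => h1 h.2)]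

lemma cnt_lc (T : ℕ → Bool) (j r t : ℕ) : cnt T j (.l r) (.c t) =
    if act T t = true ∧ 1 ≤ t ∧ t ≤ j + 1 then
      -(if par t = r then 1 else 0) + (if t = r ∧ t ≤ j then 1 else 0) else 0 := by
  unfold cnt
  rw [TT_c]
  by_cases h1 : act T t = true ∧ 1 ≤ t ∧ t ≤ j + 1
  · rw [if_pos h1, if_pos h1]
    by_cases h2 : t ≤ j
    · by_cases h3 : t = r
      · subst h3
        simp [h2]
      · simp [h3]
    · simp [h2]
  · rw [if_neg h1, if_neg h1]

section

variable {T : ℕ → Bool} {φ : ℕ → Ltr → ℤ}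
  (h : ∀ j g, φ j g = (if g = .l 0 then 1 else 0) + ∑ b ∈ Lset j, cnt T j g b * φ (j + 1) b)

include h

lemma combi_c {r j : ℕ} (hr : act T r = true) (h1 : 1 ≤ r) (hj : r ≤ j) :
    φ j (.c r) = φ (j + 1) (.c r) := by
  rw [h j (.c r), Lset_sum, if_neg (by simp), zero_add]
  have e1 : ∑ r' ∈ Finset.range (j + 1), cnt T j (.c r) (.l r') * φ (j + 1) (.l r') = 0 := by
    apply Finset.sum_eq_zero
    intro r' _
    rw [cnt_cl, zero_mul]
  rw [e1, zero_add, Finset.sum_eq_single r]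
  · rw [cnt_cc, if_pos ⟨rfl, hr, h1, hj⟩, one_mul]
  · intro t _ ht
    rw [cnt_cc, if_neg (fun hh => ht hh.1), zero_mul]
  · intro hh
    exact absurd (Finset.mem_Icc.2 ⟨h1, by omega⟩) hh

lemma combi_c' {r : ℕ} (hr : act T r = true) (h1 : 1 ≤ r) (d : ℕ) :
    φ (r + d) (.c r) = φ r (.c r) := by
  induction d with
  | zero => rfl
  | succ d ih =>
    rw [← ih, combi_c h hr h1 (Nat.le_add_right r d)]
    rfl

lemma combi_c'' {r j : ℕ} (hr : act T r = true) (h1 : 1 ≤ r) (hj : r ≤ j) :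
    φ j (.c r) = φ r (.c r) := by
  obtain ⟨d, rfl⟩ := Nat.exists_eq_add_of_le hj
  exact combi_c' h hr h1 d

/-- the recursion for the loop letters when all active children have zero index -/
lemma combi_l {r j : ℕ} (hr : act T r = true) (hj : r ≤ j)
    (hch : ∀ t, 1 ≤ t → act T t = true → par t = r → φ t (.c t) = 0) :
    φ j (.l r) = (K j : ℤ) * φ (j + 1) (.l r) + (if r = 0 then 1 else φ r (.c r)) := by
  rw [h j (.l r), Lset_sum]
  have e1 : ∑ r' ∈ Finset.range (j + 1), cnt T j (.l r) (.l r') * φ (j + 1) (.l r') =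
      (K j : ℤ) * φ (j + 1) (.l r) := by
    rw [Finset.sum_eq_single r]
    · rw [cnt_ll, if_pos ⟨rfl, hr, hj⟩]
    · intro t _ ht
      rw [cnt_ll, if_neg (fun hh => ht hh.1), zero_mul]
    · intro hh
      exact absurd (Finset.mem_range.2 (by omega)) hh
  have e2 : ∀ t ∈ Finset.Icc 1 (j + 1), cnt T j (.l r) (.c t) * φ (j + 1) (.c t) =
      if t = r then φ r (.c r) else 0 := by
    intro t ht
    rw [Finset.mem_Icc] at ht
    rw [cnt_lc]
    by_cases ha : act T t = true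
    · rw [if_pos ⟨ha, ht.1, ht.2⟩, combi_c'' h ha ht.1 ht.2]
      by_cases hp : par t = r
      · have := par_lt ht.1
        rw [hch t ht.1 ha hp, mul_zero, if_neg (by omega)]
      · rw [if_neg hp, neg_zero, zero_add]
        by_cases htr : t = r
        · rw [if_pos ⟨htr, by omega⟩, if_pos htr, htr, one_mul]
        · rw [if_neg (fun hh => htr hh.1), if_neg htr, zero_mul]
    · rw [if_neg (fun hh => ha hh.1), zero_mul, if_neg]
      rintro rfl
      exact ha hr
  rw [e1, Finset.sum_congr rfl e2, Finset.sum_ite_eq']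
  by_cases h0 : r = 0
  · subst h0
    simp
    ring
  · have h1 : ¬ (Ltr.l r = Ltr.l 0) := by
      intro hh
      injection hh with hh
      exact h0 hh
    rw [if_neg h1, if_neg h0, if_pos (Finset.mem_Icc.2 ⟨by omega, by omega⟩)]
    ring

omit h in
/-- an integral recursion with growing factors has constant term zero -/
lemma recur_zero {w : ℕ → ℤ} {X : ℤ} {r : ℕ} (hw : ∀ j, r ≤ j → w j = (K j : ℤ) * w (j + 1) + X) :
    X = 0 := by
  set M : ℤ := max |w r| |X| with hM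
  have hXM : |X| ≤ M := le_max_right _ _
  have hM0 : 0 ≤ M := (abs_nonneg _).trans hXM
  have hstep : ∀ j, r ≤ j → |w j| ≤ M → (K j : ℤ) * |w (j + 1)| ≤ 2 * M := by
    intro j hj hwj
    have h1 : (K j : ℤ) * w (j + 1) = w j - X := by rw [hw j hj]; ring
    have h2 : (K j : ℤ) * |w (j + 1)| = |(K j : ℤ) * w (j + 1)| := by
      rw [abs_mul, abs_of_nonneg (Int.natCast_nonneg (K j))]
    rw [h2, h1]
    have := abs_sub (w j) X
    linarith
  have hK : ∀ j, (3 : ℤ) ≤ (K j : ℤ) := by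
    intro j
    unfold K
    push_cast
    omega
  have hbd : ∀ d, |w (r + d)| ≤ M := by
    intro d
    induction d with
    | zero => exact le_max_left _ _
    | succ d ih =>
      have h1 := hstep (r + d) (Nat.le_add_right _ _) ih
      have h2 := hK (r + d)
      have h3 : |w (r + d + 1)| ≤ M := by
        nlinarith [abs_nonneg (w (r + d + 1))]
      exact h3
  have hzero : ∀ j, r + (2 * M).toNat ≤ j → w (j + 1) = 0 := by
    intro j hj
    have h1 : |w j| ≤ M := by
      obtain ⟨d, hd⟩ := Nat.exists_eq_add_of_le (show r ≤ j by omega)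
      rw [hd]
      exact hbd d
    have h2 := hstep j (by omega) h1
    have h3 : 2 * M < (K j : ℤ) := by
      unfold K
      push_cast
      omega
    by_contra hne
    have h4 : 1 ≤ |w (j + 1)| := Int.one_le_abs hne
    nlinarith [hK j]
  have h1 := hzero (r + (2 * M).toNat) le_rfl
  have h2 := hzero (r + (2 * M).toNat + 1) (by omega)
  have h3 := hw (r + (2 * M).toNat + 1) (by omega)
  rw [h1, h2, mul_zero, zero_add] at h3
  exact h3.symm

lemma combi_step {r : ℕ} (hr : act T r = true) (hX : (if r = 0 then 1 else φ r (.c r)) ≠ 0) :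
    ∃ t, 1 ≤ t ∧ act T t = true ∧ par t = r ∧ φ t (.c t) ≠ 0 := by
  by_contra hcon
  push Not at hcon
  exact hX (recur_zero (w := fun j => φ j (.l r)) (r := r)
    (fun j hj => combi_l h hr hj hcon))

end

/-- Proof. By `TT_l`, `TT_c`: `φ j (c r) = φ (j+1) (c r)` for `r` active, `1 ≤ r ≤ j`, and
`φ j (l r) = K j * φ (j+1) (l r) + (if r = 0 then 1 else φ (j+1) (c r)) -
 Σ_{1 ≤ t ≤ j+1, t active, par t = r} φ (j+1) (c t)` for `r` active, `r ≤ j`.
Put `X 0 = 1`, `X r = φ r (c r)` for `r ≥ 1`. If `r` is active and `X r ≠ 0` then some active child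
`t` of `r` has `X t ≠ 0`: otherwise `w j = K j * w (j+1) + X r` for all `j ≥ r`, `w j = φ j (l r)`,
and as `K j → ∞` the integers `w j` are eventually zero, so `X r = 0`. -/
theorem combi (T : ℕ → Bool) (φ : ℕ → Ltr → ℤ)
    (h : ∀ j g, φ j g = (if g = .l 0 then 1 else 0) + ∑ b ∈ Lset j, cnt T j g b * φ (j + 1) b) :
    IllFounded T := by
  let S := {r : ℕ // act T r = true ∧ (if r = 0 then 1 else φ r (.c r)) ≠ 0}
  have hnext : ∀ s : S, ∃ t : S, 1 ≤ t.1 ∧ par t.1 = s.1 := by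
    intro s
    obtain ⟨t, h1, h2, h3, h4⟩ := combi_step h s.2.1 s.2.2
    refine ⟨⟨t, h2, ?_⟩, h1, h3⟩
    rw [if_neg (by omega)]
    exact h4
  choose nx hn1 hn2 using hnext
  let s0 : S := ⟨0, act_zero T, by simp⟩
  let β : ℕ → S := fun k => Nat.rec s0 (fun _ s => nx s) k
  refine ⟨fun k => (β k).1, rfl, ?_⟩
  intro k
  have hk : β (k + 1) = nx (β k) := rfl
  show 1 ≤ (β (k + 1)).1 ∧ par (β (k + 1)).1 = (β k).1 ∧ T (β (k + 1)).1 = true
  rw [hk]
  refine ⟨hn1 _, hn2 _, ?_⟩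
  have h1 := (nx (β k)).2.1
  have h2 := hn1 (β k)
  rw [act_of_ne T (by omega), Bool.and_eq_true] at h1
  exact h1.1

end Pool.Agent.Ped8316
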