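import Mathlib
import Pool.Agent.Lib.Ped8316.Ops

/-!
# Essentially commutative algebras; continuous functions of diagonal unitaries
-/

set_option autoImplicit false
set_option linter.unusedSectionVars false

open Topology Filter Set
open scoped InnerProductSpace ComplexConjugate

namespace Pool.Agent.Ped8316

variable {H : Type*} [NormedAddCommGroup H] [InnerProductSpace ℂ H] [CompleteSpace H]

/-- the set of operators which essentially commute with `b` is closed -/
lemma isClosed_essComm (b : Bd H) : IsClosed {a : Bd H | IsKp (a * b - b * a)} := by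
  rw [← isSeqClosed_iff_isClosed]
  intro f a hf ha
  refine IsKp.of_closure (fun ε hε => ?_)
  have hcont : Continuous (fun a : Bd H => a * b - b * a) := by fun_prop
  have h1 : Tendsto (fun n => f n * b - b * f n) atTop (𝓝 (a * b - b * a)) :=
    (hcont.tendsto a).comp ha
  obtain ⟨n, hn⟩ := ((Metric.tendsto_nhds.1 h1) ε hε).exists
  refine ⟨f n * b - b * f n, hf n, ?_⟩
  rw [← dist_eq_norm, dist_comm]
  exact hn.le

/-- the algebra of operators which essentially commute with `b` and its adjoint -/
def essC (b : Bd H) : NonUnitalStarSubalgebra ℂ (Bd H) where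
  carrier := {a | IsKp (a * b - b * a) ∧ IsKp (a * star b - star b * a)}
  add_mem' := by
    rintro x y ⟨h1, h2⟩ ⟨h3, h4⟩
    refine ⟨?_, ?_⟩
    · have h : (x + y) * b - b * (x + y) = (x * b - b * x) + (y * b - b * y) := by noncomm_ring
      rw [h]; exact h1.add h3
    · have h : (x + y) * star b - star b * (x + y)
          = (x * star b - star b * x) + (y * star b - star b * y) := by noncomm_ring
      rw [h]; exact h2.add h4
  zero_mem' := by
    refine ⟨?_, ?_⟩
    · rw [zero_mul, mul_zero, sub_zero]; exact IsKp.zero
    · rw [zero_mul, mul_zero, sub_zero]; exact IsKp.zero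
  mul_mem' := by
    rintro x y ⟨h1, h2⟩ ⟨h3, h4⟩
    refine ⟨?_, ?_⟩
    · have h : (x * y) * b - b * (x * y) = x * (y * b - b * y) + (x * b - b * x) * y := by
        noncomm_ring
      rw [h]; exact (h3.mul_left x).add (h1.mul_right y)
    · have h : (x * y) * star b - star b * (x * y)
          = x * (y * star b - star b * y) + (x * star b - star b * x) * y := by noncomm_ring
      rw [h]; exact (h4.mul_left x).add (h2.mul_right y)
  smul_mem' := by
    rintro c x ⟨h1, h2⟩
    refine ⟨?_, ?_⟩
    · rw [smul_mul_assoc, mul_smul_comm, ← smul_sub]; exact h1.smul c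
    · rw [smul_mul_assoc, mul_smul_comm, ← smul_sub]; exact h2.smul c
  star_mem' := by
    rintro x ⟨h1, h2⟩
    refine ⟨?_, ?_⟩
    · have h := h2.star.neg
      rw [star_sub, star_mul, star_mul, star_star, neg_sub] at h
      exact h
    · have h := h1.star.neg
      rw [star_sub, star_mul, star_mul, neg_sub] at h
      exact h

lemma mem_essC {a b : Bd H} :
    a ∈ essC b ↔ IsKp (a * b - b * a) ∧ IsKp (a * star b - star b * a) := Iff.rfl

lemma isClosed_essC (b : Bd H) : IsClosed (essC b : Set (Bd H)) :=
  (isClosed_essComm b).inter (isClosed_essComm (star b))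

/-- if the generators essentially commute with each other and their adjoints, the algebra is
essentially commutative -/
theorem ess_comm (S : Set (Bd H))
    (h : ∀ s ∈ S, ∀ t ∈ S, IsKp (s * t - t * s) ∧ IsKp (s * star t - star t * s)) :
    ∀ a ∈ (NonUnitalStarAlgebra.adjoin ℂ S).topologicalClosure,
      ∀ b ∈ (NonUnitalStarAlgebra.adjoin ℂ S).topologicalClosure, IsKp (a * b - b * a) := by
  have h1 : ∀ s ∈ S, (NonUnitalStarAlgebra.adjoin ℂ S).topologicalClosure ≤ essC s := by
    intro s hs
    refine NonUnitalStarSubalgebra.topologicalClosure_minimal _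
      (NonUnitalStarAlgebra.adjoin_le ?_) (isClosed_essC s)
    intro t ht
    exact h t ht s hs
  have h2 : ∀ b ∈ (NonUnitalStarAlgebra.adjoin ℂ S).topologicalClosure,
      (NonUnitalStarAlgebra.adjoin ℂ S).topologicalClosure ≤ essC b := by
    intro b hb
    refine NonUnitalStarSubalgebra.topologicalClosure_minimal _
      (NonUnitalStarAlgebra.adjoin_le ?_) (isClosed_essC b)
    intro s hs
    obtain ⟨h3, h4⟩ := h1 s hs hb
    refine ⟨?_, ?_⟩
    · have h5 := h3.neg
      rw [neg_sub] at h5
      exact h5
    · have h5 := h4.star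
      rw [star_sub, star_mul, star_mul, star_star] at h5
      exact h5
  intro a ha b hb
  exact (h2 b hb ha).1

variable {I : Type*} (e : HilbertBasis I ℂ H)

/-- continuous functions of a circle valued function (Stone-Weierstrass:
`span_fourier_closure_eq_top`) -/
theorem mem_of_cont (A : NonUnitalStarSubalgebra ℂ (Bd H)) (hA : IsClosed (A : Set (Bd H)))
    (h1 : (1 : Bd H) ∈ A) (y : I → UnitAddCircle)
    (hy : ((udiag e (fun x => AddCircle.toCircle (y x)) : unitary (Bd H)) : Bd H) ∈ A)
    (F : C(UnitAddCircle, ℂ)) : diag e (fun x => F (y x)) ∈ A := by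
  have hb : ∀ G : C(UnitAddCircle, ℂ), Bdd (fun x => G (y x)) :=
    fun G => ⟨‖G‖, fun x => G.norm_coe_le_norm _⟩
  let Φ : C(UnitAddCircle, ℂ) →ₗ[ℂ] Bd H :=
    { toFun := fun G => diag e (fun x => G (y x))
      map_add' := fun G K => by
        rw [diag_add e (hb G) (hb K)]
        rfl
      map_smul' := fun c G => by
        have h2 : c • diag e (fun x => G (y x)) = diag e (fun _ => c) * diag e (fun x => G (y x)) := by
          refine ext_basis e (fun x => ?_)
          show c • (diag e _ (e x)) = diag e _ (diag e _ (e x))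
          rw [diag_basis e (hb G), map_smul, diag_basis e (Bdd.const c), smul_comm]
        rw [RingHom.id_apply, h2, diag_mul e (Bdd.const c) (hb G)]
        rfl }
  have hΦ : Continuous Φ := by
    refine AddMonoidHomClass.continuous_of_bound Φ 1 (fun G => ?_)
    rw [one_mul]
    exact norm_diag_le e (norm_nonneg _) (fun x => G.norm_coe_le_norm _)
  let M : Submodule ℂ (Bd H) := A.toNonUnitalSubalgebra.toSubmodule
  have hM : ∀ a, a ∈ M ↔ a ∈ A := fun a => Iff.rfl
  have hMc : IsClosed ((M.comap Φ : Submodule ℂ C(UnitAddCircle, ℂ)) :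
      Set C(UnitAddCircle, ℂ)) := hA.preimage hΦ
  have hpow : ∀ n : ℕ, diag e (fun x => ((AddCircle.toCircle (y x) : Circle) : ℂ) ^ n) ∈ A := by
    intro n
    induction n with
    | zero =>
      simp only [pow_zero]
      rw [diag_one]; exact h1
    | succ n ih =>
      have hb1 : Bdd (fun x => ((AddCircle.toCircle (y x) : Circle) : ℂ)) :=
        Bdd.of_norm_one (fun x => Circle.norm_coe _)
      have hb2 : Bdd (fun x => ((AddCircle.toCircle (y x) : Circle) : ℂ) ^ n) :=
        Bdd.of_norm_one (fun x => by rw [norm_pow, Circle.norm_coe, one_pow])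
      have h3 := mul_mem ih hy
      have h4 : ((udiag e (fun x => AddCircle.toCircle (y x)) : unitary (Bd H)) : Bd H)
        = diag e (fun x => ((AddCircle.toCircle (y x) : Circle) : ℂ)) := rfl
      rw [h4, diag_mul e hb2 hb1] at h3
      simpa only [pow_succ] using h3
  have hspan : (Submodule.span ℂ (Set.range (@fourier (1 : ℝ)))).topologicalClosure
      ≤ M.comap Φ := by
    refine Submodule.topologicalClosure_minimal _ (Submodule.span_le.2 ?_) hMc
    rintro _ ⟨n, rfl⟩
    show diag e (fun x => fourier n (y x)) ∈ A
    obtain ⟨m, rfl | rfl⟩ := n.eq_nat_or_neg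
    · have h5 : (fun x => (fourier (m : ℤ) (y x) : ℂ))
          = fun x => ((AddCircle.toCircle (y x) : Circle) : ℂ) ^ m := by
        funext x
        rw [fourier_apply, natCast_zsmul, AddCircle.toCircle_nsmul, Circle.coe_pow]
      rw [h5]; exact hpow m
    · have h5 : (fun x => (fourier (-(m : ℤ)) (y x) : ℂ))
          = fun x => conj (((AddCircle.toCircle (y x) : Circle) : ℂ) ^ m) := by
        funext x
        rw [fourier_neg, fourier_apply, natCast_zsmul, AddCircle.toCircle_nsmul, Circle.coe_pow]
      rw [h5, ← diag_star e (Bdd.of_norm_one (fun x => by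
        rw [norm_pow, Circle.norm_coe, one_pow]))]
      exact star_mem (hpow m)
  have htop := span_fourier_closure_eq_top (T := (1 : ℝ))
  rw [htop] at hspan
  exact hspan (Submodule.mem_top (x := F))

end Pool.Agent.Ped8316
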