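import Mathlib
import Pool.Agent.Lib.Ped8316.Ops

/-!
# The exchange unitary
-/

set_option autoImplicit false
set_option linter.unusedSectionVars false

open Topology Filter Set
open scoped InnerProductSpace

namespace Pool.Agent.Ped8316

variable {H : Type*} [NormedAddCommGroup H] [InnerProductSpace ℂ H] [CompleteSpace H]
variable {I : Type*} (e : HilbertBasis I ℂ H)

/-- the exchange operator -/
noncomputable def exch (a : I → ℂ) (σ : Equiv.Perm I) : Bd H :=
  diag e a + diag e (fun x => 1 - a x) * perm e σ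

lemma exch_basis {a : I → ℂ} {σ : Equiv.Perm I} (ha : Bdd a) (x : I) :
    exch e a σ (e x) = a x • e x + (1 - a (σ x)) • e (σ x) := by
  have hb : Bdd (fun x => 1 - a x) := (Bdd.const 1).sub ha
  show diag e a (e x) + diag e (fun x => 1 - a x) (perm e σ (e x)) = _
  rw [perm_basis, diag_basis e ha, diag_basis e hb]

lemma bdd_of_norm_two_mul_sub_one {a : I → ℂ} (ha : ∀ x, ‖2 * a x - 1‖ = 1) : Bdd a := by
  refine ⟨1, fun x => ?_⟩
  have h1 : a x = (1 / 2 : ℂ) * ((2 * a x - 1) + 1) := by ring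
  have h2 : ‖(2 * a x - 1) + 1‖ ≤ 1 + 1 := by
    refine (norm_add_le _ _).trans ?_
    rw [ha x, norm_one]
  calc ‖a x‖ = ‖(1 / 2 : ℂ) * ((2 * a x - 1) + 1)‖ := by rw [← h1]
    _ = (1 / 2) * ‖(2 * a x - 1) + 1‖ := by
      rw [norm_mul]
      norm_num
    _ ≤ 1 := by linarith

lemma exch_star {a : I → ℂ} {σ : Equiv.Perm I} (hσ : ∀ x, σ (σ x) = x)
    (haσ : ∀ x, a (σ x) = a x) (ha : Bdd a) :
    star (exch e a σ) = exch e (fun x => (starRingEnd ℂ) (a x)) σ := by
  have hb : Bdd (fun x => 1 - a x) := (Bdd.const 1).sub ha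
  have hs : σ⁻¹ = σ := by
    ext x
    rw [Equiv.Perm.inv_def, Equiv.symm_apply_eq]
    exact (hσ x).symm
  unfold exch
  rw [star_add, star_mul, diag_star e ha, diag_star e hb, perm_star, hs, perm_diag e σ hb.conj, hs]
  congr 3
  funext x
  rw [haσ, map_sub, map_one]

lemma exch_mul_exch_conj {a b : I → ℂ} {σ : Equiv.Perm I} (hσ : ∀ x, σ (σ x) = x)
    (haσ : ∀ x, a (σ x) = a x) (hbσ : ∀ x, b (σ x) = b x) (ha : Bdd a) (hb : Bdd b)
    (h1 : ∀ x, a x * b x + (1 - a x) * (1 - b x) = 1) (h2 : ∀ x, a x * (1 - b x) + (1 - a x) * b x = 0) :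
    exch e b σ * exch e a σ = 1 := by
  refine ext_basis e (fun x => ?_)
  show exch e b σ (exch e a σ (e x)) = e x
  rw [exch_basis e ha, map_add, map_smul, map_smul, exch_basis e hb, exch_basis e hb, hσ, haσ, hbσ]
  have h3 : a x • (b x • e x + (1 - b x) • e (σ x)) +
      (1 - a x) • (b x • e (σ x) + (1 - b x) • e x) =
      (a x * b x + (1 - a x) * (1 - b x)) • e x +
      (a x * (1 - b x) + (1 - a x) * b x) • e (σ x) := by
    module
  rw [h3, h1, h2, one_smul, zero_smul, add_zero]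

/-- `Y` is unitary if `a = (1 + ζ)/2` with `|ζ| = 1` and `σ` is an involution leaving `a`
invariant. -/
theorem exch_unitary {a : I → ℂ} {σ : Equiv.Perm I} (hσ : ∀ x, σ (σ x) = x)
    (haσ : ∀ x, a (σ x) = a x) (ha : ∀ x, ‖2 * a x - 1‖ = 1) :
    exch e a σ ∈ unitary (Bd H) := by
  have hb := bdd_of_norm_two_mul_sub_one ha
  have hbσ : ∀ x, (fun x => (starRingEnd ℂ) (a x)) (σ x) = (fun x => (starRingEnd ℂ) (a x)) x := by
    intro x
    simp only [haσ]
  have h0 : ∀ x, (2 * a x - 1) * (2 * (starRingEnd ℂ) (a x) - 1) = 1 := by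
    intro x
    have h := Complex.mul_conj' (2 * a x - 1)
    rw [ha x] at h
    simpa [map_sub, map_mul, map_ofNat] using h
  have h1 : ∀ x, a x * (starRingEnd ℂ) (a x) + (1 - a x) * (1 - (starRingEnd ℂ) (a x)) = 1 := by
    intro x
    linear_combination (1 / 2 : ℂ) * h0 x
  have h2 : ∀ x, a x * (1 - (starRingEnd ℂ) (a x)) + (1 - a x) * (starRingEnd ℂ) (a x) = 0 := by
    intro x
    linear_combination (-1 / 2 : ℂ) * h0 x
  refine ⟨?_, ?_⟩
  · rw [exch_star e hσ haσ hb]
    exact exch_mul_exch_conj e hσ haσ hbσ hb hb.conj h1 h2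
  · rw [exch_star e hσ haσ hb]
    refine exch_mul_exch_conj e hσ hbσ haσ hb.conj hb (fun x => ?_) (fun x => ?_)
    · linear_combination h1 x
    · linear_combination h2 x

/-- `V_π Y - Y V_{π τ}` is compact; on basis vectors it is
`e x ↦ (a x - a (π x)) • (e (π x) - e (π (σ x)))` in the first case and `0` in the other cases. -/
theorem exch_perm {a : I → ℂ} {π σ τ : Equiv.Perm I} (hσ : ∀ x, σ (σ x) = x)
    (haσ : ∀ x, a (σ x) = a x) (ha : ∀ x, ‖2 * a x - 1‖ = 1)
    (h : ∀ x, (τ x = x ∧ σ (π x) = π (σ x)) ∨ (τ x = σ x ∧ a x = 0 ∧ a (π (σ x)) = 1) ∨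
      (τ x = x ∧ a x = 1 ∧ a (π x) = 1))
    (hc : ∀ ε : ℝ, 0 < ε → {x | τ x = x ∧ ε < ‖a (π x) - a x‖}.Finite) :
    IsKp (perm e π * exch e a σ - exch e a σ * perm e (π * τ)) := by
  classical
  have hb := bdd_of_norm_two_mul_sub_one ha
  set b : I → ℂ := fun x => if τ x = x then a x - a (π x) else 0 with hbdef
  have hK : IsKp (diag e b) := by
    refine isKp_diag e (fun ε hε => (hc ε hε).subset (fun x hx => ?_))
    have hx : ε < ‖b x‖ := hx
    rw [hbdef] at hx
    dsimp only at hx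
    split_ifs at hx with hx1
    · exact ⟨hx1, by rw [norm_sub_rev]; exact hx⟩
    · rw [norm_zero] at hx
      exact absurd hx (not_lt.2 hε.le)
  have hbb : Bdd b := by
    obtain ⟨C, hC⟩ := hb.sub (hb.comp π)
    refine ⟨C, fun x => ?_⟩
    rw [hbdef]
    dsimp only
    split_ifs
    · exact hC x
    · rw [norm_zero]; exact (norm_nonneg _).trans (hC x)
  have hE : perm e π * exch e a σ - exch e a σ * perm e (π * τ) =
      (perm e π - perm e (π * σ)) * diag e b := by
    refine ext_basis e (fun x => ?_)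
    show perm e π (exch e a σ (e x)) - exch e a σ (perm e (π * τ) (e x)) =
      perm e π (diag e b (e x)) - perm e (π * σ) (diag e b (e x))
    rw [exch_basis e hb, diag_basis e hbb, map_add, map_smul, map_smul, map_smul, map_smul,
      perm_basis, perm_basis, perm_basis, perm_basis, exch_basis e hb, haσ, haσ]
    rw [Equiv.Perm.mul_apply, Equiv.Perm.mul_apply]
    rw [hbdef]
    dsimp only
    rcases h x with ⟨h1, h2⟩ | ⟨h1, h2, h3⟩ | ⟨h1, h2, h3⟩
    · rw [h1, h2, if_pos rfl]
      module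
    · rw [h1, h2, h3]
      by_cases h4 : σ x = x
      · rw [h4, if_pos rfl]
        module
      · rw [if_neg h4]
        module
    · rw [h1, h2, h3, if_pos rfl]
      module
  rw [hE]
  exact hK.mul_left _

/-- `M_φ Y - Y M_φ'` is compact -/
theorem exch_diag {a φ φ' : I → ℂ} {σ : Equiv.Perm I} (ha : Bdd a) (hφ : Bdd φ)
    (hφ' : Bdd φ') (h1 : ∀ ε : ℝ, 0 < ε → {x | ε < ‖φ x - φ' x‖}.Finite)
    (h2 : ∀ ε : ℝ, 0 < ε → {x | ε < ‖φ' (σ x) - φ' x‖}.Finite) :
    IsKp (diag e φ * exch e a σ - exch e a σ * diag e φ') := by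
  have hb : Bdd (fun x => 1 - a x) := (Bdd.const 1).sub ha
  have hK1 : IsKp (diag e (fun x => φ x - φ' x)) := isKp_diag e h1
  have hK2 : IsKp (diag e (fun x => φ (σ x) - φ' (σ x))) := by
    refine isKp_diag e (fun ε hε => ?_)
    exact (h1 ε hε).preimage (f := σ) σ.injective.injOn
  have hK3 : IsKp (diag e (fun x => φ' (σ x) - φ' x)) := isKp_diag e h2
  have hE : diag e φ * exch e a σ - exch e a σ * diag e φ' =
      diag e a * diag e (fun x => φ x - φ' x) +
      diag e (fun x => 1 - a x) * perm e σ *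
        (diag e (fun x => φ (σ x) - φ' (σ x)) + diag e (fun x => φ' (σ x) - φ' x)) := by
    refine ext_basis e (fun x => ?_)
    show diag e φ (exch e a σ (e x)) - exch e a σ (diag e φ' (e x)) =
      diag e a (diag e (fun x => φ x - φ' x) (e x)) +
      diag e (fun x => 1 - a x) (perm e σ
        (diag e (fun x => φ (σ x) - φ' (σ x)) (e x) + diag e (fun x => φ' (σ x) - φ' x) (e x)))
    rw [exch_basis e ha, diag_basis e hφ', diag_basis e (hφ.sub hφ'),
      diag_basis e ((hφ.comp σ).sub (hφ'.comp σ)), diag_basis e ((hφ'.comp σ).sub hφ')]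
    simp only [map_add, map_smul, perm_basis, exch_basis e ha, diag_basis e hφ, diag_basis e ha,
      diag_basis e hb]
    module
  rw [hE]
  exact (hK1.mul_left _).add ((hK2.add hK3).mul_left _)

end Pool.Agent.Ped8316
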