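import Mathlib
import Pool.Agent.Lib.Ped8316.Labels

/-!
# The winding of the labels at their own level
-/

set_option autoImplicit false
set_option linter.unusedSectionVars false

open Topology Filter Set

namespace Pool.Agent.Ped8316

/-- the angles -/
noncomputable def thf (j : ℕ) (g : Ltr) (x : Pos) : ℝ :=
  if x.i = j ∧ x.e = 0 then 2 * Real.pi * ((sgn g (some x.letter) : ℤ) : ℝ) / (Q j : ℝ) else 0

/-- reversing the direction of the block -/
def flp (x : Pos) : Pos :=
  if h : x.r = 0 then x else { x with s := !x.s, hs := fun h' => absurd h' h }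

lemma flp_i (x : Pos) : (flp x).i = x.i := by unfold flp; split_ifs <;> rfl
lemma flp_e (x : Pos) : (flp x).e = x.e := by unfold flp; split_ifs <;> rfl
lemma flp_r (x : Pos) : (flp x).r = x.r := by unfold flp; split_ifs <;> rfl

lemma flp_s {x : Pos} (h : x.r ≠ 0) : (flp x).s = !x.s := by
  unfold flp; rw [dif_neg h]

lemma flp_flp (x : Pos) : flp (flp x) = x := by
  by_cases h : x.r = 0
  · have : flp x = x := by unfold flp; rw [dif_pos h]
    rw [this, this]
  · have h2 : (flp x).r ≠ 0 := by rw [flp_r]; exact h
    ext
    · rw [flp_i, flp_i]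
    · rw [flp_r, flp_r]
    · rw [flp_s h2, flp_s h, Bool.not_not]
    · have e : ∀ y : Pos, (flp y).X = y.X := fun y => by unfold flp; split_ifs <;> rfl
      rw [e, e]
    · rw [flp_e, flp_e]

lemma thf_flp {j : ℕ} {g : Ltr} {x : Pos} (h : x.r ≠ 0) : thf j g (flp x) = - thf j g x := by
  unfold thf
  rw [flp_i, flp_e]
  split_ifs with h1
  · have e : sgn g (some (flp x).letter) = - sgn g (some x.letter) := by
      unfold Pos.letter blkLetter
      rw [flp_r, if_neg h, if_neg h, flp_s h]
      exact sgn_inv g (some (Ltr.c x.r, x.s))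
    rw [e]
    push_cast
    ring
  · simp

theorem exists_theta (T : ℕ → Bool) (j : ℕ) (g : Ltr) :
    ∃ θ : Pos → ℝ, (∀ x, |θ x| ≤ 1) ∧ (∀ x, j < x.i → θ x = 0) ∧
      (∀ x, x.i ≤ j → (zf T j g (shift x) : ℂ) = zf T j g x * Complex.exp (Complex.I * θ x)) ∧
      ∑ x ∈ (finite_level j).toFinset, θ x = 2 * Real.pi * (if g = .l 0 then 1 else 0) := by
  classical
  have hQn : 10000 ≤ Q j := Q_mono (Nat.zero_le j)
  have hQ : (10000 : ℝ) ≤ (Q j : ℝ) := by exact_mod_cast hQn
  have hQ0 : (0 : ℝ) < (Q j : ℝ) := by linarith
  refine ⟨thf j g, ?_, ?_, ?_, ?_⟩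
  · intro x
    unfold thf
    split_ifs with h
    · rw [abs_div, abs_mul, abs_of_pos hQ0, abs_of_pos (by positivity : (0 : ℝ) < 2 * Real.pi),
        div_le_one hQ0]
      have h1 : |((sgn g (some x.letter) : ℤ) : ℝ)| ≤ 1 := by exact_mod_cast abs_sgn_le g _
      have h2 := Real.pi_lt_four
      have h3 := Real.pi_pos
      nlinarith
    · simp
  · intro x hx
    unfold thf
    rw [if_neg (fun h => by omega)]
  · intro x hx
    rcases hx.lt_or_eq with hlt | heq
    · have h1 : thf j g x = 0 := by
        unfold thf; rw [if_neg (fun h => by omega)]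
      rw [h1]
      unfold zf lab
      rw [shift_i, if_pos hlt, if_pos hlt]
      simp
    · by_cases he : x.e = 0
      · have hD : Dn j 0 = Q j := by simp [Dn]
        have hX := x.hX
        have hXr : (x.X : ℝ) + 1 ≤ Q j := by
          rw [heq] at hX
          exact_mod_cast hX
        have hl : lab T j g (shift x) =
            lab T j g x + ((((sgn g (some x.letter) : ℤ) : ℝ) / (Q j : ℝ) : ℝ) : UnitAddCircle) := by
          unfold lab
          rw [shift_i, letter_shift, if_neg (by omega), if_neg (by omega), heq, Nat.sub_self, hD,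
            shift_X, if_pos he]
          have e1 : Lm T j 0 (some x.letter) g ((x.X : ℝ) / (Q j : ℝ)) =
              ((((sgn g (some x.letter) : ℤ) : ℝ) * ((x.X : ℝ) / (Q j : ℝ)) : ℝ) : UnitAddCircle) := by
            apply Lm_zero
            · positivity
            · rw [div_le_one hQ0]; linarith
          have e2 : Lm T j 0 (some x.letter) g (((nextX x.i x.X : ℕ) : ℝ) / (Q j : ℝ)) =
              ((((sgn g (some x.letter) : ℤ) : ℝ) * (((x.X : ℝ) + 1) / (Q j : ℝ)) : ℝ) :
                UnitAddCircle) := by
            unfold nextX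
            by_cases hX2 : x.X + 1 < Q x.i
            · rw [if_pos hX2]
              push_cast
              apply Lm_zero
              · positivity
              · rw [div_le_one hQ0]; exact hXr
            · rw [if_neg hX2]
              have hX3 : x.X + 1 = Q j := by rw [heq] at hX2 hX; omega
              have hX4 : (x.X : ℝ) + 1 = Q j := by exact_mod_cast hX3
              rw [hX4, div_self hQ0.ne', mul_one, Nat.cast_zero, zero_div, coe_int_circle]
              have := Lm_nat T j 0 (some x.letter) g 0
              simpa using this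
          rw [e2, e1, ← AddCircle.coe_add]
          congr 1
          ring
        unfold zf
        rw [hl, AddCircle.toCircle_add, Circle.coe_mul]
        congr 1
        rw [AddCircle.toCircle_apply_mk, Circle.coe_exp]
        congr 1
        unfold thf
        rw [if_pos ⟨heq, he⟩]
        push_cast
        ring
      · have h1 : thf j g x = 0 := by
          unfold thf; rw [if_neg (fun h => he h.2)]
        rw [h1]
        unfold zf lab
        rw [shift_i, letter_shift, shift_X, if_neg he]
        simp
  · set S := (finite_level j).toFinset with hS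
    set A : Pos → Prop := fun x => x.r = 0 ∧ x.i = j ∧ x.e = 0 with hA
    rw [← Finset.sum_filter_add_sum_filter_not S A]
    have h2 : ∑ x ∈ S.filter (fun x => ¬ A x), thf j g x = 0 := by
      refine Finset.sum_involution (fun x _ => flp x) ?_ ?_ ?_ ?_
      · intro x hx
        by_cases hr : x.r = 0
        · have h3 : ¬ A x := (Finset.mem_filter.1 hx).2
          have h4 : ∀ y : Pos, y.i = x.i → y.e = x.e → thf j g y = 0 := by
            intro y h5 h6
            unfold thf
            rw [if_neg]
            rintro ⟨h7, h8⟩
            exact h3 ⟨hr, by rw [← h5]; exact h7, by rw [← h6]; exact h8⟩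
          rw [h4 x rfl rfl, h4 (flp x) (flp_i x) (flp_e x), add_zero]
        · rw [thf_flp hr, add_neg_cancel]
      · intro x hx hne heq
        by_cases hr : x.r = 0
        · have h3 : ¬ A x := (Finset.mem_filter.1 hx).2
          apply hne
          unfold thf
          rw [if_neg]
          rintro ⟨h7, h8⟩
          exact h3 ⟨hr, h7, h8⟩
        · have h4 := flp_s hr
          rw [heq] at h4
          cases hs : x.s <;> rw [hs] at h4 <;> simp at h4
      · intro x hx
        rw [Finset.mem_filter] at hx ⊢
        rw [hS, Set.Finite.mem_toFinset] at hx ⊢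
        refine ⟨?_, ?_⟩
        · show (flp x).i ≤ j
          rw [flp_i]; exact hx.1
        · intro h
          apply hx.2
          obtain ⟨h5, h6, h7⟩ := h
          rw [flp_r] at h5
          rw [flp_i] at h6
          rw [flp_e] at h7
          exact ⟨h5, h6, h7⟩
      · intro x _
        exact flp_flp x
    have h3 : ∑ x ∈ S.filter A, thf j g x =
        ∑ X ∈ Finset.range (Q j), 2 * Real.pi * (if g = .l 0 then 1 else 0) / (Q j : ℝ) := by
      refine Finset.sum_bij (fun x _ => x.X) ?_ ?_ ?_ ?_
      · intro x hx
        have h4 := (Finset.mem_filter.1 hx).2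
        rw [Finset.mem_range, ← h4.2.1]
        exact x.hX
      · intro x hx y hy hxy
        have h4 := (Finset.mem_filter.1 hx).2
        have h5 := (Finset.mem_filter.1 hy).2
        ext
        · rw [h4.2.1, h5.2.1]
        · rw [h4.1, h5.1]
        · rw [x.hs h4.1, y.hs h5.1]
        · exact hxy
        · rw [h4.2.2, h5.2.2]
      · intro X hX
        rw [Finset.mem_range] at hX
        refine ⟨⟨j, 0, true, X, 0, Nat.zero_le _, fun _ => rfl, hX, Nat.zero_le _⟩, ?_, rfl⟩
        rw [Finset.mem_filter, hS, Set.Finite.mem_toFinset]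
        exact ⟨le_refl j, rfl, rfl, rfl⟩
      · intro x hx
        have h4 := (Finset.mem_filter.1 hx).2
        unfold thf
        rw [if_pos ⟨h4.2.1, h4.2.2⟩]
        unfold Pos.letter blkLetter
        rw [if_pos h4.1]
        have e5 : sgn g (some (Ltr.l 0, true)) = if Ltr.l 0 = g then 1 else 0 := rfl
        rw [e5]
        by_cases hg : g = .l 0
        · rw [if_pos hg, if_pos hg.symm]
          simp
        · rw [if_neg hg, if_neg (fun h : Ltr.l 0 = g => hg h.symm)]
          simp
    rw [h2, h3, add_zero, Finset.sum_const, Finset.card_range, nsmul_eq_mul]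
    field_simp

end Pool.Agent.Ped8316
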