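import Mathlib
import Pool.Agent.Lib.Ped8316.Om
import Pool.Agent.Lib.Ped8316.Ops

/-!
# The index of diagonal unitaries
-/

set_option autoImplicit false
set_option linter.unusedSectionVars false

open Topology Filter Set
open scoped InnerProductSpace ComplexConjugate

namespace Pool.Agent.Ped8316

variable {H : Type*} [NormedAddCommGroup H] [InnerProductSpace ℂ H] [CompleteSpace H]
variable {I : Type*} (e : HilbertBasis I ℂ H)

/-- the span of finitely many basis vectors -/
def spn (S : Finset I) : Submodule ℂ H := Submodule.span ℂ (e '' (S : Set I))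

instance (S : Finset I) : FiniteDimensional ℂ (spn e S) :=
  FiniteDimensional.span_of_finite ℂ (S.finite_toSet.image e)

lemma mem_spn {S : Finset I} {x : I} (hx : x ∈ S) : e x ∈ spn e S :=
  Submodule.subset_span ⟨x, hx, rfl⟩

lemma basis_mem_spn_orth {S : Finset I} {x : I} (hx : x ∉ S) : e x ∈ (spn e S)ᗮ := by
  rw [Submodule.mem_orthogonal]
  intro u hu
  unfold spn at hu
  induction hu using Submodule.span_induction with
  | mem u hu =>
    obtain ⟨y, hy, rfl⟩ := hu
    exact e.orthonormal.2 (fun h => hx (by rw [← h]; exact hy))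
  | zero => exact inner_zero_left _
  | add a b _ _ ha hb => rw [inner_add_left, ha, hb, add_zero]
  | smul c a _ ha => rw [inner_smul_left, ha, mul_zero]

lemma spn_proj_basis_mem {S : Finset I} {x : I} (hx : x ∈ S) :
    (spn e S).starProjection (e x) = e x :=
  Submodule.starProjection_eq_self_iff.2 (mem_spn e hx)

lemma spn_proj_basis_not_mem {S : Finset I} {x : I} (hx : x ∉ S) :
    (spn e S).starProjection (e x) = 0 :=
  (Submodule.starProjection_apply_eq_zero_iff _).2 (basis_mem_spn_orth e hx)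

lemma bdd_indicator (S : Finset I) : Bdd ((S : Set I).indicator (fun _ => (1 : ℂ))) := by
  classical
  refine ⟨1, fun x => ?_⟩
  rw [Set.indicator_apply]
  split_ifs
  · rw [norm_one]
  · rw [norm_zero]; exact zero_le_one

lemma spn_starProjection (S : Finset I) :
    (spn e S).starProjection = diag e ((S : Set I).indicator (fun _ => (1 : ℂ))) := by
  classical
  refine ext_basis e (fun x => ?_)
  rw [diag_basis e (bdd_indicator S), Set.indicator_apply]
  by_cases hx : x ∈ S
  · rw [spn_proj_basis_mem e hx, if_pos (Finset.mem_coe.2 hx), one_smul]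
  · rw [spn_proj_basis_not_mem e hx, if_neg (fun h => hx (Finset.mem_coe.1 h)), zero_smul]

/-- it is in the span of the matrix units -/
lemma spn_starProjection_eq_sum (S : Finset I) :
    (spn e S).starProjection = ∑ x ∈ S, mu e x x := by
  classical
  refine ext_basis e (fun x => ?_)
  rw [sum_apply]
  by_cases hx : x ∈ S
  · rw [spn_proj_basis_mem e hx, Finset.sum_eq_single x, mu_basis_self]
    · intro y _ hy
      exact mu_basis_ne e hy.symm
    · intro h
      exact absurd hx h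
  · rw [spn_proj_basis_not_mem e hx]
    symm
    refine Finset.sum_eq_zero (fun y hy => ?_)
    exact mu_basis_ne e (fun h => hx (by rw [h]; exact hy))

lemma red_diag (S : Finset I) {ψ : I → ℂ} (h : Bdd ψ) : Red (spn e S) (diag e ψ) := by
  unfold Red
  rw [spn_starProjection]
  exact diag_commute e (bdd_indicator S) h

lemma red_perm (S : Finset I) {σ : Equiv.Perm I} (h : ∀ x, σ x ∈ S ↔ x ∈ S) :
    Red (spn e S) (perm e σ) := by
  classical
  unfold Red
  rw [spn_starProjection]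
  show _ * _ = _ * _
  rw [diag_perm e σ (bdd_indicator S)]
  congr 2
  funext x
  rw [Set.indicator_apply, Set.indicator_apply]
  have h1 : (σ x ∈ (S : Set I)) ↔ (x ∈ (S : Set I)) := by
    rw [Finset.mem_coe, Finset.mem_coe]; exact h x
  simp only [h1]

lemma diag_fix (S : Finset I) {ψ : I → ℂ} (h : Bdd ψ) (h1 : ∀ x, x ∉ S → ψ x = 1) :
    ∀ v ∈ (spn e S)ᗮ, diag e ψ v = v := by
  intro v hv
  refine ext_repr e (fun x => ?_)
  rw [repr_diag e h]
  by_cases hx : x ∈ S
  · have h2 : e.repr v x = 0 := by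
      rw [e.repr_apply_apply]
      rw [Submodule.mem_orthogonal] at hv
      exact hv _ (mem_spn e hx)
    rw [h2, mul_zero]
  · rw [h1 x hx, one_mul]

/-- the trace of a diagonal operator -/
lemma trL_diag (S : Finset I) {ψ : I → ℂ} (h : Bdd ψ) :
    trL (spn e S) (diag e ψ) = ∑ x ∈ S, ψ x := by
  classical
  let v : S → spn e S := fun x => ⟨e x, mem_spn e x.2⟩
  have hv : Orthonormal ℂ v := by
    refine ⟨fun x => ?_, fun x y hxy => ?_⟩
    · show ‖e x‖ = 1
      exact e.orthonormal.1 x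
    · show ⟪e x, e y⟫_ℂ = 0
      exact e.orthonormal.2 (fun h => hxy (Subtype.ext h))
  have hsp : ⊤ ≤ Submodule.span ℂ (Set.range v) := by
    rintro ⟨x, hx⟩ -
    have h1 : (Submodule.span ℂ (Set.range v)).map (spn e S).subtype = spn e S := by
      rw [Submodule.map_span]
      unfold spn
      congr 1
      ext y
      constructor
      · rintro ⟨_, ⟨x, rfl⟩, rfl⟩
        exact ⟨x, x.2, rfl⟩
      · rintro ⟨x, hx, rfl⟩
        exact ⟨_, ⟨⟨x, hx⟩, rfl⟩, rfl⟩
    have h2 : x ∈ (Submodule.span ℂ (Set.range v)).map (spn e S).subtype := by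
      rw [h1]; exact hx
    obtain ⟨y, hy, hy2⟩ := h2
    have h3 : (⟨x, hx⟩ : spn e S) = y := Subtype.ext hy2.symm
    rw [h3]
    exact hy
  rw [trL_eq_sum (spn e S) (diag e ψ) (OrthonormalBasis.mk hv hsp)]
  rw [← Finset.sum_coe_sort S]
  refine Finset.sum_congr rfl (fun x _ => ?_)
  rw [OrthonormalBasis.coe_mk]
  show ⟪e x, diag e ψ (e x)⟫_ℂ = ψ x
  rw [diag_basis e h, inner_smul_right, inner_self_eq_norm_sq_to_K, e.orthonormal.1 x]
  simp

/-- `cm (M_u) (V_σ)` is the diagonal unitary with entries `u x * conj (u (σ⁻¹ x)) =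
exp (i θ (σ⁻¹ x))`, so (argSelfAdjoint_expUnitary, exp_apply_eigen, ext_basis)
`argSelfAdjoint (cm ..) = diag (θ ∘ σ⁻¹)` and `om = (∑ x ∈ S, θ (σ⁻¹ x)) / 2π`. -/
theorem om_diag (S : Finset I) {σ : Equiv.Perm I} (h : ∀ x, σ x ∈ S ↔ x ∈ S) (u : I → Circle)
    (θ : I → ℝ) (hθ : ∀ x, |θ x| ≤ 1)
    (hu : ∀ x, (u (σ x) : ℂ) = u x * Complex.exp (Complex.I * θ x)) :
    om (spn e S) (udiag e u) (uperm e σ) = (∑ x ∈ S, θ x) / (2 * Real.pi) := by
  have hbu : Bdd (fun x => (u x : ℂ)) := Bdd.of_norm_one (fun x => Circle.norm_coe _)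
  set φ : I → ℂ := fun x => ((θ (σ⁻¹ x) : ℝ) : ℂ) with hφ
  have hbφ1 : ∀ x, ‖φ x‖ ≤ 1 := fun x => by
    rw [hφ]
    show ‖((θ (σ⁻¹ x) : ℝ) : ℂ)‖ ≤ 1
    rw [Complex.norm_real, Real.norm_eq_abs]
    exact hθ _
  have hbφ : Bdd φ := ⟨1, hbφ1⟩
  have hsa : IsSelfAdjoint (diag e φ) := by
    rw [IsSelfAdjoint, diag_star e hbφ]
    congr 1
    funext x
    rw [hφ]
    exact Complex.conj_ofReal _
  let D : selfAdjoint (Bd H) := ⟨diag e φ, hsa⟩
  have hcm : ((cm (udiag e u) (uperm e σ) : unitary (Bd H)) : Bd H) =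
      diag e (fun x => (u x : ℂ) * conj (u (σ⁻¹ x) : ℂ)) := by
    unfold cm
    simp only [Submonoid.coe_mul, Unitary.coe_star]
    show diag e (fun x => (u x : ℂ)) * perm e σ * star (diag e (fun x => (u x : ℂ))) *
      star (perm e σ) = _
    have h2 : perm e σ * star (perm e σ) = 1 := (perm_unitary e σ).2
    rw [diag_star e hbu, mul_assoc (diag e (fun x => (u x : ℂ))), perm_diag e σ hbu.conj, mul_assoc,
      mul_assoc, h2, mul_one, diag_mul e hbu (hbu.conj.comp _)]
  have hval : ∀ x, (u x : ℂ) * conj (u (σ⁻¹ x) : ℂ) = Complex.exp (Complex.I * φ x) := by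
    intro x
    have h2 := hu (σ⁻¹ x)
    have h4 : σ (σ⁻¹ x) = x := σ.apply_symm_apply x
    rw [h4] at h2
    rw [h2, hφ]
    have h3 : (u (σ⁻¹ x) : ℂ) * conj (u (σ⁻¹ x) : ℂ) = 1 := by
      rw [Complex.mul_conj', Circle.norm_coe]
      norm_num
    calc (u (σ⁻¹ x) : ℂ) * Complex.exp (Complex.I * (θ (σ⁻¹ x) : ℂ)) * conj (u (σ⁻¹ x) : ℂ)
        = ((u (σ⁻¹ x) : ℂ) * conj (u (σ⁻¹ x) : ℂ)) *
          Complex.exp (Complex.I * (θ (σ⁻¹ x) : ℂ)) := by ring
      _ = _ := by rw [h3, one_mul]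
  have hb2 : Bdd (fun x => (u x : ℂ) * conj (u (σ⁻¹ x) : ℂ)) := hbu.mul (hbu.conj.comp _)
  have hexp : selfAdjoint.expUnitary D = cm (udiag e u) (uperm e σ) := by
    refine Subtype.ext ?_
    rw [selfAdjoint.expUnitary_coe, hcm]
    refine ext_basis e (fun x => ?_)
    rw [diag_basis e hb2, hval]
    refine exp_apply_eigen ?_
    show Complex.I • (diag e φ (e x)) = _
    rw [diag_basis e hbφ, smul_smul]
  have hnorm : ‖D‖ < Real.pi := by
    have h2 : ‖D‖ = ‖diag e φ‖ := rfl
    rw [h2]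
    have h3 := norm_diag_le e zero_le_one hbφ1
    have := Real.pi_gt_three
    linarith
  have harg : Unitary.argSelfAdjoint (cm (udiag e u) (uperm e σ)) = D := by
    rw [← hexp]
    exact _root_.argSelfAdjoint_expUnitary hnorm
  unfold om lg
  rw [harg]
  congr 1
  show (trL (spn e S) (diag e φ)).re = _
  rw [trL_diag e S hbφ, Complex.re_sum]
  show ∑ x ∈ S, (((θ (σ⁻¹ x) : ℝ) : ℂ)).re = _
  simp only [Complex.ofReal_re]
  refine Finset.sum_bij (fun x _ => σ⁻¹ x) ?_ ?_ ?_ ?_
  · intro x hx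
    have h4 : σ (σ⁻¹ x) = x := σ.apply_symm_apply x
    rw [← h, h4]
    exact hx
  · intro x _ y _ hxy
    exact σ⁻¹.injective hxy
  · intro x hx
    exact ⟨σ x, (h x).2 hx, σ.symm_apply_apply x⟩
  · intro x _
    rfl

/-- the norm of the commutator -/
lemma nc_diag_le {σ : Equiv.Perm I} (u : I → Circle) {c : ℝ} (hc : 0 ≤ c)
    (h : ∀ x, ‖(u (σ x) : ℂ) - u x‖ ≤ c) : nc (udiag e u) (uperm e σ) ≤ c := by
  have hbu : Bdd (fun x => (u x : ℂ)) := Bdd.of_norm_one (fun x => Circle.norm_coe _)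
  have e1 : ((udiag e u : unitary (Bd H)) : Bd H) = diag e (fun x => (u x : ℂ)) := rfl
  have e2 : ((uperm e σ : unitary (Bd H)) : Bd H) = perm e σ := rfl
  have h1 : ((udiag e u : unitary (Bd H)) : Bd H) * (uperm e σ : unitary (Bd H)) -
      (uperm e σ : unitary (Bd H)) * ((udiag e u : unitary (Bd H)) : Bd H) =
      ((uperm e σ : unitary (Bd H)) : Bd H) * diag e (fun x => (u (σ x) : ℂ) - u x) := by
    rw [e1, e2, diag_perm e σ hbu, ← mul_sub, diag_sub e (hbu.comp _) hbu]
  unfold nc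
  rw [h1, CStarRing.norm_coe_unitary_mul]
  exact norm_diag_le e hc h

end Pool.Agent.Ped8316
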