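import Mathlib
import Pool.Agent.Lib.Ped8316.Words

/-!
# Pairing slots with opposite contents
-/

set_option autoImplicit false

open Set

namespace Pool.Agent.Ped8316

/-- if every letter occurs as often positively as negatively, there is an involution pairing the
slots with opposite contents -/
theorem exists_pairing {S : Type} [Fintype S] (c : S → Option SL)
    (h : ∀ g : Ltr, ∑ x, sgn g (c x) = 0) :
    ∃ κ : S → S, (∀ x, κ (κ x) = x) ∧ (∀ x, c (κ x) = inv (c x)) ∧ (∀ x, c x = none → κ x = x) := by
  classical
  have hcard : ∀ g : Ltr, Fintype.card {x // c x = some (g, true)} =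
      Fintype.card {x // c x = some (g, false)} := by
    intro g
    rw [Fintype.card_subtype, Fintype.card_subtype]
    have h1 : ∀ x, sgn g (c x) = (if c x = some (g, true) then (1 : ℤ) else 0) -
        (if c x = some (g, false) then (1 : ℤ) else 0) := by
      intro x
      rcases hc : c x with _ | ⟨g', s⟩
      · simp [sgn]
      · by_cases hg : g' = g
        · subst hg
          cases s <;> simp [sgn]
        · simp [sgn, hg]
    have h2 := h g
    simp only [h1] at h2
    rw [Finset.sum_sub_distrib, Finset.sum_boole, Finset.sum_boole, sub_eq_zero] at h2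
    exact_mod_cast h2
  let e : ∀ g : Ltr, {x // c x = some (g, true)} ≃ {x // c x = some (g, false)} :=
    fun g => Fintype.equivOfCardEq (hcard g)
  let κ : S → S := fun x =>
    if hp : ∃ g, c x = some (g, true) then (e hp.choose ⟨x, hp.choose_spec⟩ : S)
    else if hn : ∃ g, c x = some (g, false) then ((e hn.choose).symm ⟨x, hn.choose_spec⟩ : S)
    else x
  have hκp : ∀ x g (hx : c x = some (g, true)), κ x = (e g ⟨x, hx⟩ : S) := by
    intro x g hx
    have hp : ∃ g, c x = some (g, true) := ⟨g, hx⟩
    have h1 : κ x = (e hp.choose ⟨x, hp.choose_spec⟩ : S) := dif_pos hp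
    have h2 : hp.choose = g := by
      have h3 : some (hp.choose, true) = some (g, true) := hp.choose_spec.symm.trans hx
      simpa using h3
    rw [h1]
    have h3 : ∀ g' (hg : g' = g) (hx' : c x = some (g', true)),
        (e g' ⟨x, hx'⟩ : S) = (e g ⟨x, hx⟩ : S) := by
      intro g' hg hx'
      subst hg
      rfl
    exact h3 _ h2 _
  have hκn : ∀ x g (hx : c x = some (g, false)), κ x = ((e g).symm ⟨x, hx⟩ : S) := by
    intro x g hx
    have hp : ¬ ∃ g, c x = some (g, true) := by
      rintro ⟨g', hg'⟩
      rw [hx] at hg'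
      simp at hg'
    have hn : ∃ g, c x = some (g, false) := ⟨g, hx⟩
    have h1 : κ x = ((e hn.choose).symm ⟨x, hn.choose_spec⟩ : S) := by
      change (if hp : ∃ g, c x = some (g, true) then (e hp.choose ⟨x, hp.choose_spec⟩ : S)
        else if hn : ∃ g, c x = some (g, false) then ((e hn.choose).symm ⟨x, hn.choose_spec⟩ : S)
        else x) = _
      rw [dif_neg hp, dif_pos hn]
    have h2 : hn.choose = g := by
      have h3 : some (hn.choose, false) = some (g, false) := hn.choose_spec.symm.trans hx
      simpa using h3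
    rw [h1]
    have h3 : ∀ g' (hg : g' = g) (hx' : c x = some (g', false)),
        ((e g').symm ⟨x, hx'⟩ : S) = ((e g).symm ⟨x, hx⟩ : S) := by
      intro g' hg hx'
      subst hg
      rfl
    exact h3 _ h2 _
  have hκ0 : ∀ x, c x = none → κ x = x := by
    intro x hx
    have hp : ¬ ∃ g, c x = some (g, true) := by rw [hx]; simp
    have hn : ¬ ∃ g, c x = some (g, false) := by rw [hx]; simp
    change (if hp : ∃ g, c x = some (g, true) then (e hp.choose ⟨x, hp.choose_spec⟩ : S)
        else if hn : ∃ g, c x = some (g, false) then ((e hn.choose).symm ⟨x, hn.choose_spec⟩ : S)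
        else x) = _
    rw [dif_neg hp, dif_neg hn]
  refine ⟨κ, ?_, ?_, hκ0⟩
  · intro x
    rcases hc : c x with _ | ⟨g, s⟩
    · rw [hκ0 x hc, hκ0 x hc]
    · cases s
      · rw [hκn x g hc, hκp _ g ((e g).symm ⟨x, hc⟩).2]
        simp
      · rw [hκp x g hc, hκn _ g (e g ⟨x, hc⟩).2]
        simp
  · intro x
    rcases hc : c x with _ | ⟨g, s⟩
    · rw [hκ0 x hc, hc]
      rfl
    · cases s
      · rw [hκn x g hc, ((e g).symm ⟨x, hc⟩).2]
        rfl
      · rw [hκp x g hc, (e g ⟨x, hc⟩).2]
        rfl

end Pool.Agent.Ped8316
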