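import Mathlib
import Pool.Agent.Lib.Ped8316.GrpDefs
import Pool.Agent.Lib.Ped8316.Pairing

/-!
# In every group the signed letter counts at the base level vanish
-/

set_option autoImplicit false
set_option linter.unusedSectionVars false

open Topology Filter Set

namespace Pool.Agent.Ped8316

lemma Branch.act {T : ℕ → Bool} {β : ℕ → ℕ} (h : Branch T β) (k : ℕ) : act T (β k) = true := by
  induction k with
  | zero => rw [h.1]; exact act_zero T
  | succ k ih =>
    have h1 := (h.2 k).1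
    rw [act_of_ne T (by omega), (h.2 k).2.1, (h.2 k).2.2, ih]
    rfl

lemma Branch.lt {T : ℕ → Bool} {β : ℕ → ℕ} (h : Branch T β) (k : ℕ) : β k < β (k + 1) := by
  have h1 := par_lt (h.2 k).1
  rwa [(h.2 k).2.1] at h1

lemma Branch.mono {T : ℕ → Bool} {β : ℕ → ℕ} (h : Branch T β) : StrictMono β :=
  strictMono_nat_of_lt_succ h.lt

lemma Jb_lt {T : ℕ → Bool} {β : ℕ → ℕ} (h : Branch T β) (k : ℕ) : Jb β k < Jb β (k + 1) := by
  have h1 := h.lt (k + 1)
  have h2 := (h.2 k).1
  unfold Jb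
  omega

/-- sum over the rows on the branch -/
lemma sum_onB {T : ℕ → Bool} {β : ℕ → ℕ} (h : Branch T β) (k i : ℕ) (hi : β k ≤ i)
    (f : ℕ → ℤ) [DecidablePred (onB β k)] :
    ∑ r ∈ Finset.range (i + 1), (if onB β k r then f r else 0) =
      ∑ n ∈ Finset.Icc 1 k, f (β n) := by
  rw [← Finset.sum_filter]
  have hS : Finset.filter (onB β k) (Finset.range (i + 1)) = (Finset.Icc 1 k).image β := by
    ext r
    simp only [Finset.mem_filter, Finset.mem_range, Finset.mem_image, Finset.mem_Icc]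
    constructor
    · rintro ⟨_, n, h1, h2, h3⟩
      exact ⟨n, ⟨h1, h2⟩, h3.symm⟩
    · rintro ⟨n, ⟨h1, h2⟩, h3⟩
      refine ⟨?_, n, h1, h2, h3.symm⟩
      have := h.mono.monotone h2
      omega
  rw [hS, Finset.sum_image]
  intro a _ b _ hab
  exact h.mono.injective hab

lemma onB_pos {T : ℕ → Bool} {β : ℕ → ℕ} (h : Branch T β) {k r : ℕ} (hr : onB β k r) :
    r ≠ 0 := by
  obtain ⟨n, h1, _, h3⟩ := hr
  have := h.mono (show 0 < n by omega)
  omega

section
open scoped Classical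

/-- the contribution of the blocks of the group at the level `i` -/
noncomputable def GC (β : ℕ → ℕ) (k i : ℕ) (v : Ltr → ℤ) : ℤ :=
  ∑ r ∈ Finset.range (i + 1), ∑ s : Bool,
      (if inGB β k i r s then val v (some (blkLetter r s)) else 0)

lemma val_blk_zero (v : Ltr → ℤ) : val v (some (blkLetter 0 true)) = v (.l 0) := by
  simp [blkLetter, val]

lemma val_blk_pos (v : Ltr → ℤ) {r : ℕ} (hr : r ≠ 0) (s : Bool) :
    val v (some (blkLetter r s)) = if s then v (.c r) else -v (.c r) := by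
  simp [blkLetter, val, hr]

lemma GC_mid {β : ℕ → ℕ} {k i : ℕ} (h1 : Jb β k < i) (h2 : i < Jb β (k + 1)) (v : Ltr → ℤ) :
    GC β k i v = v (.l 0) := by
  unfold GC
  rw [Finset.sum_eq_single 0]
  · have ht : inGB β k i 0 true := ⟨Nat.zero_le _, fun _ => rfl, Or.inl ⟨h1, h2⟩⟩
    have hf : ¬ inGB β k i 0 false := fun h => by
      have := h.2.1 rfl
      simp at this
    rw [Fintype.sum_bool, if_pos ht, if_neg hf, val_blk_zero, add_zero]
  · intro r hr hr0
    have hr' : r ≤ i := by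
      have := Finset.mem_range.1 hr
      omega
    have ht : ∀ s, inGB β k i r s := fun s => ⟨hr', fun h => absurd h hr0, Or.inl ⟨h1, h2⟩⟩
    rw [Fintype.sum_bool, if_pos (ht _), if_pos (ht _), val_blk_pos v hr0, val_blk_pos v hr0]
    simp
  · intro h
    exact absurd (Finset.mem_range.2 (Nat.succ_pos i)) h

lemma GC_low {T : ℕ → Bool} {β : ℕ → ℕ} (h : Branch T β) (k : ℕ) (v : Ltr → ℤ) :
    GC β k (Jb β k) v = v (.l 0) - ∑ n ∈ Finset.Icc 1 k, v (.c (β n)) := by
  have hJ := Jb_lt h k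
  have hk : β k ≤ Jb β k := by
    have := h.lt k
    unfold Jb
    omega
  unfold GC
  rw [← sum_onB h k (Jb β k) hk (fun r => v (.c r)), Finset.sum_range_succ',
    Finset.sum_range_succ' (fun r => if onB β k r then v (.c r) else 0)]
  have h0 : ¬ onB β k 0 := fun h' => onB_pos h h' rfl
  have ht : inGB β k (Jb β k) 0 true :=
    ⟨Nat.zero_le _, fun _ => rfl, Or.inr (Or.inl ⟨rfl, fun h' => h0 h'.2⟩)⟩
  have hf : ¬ inGB β k (Jb β k) 0 false := fun h => by
    have := h.2.1 rfl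
    simp at this
  rw [Fintype.sum_bool, if_pos ht, if_neg hf, val_blk_zero, add_zero, if_neg h0, add_zero]
  have key : ∀ r ∈ Finset.range (Jb β k),
      (∑ s : Bool, (if inGB β k (Jb β k) (r + 1) s then val v (some (blkLetter (r + 1) s)) else 0))
        = - (if onB β k (r + 1) then v (.c (r + 1)) else 0) := by
    intro r hr
    have hr' : r + 1 ≤ Jb β k := by
      have := Finset.mem_range.1 hr
      omega
    have hf : inGB β k (Jb β k) (r + 1) false :=
      ⟨hr', fun h => absurd h (Nat.succ_ne_zero r), Or.inr (Or.inl ⟨rfl, fun h' => by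
        have := h'.1
        simp at this⟩)⟩
    have hr0 : r + 1 ≠ 0 := Nat.succ_ne_zero r
    rw [Fintype.sum_bool, if_pos hf, val_blk_pos v hr0, val_blk_pos v hr0]
    by_cases hB : onB β k (r + 1)
    · have ht : ¬ inGB β k (Jb β k) (r + 1) true := by
        rintro ⟨_, _, h3 | h3 | h3⟩
        · omega
        · exact h3.2 ⟨rfl, hB⟩
        · omega
      rw [if_neg ht, if_pos hB]
      simp
    · have ht : inGB β k (Jb β k) (r + 1) true :=
        ⟨hr', fun h => absurd h (Nat.succ_ne_zero r), Or.inr (Or.inl ⟨rfl, fun h' => hB h'.2⟩)⟩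
      rw [if_pos ht, if_neg hB]
      simp
  rw [Finset.sum_congr rfl key, Finset.sum_neg_distrib]
  ring

lemma GC_high {T : ℕ → Bool} {β : ℕ → ℕ} (h : Branch T β) (k : ℕ) (v : Ltr → ℤ) :
    GC β k (Jb β (k + 1)) v = ∑ n ∈ Finset.Icc 1 (k + 1), v (.c (β n)) := by
  have hJ := Jb_lt h k
  have hk : β (k + 1) ≤ Jb β (k + 1) := by
    have := h.lt (k + 1)
    unfold Jb
    omega
  unfold GC
  rw [← sum_onB h (k + 1) (Jb β (k + 1)) hk (fun r => v (.c r))]
  apply Finset.sum_congr rfl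
  intro r hr
  have hr' : r ≤ Jb β (k + 1) := by
    have := Finset.mem_range.1 hr
    omega
  have hf : ¬ inGB β k (Jb β (k + 1)) r false := by
    rintro ⟨_, _, h3 | h3 | h3⟩
    · omega
    · omega
    · have := h3.2.1
      simp at this
  rw [Fintype.sum_bool, if_neg hf, add_zero]
  by_cases hB : onB β (k + 1) r
  · have ht : inGB β k (Jb β (k + 1)) r true :=
      ⟨hr', fun _ => rfl, Or.inr (Or.inr ⟨rfl, rfl, hB⟩)⟩
    rw [if_pos ht, if_pos hB, val_blk_pos v (onB_pos h hB)]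
    simp
  · have ht : ¬ inGB β k (Jb β (k + 1)) r true := by
      rintro ⟨_, _, h3 | h3 | h3⟩
      · omega
      · omega
      · exact hB h3.2.2
    rw [if_neg ht, if_neg hB]

/-- the telescoping quantity -/
noncomputable def FF (β : ℕ → ℕ) (k i : ℕ) (v : Ltr → ℤ) : ℤ :=
  ∑ n ∈ Finset.Icc 1 k, v (.c (β n)) + if Jb β k < i then v (.c (β (k + 1))) else 0

lemma TTn_lk {T : ℕ → Bool} {β : ℕ → ℕ} (h : Branch T β) (k d : ℕ) (w : Ltr → ℤ) :
    TTn T (Jb β k) (d + 1) w (.l (β (k + 1))) = 0 := by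
  have hb := (h.2 k).1
  induction d with
  | zero =>
    rw [TTn_succ, TT_l, if_neg]
    rintro ⟨_, h2⟩
    unfold Jb at h2
    omega
  | succ d ih =>
    rw [TTn_succ, TT_l, ih]
    simp

lemma sum_tele (k : ℕ) (f g : ℕ → ℤ) :
    ∑ n ∈ Finset.Icc 1 k, (- g (n - 1) + (f n + g n)) =
      ∑ n ∈ Finset.Icc 1 k, f n - g 0 + g k := by
  induction k with
  | zero => simp
  | succ k ih =>
    rw [Finset.sum_Icc_succ_top (by omega), Finset.sum_Icc_succ_top (by omega), ih,
      Nat.add_sub_cancel]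
    ring

lemma FF_succ {T : ℕ → Bool} {β : ℕ → ℕ} (h : Branch T β) (k d : ℕ) (w : Ltr → ℤ) :
    FF β k (Jb β k + (d + 1)) (TTn T (Jb β k) (d + 1) w) =
      FF β k (Jb β k + d) (TTn T (Jb β k) d w) - TTn T (Jb β k) d w (.l 0) := by
  have hb := (h.2 k).1
  unfold FF
  have h1 : ∀ n ∈ Finset.Icc 1 k, TTn T (Jb β k) (d + 1) w (.c (β n)) =
      - TTn T (Jb β k) d w (.l (β (n - 1))) + (TTn T (Jb β k) d w (.c (β n)) +
        TTn T (Jb β k) d w (.l (β n))) := by
    intro n hn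
    obtain ⟨hn1, hn2⟩ := Finset.mem_Icc.1 hn
    obtain ⟨m, rfl⟩ : ∃ m, n = m + 1 := ⟨n - 1, by omega⟩
    have hm : β (m + 1) ≤ Jb β k := by
      have h2 := h.mono.monotone hn2
      have h3 := h.lt k
      unfold Jb
      omega
    rw [TTn_succ, TT_c, if_pos ⟨h.act _, (h.2 m).1, by omega⟩, if_pos (by omega), (h.2 m).2.1,
      Nat.add_sub_cancel]
  rw [Finset.sum_congr rfl h1, sum_tele k (fun n => TTn T (Jb β k) d w (.c (β n)))
    (fun n => TTn T (Jb β k) d w (.l (β n))), h.1, if_pos (by omega), TTn_succ, TT_c,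
    if_pos ⟨h.act _, hb, by unfold Jb; omega⟩, (h.2 k).2.1]
  rcases Nat.eq_zero_or_pos d with rfl | hd
  · rw [if_neg (by unfold Jb; omega), if_neg (by omega)]
    ring
  · obtain ⟨d', rfl⟩ : ∃ d', d = d' + 1 := ⟨d - 1, by omega⟩
    rw [if_pos (by unfold Jb; omega), if_pos (by omega), TTn_lk h k d' w]
    ring

lemma FF_sum {T : ℕ → Bool} {β : ℕ → ℕ} (h : Branch T β) (k d : ℕ) (w : Ltr → ℤ) :
    FF β k (Jb β k + d) (TTn T (Jb β k) d w) + ∑ e ∈ Finset.range d, TTn T (Jb β k) e w (.l 0) =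
      FF β k (Jb β k) w := by
  induction d with
  | zero => simp [TTn]
  | succ d ih =>
    rw [FF_succ h k d w, Finset.sum_range_succ, ← ih]
    ring

/-- Vanishing of the flux. (Put `J = Jb β k = β (k+1) - 1`, `w i = TTn T J (i - J) w` for `i ≥ J`, so
`w (i+1) = TT T i (w i)` by `TTn_succ`. Blocks `(r, true), (r, false)`, `r ≥ 1`, at the same level
cancel. The blocks `(0, true)` at the levels `J ≤ i < J' = Jb β (k+1)` contribute
`Σ_i w i (l 0)`, the level `J` contributes in addition `-Σ_{1≤n≤k} w J (c (β n))`, the level `J'`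
contributes `Σ_{1≤n≤k+1} w J' (c (β n))`. By `TT_c`, for `i ≥ J` and `1 ≤ n ≤ k` (then `β n ≤ i`)
`w (i+1) (c (β n)) = w i (c (β n)) - w i (l (β (n-1))) + w i (l (β n))`; for `n = k+1`, `β n = J + 1`:
`w (J+1) (c (β n)) = - w J (l (β k))`, `w (J+1) (l (β n)) = 0` and then
`w (i+1) (l (β n)) = K i * w i (l (β n)) = 0`, `w (i+1) (c (β n)) = w i (c (β n)) - w i (l (β k)) + 0`
for `i ≥ J + 1`. So `F i = Σ_{1≤n≤k} w i (c (β n)) + [i ≥ J+1] w i (c (β (k+1)))` telescopes:
`F (i+1) = F i - w i (l 0)`.) -/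
theorem flux_zero {T : ℕ → Bool} {β : ℕ → ℕ} (h : Branch T β) (k : ℕ) (w : Ltr → ℤ) :
    ∑ i ∈ Finset.Icc (Jb β k) (Jb β (k + 1)), ∑ r ∈ Finset.range (i + 1), ∑ s : Bool,
      (if inGB β k i r s then val (TTn T (Jb β k) (i - Jb β k) w) (some (blkLetter r s)) else 0)
      = 0 := by
  have hJ := Jb_lt h k
  obtain ⟨D, hD⟩ : ∃ D, Jb β (k + 1) = Jb β k + (D + 1) := ⟨Jb β (k + 1) - Jb β k - 1, by omega⟩
  change ∑ i ∈ Finset.Icc (Jb β k) (Jb β (k + 1)),
    GC β k i (TTn T (Jb β k) (i - Jb β k) w) = 0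
  rw [← Finset.Ico_succ_right_eq_Icc, Finset.sum_Ico_eq_sum_range]
  have e1 : Order.succ (Jb β (k + 1)) - Jb β k = D + 1 + 1 := by
    rw [Order.succ_eq_add_one, hD]
    omega
  rw [e1, Finset.sum_range_succ, Finset.sum_range_succ']
  have e2 : Jb β k + (D + 1) - Jb β k = D + 1 := by omega
  rw [add_zero, Nat.sub_self, e2]
  have e3 : GC β k (Jb β k + (D + 1)) (TTn T (Jb β k) (D + 1) w) =
      ∑ n ∈ Finset.Icc 1 (k + 1), TTn T (Jb β k) (D + 1) w (.c (β n)) := by
    rw [← hD]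
    exact GC_high h k _
  rw [e3, GC_low h k]
  have e4 : ∀ d ∈ Finset.range D, GC β k (Jb β k + (d + 1))
      (TTn T (Jb β k) (Jb β k + (d + 1) - Jb β k) w) = TTn T (Jb β k) (d + 1) w (.l 0) := by
    intro d hd
    have hd' := Finset.mem_range.1 hd
    rw [Nat.add_sub_cancel_left]
    exact GC_mid (by omega) (by omega) _
  rw [Finset.sum_congr rfl e4]
  have e5 := FF_sum h k (D + 1) w
  rw [Finset.sum_range_succ'] at e5
  unfold FF at e5
  rw [if_pos (by omega), if_neg (by omega)] at e5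
  rw [Finset.sum_Icc_succ_top (by omega)]
  have e6 : TTn T (Jb β k) 0 w = w := rfl
  rw [e6] at e5 ⊢
  linarith

end

/-- the slots as a finset -/
noncomputable def slotFin (β : ℕ → ℕ) (k : ℕ) : Finset ((ℕ × ℕ × Bool) × ℕ) := by
  classical
  exact Finset.filter (fun p => inGB β k p.1.1 p.1.2.1 p.1.2.2 ∧
    p.2 < PK (Jb β k) (p.1.1 - Jb β k))
    ((Finset.Icc (Jb β k) (Jb β (k + 1)) ×ˢ (Finset.range (Jb β (k + 1) + 1) ×ˢ Finset.univ)) ×ˢ
      Finset.range (∑ i ∈ Finset.Icc (Jb β k) (Jb β (k + 1)), PK (Jb β k) (i - Jb β k)))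

lemma inGB_Icc {β : ℕ → ℕ} {k i r : ℕ} {s : Bool} (hJ : Jb β k ≤ Jb β (k + 1))
    (h : inGB β k i r s) : i ∈ Finset.Icc (Jb β k) (Jb β (k + 1)) := by
  rw [Finset.mem_Icc]
  rcases h.2.2 with h | h | h
  · omega
  · have := h.1
    omega
  · have := h.1
    omega

lemma mem_slotFin {β : ℕ → ℕ} {k : ℕ} (hJ : Jb β k ≤ Jb β (k + 1)) (p : (ℕ × ℕ × Bool) × ℕ) :
    p ∈ slotFin β k ↔ inGB β k p.1.1 p.1.2.1 p.1.2.2 ∧
      p.2 < PK (Jb β k) (p.1.1 - Jb β k) := by
  classical
  unfold slotFin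
  rw [Finset.mem_filter]
  constructor
  · exact fun h => h.2
  · intro h
    have h1 := inGB_Icc hJ h.1
    refine ⟨?_, h⟩
    rw [Finset.mem_product, Finset.mem_product, Finset.mem_product]
    refine ⟨⟨h1, ?_, Finset.mem_univ _⟩, ?_⟩
    · have h2 := h.1.1
      have h3 := (Finset.mem_Icc.1 h1).2
      exact Finset.mem_range.2 (by omega)
    · rw [Finset.mem_range]
      exact h.2.trans_le (Finset.single_le_sum (f := fun i => PK (Jb β k) (i - Jb β k))
        (fun _ _ => Nat.zero_le _) h1)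

lemma finite_slot (β : ℕ → ℕ) (k : ℕ) : Finite (Slot β k) := by
  classical
  unfold Slot
  refine Set.Finite.to_subtype (Set.Finite.subset
    (Set.Finite.prod (Set.Finite.prod (Set.finite_Iic (Jb β k + Jb β (k + 1)))
      (Set.Finite.prod (Set.finite_Iic (Jb β k + Jb β (k + 1))) (Set.finite_univ (α := Bool))))
      (Set.finite_Iio (∑ i ∈ Finset.range (Jb β k + Jb β (k + 1) + 1),
        PK (Jb β k) (i - Jb β k)))) ?_)
  rintro ⟨⟨i, r, s⟩, t⟩ ⟨h1, h2⟩
  simp only at h1 h2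
  have hi : i ≤ Jb β k + Jb β (k + 1) := by
    rcases h1.2.2 with h | h | h
    · omega
    · have := h.1
      omega
    · have := h.1
      omega
  have hr : r ≤ i := h1.1
  refine ⟨⟨hi, hr.trans hi, Set.mem_univ _⟩, ?_⟩
  exact h2.trans_le (Finset.single_le_sum (f := fun i => PK (Jb β k) (i - Jb β k))
        (fun _ _ => Nat.zero_le _) (Finset.mem_range.2 (by omega)))

noncomputable instance (β : ℕ → ℕ) (k : ℕ) : Fintype (Slot β k) :=
  @Fintype.ofFinite _ (finite_slot β k)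

lemma sgn_eq_val (g : Ltr) (x : Option SL) : sgn g x = val (fun g' => if g' = g then 1 else 0) x := by
  rcases x with _ | ⟨h, s⟩
  · rfl
  · cases s
    · simp only [sgn, val]
      split_ifs <;> simp
    · simp only [sgn, val]
      split_ifs <;> simp

/-- `flux_zero` and `sum_val_W` -/
theorem slot_sum {T : ℕ → Bool} {β : ℕ → ℕ} (h : Branch T β) (k : ℕ) (g : Ltr) :
    ∑ p : Slot β k, sgn g (p.c T) = 0 := by
  classical
  have hJ := Jb_lt h k
  have h1 : ∑ p : Slot β k, sgn g (p.c T) = ∑ p ∈ slotFin β k,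
      sgn g (W T (Jb β k) (p.1.1 - Jb β k) (some (blkLetter p.1.2.1 p.1.2.2)) p.2) := by
    rw [Finset.sum_subtype (slotFin β k) (fun p => mem_slotFin hJ.le p)]
    rfl
  rw [h1]
  unfold slotFin
  rw [Finset.sum_filter, Finset.sum_product, Finset.sum_product]
  refine Eq.trans ?_ (flux_zero h k (fun g' => if g' = g then 1 else 0))
  apply Finset.sum_congr rfl
  intro i hi
  rw [Finset.sum_product]
  symm
  have hi2 := (Finset.mem_Icc.1 hi).2
  have hsub : Finset.range (i + 1) ⊆ Finset.range (Jb β (k + 1) + 1) :=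
    Finset.range_mono (by omega)
  rw [Finset.sum_subset hsub]
  · apply Finset.sum_congr rfl
    intro r _
    apply Finset.sum_congr rfl
    intro s _
    by_cases hB : inGB β k i r s
    · rw [if_pos hB, ← sum_val_W]
      have hle : PK (Jb β k) (i - Jb β k) ≤
          ∑ i ∈ Finset.Icc (Jb β k) (Jb β (k + 1)), PK (Jb β k) (i - Jb β k) :=
        Finset.single_le_sum (f := fun i => PK (Jb β k) (i - Jb β k))
          (fun _ _ => Nat.zero_le _) hi
      rw [← Finset.sum_subset (Finset.range_mono hle)]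
      · apply Finset.sum_congr rfl
        intro t ht
        have ht' := Finset.mem_range.1 ht
        simp only
        rw [if_pos ⟨hB, ht'⟩, sgn_eq_val]
      · intro t _ ht
        apply if_neg
        intro hh
        exact ht (Finset.mem_range.2 hh.2)
    · rw [if_neg hB]
      symm
      apply Finset.sum_eq_zero
      intro t _
      apply if_neg
      intro hh
      exact hB hh.1
  · intro r _ hr
    apply Finset.sum_eq_zero
    intro s _
    apply if_neg
    intro hB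
    exact hr (Finset.mem_range.2 (Nat.lt_succ_of_le hB.1))

/-- the pairing of the slots of a group -/
theorem exists_kappa {T : ℕ → Bool} {β : ℕ → ℕ} (h : Branch T β) (k : ℕ) :
    ∃ κ : Slot β k → Slot β k, (∀ p, κ (κ p) = p) ∧ (∀ p, (κ p).c T = inv (p.c T)) := by
  obtain ⟨κ, h1, h2, _⟩ := exists_pairing (fun p : Slot β k => p.c T) (slot_sum h k)
  exact ⟨κ, h1, h2⟩

end Pool.Agent.Ped8316
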