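import Mathlib
import Pool.Agent.Lib.Ped8316.CellLab
import Pool.Agent.Lib.Ped8316.Flux
import Pool.Agent.Lib.Ped8316.Exch
import Pool.Agent.Lib.Ped8316.AshCrit

/-!
# The algebra of an ill-founded tree is ASH
-/

set_option autoImplicit false
set_option linter.unusedSectionVars false

open Topology Filter Set
open scoped InnerProductSpace ComplexConjugate

namespace Pool.Agent.Ped8316

variable {T : ℕ → Bool} {β : ℕ → ℕ}

/-- functions on the positions which are small far out in the groups -/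
lemma near_finite (h : Branch T β) {j : ℕ} {C : ℝ} (F : Pos → ℝ)
    (hF : ∀ (x : Pos) (k : ℕ), inGB β k x.i x.r x.s → j ≤ Jb β k →
      F x ≤ C / (Dn j (Jb β k - j) : ℝ)) {ε : ℝ} (hε : 0 < ε) : {x | ε < F x}.Finite := by
  refine (grp_finite h (j + ⌈|C| / ε⌉₊ + 1)).subset ?_
  intro x hx
  have hx' : ε < F x := hx
  show grp β x ≤ _
  by_cases hg : grp β x = 0
  · omega
  · have hin := mem_of_grp h hg
    set k := gk β x with hk
    have hgk : grp β x = k + 1 := (grp_eq h).2 hin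
    rw [hgk]
    have h4 := le_Jb h k
    by_cases hj : j ≤ Jb β k
    · have h1 := hx'.trans_le (hF x k hin hj)
      have h2 : (0 : ℝ) < (Dn j (Jb β k - j) : ℝ) := by
        unfold Dn
        have := Q_pos j
        positivity
      have h3 : ((Jb β k - j : ℕ) : ℝ) ≤ (Dn j (Jb β k - j) : ℝ) := by
        have h5 : Jb β k - j ≤ Dn j (Jb β k - j) := by
          unfold Dn
          have h6 := Q_pos j
          have h7 : Jb β k - j < 2 ^ (Jb β k - j) := Nat.lt_two_pow_self
          nlinarith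
        exact_mod_cast h5
      rw [lt_div_iff₀ h2] at h1
      have h5 : ((Jb β k - j : ℕ) : ℝ) ≤ |C| / ε := by
        rw [le_div_iff₀ hε]
        have := le_abs_self C
        nlinarith
      have h6 : Jb β k - j ≤ ⌈|C| / ε⌉₊ := by
        have := h5.trans (Nat.le_ceil _)
        exact_mod_cast this
      omega
    · omega

/-- the circle valued labels of the cells -/
noncomputable def cz (T : ℕ → Bool) (β : ℕ → ℕ) (j : ℕ) (g : Ltr) (x : Pos) : Circle :=
  AddCircle.toCircle (cellLab T β j g (cellOf T β x))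

lemma cz_near (h : Branch T β) {j k : ℕ} (g : Ltr) {x : Pos}
    (hx : inGB β k x.i x.r x.s) (hj : j ≤ Jb β k) :
    ‖(cz T β j g x : ℂ) - zf T j g x‖ ≤ 2 * Real.pi / (Dn j (Jb β k - j) : ℝ) := by
  refine (norm_toCircle_sub _ _).trans ?_
  have h1 := cellLab_near h g hx hj
  have hpi := Real.pi_pos
  calc 2 * Real.pi * ‖cellLab T β j g (cellOf T β x) - lab T j g x‖ ≤
      2 * Real.pi * (1 / (Dn j (Jb β k - j) : ℝ)) := by gcongr
    _ = _ := by ring

variable {H : Type} [NormedAddCommGroup H] [InnerProductSpace ℂ H] [CompleteSpace H]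

instance isClosed_AT (e : HilbertBasis Pos ℂ H) (T : ℕ → Bool) :
    IsClosed (AT e T : Set (Bd H)) :=
  NonUnitalStarSubalgebra.isClosed_topologicalClosure _

lemma gens_subset (e : HilbertBasis Pos ℂ H) (T : ℕ → Bool) {s : Bd H} (hs : s ∈ gens e T) :
    s ∈ AT e T :=
  NonUnitalStarSubalgebra.le_topologicalClosure _ (NonUnitalStarAlgebra.subset_adjoin ℂ _ hs)

lemma mu_mem (e : HilbertBasis Pos ℂ H) (T : ℕ → Bool) (x y : Pos) : mu e x y ∈ AT e T :=
  gens_subset e T (Or.inl (Or.inr ⟨(x, y), rfl⟩))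

lemma shift_mem (e : HilbertBasis Pos ℂ H) (T : ℕ → Bool) : perm e shift ∈ AT e T :=
  gens_subset e T (Or.inl (Or.inl rfl))

lemma zf_mem (e : HilbertBasis Pos ℂ H) (T : ℕ → Bool) (j : ℕ) (g : Ltr) :
    ((udiag e (zf T j g) : unitary (Bd H)) : Bd H) ∈ AT e T :=
  gens_subset e T (Or.inr ⟨(j, g), rfl⟩)

lemma kp_mem (e : HilbertBasis Pos ℂ H) (T : ℕ → Bool) {c : Bd H} (hc : IsKp c) : c ∈ AT e T :=
  hc.mem_of_mu e (AT e T).toNonUnitalSubalgebra.toSubmodule (isClosed_AT e T) (mu_mem e T)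

/-- the commuting operators before the exchange -/
def ComOp (e : HilbertBasis Pos ℂ H) (ρ : Equiv.Perm Pos) (X : Bd H) : Prop :=
  X = perm e ρ ∨ X = perm e ρ⁻¹ ∨ ∃ ψ : Pos → ℂ, Bdd ψ ∧ (∀ x, ψ (ρ x) = ψ x) ∧ X = diag e ψ

lemma commute_perm_diag (e : HilbertBasis Pos ℂ H) {ρ : Equiv.Perm Pos} {ψ : Pos → ℂ}
    (hb : Bdd ψ) (hψ : ∀ x, ψ (ρ x) = ψ x) : Commute (perm e ρ) (diag e ψ) := by
  show perm e ρ * diag e ψ = diag e ψ * perm e ρ
  rw [perm_diag e ρ hb]
  congr 2
  funext x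
  rw [← hψ (ρ⁻¹ x)]
  simp

lemma ComOp.commute {e : HilbertBasis Pos ℂ H} {ρ : Equiv.Perm Pos} {X X' : Bd H}
    (h : ComOp e ρ X) (h' : ComOp e ρ X') : Commute X X' := by
  have hinv : ∀ {ψ : Pos → ℂ}, (∀ x, ψ (ρ x) = ψ x) → ∀ x, ψ (ρ⁻¹ x) = ψ x := by
    intro ψ hψ x
    rw [← hψ (ρ⁻¹ x)]
    simp
  have hpp : Commute (perm e ρ) (perm e ρ⁻¹) := by
    show perm e ρ * perm e ρ⁻¹ = perm e ρ⁻¹ * perm e ρ
    rw [perm_mul, perm_mul, mul_inv_cancel, inv_mul_cancel]
  rcases h with rfl | rfl | ⟨ψ, hb, hψ, rfl⟩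
  · rcases h' with rfl | rfl | ⟨ψ', hb', hψ', rfl⟩
    · exact Commute.refl _
    · exact hpp
    · exact commute_perm_diag e hb' hψ'
  · rcases h' with rfl | rfl | ⟨ψ', hb', hψ', rfl⟩
    · exact hpp.symm
    · exact Commute.refl _
    · exact commute_perm_diag e hb' (hinv hψ')
  · rcases h' with rfl | rfl | ⟨ψ', hb', hψ', rfl⟩
    · exact (commute_perm_diag e hb hψ).symm
    · exact (commute_perm_diag e hb (hinv hψ)).symm
    · exact diag_commute e hb hb'

lemma ComOp.star {e : HilbertBasis Pos ℂ H} {ρ : Equiv.Perm Pos} {X : Bd H}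
    (h : ComOp e ρ X) : ComOp e ρ (Star.star X) := by
  rcases h with rfl | rfl | ⟨ψ, hb, hψ, rfl⟩
  · exact Or.inr (Or.inl (perm_star e ρ))
  · refine Or.inl ?_
    rw [perm_star, inv_inv]
  · exact Or.inr (Or.inr ⟨_, hb.conj, fun x => by rw [hψ], diag_star e hb⟩)

lemma commute_conj {Y X X' : Bd H} (hY : Y ∈ unitary (Bd H)) (h : Commute X X') :
    Commute (Y * X * star Y) (Y * X' * star Y) := by
  have h1 : star Y * Y = 1 := Unitary.star_mul_self_of_mem hY
  have h2 : X * X' = X' * X := h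
  show Y * X * star Y * (Y * X' * star Y) = Y * X' * star Y * (Y * X * star Y)
  calc Y * X * star Y * (Y * X' * star Y) = Y * X * (star Y * Y) * X' * star Y := by
        simp only [mul_assoc]
    _ = Y * (X * X') * star Y := by rw [h1]; simp only [mul_assoc, mul_one, one_mul]
    _ = Y * (X' * X) * star Y := by rw [h2]
    _ = Y * X' * (star Y * Y) * X * star Y := by rw [h1]; simp only [mul_assoc, mul_one, one_mul]
    _ = _ := by simp only [mul_assoc]

/-- The algebra of an ill-founded tree is ASH. -/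
theorem isASH_of_illFounded (e : HilbertBasis Pos ℂ H) (hT : IllFounded T) : IsASH (AT e T) := by
  obtain ⟨β, hβ0, hβ⟩ := hT
  have h : Branch T β := ⟨hβ0, hβ⟩
  choose κ hκ1 hκ using exists_kappa h
  have hbd : ∀ k, (fun k => Jb β k + 1 : ℕ → ℕ) k ≤ Jb β k + 1 := fun _ => le_rfl
  have hbd0 : ∀ k, (fun _ => 0 : ℕ → ℕ) k ≤ Jb β k + 1 := fun _ => Nat.zero_le _
  set σ : Equiv.Perm Pos := swpE h hbd hκ1 hκ with hσdef
  set τ : Equiv.Perm Pos := swpE h hbd0 hκ1 hκ with hτdef
  have hσx : ∀ x, σ x = swp h κ (fun k => Jb β k + 1) hbd x := fun _ => rfl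
  have hτx : ∀ x, τ x = swp h κ (fun _ => 0) hbd0 x := fun _ => rfl
  have hσσ : ∀ x, σ (σ x) = x := swp_swp h hbd hκ1 hκ
  have haσ : ∀ x, ramp T β (σ x) = ramp T β x := ramp_swp h hκ hbd
  have ha : ∀ x, ‖2 * ramp T β x - 1‖ = 1 := norm_ramp
  have hbdd : Bdd (ramp T β) := bdd_of_norm_two_mul_sub_one ha
  set Y := exch e (ramp T β) σ with hYdef
  have hY : Y ∈ unitary (Bd H) := exch_unitary e hσσ haσ ha
  have hYY : Y * star Y = 1 := Unitary.mul_star_self_of_mem hY
  set ρ : Equiv.Perm Pos := shift * τ with hρdef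
  have hρx : ∀ x, ρ x = shift (swp h κ (fun _ => 0) hbd0 x) := fun _ => rfl
  have K1 : IsKp (perm e shift * Y - Y * perm e ρ) := by
    refine exch_perm e hσσ haσ ha (fun x => ?_) (fun ε hε => ramp_finite h hκ hbd hbd0 hε)
    rcases ramp_cases h hκ hbd hbd0 x with ⟨c1, c2, -⟩ | ⟨c1, c2, c3, -⟩ | ⟨c1, c2, c3⟩
    · exact Or.inl ⟨c1, c2⟩
    · exact Or.inr (Or.inl ⟨c1, c2, c3⟩)
    · exact Or.inr (Or.inr ⟨c1, c2, c3⟩)
  have hcirc : ∀ (f : Pos → Circle), Bdd (fun x => (f x : ℂ)) := fun f =>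
    Bdd.of_norm_one (fun x => Circle.norm_coe _)
  have K2 : ∀ j g, IsKp (diag e (fun x => (zf T j g x : ℂ)) * Y -
      Y * diag e (fun x => (cz T β j g x : ℂ))) := by
    intro j g
    refine exch_diag e hbdd (hcirc _) (hcirc _) (fun ε hε => ?_) (fun ε hε => ?_)
    · refine near_finite h (j := j) (C := 2 * Real.pi)
        (fun x => ‖(zf T j g x : ℂ) - cz T β j g x‖) (fun x k hx hj => ?_) hε
      rw [norm_sub_rev]
      exact cz_near h g hx hj
    · refine near_finite h (j := j) (C := 4 * Real.pi)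
        (fun x => ‖(cz T β j g (σ x) : ℂ) - cz T β j g x‖) (fun x k hx hj => ?_) hε
      have hin : inGB β k (σ x).i (σ x).r (σ x).s := by
        refine (grp_eq h).1 ?_
        rw [hσx, swp_grp, (grp_eq h).2 hx]
      have h1 := cz_near h g hx hj
      have h2 := cz_near h g hin hj
      have h3 : zf T j g (σ x) = zf T j g x := by
        unfold zf
        congr 1
        rw [hσx]
        rcases swp_cases h hbd (κ := κ) x with ⟨k', hE, he, h4⟩ | ⟨h4, -⟩
        · have hkk : k' = k := inGB_unique h hE.1 hx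
          subst hkk
          rw [h4]
          exact lab_partner h hκ g hE _ hj
        · rw [h4]
      rw [h3] at h2
      have h4 : (cz T β j g (σ x) : ℂ) - cz T β j g x =
          ((cz T β j g (σ x) : ℂ) - zf T j g x) - ((cz T β j g x : ℂ) - zf T j g x) := by ring
      show ‖(cz T β j g (σ x) : ℂ) - cz T β j g x‖ ≤ _
      rw [h4]
      refine (norm_sub_le _ _).trans ?_
      have h5 : 4 * Real.pi / (Dn j (Jb β k - j) : ℝ) = 2 * Real.pi / (Dn j (Jb β k - j) : ℝ) +
          2 * Real.pi / (Dn j (Jb β k - j) : ℝ) := by ring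
      rw [h5]
      exact add_le_add h2 h1
  have conjKp : ∀ {S X : Bd H}, IsKp (S * Y - Y * X) → IsKp (S - Y * X * star Y) := by
    intro S X hSX
    have h1 : S - Y * X * star Y = (S * Y - Y * X) * star Y := by
      rw [sub_mul, mul_assoc S, hYY, mul_one]
    rw [h1]
    exact hSX.mul_right _
  have hczinv : ∀ j g x, (cz T β j g (ρ x) : ℂ) = cz T β j g x := by
    intro j g x
    unfold cz
    rw [hρx, cellOf_inv h hκ hbd0 x]
  have hgrpρ : ∀ x, grp β (ρ x) = grp β x := fun x => by rw [hρx, grp_shift, swp_grp]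
  have hgrpσ : ∀ x, grp β (σ x) = grp β x := fun x => by rw [hσx, swp_grp]
  set D : Set (Bd H) := {X | (∃ X₀, ComOp e ρ X₀ ∧ X = Y * X₀ * star Y) ∧ X ∈ AT e T} with hD
  have hmemD : ∀ {S X₀ : Bd H}, S ∈ AT e T → ComOp e ρ X₀ → IsKp (S * Y - Y * X₀) →
      Y * X₀ * star Y ∈ D := by
    intro S X₀ hS hX hK
    refine ⟨⟨X₀, hX, rfl⟩, ?_⟩
    have h1 : Y * X₀ * star Y = S - (S - Y * X₀ * star Y) := by abel
    rw [h1]
    exact sub_mem hS (kp_mem e T (conjKp hK))
  have hindb : ∀ n, Bdd (({x | grp β x = n} : Set Pos).indicator (fun _ => (1 : ℂ))) := fun n =>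
    ⟨1, fun x => by
      by_cases hx : x ∈ {x | grp β x = n}
      · rw [Set.indicator_of_mem hx, norm_one]
      · rw [Set.indicator_of_notMem hx, norm_zero]; exact zero_le_one⟩
  have hind : ∀ (μ : Equiv.Perm Pos), (∀ x, grp β (μ x) = grp β x) → ∀ n x,
      ({x | grp β x = n} : Set Pos).indicator (fun _ => (1 : ℂ)) (μ x) =
      ({x | grp β x = n} : Set Pos).indicator (fun _ => (1 : ℂ)) x := by
    intro μ hμ n x
    by_cases hx : grp β x = n
    · rw [Set.indicator_of_mem (show x ∈ {x | grp β x = n} from hx), Set.indicator_of_mem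
        (show μ x ∈ {x | grp β x = n} from (hμ x).trans hx)]
    · rw [Set.indicator_of_notMem (show x ∉ {x | grp β x = n} from hx), Set.indicator_of_notMem
        (show μ x ∉ {x | grp β x = n} from fun hc => hx ((hμ x).symm.trans hc))]
  refine isASH_of_diag e (grp β) (fun n => (grp_finite h n).subset (fun x hx => le_of_eq hx))
    (gens e T) D (AT e T) rfl (mu_mem e T) (fun a ha => ha.2) ?_ ?_ ?_ ?_
  · rintro _ ⟨⟨X, hX, rfl⟩, -⟩ _ ⟨⟨X', hX', rfl⟩, -⟩
    exact commute_conj hY (hX.commute hX')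
  · rintro _ ⟨⟨X, hX, rfl⟩, hA⟩
    have h1 : star (Y * X * star Y) = Y * star X * star Y := by
      rw [star_mul, star_mul, star_star, mul_assoc]
    exact ⟨⟨star X, hX.star, h1⟩, star_mem hA⟩
  · rintro _ ⟨⟨X, hX, rfl⟩, -⟩ n
    set R := diag e (({x | grp β x = n} : Set Pos).indicator (fun _ => (1 : ℂ))) with hR
    have hRsa : star R = R := by
      rw [hR, diag_star e (hindb n)]
      congr 1
      funext x
      by_cases hx : x ∈ {x | grp β x = n}
      · rw [Set.indicator_of_mem hx, map_one]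
      · rw [Set.indicator_of_notMem hx, map_zero]
    have hYR : Commute Y R := by
      refine Commute.add_left (diag_commute e hbdd (hindb n)) ?_
      exact Commute.mul_left (diag_commute e ((Bdd.const 1).sub hbdd) (hindb n))
        (commute_perm_diag e (hindb n) (hind σ hgrpσ n))
    have hYsR : Commute (star Y) R := by
      have := hYR.star_star
      rwa [hRsa] at this
    have hXR : Commute X R := by
      rcases hX with rfl | rfl | ⟨ψ, hb, hψ, rfl⟩
      · exact commute_perm_diag e (hindb n) (hind ρ hgrpρ n)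
      · refine commute_perm_diag e (hindb n) (hind ρ⁻¹ (fun x => ?_) n)
        rw [← hgrpρ (ρ⁻¹ x)]
        simp
      · exact diag_commute e hb (hindb n)
    exact (hYR.mul_left hXR).mul_left hYsR
  · rintro s ((hs | ⟨⟨x, y⟩, rfl⟩) | ⟨⟨j, g⟩, rfl⟩)
    · have hs' : s = perm e shift := hs
      subst hs'
      exact ⟨_, hmemD (shift_mem e T) (Or.inl rfl) K1, conjKp K1⟩
    · refine ⟨0, ⟨⟨0, Or.inr (Or.inr ⟨fun _ => 0, Bdd.const 0, fun _ => rfl, (diag_zero e).symm⟩),
        by rw [mul_zero, zero_mul]⟩, zero_mem _⟩, ?_⟩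
      rw [sub_zero]
      exact (finRk_mu e x y).isKp
    · have hC : ComOp e ρ (diag e (fun x => (cz T β j g x : ℂ))) :=
        Or.inr (Or.inr ⟨_, hcirc _, hczinv j g, rfl⟩)
      exact ⟨_, hmemD (zf_mem e T j g) hC (K2 j g), conjKp (K2 j g)⟩

end Pool.Agent.Ped8316
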