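import Mathlib
import Pool.Agent.Lib.Ped8316.BPrime
import Pool.Agent.Lib.Ped8316.EssComm
import Pool.Agent.Lib.Ped8316.OmDiag
import Pool.Agent.Lib.Ped8316.PosDir

/-!
# The index on circle valued functions, for the algebra of a tree, if it is ASH
-/

set_option autoImplicit false
set_option linter.unusedSectionVars false

open Topology Filter Set
open scoped InnerProductSpace ComplexConjugate

namespace Pool.Agent.Ped8316

variable {T : ℕ → Bool}
variable {H : Type} [NormedAddCommGroup H] [InnerProductSpace ℂ H] [CompleteSpace H]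

lemma one_mem_AT (e : HilbertBasis Pos ℂ H) (T : ℕ → Bool) : (1 : Bd H) ∈ AT e T := by
  have h1 : star (perm e shift) * perm e shift = 1 :=
    Unitary.star_mul_self_of_mem (perm_unitary e shift)
  rw [← h1]
  exact mul_mem (star_mem (shift_mem e T)) (shift_mem e T)

lemma zf_commutator (e : HilbertBasis Pos ℂ H) (T : ℕ → Bool) (j : ℕ) (g : Ltr)
    {ψ : Pos → ℂ} (hψ : Bdd ψ) (hf : ∀ ε : ℝ, 0 < ε → {x | ε < ‖ψ (shift x) - ψ x‖}.Finite) :
    IsKp (perm e shift * diag e ψ - diag e ψ * perm e shift) := by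
  rw [diag_perm e shift hψ, ← mul_sub, diag_sub e hψ (hψ.comp _)]
  refine (isKp_diag e (fun ε hε => ?_)).mul_left _
  refine (hf ε hε).subset (fun x hx => ?_)
  rw [Set.mem_ofPred_eq, norm_sub_rev] at hx
  exact hx

lemma ess_gens (e : HilbertBasis Pos ℂ H) (T : ℕ → Bool) :
    ∀ s ∈ gens e T, ∀ t ∈ gens e T, IsKp (s * t - t * s) ∧ IsKp (s * star t - star t * s) := by
  have hkp : ∀ {s t : Bd H}, IsKp s → IsKp (s * t - t * s) := fun hs =>
    (hs.mul_right _).sub (hs.mul_left _)
  have hkp' : ∀ {s t : Bd H}, IsKp t → IsKp (s * t - t * s) := fun ht =>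
    (ht.mul_left _).sub (ht.mul_right _)
  have hb : ∀ (j : ℕ) (g : Ltr), Bdd (fun x => (zf T j g x : ℂ)) := fun j g =>
    Bdd.of_norm_one (fun x => Circle.norm_coe _)
  have hV : ∀ (j : ℕ) (g : Ltr), IsKp (perm e shift * diag e (fun x => (zf T j g x : ℂ)) -
      diag e (fun x => (zf T j g x : ℂ)) * perm e shift) := fun j g =>
    zf_commutator e T j g (hb j g) (fun ε hε => zf_shift_finite T j g hε)
  have hVs : ∀ (j : ℕ) (g : Ltr),
      IsKp (perm e shift * star (diag e (fun x => (zf T j g x : ℂ))) -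
      star (diag e (fun x => (zf T j g x : ℂ))) * perm e shift) := by
    intro j g
    rw [diag_star e (hb j g)]
    refine zf_commutator e T j g (hb j g).conj (fun ε hε => ?_)
    refine (zf_shift_finite T j g hε).subset (fun x hx => ?_)
    rw [Set.mem_ofPred_eq, ← map_sub, RCLike.norm_conj] at hx
    exact hx
  rintro s ((hs | ⟨⟨x, y⟩, rfl⟩) | ⟨⟨j, g⟩, rfl⟩)
  · have hs' : s = perm e shift := hs
    subst hs'
    rintro t ((ht | ⟨⟨x', y'⟩, rfl⟩) | ⟨⟨j', g'⟩, rfl⟩)
    · have ht' : t = perm e shift := ht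
      subst ht'
      refine ⟨by rw [sub_self]; exact IsKp.zero, ?_⟩
      have h1 := perm_unitary e shift
      rw [Unitary.mul_star_self_of_mem h1, Unitary.star_mul_self_of_mem h1, sub_self]
      exact IsKp.zero
    · exact ⟨hkp' (finRk_mu e x' y').isKp, hkp' (finRk_mu e x' y').isKp.star⟩
    · exact ⟨hV j' g', hVs j' g'⟩
  · exact fun t _ => ⟨hkp (finRk_mu e x y).isKp, hkp (finRk_mu e x y).isKp⟩
  · rintro t ((ht | ⟨⟨x', y'⟩, rfl⟩) | ⟨⟨j', g'⟩, rfl⟩)
    · have ht' : t = perm e shift := ht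
      subst ht'
      refine ⟨?_, ?_⟩
      · have := (hV j g).neg
        rw [neg_sub] at this
        exact this
      · have h1 := (hVs j g).star
        rw [star_sub, star_mul, star_mul, star_star] at h1
        exact h1
    · exact ⟨hkp' (finRk_mu e x' y').isKp, hkp' (finRk_mu e x' y').isKp.star⟩
    · refine ⟨?_, ?_⟩
      · have h1 : ((udiag e (zf T j g) : unitary (Bd H)) : Bd H) *
            ((udiag e (zf T j' g') : unitary (Bd H)) : Bd H) =
            ((udiag e (zf T j' g') : unitary (Bd H)) : Bd H) *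
            ((udiag e (zf T j g) : unitary (Bd H)) : Bd H) := diag_commute e (hb j g) (hb j' g')
        show IsKp (((udiag e (zf T j g) : unitary (Bd H)) : Bd H) *
            ((udiag e (zf T j' g') : unitary (Bd H)) : Bd H) -
            ((udiag e (zf T j' g') : unitary (Bd H)) : Bd H) *
            ((udiag e (zf T j g) : unitary (Bd H)) : Bd H))
        rw [h1, sub_self]
        exact IsKp.zero
      · have h1 : diag e (fun x => (zf T j g x : ℂ)) * star (diag e (fun x => (zf T j' g' x : ℂ))) =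
            star (diag e (fun x => (zf T j' g' x : ℂ))) * diag e (fun x => (zf T j g x : ℂ)) := by
          rw [diag_star e (hb j' g')]
          exact diag_commute e (hb j g) (hb j' g').conj
        show IsKp (diag e (fun x => (zf T j g x : ℂ)) * star (diag e (fun x => (zf T j' g' x : ℂ))) -
            star (diag e (fun x => (zf T j' g' x : ℂ))) * diag e (fun x => (zf T j g x : ℂ)))
        rw [h1, sub_self]
        exact IsKp.zero

/-- membership in the algebra together with a bound on the variation along the shift -/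
def QQ (e : HilbertBasis Pos ℂ H) (T : ℕ → Bool) (u : Pos → Circle) (c : ℝ) : Prop :=
  ((udiag e u : unitary (Bd H)) : Bd H) ∈ AT e T ∧ 0 ≤ c ∧ ∀ x, ‖(u (shift x) : ℂ) - u x‖ ≤ c

/-- The index. -/
theorem exists_F (e : HilbertBasis Pos ℂ H) (hA : IsASH (AT e T)) :
    ∃ F : (Pos → Circle) → ℤ,
      (∀ u v c d, QQ e T u c → QQ e T v d → c + d ≤ 1 / 16 → QQ e T (u * v) (c + d) →
        F (u * v) = F u + F v) ∧
      (∀ u, QQ e T u (1 / 16) → ∀ S : Finset Pos, (∀ x, shift x ∈ S ↔ x ∈ S) →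
        (∀ x, x ∉ S → u x = 1) → ∀ θ : Pos → ℝ, (∀ x, |θ x| ≤ 1) →
        (∀ x, (u (shift x) : ℂ) = u x * Complex.exp (Complex.I * θ x)) →
        (F u : ℝ) = (∑ x ∈ S, θ x) / (2 * Real.pi)) := by
  obtain ⟨B, hmono, hcl, hbd, hBA, hAB⟩ := exists_B (AT e T) (one_mem_AT e T) hA
  have hess : ∀ n, ∀ a ∈ B n, ∀ b ∈ B n, IsKp (a * b - b * a) := fun n a ha b hb =>
    ess_comm (gens e T) (ess_gens e T) a (hBA n a ha) b (hBA n b hb)
  have hV : InCl B ((uperm e shift : unitary (Bd H)) : Bd H) := hAB _ (shift_mem e T)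
  obtain ⟨f, hf1, hf2⟩ := exists_index hmono hcl hbd hess hV
  refine ⟨fun u => f (udiag e u), ?_, ?_⟩
  · intro u v c d hu hv hcd huv
    show f (udiag e (u * v)) = _
    have h1 := nc_diag_le e (σ := shift) u hu.2.1 hu.2.2
    have h2 := nc_diag_le e (σ := shift) v hv.2.1 hv.2.2
    have h3 := nc_diag_le e (σ := shift) (u * v) huv.2.1 huv.2.2
    rw [udiag_mul] at h3 ⊢
    have hc := hu.2.1
    have hd := hv.2.1
    exact hf1 _ _ (hAB _ hu.1) (hAB _ hv.1) (by linarith) (by linarith) (by linarith)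
  · intro u hu S hS hu1 θ hθ huθ
    have h1 := nc_diag_le e (σ := shift) u hu.2.1 hu.2.2
    have hb : Bdd (fun x => (u x : ℂ)) := Bdd.of_norm_one (fun x => Circle.norm_coe _)
    have h2 : InCl B (spn e S).starProjection := by
      refine hAB _ ?_
      rw [spn_starProjection_eq_sum]
      exact sum_mem (fun x _ => mu_mem e T x x)
    have h3 := hf2 (udiag e u) (hAB _ hu.1) h1 (spn e S) h2 (red_diag e S hb) (red_perm e S hS)
      (diag_fix e S hb (fun x hx => by rw [hu1 x hx]; rfl))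
    show ((f (udiag e u) : ℤ) : ℝ) = _
    rw [← h3]
    exact om_diag e S hS u θ hθ huθ

/-! ### calculus of `QQ` -/

variable {e : HilbertBasis Pos ℂ H}

lemma QQ.mul {u v : Pos → Circle} {c d : ℝ} (hu : QQ e T u c) (hv : QQ e T v d) :
    QQ e T (u * v) (c + d) := by
  refine ⟨?_, add_nonneg hu.2.1 hv.2.1, fun x => ?_⟩
  · rw [udiag_mul, Submonoid.coe_mul]
    exact mul_mem hu.1 hv.1
  · have h1 : ((u * v) (shift x) : ℂ) - ((u * v) x : Circle) =
        ((u (shift x) : ℂ) - u x) * v (shift x) + u x * ((v (shift x) : ℂ) - v x) := by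
      rw [Pi.mul_apply, Pi.mul_apply, Circle.coe_mul, Circle.coe_mul]
      ring
    rw [h1]
    refine (norm_add_le _ _).trans ?_
    rw [norm_mul, norm_mul, Circle.norm_coe, Circle.norm_coe, mul_one, one_mul]
    exact add_le_add (hu.2.2 x) (hv.2.2 x)

lemma QQ.one : QQ e T 1 0 := by
  refine ⟨?_, le_rfl, fun x => ?_⟩
  · rw [udiag_one]
    exact one_mem_AT e T
  · rw [Pi.one_apply, Pi.one_apply, sub_self, norm_zero]

lemma QQ.mono {u : Pos → Circle} {c d : ℝ} (hu : QQ e T u c) (h : c ≤ d) : QQ e T u d :=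
  ⟨hu.1, hu.2.1.trans h, fun x => (hu.2.2 x).trans h⟩

lemma QQ.inv {u : Pos → Circle} {c : ℝ} (hu : QQ e T u c) : QQ e T u⁻¹ c := by
  refine ⟨?_, hu.2.1, fun x => ?_⟩
  · have h1 : ((udiag e u⁻¹ : unitary (Bd H)) : Bd H) = star ((udiag e u : unitary (Bd H)) : Bd H) := by
      show diag e (fun x => ((u⁻¹ : Pos → Circle) x : ℂ)) = star (diag e (fun x => (u x : ℂ)))
      rw [diag_star e (Bdd.of_norm_one (fun x => Circle.norm_coe _))]
      congr 1
      funext x
      rw [Pi.inv_apply, Circle.coe_inv_eq_conj]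
    rw [h1]
    exact star_mem hu.1
  · rw [Pi.inv_apply, Pi.inv_apply, Circle.coe_inv_eq_conj, Circle.coe_inv_eq_conj, ← map_sub,
      RCLike.norm_conj]
    exact hu.2.2 x

lemma QQ.npow {u : Pos → Circle} {c : ℝ} (hu : QQ e T u c) (n : ℕ) : QQ e T (u ^ n) (n * c) := by
  induction n with
  | zero =>
    rw [pow_zero, Nat.cast_zero, zero_mul]
    exact QQ.one
  | succ n ih =>
    rw [pow_succ]
    have := ih.mul hu
    push_cast
    rw [add_mul, one_mul]
    exact this

section F

variable {F : (Pos → Circle) → ℤ}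
    (hF : ∀ u v c d, QQ e T u c → QQ e T v d → c + d ≤ 1 / 16 → QQ e T (u * v) (c + d) →
        F (u * v) = F u + F v)
include hF

lemma F_mul {u v : Pos → Circle} {c d : ℝ} (hu : QQ e T u c) (hv : QQ e T v d)
    (h : c + d ≤ 1 / 16) : F (u * v) = F u + F v := hF u v c d hu hv h (hu.mul hv)

lemma F_one : F 1 = 0 := by
  have h1 := F_mul hF (QQ.one (e := e) (T := T)) QQ.one (by norm_num)
  rw [one_mul] at h1
  linarith

lemma F_npow {u : Pos → Circle} {c : ℝ} (hu : QQ e T u c) (n : ℕ) (h : n * c ≤ 1 / 16) :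
    F (u ^ n) = n * F u := by
  induction n with
  | zero => rw [pow_zero, F_one hF, Nat.cast_zero, zero_mul]
  | succ n ih =>
    have hc := hu.2.1
    push_cast at h ⊢
    rw [pow_succ, F_mul hF (hu.npow n) hu (by linarith), ih (by linarith)]
    ring

lemma F_inv {u : Pos → Circle} {c : ℝ} (hu : QQ e T u c) (h : 2 * c ≤ 1 / 16) :
    F u⁻¹ = -F u := by
  have h1 := F_mul hF hu hu.inv (by linarith)
  rw [mul_inv_cancel, F_one hF] at h1
  linarith

lemma F_zpow {u : Pos → Circle} {c : ℝ} (hu : QQ e T u c) (n : ℤ) (h : (|n| + 1 : ℝ) * c ≤ 1 / 16) :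
    QQ e T (u ^ n) (|(n : ℝ)| * c) ∧ F (u ^ n) = n * F u := by
  have hc := hu.2.1
  obtain ⟨m, rfl | rfl⟩ := n.eq_nat_or_neg
  · have h1 : |((m : ℤ) : ℝ)| = m := by
      rw [Int.cast_natCast, Nat.abs_cast]
    have h2 : ((|(m : ℤ)| : ℤ) : ℝ) = m := by
      rw [Int.cast_abs, h1]
    rw [h2] at h
    rw [h1, zpow_natCast]
    refine ⟨hu.npow m, ?_⟩
    rw [F_npow hF hu m (by nlinarith)]
  · have h1 : |((-(m : ℤ) : ℤ) : ℝ)| = m := by
      rw [Int.cast_neg, abs_neg, Int.cast_natCast, Nat.abs_cast]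
    have h2 : ((|(-(m : ℤ))| : ℤ) : ℝ) = m := by
      rw [Int.cast_abs, h1]
    rw [h2] at h
    rw [h1, zpow_neg, zpow_natCast]
    refine ⟨(hu.npow m).inv, ?_⟩
    by_cases hm : m = 0
    · subst hm
      rw [pow_zero, inv_one, F_one hF]
      simp
    · have hm1 : (1 : ℝ) ≤ m := by exact_mod_cast Nat.one_le_iff_ne_zero.2 hm
      have h3 : F (u ^ m)⁻¹ = -F (u ^ m) := by
        have h4 := F_mul hF (hu.npow m).inv (QQ.one (e := e) (T := T)) (by nlinarith)
        have hneg : F ((u⁻¹) ^ m) = m * F u⁻¹ := F_npow hF hu.inv m (by nlinarith)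
        have h5 : F u⁻¹ = -F u := by
          have h6 := F_mul hF hu hu.inv (by nlinarith)
          rw [mul_inv_cancel, F_one hF] at h6
          linarith
        rw [← inv_pow, hneg, h5, F_npow hF hu m (by nlinarith)]
        ring
      rw [h3, F_npow hF hu m (by nlinarith)]
      push_cast
      ring

lemma F_prod {ι : Type*} (s : Finset ι) (u : ι → Pos → Circle) (c : ι → ℝ)
    (hu : ∀ b ∈ s, QQ e T (u b) (c b)) (h : ∑ b ∈ s, c b ≤ 1 / 16) :
    QQ e T (∏ b ∈ s, u b) (∑ b ∈ s, c b) ∧ F (∏ b ∈ s, u b) = ∑ b ∈ s, F (u b) := by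
  classical
  induction s using Finset.induction_on with
  | empty =>
    rw [Finset.prod_empty, Finset.sum_empty, Finset.sum_empty]
    exact ⟨QQ.one, F_one hF⟩
  | insert b s hb ih =>
    rw [Finset.sum_insert hb] at h
    have hb' := hu b (Finset.mem_insert_self b s)
    obtain ⟨h1, h2⟩ := ih (fun b' hb' => hu b' (Finset.mem_insert_of_mem hb'))
      (by linarith [hb'.2.1])
    rw [Finset.prod_insert hb, Finset.sum_insert hb, Finset.sum_insert hb]
    refine ⟨hb'.mul h1, ?_⟩
    rw [F_mul hF hb' h1 h, h2]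

/-- the index of a function with a small real logarithm vanishes -/
lemma F_real (r : Pos → ℝ) {c : ℝ} (hc : 0 ≤ c)
    (hr : ∀ x, ‖(AddCircle.toCircle ((r (shift x) : ℝ) : UnitAddCircle) : ℂ) -
      AddCircle.toCircle ((r x : ℝ) : UnitAddCircle)‖ ≤ c ∧
      |r (shift x) - r x| ≤ c / (2 * Real.pi)) (hc2 : c ≤ 1 / 16)
    (hmem : ∀ n : ℕ, 1 ≤ n →
      ((udiag e (fun x => AddCircle.toCircle ((r x / n : ℝ) : UnitAddCircle)) :
        unitary (Bd H)) : Bd H) ∈ AT e T) :
    QQ e T (fun x => AddCircle.toCircle ((r x : ℝ) : UnitAddCircle)) c ∧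
      F (fun x => AddCircle.toCircle ((r x : ℝ) : UnitAddCircle)) = 0 := by
  have hpi := Real.pi_pos
  set u : ℕ → Pos → Circle := fun n x => AddCircle.toCircle ((r x / n : ℝ) : UnitAddCircle) with hu
  have hQ : ∀ n : ℕ, 1 ≤ n → QQ e T (u n) (c / n) := by
    intro n hn
    have hn' : (0 : ℝ) < n := by exact_mod_cast hn
    refine ⟨hmem n hn, by positivity, fun x => ?_⟩
    refine (norm_toCircle_sub _ _).trans ?_
    rw [← AddCircle.coe_sub]
    have h1 : ‖((r (shift x) / n - r x / n : ℝ) : UnitAddCircle)‖ ≤ |r (shift x) / n - r x / n| := by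
      have h2 := UnitAddCircle.norm_eq (x := r (shift x) / n - r x / n)
      rw [h2]
      have h3 := round_le (r (shift x) / n - r x / n) 0
      simpa using h3
    have h2 : |r (shift x) / n - r x / n| ≤ (c / (2 * Real.pi)) / n := by
      rw [← sub_div, abs_div, abs_of_pos hn']
      gcongr
      exact (hr x).2
    calc 2 * Real.pi * ‖((r (shift x) / n - r x / n : ℝ) : UnitAddCircle)‖
        ≤ 2 * Real.pi * ((c / (2 * Real.pi)) / n) := by gcongr; exact h1.trans h2
      _ = c / n := by field_simp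
  have hpow : ∀ n : ℕ, 1 ≤ n →
      (u n) ^ n = fun x => AddCircle.toCircle ((r x : ℝ) : UnitAddCircle) := by
    intro n hn
    funext x
    rw [Pi.pow_apply]
    show (AddCircle.toCircle ((r x / n : ℝ) : UnitAddCircle)) ^ n = _
    rw [← AddCircle.toCircle_nsmul, ← AddCircle.coe_nsmul]
    congr 2
    rw [nsmul_eq_mul]
    have hn' : (n : ℝ) ≠ 0 := by
      have : (1 : ℝ) ≤ n := by exact_mod_cast hn
      positivity
    field_simp
  have hdiv : ∀ n : ℕ, 1 ≤ n →
      F (fun x => AddCircle.toCircle ((r x : ℝ) : UnitAddCircle)) = n * F (u n) := by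
    intro n hn
    rw [← hpow n hn]
    refine F_npow hF (hQ n hn) n ?_
    have hn' : (0 : ℝ) < n := by exact_mod_cast hn
    rw [mul_div_cancel₀ _ hn'.ne']
    exact hc2
  constructor
  · have h1 := hQ 1 le_rfl
    have h2 := hpow 1 le_rfl
    rw [pow_one] at h2
    rw [← h2]
    simpa using h1
  · set M := F (fun x => AddCircle.toCircle ((r x : ℝ) : UnitAddCircle)) with hM
    have h1 := hdiv (M.natAbs + 1) (by omega)
    by_contra hne
    have h2 : ((M.natAbs + 1 : ℕ) : ℤ) ∣ M := ⟨_, h1⟩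
    have h3 := Int.natAbs_dvd_natAbs.2 h2
    rw [Int.natAbs_natCast] at h3
    have h4 := Nat.le_of_dvd (Int.natAbs_pos.2 hne) h3
    omega

end F

end Pool.Agent.Ped8316
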