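import Mathlib
import Pool.Agent.Lib.Ped8316.Labels

/-!
# The labels at level `j` in terms of the labels at level `j + 1`
-/

set_option autoImplicit false
set_option linter.unusedSectionVars false

open Topology Filter Set
open scoped InnerProductSpace ComplexConjugate

namespace Pool.Agent.Ped8316

lemma exists_rep_circle (a : UnitAddCircle) :
    ∃ r : ℝ, 0 ≤ r ∧ r < 1 ∧ ((r : ℝ) : UnitAddCircle) = a := by
  obtain ⟨x, hx⟩ := QuotientAddGroup.mk_surjective a
  refine ⟨Int.fract x, Int.fract_nonneg x, Int.fract_lt_one x, ?_⟩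
  rw [Int.fract, AddCircle.coe_sub, coe_int_circle, sub_zero]
  exact hx

lemma rep_unique {u v : ℝ} (hu : 0 ≤ u) (hu' : u < 1) (hv : 0 ≤ v) (hv' : v < 1)
    (h : ((u : ℝ) : UnitAddCircle) = ((v : ℝ) : UnitAddCircle)) : u = v := by
  rw [← sub_eq_zero, ← AddCircle.coe_sub, AddCircle.coe_eq_zero_iff] at h
  obtain ⟨n, hn⟩ := h
  rw [zsmul_eq_mul, mul_one] at hn
  have h1 : (n : ℝ) < 1 := by linarith
  have h2 : (-1 : ℝ) < n := by linarith
  have h3 : n < 1 := by exact_mod_cast h1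
  have h4 : -1 < n := by exact_mod_cast h2
  have h5 : n = 0 := by omega
  rw [h5] at hn
  push_cast at hn
  linarith

lemma norm_circle_cases {u v : ℝ} (hu : 0 ≤ u) (huv : u ≤ v) (hv' : v < 1) :
    ‖((u : ℝ) : UnitAddCircle) - ((v : ℝ) : UnitAddCircle)‖ = v - u ∨
      ‖((u : ℝ) : UnitAddCircle) - ((v : ℝ) : UnitAddCircle)‖ = 1 - (v - u) := by
  rw [← AddCircle.coe_sub, UnitAddCircle.norm_eq, round_eq]
  have h1 : ⌊u - v + 1 / 2⌋ = 0 ∨ ⌊u - v + 1 / 2⌋ = -1 := by
    have h2 : ⌊u - v + 1 / 2⌋ < 1 := by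
      rw [Int.floor_lt]; push_cast; linarith
    have h3 : -1 ≤ ⌊u - v + 1 / 2⌋ := by
      rw [Int.le_floor]; push_cast; linarith
    omega
  rcases h1 with h | h
  · left
    rw [h, Int.cast_zero, sub_zero, abs_of_nonpos (by linarith)]
    ring
  · right
    rw [h]
    push_cast
    rw [abs_of_nonneg (by linarith)]
    ring

lemma abs_sum_le_card (w : ℕ → ℤ) (hw : ∀ k, |w k| ≤ 1) (n : ℕ) :
    |((∑ k ∈ Finset.range n, w k : ℤ) : ℝ)| ≤ n := by
  have h1 : |∑ k ∈ Finset.range n, w k| ≤ ∑ k ∈ Finset.range n, (1 : ℤ) :=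
    (Finset.abs_sum_le_sum_abs _ _).trans (Finset.sum_le_sum fun k _ => hw k)
  rw [Finset.sum_const, Finset.card_range, nsmul_eq_mul, mul_one] at h1
  exact_mod_cast h1

lemma PL_natCast (w : ℕ → ℤ) (n : ℕ) : PL w n = ((∑ k ∈ Finset.range n, w k : ℤ) : ℝ) := by
  unfold PL
  rw [Int.fract_natCast, mul_zero, add_zero, Nat.floor_natCast]
  push_cast
  rfl

/-- A piecewise linear function on the circle: `h v = PL w (n v) - c v`, `c = Σ_{k<n} w k`. -/
lemma exists_h (w : ℕ → ℤ) (hw : ∀ k, |w k| ≤ 1) (n : ℕ) :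
    ∃ h : UnitAddCircle → ℝ, h 0 = 0 ∧ (∀ a b, |h a - h b| ≤ 2 * n * ‖a - b‖) ∧
      ∀ v ∈ Set.Icc (0 : ℝ) 1, PL w (n * v) =
        ((∑ k ∈ Finset.range n, w k : ℤ) : ℝ) * v + h (v : UnitAddCircle) := by
  set c : ℝ := ((∑ k ∈ Finset.range n, w k : ℤ) : ℝ) with hc
  have hcn : |c| ≤ n := abs_sum_le_card w hw n
  have hn0 : (0 : ℝ) ≤ n := Nat.cast_nonneg n
  choose ρ hρ0 hρ1 hρ using exists_rep_circle
  let H : ℝ → ℝ := fun v => PL w (n * v) - c * v
  have hHl : ∀ u v : ℝ, 0 ≤ u → 0 ≤ v → |H u - H v| ≤ 2 * n * |u - v| := by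
    intro u v hu hv
    have h1 := PL_lipschitz hw (mul_nonneg hn0 hu) (mul_nonneg hn0 hv)
    have h2 : (n : ℝ) * u - n * v = n * (u - v) := by ring
    rw [h2, abs_mul, abs_of_nonneg hn0] at h1
    have h3 : H u - H v = (PL w (n * u) - PL w (n * v)) - c * (u - v) := by
      simp only [H]; ring
    rw [h3]
    refine (abs_sub _ _).trans ?_
    rw [abs_mul]
    have h4 := mul_le_mul_of_nonneg_right hcn (abs_nonneg (u - v))
    linarith
  have hH0 : H 0 = 0 := by
    simp only [H, mul_zero, sub_zero]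
    have := PL_natCast w 0
    simpa using this
  have hH1 : H 1 = 0 := by
    simp only [H, mul_one]
    rw [PL_natCast, hc, sub_self]
  have hρ00 : ρ 0 = 0 := by
    apply rep_unique (hρ0 _) (hρ1 _) le_rfl one_pos
    rw [hρ, coe_zero_circle]
  refine ⟨fun a => H (ρ a), ?_, ?_, ?_⟩
  · show H (ρ 0) = 0
    rw [hρ00, hH0]
  · -- Lipschitz
    have key : ∀ a b, ρ a ≤ ρ b → |H (ρ a) - H (ρ b)| ≤ 2 * n * ‖a - b‖ := by
      intro a b hab
      have h1 := norm_circle_cases (hρ0 a) hab (hρ1 b)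
      rw [hρ, hρ] at h1
      rcases h1 with h | h
      · rw [h]
        have := hHl (ρ a) (ρ b) (hρ0 a) (hρ0 b)
        rwa [abs_sub_comm (ρ a) (ρ b), abs_of_nonneg (sub_nonneg.2 hab)] at this
      · rw [h]
        have e1 := hHl (ρ a) 0 (hρ0 a) le_rfl
        have e2 := hHl 1 (ρ b) zero_le_one (hρ0 b)
        rw [hH0, sub_zero, sub_zero, abs_of_nonneg (hρ0 a)] at e1
        rw [hH1, zero_sub, abs_neg, abs_of_nonneg (show (0 : ℝ) ≤ 1 - ρ b by linarith [hρ1 b])] at e2
        have e3 := abs_sub (H (ρ a)) (H (ρ b))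
        calc |H (ρ a) - H (ρ b)| ≤ |H (ρ a)| + |H (ρ b)| := e3
          _ ≤ 2 * n * ρ a + 2 * n * (1 - ρ b) := add_le_add e1 e2
          _ = 2 * n * (1 - (ρ b - ρ a)) := by ring
    intro a b
    rcases le_total (ρ a) (ρ b) with h | h
    · exact key a b h
    · have := key b a h
      rwa [abs_sub_comm, norm_sub_rev] at this
  · intro v hv
    have h1 : H (ρ (v : UnitAddCircle)) = H v := by
      rcases hv.2.eq_or_lt with h | h
      · have : ρ (v : UnitAddCircle) = 0 := by
          apply rep_unique (hρ0 _) (hρ1 _) le_rfl one_pos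
          rw [hρ, h, coe_zero_circle]
          simpa only [Int.cast_one] using coe_int_circle 1
        rw [this, hH0, h, hH1]
      · congr 1
        exact rep_unique (hρ0 _) (hρ1 _) hv.1 h (hρ _)
    show PL w (n * v) = c * v + H (ρ (v : UnitAddCircle))
    rw [h1]
    simp only [H]
    ring

lemma sgn_eq_val (g : Ltr) (x : Option SL) :
    sgn g x = val (fun g' => if g' = g then 1 else 0) x := by
  rcases x with _ | ⟨h, s⟩
  · rfl
  · simp only [sgn, val]
    cases s <;> split_ifs <;> simp_all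

lemma stepP_of_not_mem (T : ℕ → Bool) (j : ℕ) {b : Ltr} (hb : b ∉ Lset j) (k : ℕ) :
    stepP T j b k = none := by
  cases b with
  | c r =>
    simp only [stepP]
    rw [if_neg]
    rintro ⟨-, h1, h2⟩
    apply hb
    unfold Lset
    rw [Finset.mem_union]
    right
    exact Finset.mem_image.2 ⟨r, Finset.mem_Icc.2 ⟨h1, h2⟩, rfl⟩
  | l r =>
    simp only [stepP]
    rw [if_neg]
    rintro ⟨-, h2⟩
    apply hb
    unfold Lset
    rw [Finset.mem_union]
    left
    exact Finset.mem_image.2 ⟨r, Finset.mem_range.2 (by omega), rfl⟩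

lemma PK_one (j : ℕ) : PK j 1 = K j := by
  show K j * PK (j + 1) 0 = K j
  show K j * 1 = K j
  exact mul_one _

/-- the recursion on the level of `Lm` -/
lemma Lm_one (T : ℕ → Bool) (j : ℕ) (b g : Ltr) (t : ℝ) :
    Lm T j 1 (some (b, true)) g t =
      ((PL (fun k => sgn g (stepP T j b (k % K j))) t : ℝ) : UnitAddCircle) := rfl

/-- The recursion. (Content of `x` at level `j + 1` is `none` or `some (b₀, ±)`; use
`lab_comp` for `j` and `j + 1` with `J = j + 1`, `Lm_inv` for the sign `-`, `Lm_zero` for the labels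
at level `j + 1`, and for `b ∉ Lset j` the word `stepP T j b` is empty.) -/
theorem lab_recur (T : ℕ → Bool) (j : ℕ) (g : Ltr) :
    ∃ h : Ltr → UnitAddCircle → ℝ, (∀ b, h b 0 = 0) ∧
      (∀ b, ∀ u v, |h b u - h b v| ≤ 2 * K j * ‖u - v‖) ∧
      ∀ x : Pos, j + 1 ≤ x.i → lab T j g x =
        ∑ b ∈ Lset j, (cnt T j g b • lab T (j + 1) b x +
          ((h b (lab T (j + 1) b x) : ℝ) : UnitAddCircle)) := by
  have H : ∀ b : Ltr, ∃ h : UnitAddCircle → ℝ, h 0 = 0 ∧
      (∀ u v, |h u - h v| ≤ 2 * K j * ‖u - v‖) ∧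
      ∀ v ∈ Set.Icc (0 : ℝ) 1, Lm T j 1 (some (b, true)) g (K j * v) =
        cnt T j g b • (v : UnitAddCircle) + ((h (v : UnitAddCircle) : ℝ) : UnitAddCircle) := by
    intro b
    obtain ⟨h, h0, h1, h2⟩ := exists_h (fun k => sgn g (stepP T j b (k % K j)))
      (fun k => abs_sgn_le _ _) (K j)
    refine ⟨h, h0, h1, ?_⟩
    intro v hv
    rw [Lm_one, h2 v hv, AddCircle.coe_add]
    congr 1
    have hs : (∑ k ∈ Finset.range (K j), sgn g (stepP T j b (k % K j))) = cnt T j g b := by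
      unfold cnt TT
      apply Finset.sum_congr rfl
      intro k hk
      rw [Nat.mod_eq_of_lt (Finset.mem_range.1 hk), sgn_eq_val]
    rw [hs, ← zsmul_eq_mul, AddCircle.coe_zsmul]
  choose h h0 h1 h2 using H
  refine ⟨h, h0, h1, ?_⟩
  intro x hx
  set J := j + 1 with hJ
  set f : ℝ := ((x.X % Dn J (x.i - J) : ℕ) : ℝ) / (Dn J (x.i - J) : ℝ) with hf
  have hD : (0 : ℝ) < (Dn J (x.i - J) : ℝ) := by exact_mod_cast Dn_pos _ _
  have hf0 : 0 ≤ f := by positivity
  have hf1 : f ≤ 1 := by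
    rw [hf, div_le_one hD]
    exact_mod_cast (Nat.mod_lt _ (Dn_pos _ _)).le
  have e1 : lab T j g x = Lm T j 1 (cont T J x) g (K j * f) := by
    rw [lab_comp T (show j ≤ J by omega) g hx]
    have : J - j = 1 := by omega
    rw [this, PK_one]
  have e2 : ∀ b, lab T J b x = ((((sgn b (cont T J x) : ℤ) : ℝ) * f : ℝ) : UnitAddCircle) := by
    intro b
    rw [lab_comp T le_rfl b hx]
    have : J - J = 0 := by omega
    rw [this]
    have : PK J 0 = 1 := rfl
    rw [this, Nat.cast_one, one_mul]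
    exact Lm_zero T J _ b hf0 hf1
  rw [e1]
  rcases hcont : cont T J x with _ | ⟨b₀, s⟩
  · rw [Lm_none]
    symm
    apply Finset.sum_eq_zero
    intro b _
    rw [e2, hcont]
    simp only [sgn, Int.cast_zero, zero_mul]
    rw [coe_zero_circle, h0, smul_zero, zero_add, coe_zero_circle]
  · -- the other letters do not contribute
    have e3 : ∀ b, b ≠ b₀ → lab T J b x = 0 := by
      intro b hb
      rw [e2, hcont]
      simp only [sgn]
      rw [if_neg (Ne.symm hb), Int.cast_zero, zero_mul, coe_zero_circle]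
    -- rewrite both sides with a parameter `v`
    obtain ⟨v, hv0, hv1, ev1, ev2⟩ : ∃ v : ℝ, 0 ≤ v ∧ v ≤ 1 ∧ lab T J b₀ x = (v : UnitAddCircle) ∧
        Lm T j 1 (some (b₀, s)) g (K j * f) = Lm T j 1 (some (b₀, true)) g (K j * v) := by
      cases s
      · refine ⟨1 - f, by linarith, by linarith, ?_, ?_⟩
        · rw [e2, hcont]
          simp only [sgn, if_true, Bool.false_eq_true, if_false]
          rw [AddCircle.coe_sub]
          have h3 : ((1 : ℝ) : UnitAddCircle) = 0 := by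
            simpa only [Int.cast_one] using coe_int_circle 1
          rw [h3, zero_sub, ← AddCircle.coe_neg]
          congr 1
          push_cast
          ring
        · have h4 : (some (b₀, false) : Option SL) = inv (some (b₀, true)) := rfl
          have hK : (0 : ℝ) ≤ K j := Nat.cast_nonneg _
          rw [h4, Lm_inv T j 1 _ g (by positivity)
            (by rw [PK_one]; nlinarith), PK_one]
          congr 1
          ring
      · refine ⟨f, hf0, hf1, ?_, rfl⟩
        rw [e2, hcont]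
        simp only [sgn, if_true]
        congr 1
        push_cast
        ring
    rw [ev2, h2 b₀ v ⟨hv0, hv1⟩]
    have e4 : ∀ b, b ≠ b₀ → cnt T j g b • lab T J b x +
          ((h b (lab T J b x) : ℝ) : UnitAddCircle) = 0 := by
      intro b hb
      rw [e3 b hb, h0, smul_zero, zero_add, coe_zero_circle]
    by_cases hb₀ : b₀ ∈ Lset j
    · rw [Finset.sum_eq_single b₀ (fun b _ hb => e4 b hb) (fun hh => absurd hb₀ hh), ev1]
    · rw [Finset.sum_eq_zero (fun b hb => e4 b (fun hbb => hb₀ (hbb ▸ hb)))]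
      rw [← h2 b₀ v ⟨hv0, hv1⟩, Lm_one, PL_coe, stepP_of_not_mem T j hb₀]
      simp only [sgn, Int.cast_zero, zero_mul]
      exact coe_zero_circle

end Pool.Agent.Ped8316
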