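import Mathlib
import Pool.Agent.Lib.Ped8316.NegIdx
import Pool.Agent.Lib.Ped8316.Recur
import Pool.Agent.Lib.Ped8316.Combi
import Pool.Agent.Lib.Ped8316.FinLevel

/-!
# If the algebra of a tree is ASH, the tree is ill-founded
-/

set_option autoImplicit false
set_option linter.unusedSectionVars false

open Topology Filter Set
open scoped InnerProductSpace ComplexConjugate

namespace Pool.Agent.Ped8316

variable {T : ℕ → Bool}
variable {H : Type} [NormedAddCommGroup H] [InnerProductSpace ℂ H] [CompleteSpace H]

lemma Q_ge (j : ℕ) : 10000 * (j + 1) ≤ Q j := by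
  induction j with
  | zero => norm_num [Q]
  | succ j ih =>
    show 10000 * (j + 1 + 1) ≤ 2 * K j * Q j
    have h1 : 6 ≤ 2 * K j := by unfold K; omega
    calc 10000 * (j + 1 + 1) ≤ 6 * (10000 * (j + 1)) := by omega
      _ ≤ 2 * K j * Q j := Nat.mul_le_mul h1 ih

lemma abs_cnt_le (T : ℕ → Bool) (j : ℕ) (g b : Ltr) : |cnt T j g b| ≤ K j := by
  unfold cnt TT
  refine (Finset.abs_sum_le_sum_abs _ _).trans ?_
  have h1 : ∀ k ∈ Finset.range (K j),
      |val (fun g' => if g' = g then 1 else 0) (stepP T j b k)| ≤ 1 := by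
    intro k _
    rcases stepP T j b k with _ | ⟨h, s⟩
    · simp [val]
    · simp only [val]
      split_ifs <;> simp
  refine (Finset.sum_le_sum h1).trans ?_
  simp

/-- If the algebra of the tree is ASH, the tree is ill-founded. -/
theorem illFounded_of_isASH (e : HilbertBasis Pos ℂ H) (hA : IsASH (AT e T)) : IllFounded T := by
  classical
  obtain ⟨F, hF1, hF2⟩ := exists_F e hA
  refine combi T (fun j g => F (zf T j g)) (fun j g => ?_)
  obtain ⟨hb, hb0, hblip, hbrec⟩ := lab_recur T j g
  have hpi := Real.pi_pos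
  have hpi2 := Real.pi_lt_d2
  have hQj : (0 : ℝ) < Q j := by exact_mod_cast Q_pos j
  have hQge : (10000 : ℝ) * (j + 1) ≤ Q j := by exact_mod_cast Q_ge j
  have hKj : (3 : ℝ) ≤ K j := by
    have : 3 ≤ K j := by unfold K; omega
    exact_mod_cast this
  have hQ1 : (Q (j + 1) : ℝ) = 2 * K j * Q j := by
    have : Q (j + 1) = 2 * K j * Q j := rfl
    exact_mod_cast this
  have hj0 : (0 : ℝ) ≤ j := Nat.cast_nonneg j
  -- the functions
  set E : Ltr → Pos → Circle := fun b x =>
    AddCircle.toCircle ((hb b (lab T (j + 1) b x) : ℝ) : UnitAddCircle) with hE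
  set zfin : Pos → Circle := fun x => if x.i ≤ j then zf T j g x else 1 with hzfin
  have hid : zf T j g = zfin * ∏ b ∈ Lset j, (zf T (j + 1) b ^ cnt T j g b * E b) := by
    funext x
    rw [Pi.mul_apply, Finset.prod_apply]
    by_cases hx : x.i ≤ j
    · have h1 : ∀ b ∈ Lset j, (zf T (j + 1) b ^ cnt T j g b * E b) x = 1 := by
        intro b _
        have h2 : lab T (j + 1) b x = 0 := by
          unfold lab
          rw [if_pos (by omega)]
        rw [Pi.mul_apply, Pi.pow_apply]
        show AddCircle.toCircle (lab T (j + 1) b x) ^ cnt T j g b *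
          AddCircle.toCircle ((hb b (lab T (j + 1) b x) : ℝ) : UnitAddCircle) = 1
        rw [h2, hb0, AddCircle.coe_zero, AddCircle.toCircle_zero, one_zpow, one_mul]
      rw [Finset.prod_congr rfl h1, Finset.prod_const_one, mul_one]
      show _ = if x.i ≤ j then zf T j g x else 1
      rw [if_pos hx]
    · have h1 : zfin x = 1 := if_neg hx
      rw [h1, one_mul]
      show AddCircle.toCircle (lab T j g x) = _
      rw [hbrec x (by omega)]
      have h2 : ∀ s : Finset Ltr, AddCircle.toCircle (∑ b ∈ s,
          (cnt T j g b • lab T (j + 1) b x +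
            ((hb b (lab T (j + 1) b x) : ℝ) : UnitAddCircle))) =
          ∏ b ∈ s, (zf T (j + 1) b ^ cnt T j g b * E b) x := by
        intro s
        induction s using Finset.induction_on with
        | empty => rw [Finset.sum_empty, Finset.prod_empty, AddCircle.toCircle_zero]
        | insert b s hbs ih =>
          rw [Finset.sum_insert hbs, Finset.prod_insert hbs, AddCircle.toCircle_add, ih,
            AddCircle.toCircle_add, AddCircle.toCircle_zsmul]
          rfl
      exact h2 _
  -- variations
  have hzf : ∀ (j' : ℕ) (b : Ltr), QQ e T (zf T j' b) (2 * Real.pi / Q j') := by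
    intro j' b
    have hQ' : (0 : ℝ) < Q j' := by exact_mod_cast Q_pos j'
    refine ⟨zf_mem e T j' b, by positivity, fun x => ?_⟩
    refine (norm_toCircle_sub _ _).trans ?_
    have h1 := lab_shift' T j' b x
    calc 2 * Real.pi * ‖lab T j' b (shift x) - lab T j' b x‖ ≤ 2 * Real.pi * (1 / Q j') := by
          gcongr
      _ = _ := by ring
  have hEb : ∀ b, QQ e T (E b) (2 * Real.pi / Q j) ∧ F (E b) = 0 := by
    intro b
    have hrr : ∀ x, |hb b (lab T (j + 1) b (shift x)) - hb b (lab T (j + 1) b x)| ≤ 1 / Q j := by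
      intro x
      refine (hblip b _ _).trans ?_
      have h1 := lab_shift' T (j + 1) b x
      calc 2 * (K j : ℝ) * ‖lab T (j + 1) b (shift x) - lab T (j + 1) b x‖
          ≤ 2 * (K j : ℝ) * (1 / Q (j + 1)) := by gcongr
        _ = 1 / Q j := by
          rw [hQ1]
          field_simp
    refine F_real hF1 (fun x => hb b (lab T (j + 1) b x)) (c := 2 * Real.pi / Q j)
      (by positivity) (fun x => ⟨?_, ?_⟩) ?_ ?_
    · refine (norm_toCircle_sub _ _).trans ?_
      rw [← AddCircle.coe_sub]
      have h1 : ‖((hb b (lab T (j + 1) b (shift x)) - hb b (lab T (j + 1) b x) : ℝ) :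
          UnitAddCircle)‖ ≤ |hb b (lab T (j + 1) b (shift x)) - hb b (lab T (j + 1) b x)| := by
        rw [UnitAddCircle.norm_eq]
        have h3 := round_le (hb b (lab T (j + 1) b (shift x)) - hb b (lab T (j + 1) b x)) 0
        simpa using h3
      calc 2 * Real.pi * ‖((hb b (lab T (j + 1) b (shift x)) - hb b (lab T (j + 1) b x) : ℝ) :
          UnitAddCircle)‖ ≤ 2 * Real.pi * (1 / Q j) := by
            gcongr
            exact h1.trans (hrr x)
        _ = _ := by ring
    · refine (hrr x).trans (le_of_eq ?_)
      field_simp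
    · rw [div_le_div_iff₀ hQj (by norm_num)]
      nlinarith
    · intro n hn
      have hcont : Continuous (hb b) := by
        have hlip : LipschitzWith (Real.toNNReal (2 * (K j : ℝ))) (hb b) := by
          refine LipschitzWith.of_dist_le_mul (fun u v => ?_)
          rw [Real.coe_toNNReal _ (by positivity), Real.dist_eq, dist_eq_norm]
          exact hblip b u v
        exact hlip.continuous
      have hc2 : Continuous (fun y : UnitAddCircle =>
          ((AddCircle.toCircle ((hb b y / n : ℝ) : UnitAddCircle) : Circle) : ℂ)) := by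
        have h1 : Continuous (fun y : UnitAddCircle => ((hb b y / n : ℝ) : UnitAddCircle)) :=
          (AddCircle.continuous_mk' 1).comp (hcont.div_const _)
        exact continuous_subtype_val.comp (AddCircle.continuous_toCircle.comp h1)
      exact mem_of_cont e (AT e T) (isClosed_AT e T) (one_mem_AT e T) (lab T (j + 1) b)
        (zf_mem e T (j + 1) b) ⟨_, hc2⟩
  have hub : ∀ b ∈ Lset j, QQ e T (zf T (j + 1) b ^ cnt T j g b * E b) (3 * Real.pi / Q j) ∧
      F (zf T (j + 1) b ^ cnt T j g b * E b) = cnt T j g b * F (zf T (j + 1) b) := by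
    intro b _
    have hcn : |(cnt T j g b : ℝ)| ≤ K j := by
      have := abs_cnt_le T j g b
      exact_mod_cast this
    have hu := hzf (j + 1) b
    have hsmall : 2 * Real.pi / Q (j + 1) = Real.pi / (K j * Q j) := by
      rw [hQ1]
      field_simp
    have h1 : ((|cnt T j g b| : ℤ) : ℝ) ≤ K j := by
      rw [Int.cast_abs]; exact hcn
    have h2 : (|(cnt T j g b : ℝ)| + 1) * (2 * Real.pi / Q (j + 1)) ≤ 1 / 16 := by
      rw [hsmall]
      calc (|(cnt T j g b : ℝ)| + 1) * (Real.pi / (K j * Q j)) ≤
          (K j + K j) * (Real.pi / (K j * Q j)) := by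
            gcongr
            linarith
        _ = 2 * Real.pi / Q j := by field_simp; ring
        _ ≤ 1 / 16 := by
          rw [div_le_div_iff₀ hQj (by norm_num)]
          nlinarith
    obtain ⟨h3, h4⟩ := F_zpow hF1 hu (cnt T j g b) (by simpa using h2)
    have h5 : |(cnt T j g b : ℝ)| * (2 * Real.pi / Q (j + 1)) ≤ Real.pi / Q j := by
      rw [hsmall]
      calc |(cnt T j g b : ℝ)| * (Real.pi / (K j * Q j)) ≤ K j * (Real.pi / (K j * Q j)) := by
            gcongr
        _ = Real.pi / Q j := by field_simp
    have h6 : Real.pi / Q j + 2 * Real.pi / Q j = 3 * Real.pi / Q j := by ring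
    have h7 := (h3.mono h5).mul (hEb b).1
    rw [h6] at h7
    refine ⟨h7, ?_⟩
    rw [F_mul hF1 (h3.mono h5) (hEb b).1 ?_, h4, (hEb b).2, add_zero]
    rw [h6, div_le_div_iff₀ hQj (by norm_num)]
    nlinarith
  have hcard : ((Lset j).card : ℝ) ≤ 2 * (j + 1) := by
    have h1 : (Lset j).card ≤ (j + 1) + (j + 1) := by
      unfold Lset
      refine (Finset.card_union_le _ _).trans (Nat.add_le_add ?_ ?_)
      · exact Finset.card_image_le.trans (by simp)
      · exact Finset.card_image_le.trans (by simp)
    have h2 : ((Lset j).card : ℝ) ≤ (((j + 1) + (j + 1) : ℕ) : ℝ) := by exact_mod_cast h1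
    push_cast at h2
    linarith
  have hsum : ∑ _b ∈ Lset j, (3 * Real.pi / Q j : ℝ) ≤ 6 * (j + 1) * Real.pi / Q j := by
    rw [Finset.sum_const, nsmul_eq_mul]
    calc ((Lset j).card : ℝ) * (3 * Real.pi / Q j) ≤ (2 * (j + 1)) * (3 * Real.pi / Q j) := by
          gcongr
      _ = _ := by ring
  have hsum2 : 2 * Real.pi / Q j + 6 * (j + 1) * Real.pi / Q j ≤ 1 / 16 := by
    rw [← add_div, div_le_div_iff₀ hQj (by norm_num)]
    nlinarith
  have hprodQ := F_prod hF1 (Lset j) (fun b => zf T (j + 1) b ^ cnt T j g b * E b)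
    (fun _ => 3 * Real.pi / Q j) (fun b hb => (hub b hb).1) (hsum.trans (by
      have : 0 ≤ 2 * Real.pi / Q j := by positivity
      linarith))
  have hzfinQ : QQ e T zfin (2 * Real.pi / Q j) := by
    refine ⟨?_, by positivity, fun x => ?_⟩
    · have hbz : Bdd (fun x => (zfin x : ℂ)) := Bdd.of_norm_one (fun x => Circle.norm_coe _)
      have h1 : ((udiag e zfin : unitary (Bd H)) : Bd H) =
          1 + diag e (fun x => (zfin x : ℂ) - 1) := by
        show diag e (fun x => (zfin x : ℂ)) = _
        rw [← diag_sub e hbz (Bdd.const 1), diag_one]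
        abel
      rw [h1]
      refine add_mem (one_mem_AT e T) (kp_mem e T (finRk_diag e ?_).isKp)
      refine (finite_level j).subset (fun x hx => ?_)
      rw [Function.mem_support] at hx
      by_contra hc
      apply hx
      have hc' : ¬ x.i ≤ j := hc
      have : zfin x = 1 := if_neg hc'
      rw [this, Circle.coe_one, sub_self]
    · show ‖((if (shift x).i ≤ j then zf T j g (shift x) else 1 : Circle) : ℂ) -
        ((if x.i ≤ j then zf T j g x else 1 : Circle) : ℂ)‖ ≤ _
      rw [shift_i]
      split_ifs with hx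
      · exact (hzf j g).2.2 x
      · rw [sub_self, norm_zero]
        positivity
  have hFz : F (zf T j g) = F zfin + ∑ b ∈ Lset j, cnt T j g b * F (zf T (j + 1) b) := by
    conv_lhs => rw [hid]
    rw [F_mul hF1 hzfinQ hprodQ.1 (by linarith), hprodQ.2]
    congr 1
    exact Finset.sum_congr rfl (fun b hb => (hub b hb).2)
  -- the winding of the finite part
  have hwind : F zfin = if g = .l 0 then 1 else 0 := by
    obtain ⟨θ, hθ1, hθ2, hθ3, hθ4⟩ := exists_theta T j g
    have h1 := hF2 zfin (hzfinQ.mono (by
        rw [div_le_div_iff₀ hQj (by norm_num)]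
        nlinarith)) (finite_level j).toFinset (fun x => by
        rw [Set.Finite.mem_toFinset, Set.Finite.mem_toFinset]
        show (shift x).i ≤ j ↔ x.i ≤ j
        rw [shift_i]) (fun x hx => by
        rw [Set.Finite.mem_toFinset] at hx
        exact if_neg hx) θ hθ1 (fun x => by
        show ((if (shift x).i ≤ j then zf T j g (shift x) else 1 : Circle) : ℂ) =
          ((if x.i ≤ j then zf T j g x else 1 : Circle) : ℂ) * _
        rw [shift_i]
        split_ifs with hx
        · exact hθ3 x hx
        · rw [hθ2 x (by omega)]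
          simp)
    rw [hθ4, mul_div_cancel_left₀ _ (by positivity)] at h1
    split_ifs with hg
    · rw [if_pos hg] at h1
      exact_mod_cast h1
    · rw [if_neg hg] at h1
      exact_mod_cast h1
  show F (zf T j g) = _
  rw [hFz, hwind]

end Pool.Agent.Ped8316
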