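import Mathlib
import Pool.Agent.Lib.Ped8316.NegDir

/-!
# The set of `γ` with `C*(γ)` approximately subhomogeneous is not Borel
-/

set_option autoImplicit false
set_option linter.unusedSectionVars false

open Topology Filter Set MeasureTheory
open scoped InnerProductSpace ComplexConjugate Uniformity

namespace Pool.Agent.Ped8316

variable {H : Type} [NormedAddCommGroup H] [InnerProductSpace ℂ H] [CompleteSpace H]

/-! ### a Hilbert basis indexed by the positions -/

lemma exists_basis [TopologicalSpace.SeparableSpace H] (hinf : ¬ FiniteDimensional ℂ H) :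
    Nonempty (HilbertBasis Pos ℂ H) := by
  classical
  obtain ⟨w, b, hb⟩ := exists_hilbertBasis ℂ H
  have hort := b.orthonormal
  have hcount : Countable w := by
    have h1 : Set.PairwiseDisjoint (Set.univ : Set w) (fun x => Metric.ball (b x) (1 / 2)) := by
      intro x _ y _ hxy
      rw [Function.onFun, Set.disjoint_left]
      intro z hz1 hz2
      have h2 : dist (b x) (b y) < 1 := by
        have h3 := dist_triangle_left (b x) (b y) z
        rw [Metric.mem_ball] at hz1 hz2
        linarith
      have h3 : ‖b x - b y‖ ^ 2 = 2 := by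
        have h4 := @norm_sub_sq ℂ H _ _ _ (b x) (b y)
        rw [hort.1 x, hort.1 y, hort.2 hxy] at h4
        rw [h4]
        norm_num
      rw [dist_eq_norm] at h2
      nlinarith [norm_nonneg (b x - b y)]
    have h2 := h1.countable_of_isOpen (fun x _ => Metric.isOpen_ball)
      (fun x _ => ⟨b x, Metric.mem_ball_self (by norm_num)⟩)
    exact Set.countable_univ_iff.1 h2
  have hinfw : Infinite w := by
    rw [← not_finite_iff_infinite]
    intro hfin
    have : Fintype w := Fintype.ofFinite w
    apply hinf
    exact Module.Basis.finiteDimensional_of_finite b.toOrthonormalBasis.toBasis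
  obtain ⟨f⟩ : Nonempty (Pos ≃ w) := nonempty_equiv_of_countable
  refine ⟨HilbertBasis.mk (v := fun x => b (f x)) (hort.comp f f.injective) ?_⟩
  have h1 : Set.range (fun x => b (f x)) = Set.range b := by
    ext v
    constructor
    · rintro ⟨x, rfl⟩; exact ⟨f x, rfl⟩
    · rintro ⟨x, rfl⟩; exact ⟨f.symm x, by simp⟩
  rw [h1, b.dense_span]

/-! ### the family of sequences -/

/-- index type of the generators -/
abbrev GenIdx : Type := Unit ⊕ (Pos × Pos) ⊕ (ℕ × Ltr)

instance : Countable Ltr := by
  have : Function.Injective (fun g : Ltr => match g with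
    | .c r => ((0 : ℕ), r)
    | .l r => ((1 : ℕ), r)) := by
    intro g g' h
    cases g <;> cases g' <;> simp_all
  exact this.countable

/-- the generators -/
noncomputable def genOp (e : HilbertBasis Pos ℂ H) (T : ℕ → Bool) : GenIdx → Bd H
  | .inl _ => perm e shift
  | .inr (.inl p) => mu e p.1 p.2
  | .inr (.inr p) => ((udiag e (zf T p.1 p.2) : unitary (Bd H)) : Bd H)

lemma norm_unitary_le (U : unitary (Bd H)) : ‖(U : Bd H)‖ ≤ 1 := by
  refine ContinuousLinearMap.opNorm_le_bound _ zero_le_one (fun x => ?_)
  rw [norm_unitary_apply, one_mul]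

lemma norm_genOp (e : HilbertBasis Pos ℂ H) (T : ℕ → Bool) (i : GenIdx) :
    ‖genOp e T i‖ ≤ 1 := by
  rcases i with i | i | i
  · exact norm_unitary_le (uperm e shift)
  · exact norm_mu e _ _
  · exact norm_unitary_le _

lemma range_genOp (e : HilbertBasis Pos ℂ H) (T : ℕ → Bool) :
    Set.range (genOp e T) = gens e T := by
  ext a
  constructor
  · rintro ⟨i | i | i, rfl⟩
    · exact Or.inl (Or.inl rfl)
    · exact Or.inl (Or.inr ⟨i, rfl⟩)
    · exact Or.inr ⟨i, rfl⟩
  · rintro ((h | ⟨p, rfl⟩) | ⟨p, rfl⟩)
    · exact ⟨.inl (), h.symm⟩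
    · exact ⟨.inr (.inl p), rfl⟩
    · exact ⟨.inr (.inr p), rfl⟩

/-- the sequence attached to the tree -/
noncomputable def gam (e : HilbertBasis Pos ℂ H) (enum : ℕ → GenIdx) (T : ℕ → Bool) : Gam H :=
  fun n => ⟨.ofCLM (genOp e T (enum n)), norm_genOp e T (enum n)⟩

lemma CStar_gam (e : HilbertBasis Pos ℂ H) {enum : ℕ → GenIdx}
    (henum : Function.Surjective enum) (T : ℕ → Bool) : CStar (gam e enum T) = AT e T := by
  have h1 : Set.range (fun n => (gam e enum T n).1.toCLM) = gens e T := by
    rw [← range_genOp, ← henum.range_comp]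
    rfl
  unfold CStar AT
  rw [h1]

lemma isASH_congr {A A' : NonUnitalStarSubalgebra ℂ (Bd H)} (h : A = A')
    [hA : IsClosed (A : Set (Bd H))] [hA' : IsClosed (A' : Set (Bd H))] :
    IsASH A ↔ IsASH A' := by
  subst h
  rfl

lemma isASH_gam (e : HilbertBasis Pos ℂ H) {enum : ℕ → GenIdx}
    (henum : Function.Surjective enum) (T : ℕ → Bool) :
    gam e enum T ∈ ashSet H ↔ IllFounded T := by
  have h1 : gam e enum T ∈ ashSet H ↔ IsASH (AT e T) := isASH_congr (CStar_gam e henum T)
  rw [h1]
  exact ⟨illFounded_of_isASH e, isASH_of_illFounded e⟩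

/-! ### continuity -/

lemma continuous_lab (j : ℕ) (g : Ltr) (x : Pos) :
    Continuous (fun T : ℕ → Bool => lab T j g x) := by
  let res : (ℕ → Bool) → (Fin (x.i + 1) → Bool) := fun T k => T k
  let ext : (Fin (x.i + 1) → Bool) → (ℕ → Bool) := fun s n =>
    if h : n < x.i + 1 then s ⟨n, h⟩ else false
  have hres : Continuous res := continuous_pi (fun k => continuous_apply _)
  have h1 : (fun T : ℕ → Bool => lab T j g x) = (fun s => lab (ext s) j g x) ∘ res := by
    funext T
    refine lab_congr (fun r hr => ?_)
    show T r = if h : r < x.i + 1 then T r else false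
    rw [dif_pos (Nat.lt_succ_of_le hr)]
  rw [h1]
  exact continuous_of_discreteTopology.comp hres

lemma continuous_diag (e : HilbertBasis Pos ℂ H) {X : Type*} [TopologicalSpace X]
    (ψ : X → Pos → ℂ) (hψ : ∀ t x, ‖ψ t x‖ ≤ 1) (hc : ∀ x, Continuous (fun t => ψ t x)) (v : H) :
    Continuous (fun t => diag e (ψ t) v) := by
  have hn : ∀ t, ‖diag e (ψ t)‖ ≤ 1 := fun t => norm_diag_le e zero_le_one (hψ t)
  have hb : ∀ t, Bdd (ψ t) := fun t => ⟨1, hψ t⟩
  let M : Submodule ℂ H :=
    { carrier := {v | Continuous (fun t => diag e (ψ t) v)}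
      add_mem' := fun {a b} ha hb => by
        show Continuous (fun t => diag e (ψ t) (a + b))
        simp only [map_add]
        exact Continuous.add ha hb
      zero_mem' := by
        show Continuous (fun t => diag e (ψ t) 0)
        simp only [map_zero]
        exact continuous_const
      smul_mem' := fun c a ha => by
        show Continuous (fun t => diag e (ψ t) (c • a))
        simp only [map_smul]
        exact continuous_const.smul ha }
  have hM : IsClosed (M : Set H) := by
    refine isClosed_of_closure_subset (fun v hv => ?_)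
    show Continuous (fun t => diag e (ψ t) v)
    refine continuous_of_uniform_approx_of_continuous (fun u hu => ?_)
    obtain ⟨ε, hε, hεu⟩ := Metric.mem_uniformity_dist.1 hu
    obtain ⟨w, hw, hvw⟩ := Metric.mem_closure_iff.1 hv ε hε
    refine ⟨fun t => diag e (ψ t) w, hw, fun t => hεu ?_⟩
    rw [dist_eq_norm, ← map_sub]
    refine ((diag e (ψ t)).le_opNorm _).trans_lt ?_
    rw [dist_eq_norm] at hvw
    calc ‖diag e (ψ t)‖ * ‖v - w‖ ≤ 1 * ‖v - w‖ := by gcongr; exact hn t
      _ < ε := by rwa [one_mul]
  have h1 : (Submodule.span ℂ (Set.range e)).topologicalClosure ≤ M := by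
    refine Submodule.topologicalClosure_minimal _ (Submodule.span_le.2 ?_) hM
    rintro _ ⟨x, rfl⟩
    show Continuous (fun t => diag e (ψ t) (e x))
    have h2 : (fun t => diag e (ψ t) (e x)) = fun t => ψ t x • e x :=
      funext (fun t => diag_basis e (hb t) x)
    rw [h2]
    exact (hc x).smul continuous_const
  rw [e.dense_span] at h1
  exact h1 trivial

lemma continuous_gam (e : HilbertBasis Pos ℂ H) (enum : ℕ → GenIdx) :
    Continuous (gam e enum) := by
  refine continuous_pi (fun n => ?_)
  refine continuous_induced_rng.2 ?_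
  refine ContinuousLinearMapWOT.continuous_of_dual_apply_continuous (fun v y => ?_)
  show Continuous (fun T => y (genOp e T (enum n) v))
  refine y.continuous.comp ?_
  rcases enum n with i | i | i
  · exact continuous_const
  · exact continuous_const
  · exact continuous_diag e (fun T x => (zf T i.1 i.2 x : ℂ)) (fun T x => (Circle.norm_coe _).le)
      (fun x => continuous_subtype_val.comp
        (AddCircle.continuous_toCircle.comp (continuous_lab i.1 i.2 x))) v

/-- The main theorem: the set of all `γ ∈ Γ(H)` such that `C*(γ)` is ASH is not Borel. -/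
theorem not_measurableSet_ashSet (H : Type) [NormedAddCommGroup H] [InnerProductSpace ℂ H]
    [CompleteSpace H] [TopologicalSpace.SeparableSpace H] (hinf : ¬ FiniteDimensional ℂ H) :
    ¬ MeasurableSet[borel (Gam H)] (ashSet H) := by
  intro hmeas
  obtain ⟨e⟩ := exists_basis hinf
  obtain ⟨enum, henum⟩ := exists_surjective_nat GenIdx
  apply not_measurableSet_illFounded
  have h1 : {T : ℕ → Bool | IllFounded T} = gam e enum ⁻¹' (ashSet H) := by
    ext T
    exact (isASH_gam e henum T).symm
  rw [h1]
  let : MeasurableSpace (Gam H) := borel (Gam H)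
  have : BorelSpace (Gam H) := ⟨rfl⟩
  exact (continuous_gam e enum).measurable hmeas

end Pool.Agent.Ped8316
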